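import Pool.Agent.K3S.TargetsA

/-!
# MP_98be90_ag, part A, target ADJ: change `b` modulo `m`
-/

set_option autoImplicit false

namespace K3S

open Matrix

namespace ADJ_

theorem big (u v B : ℤ) (hv : v ≠ 0) (hB : 0 ≤ B) : ∃ n : ℤ, B < (u + v * n) ^ 2 := by
  refine ⟨v * (|u| + B + 1), ?_⟩
  have h1 : 1 ≤ v ^ 2 := by
    have : 0 < v ^ 2 := by positivity
    omega
  have h2 : 0 ≤ |u| := abs_nonneg u
  have h3 : -|u| ≤ u := neg_abs_le u
  have h4 : |u| + B + 1 ≤ v * (v * (|u| + B + 1)) := by nlinarith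
  have h5 : B + 1 ≤ u + v * (v * (|u| + B + 1)) := by linarith
  nlinarith

theorem norm_add (D : ℤ) (z w : AA D) (l : ℤ) :
    l ∣ (z + (l : AA D) * w).norm - z.norm := by
  refine ⟨2 * z.re * w.re + l * w.re * w.re - 2 * D * z.im * w.im - D * l * w.im * w.im, ?_⟩
  simp only [Zsqrtd.norm_def, Zsqrtd.re_add, Zsqrtd.im_add, Zsqrtd.re_mul, Zsqrtd.im_mul,
    Zsqrtd.re_intCast, Zsqrtd.im_intCast]
  ring

/-- the start: `b + t m` of norm prime to `l` -/
theorem start (D : ℤ) (m : ℤ) (b : AA D) (l : ℕ) (hb : IsCoprime (m : AA D) b)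
    (hl : l.Prime) : ∃ t : AA D, ¬ (l : ℤ) ∣ (b + t * (m : AA D)).norm := by
  have hp : Prime (l : ℤ) := Nat.prime_iff_prime_int.mp hl
  by_cases h : (l : ℤ) ∣ m
  · refine ⟨0, fun hd => ?_⟩
    rw [zero_mul, add_zero] at hd
    obtain ⟨u, v, huv⟩ := hb
    have e1 : v * b = 1 + (m : AA D) * (-u) := by
      rw [← huv]; ring
    have e2 := norm_add D 1 (-u) m
    rw [← e1, Zsqrtd.norm_mul, Zsqrtd.norm_one] at e2
    have e3 : (l : ℤ) ∣ v.norm * b.norm - 1 := h.trans e2
    have e4 : (l : ℤ) ∣ 1 := by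
      have := dvd_sub (Dvd.dvd.mul_left hd v.norm) e3
      simpa using this
    exact hp.not_isUnit (isUnit_of_dvd_one e4)
  · have hc : IsCoprime (l : ℤ) m := (Prime.coprime_iff_not_dvd hp).mpr h
    obtain ⟨c, k, hk⟩ := hc
    refine ⟨(k : AA D) * (1 - b), fun hd => ?_⟩
    have e0 : (c : AA D) * (l : AA D) + (k : AA D) * (m : AA D) = 1 := by
      have := congrArg (fun z : ℤ => (z : AA D)) hk
      push_cast at this
      exact this
    have e1 : b + (k : AA D) * (1 - b) * (m : AA D) =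
        1 + ((l : ℤ) : AA D) * (-(c : AA D) * (1 - b)) := by
      push_cast
      linear_combination (1 - b) * e0
    rw [e1] at hd
    have e2 := norm_add D 1 (-(c : AA D) * (1 - b)) (l : ℤ)
    rw [Zsqrtd.norm_one] at e2
    have e4 : (l : ℤ) ∣ 1 := by
      have := dvd_sub hd e2
      simpa using this
    exact hp.not_isUnit (isUnit_of_dvd_one e4)

end ADJ_

open ADJ_

theorem p_ADJ : T_ADJ := by
  intro D hD m b l s hm hb hl hs
  obtain ⟨t₀, ht₀⟩ := start D m b l hb hl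
  set z : AA D := b + t₀ * (m : AA D) with hz
  have hD1 : 1 ≤ D := hD.pos
  have hl0 : (l : ℤ) ≠ 0 := by exact_mod_cast hl.ne_zero
  have hlm : (l : ℤ) * m ≠ 0 := mul_ne_zero hl0 hm
  rcases hs with rfl | rfl
  · obtain ⟨n, hn⟩ := big z.re (l * m) (D * z.im * z.im) hlm (by nlinarith [mul_self_nonneg z.im])
    refine ⟨t₀ + ((l : ℤ) : AA D) * (n : AA D), ?_, ?_⟩
    · intro hd
      have e : b + (t₀ + ((l : ℤ) : AA D) * (n : AA D)) * (m : AA D) =
          z + ((l : ℤ) : AA D) * ((n : AA D) * (m : AA D)) := by rw [hz]; ring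
      rw [e] at hd
      have := dvd_sub hd (norm_add D z ((n : AA D) * (m : AA D)) (l : ℤ))
      rw [sub_sub_cancel] at this
      exact ht₀ this
    · have e : b + (t₀ + ((l : ℤ) : AA D) * (n : AA D)) * (m : AA D) =
          z + (((l : ℤ) * m * n : ℤ) : AA D) := by rw [hz]; push_cast; ring
      rw [e, one_mul, Zsqrtd.norm_def]
      simp only [Zsqrtd.re_add, Zsqrtd.im_add, Zsqrtd.re_intCast, Zsqrtd.im_intCast, add_zero]
      nlinarith
  · obtain ⟨n, hn⟩ := big z.im (l * m) (z.re * z.re) hlm (mul_self_nonneg _)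
    refine ⟨t₀ + ((l : ℤ) : AA D) * (⟨0, n⟩ : AA D), ?_, ?_⟩
    · intro hd
      have e : b + (t₀ + ((l : ℤ) : AA D) * (⟨0, n⟩ : AA D)) * (m : AA D) =
          z + ((l : ℤ) : AA D) * ((⟨0, n⟩ : AA D) * (m : AA D)) := by rw [hz]; ring
      rw [e] at hd
      have := dvd_sub hd (norm_add D z ((⟨0, n⟩ : AA D) * (m : AA D)) (l : ℤ))
      rw [sub_sub_cancel] at this
      exact ht₀ this
    · have e : b + (t₀ + ((l : ℤ) : AA D) * (⟨0, n⟩ : AA D)) * (m : AA D) =
          z + (⟨0, (l : ℤ) * m * n⟩ : AA D) := by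
        rw [hz, add_mul, ← add_assoc]
        congr 1
        ext
        · simp
        · simp; ring
      rw [e, Zsqrtd.norm_def]
      simp only [Zsqrtd.re_add, Zsqrtd.im_add, add_zero]
      have h1 : z.re * z.re < D * (z.im + l * m * n) ^ 2 := by
        have : 0 ≤ (z.im + l * m * n) ^ 2 := sq_nonneg _
        nlinarith
      nlinarith

end K3S
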