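import Pool.Agent.K3S.TargetsC

/-! # BWD: the elements of `KL` are `Good` and preserve the orientation (helper2) -/

set_option autoImplicit false
set_option linter.unusedSectionVars false

namespace K3S

open Matrix

namespace BWD_

section

variable {Λ : Type} [AddCommGroup Λ]

/-- `al ≠ 0` -/
theorem al_ne {D al be ga : ℤ} [h : NS D] (hD : D = be ^ 2 - 4 * al * ga) : al ≠ 0 := by
  rintro rfl
  exact h.nsq ⟨be, by rw [hD]; ring⟩

/-- a vector orthogonal to `T` is in `M` -/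
theorem inM_of_perp {B : LinearMap.BilinForm ℤ Λ} {e f F G x₀ y₀ : Λ} {al be ga : ℤ}
    (S : Sit B e f F G x₀ y₀ al be ga) {z : Λ}
    (hz : ∀ t, B e t = 0 ∧ B f t = 0 ∧ B F t = 0 ∧ B G t = 0 → B z t = 0) :
    InM B e f F G x₀ y₀ z := by
  have hz0 : z - ((-B f z) • e + (B x₀ z) • F + (B y₀ z) • G + (-B e z) • f) = 0 := by
    apply S.nondeg
    intro v
    have ht := hz (v - ((-B f v) • e + (-B e v) • f + (B F v) • x₀ + (B G v) • y₀)) (by
      have hfe : B f e = -1 := by rw [S.symm, S.ef]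
      have hFe : B F e = 0 := by rw [S.symm, S.eF]
      have hGe : B G e = 0 := by rw [S.symm, S.eG]
      have hFf : B F f = 0 := by rw [S.symm, S.fF]
      have hGf : B G f = 0 := by rw [S.symm, S.fG]
      refine ⟨?_, ?_, ?_, ?_⟩
      · simp only [map_sub, map_add, map_smul, smul_eq_mul, S.ee, S.ef, S.ex, S.ey]; ring
      · simp only [map_sub, map_add, map_smul, smul_eq_mul, hfe, S.ff, S.fx, S.fy]; ring
      · simp only [map_sub, map_add, map_smul, smul_eq_mul, hFe, hFf, S.Fx, S.Fy]; ring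
      · simp only [map_sub, map_add, map_smul, smul_eq_mul, hGe, hGf, S.Gx, S.Gy]; ring)
    simp only [map_sub, map_add, map_smul, smul_eq_mul] at ht
    simp only [map_sub, map_add, map_smul, smul_eq_mul, LinearMap.sub_apply,
      LinearMap.add_apply, LinearMap.smul_apply]
    rw [S.symm z e, S.symm z f, S.symm z x₀, S.symm z y₀] at ht
    linear_combination ht
  rw [InM]
  exact sub_eq_zero.mp hz0

/-- a vector of `M` is orthogonal to `T` -/
theorem perp_of_inM {B : LinearMap.BilinForm ℤ Λ} {e f F G x₀ y₀ : Λ} {v : Λ}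
    (hv : InM B e f F G x₀ y₀ v) {t : Λ}
    (ht : B e t = 0 ∧ B f t = 0 ∧ B F t = 0 ∧ B G t = 0) : B v t = 0 := by
  obtain ⟨h1, h2, h3, h4⟩ := ht
  rw [InM] at hv
  rw [hv]
  simp only [map_add, map_smul, smul_eq_mul, LinearMap.add_apply, LinearMap.smul_apply, h1, h2,
    h3, h4]
  ring

theorem good_one {B : LinearMap.BilinForm ℤ Λ} {e f F G : Λ} :
    Good B e f F G (1 : Λ ≃ₗ[ℤ] Λ) := ⟨fun _ _ ↦ rfl, fun _ _ ↦ rfl⟩

theorem good_mul {B : LinearMap.BilinForm ℤ Λ} {e f F G : Λ} {g k : Λ ≃ₗ[ℤ] Λ}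
    (hg : Good B e f F G g) (hk : Good B e f F G k) : Good B e f F G (g * k) := by
  refine ⟨fun x y ↦ ?_, fun t ht ↦ ?_⟩
  · rw [LinearEquiv.mul_apply, LinearEquiv.mul_apply, hg.1, hk.1]
  · rw [LinearEquiv.mul_apply, hk.2 t ht, hg.2 t ht]

theorem apply_inv (g : Λ ≃ₗ[ℤ] Λ) (x : Λ) : g (g⁻¹ x) = x := by
  rw [← LinearEquiv.mul_apply, mul_inv_cancel]; rfl

theorem inv_apply (g : Λ ≃ₗ[ℤ] Λ) (x : Λ) : g⁻¹ (g x) = x := by
  rw [← LinearEquiv.mul_apply, inv_mul_cancel]; rfl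

theorem good_inv {B : LinearMap.BilinForm ℤ Λ} {e f F G : Λ} {g : Λ ≃ₗ[ℤ] Λ}
    (hg : Good B e f F G g) : Good B e f F G g⁻¹ := by
  refine ⟨fun x y ↦ ?_, fun t ht ↦ ?_⟩
  · rw [← hg.1, apply_inv, apply_inv]
  · have h := inv_apply g t
    rw [hg.2 t ht] at h
    exact h

/-- a `Good` isometry maps `M` to `M` -/
theorem good_inM {B : LinearMap.BilinForm ℤ Λ} {e f F G x₀ y₀ : Λ} {al be ga : ℤ}
    (S : Sit B e f F G x₀ y₀ al be ga) {g : Λ ≃ₗ[ℤ] Λ} (hg : Good B e f F G g) {v : Λ}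
    (hv : InM B e f F G x₀ y₀ v) : InM B e f F G x₀ y₀ (g v) := by
  apply inM_of_perp S
  intro t ht
  have h1 : B (g v) t = B (g v) (g t) := by rw [hg.2 t ht]
  rw [h1, hg.1]
  exact perp_of_inM hv ht

end

end BWD_

open BWD_ in
/-- BWD: the elements of `KL` are `Good` and preserve the orientation -/
theorem p_BWD (hGEN : T_GEN) (hPGR : T_PGR) (hORF : T_ORF) : T_BWD := by
  intro D _ al be ga hD Λ _ B e f F G x₀ y₀ S h hh hpos g hg
  obtain ⟨hmul, hinv, hone, -, -⟩ := hPGR D al (al_ne hD)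
  have key : ∃ φ : VV D →ₗ[ℚ] VV D, Pos al φ ∧ Re D al be B e f F G x₀ y₀ g φ := by
    rw [KL] at hg
    induction hg using Subgroup.closure_induction with
    | mem k hk => exact hGEN D al be ga hD Λ B e f F G x₀ y₀ S k hk
    | one => exact ⟨LinearMap.id, hone, good_one, fun v hv ↦ ⟨hv, rfl⟩⟩
    | mul k l _ _ hk hl =>
      obtain ⟨φ, hφ, h1, h2⟩ := hk
      obtain ⟨ψ, hψ, k1, k2⟩ := hl
      refine ⟨φ.comp ψ, hmul φ ψ hφ hψ, good_mul h1 k1, fun v hv ↦ ?_⟩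
      obtain ⟨m1, m2⟩ := k2 v hv
      obtain ⟨n1, n2⟩ := h2 (l v) m1
      refine ⟨n1, ?_⟩
      rw [LinearEquiv.mul_apply, n2, m2]
      rfl
    | inv k _ hk =>
      obtain ⟨φ, hφ, h1, h2⟩ := hk
      obtain ⟨ψ, hψ, h3, -⟩ := hinv φ hφ
      refine ⟨ψ, hψ, good_inv h1, fun v hv ↦ ?_⟩
      have hm := good_inM S (good_inv h1) hv
      refine ⟨hm, ?_⟩
      obtain ⟨-, n2⟩ := h2 _ hm
      rw [apply_inv] at n2
      rw [n2]
      have h4 := congrArg (fun χ : VV D →ₗ[ℚ] VV D ↦ χ (crd D al be B e f x₀ y₀ (k⁻¹ v))) h3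
      exact h4.symm
  obtain ⟨φ, ⟨a, b, c, d, ρ, hρ, hdet, hφ⟩, hRe⟩ := key
  exact ⟨hRe.1, (hORF D al be ga hD Λ B e f F G x₀ y₀ S h hh hpos g φ a b c d ρ hρ.ne' hdet hφ
    hRe).2 hρ⟩

end K3S
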