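import Pool.Agent.K3S.TargetsB

/-!
# MP_98be90_ag, part B, target CDI: diagonal modulo `Q`
-/

set_option autoImplicit false

namespace K3S

open Matrix

namespace CDI_

variable {D : ℤ}

/-- an element of the order, integer coordinates -/
def O1 (be : ℤ) (z : KK D) : Prop := ∃ u v : ℤ, z = ⟨u + v * be / 2, v / 2⟩

/-- an element of the module, integer coordinates -/
def N1 (al be : ℤ) (z : KK D) : Prop := ∃ x y : ℤ, z = io D al be x y

theorem OO_iff {be : ℤ} {z : KK D} : OO Zr be z ↔ O1 be z := by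
  constructor
  · rintro ⟨u, hu, v, hv, h⟩
    obtain ⟨m, rfl⟩ := mem_Zr.mp hu
    obtain ⟨n, rfl⟩ := mem_Zr.mp hv
    exact ⟨m, n, h⟩
  · rintro ⟨u, v, h⟩
    exact ⟨u, mem_Zr.mpr ⟨u, rfl⟩, v, mem_Zr.mpr ⟨v, rfl⟩, h⟩

theorem NN_iff {al be : ℤ} {z : KK D} : NN Zr al be z ↔ N1 al be z := by
  constructor
  · rintro ⟨u, hu, v, hv, h⟩
    obtain ⟨m, rfl⟩ := mem_Zr.mp hu
    obtain ⟨n, rfl⟩ := mem_Zr.mp hv
    exact ⟨m, n, h⟩
  · rintro ⟨u, v, h⟩
    exact ⟨u, mem_Zr.mpr ⟨u, rfl⟩, v, mem_Zr.mpr ⟨v, rfl⟩, h⟩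

theorem O1.mul {al be ga : ℤ} (hD : (D : ℚ) = be ^ 2 - 4 * al * ga) {z w : KK D}
    (hz : O1 be z) (hw : O1 be w) : O1 be (z * w) := by
  obtain ⟨u, v, rfl⟩ := hz
  obtain ⟨u', v', rfl⟩ := hw
  refine ⟨u * u' - al * ga * v * v', u * v' + u' * v + be * v * v', ?_⟩
  apply QuadraticAlgebra.ext
  · simp only [QuadraticAlgebra.re_mul]
    push_cast
    linear_combination (v * v' / 4 : ℚ) * hD
  · simp only [QuadraticAlgebra.im_mul]
    push_cast
    ring

theorem O1.star {be : ℤ} {z : KK D} (hz : O1 be z) : O1 be (star z) := by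
  obtain ⟨u, v, rfl⟩ := hz
  refine ⟨u + v * be, -v, ?_⟩
  apply QuadraticAlgebra.ext
  · simp only [QuadraticAlgebra.re_star]
    push_cast
    ring
  · simp only [QuadraticAlgebra.im_star]
    push_cast
    ring

theorem O1.sub {be : ℤ} {z w : KK D} (hz : O1 be z) (hw : O1 be w) : O1 be (z - w) := by
  obtain ⟨u, v, rfl⟩ := hz
  obtain ⟨u', v', rfl⟩ := hw
  refine ⟨u - u', v - v', ?_⟩
  apply QuadraticAlgebra.ext
  · simp only [QuadraticAlgebra.re_sub]
    push_cast
    ring
  · simp only [QuadraticAlgebra.im_sub]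
    push_cast
    ring

theorem O1.int (be n : ℤ) : O1 be ((n : ℤ) : KK D) := by
  refine ⟨n, 0, ?_⟩
  apply QuadraticAlgebra.ext
  · simp
  · simp

theorem N1.mul {al be ga : ℤ} (hD : (D : ℚ) = be ^ 2 - 4 * al * ga) {z w : KK D}
    (hz : O1 be z) (hw : N1 al be w) : N1 al be (z * w) := by
  obtain ⟨u, v, rfl⟩ := hz
  obtain ⟨x, y, rfl⟩ := hw
  refine ⟨u * x - ga * v * y, u * y + al * v * x + be * v * y, ?_⟩
  apply QuadraticAlgebra.ext
  · simp only [QuadraticAlgebra.re_mul, io]
    push_cast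
    linear_combination (v * y / 4 : ℚ) * hD
  · simp only [QuadraticAlgebra.im_mul, io]
    push_cast
    ring

/-- the product of an element of the module and a conjugate -/
theorem prod {al be ga : ℤ} (hD : (D : ℚ) = be ^ 2 - 4 * al * ga) {z c : KK D}
    (hz : N1 al be z) (hc : N1 al be (Star.star c)) :
    ∃ w : KK D, O1 be w ∧ z * c = (al : KK D) * w := by
  obtain ⟨x, y, rfl⟩ := hz
  obtain ⟨x', y', h⟩ := hc
  have hc' : c = Star.star (io D al be x' y') := by rw [← h, star_star]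
  subst hc'
  refine ⟨_, ⟨al * x * x' + be * x * y' + ga * y * y', x' * y - x * y', rfl⟩, ?_⟩
  apply QuadraticAlgebra.ext
  · simp only [QuadraticAlgebra.re_mul, QuadraticAlgebra.re_star, QuadraticAlgebra.im_star, io,
      QuadraticAlgebra.re_intCast, QuadraticAlgebra.im_intCast]
    push_cast
    linear_combination (-(y * y') / 4 : ℚ) * hD
  · simp only [QuadraticAlgebra.im_mul, QuadraticAlgebra.re_star, QuadraticAlgebra.im_star, io,
      QuadraticAlgebra.re_intCast, QuadraticAlgebra.im_intCast]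
    push_cast
    ring

theorem cancel {al : ℤ} (hal : al ≠ 0) {z w : KK D} (h : (al : KK D) * z = (al : KK D) * w) :
    z = w := by
  have hq : (al : ℚ) ≠ 0 := by exact_mod_cast hal
  have h1 := congrArg QuadraticAlgebra.re h
  have h2 := congrArg QuadraticAlgebra.im h
  simp only [QuadraticAlgebra.re_mul, QuadraticAlgebra.im_mul, QuadraticAlgebra.re_intCast,
    QuadraticAlgebra.im_intCast, zero_mul, mul_zero, add_zero] at h1 h2
  exact QuadraticAlgebra.ext (mul_left_cancel₀ hq h1) (mul_left_cancel₀ hq h2)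

theorem io_mul (al be : ℤ) (Q k x y : ℤ) :
    ((Q * k : ℤ) : KK D) * io D al be x y = io D al be (Q * ((k * x : ℤ) : ℚ))
      (Q * ((k * y : ℤ) : ℚ)) := by
  apply QuadraticAlgebra.ext
  · simp only [QuadraticAlgebra.re_mul, io, QuadraticAlgebra.re_intCast,
      QuadraticAlgebra.im_intCast]
    push_cast
    ring
  · simp only [QuadraticAlgebra.im_mul, io, QuadraticAlgebra.re_intCast,
      QuadraticAlgebra.im_intCast]
    push_cast
    ring

theorem norm_mul (z : KK D) (s : ℤ) (h : z.norm = s) : z * Star.star z = ((s : ℤ) : KK D) := by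
  rw [QuadraticAlgebra.norm_def] at h
  apply QuadraticAlgebra.ext
  · simp only [QuadraticAlgebra.re_mul, QuadraticAlgebra.re_star, QuadraticAlgebra.im_star,
      QuadraticAlgebra.re_intCast]
    linear_combination h
  · simp only [QuadraticAlgebra.im_mul, QuadraticAlgebra.re_star, QuadraticAlgebra.im_star,
      QuadraticAlgebra.im_intCast]
    ring

theorem star_int (n : ℤ) : Star.star ((n : ℤ) : KK D) = ((n : ℤ) : KK D) := by
  apply QuadraticAlgebra.ext
  · simp
  · simp

end CDI_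

open CDI_

theorem p_CDI : T_CDI := by
  intro D hNS al be ga hD Q _ h hR hs
  obtain ⟨s, hs, s', k, hk⟩ := hs
  obtain ⟨ha, hd, hb, hc⟩ := hR
  have hal : al ≠ 0 := by
    rintro rfl
    exact hNS.nsq ⟨be, by rw [hD]; ring⟩
  have hDq : (D : ℚ) = be ^ 2 - 4 * al * ga := by
    have := congrArg (fun z : ℤ => (z : ℚ)) hD
    push_cast at this
    exact this
  rw [OO_iff] at ha hd
  rw [NN_iff] at hb hc
  set a := pa h with ha'
  set b := pb h with hb'
  set c := pc h with hc'
  set d := pd h with hd'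
  have hdet : a * d - b * c = 1 := gg_det h
  have hn : d * star d = ((s : ℤ) : KK D) := norm_mul d s hs
  have hk' : ((s' : ℤ) : KK D) * ((s : ℤ) : KK D) + ((k : ℤ) : KK D) * ((Q : ℤ) : KK D) = 1 := by
    have := congrArg (fun z : ℤ => (z : KK D)) hk
    push_cast at this
    exact this
  -- `b c` is in the order
  obtain ⟨w, hw, hbc'⟩ := prod hDq hb hc
  have hbc : b * c = w := by
    refine cancel hal ?_
    rw [← hbc']; ring
  obtain ⟨B, hB⟩ : ∃ B : KK D, B = b * star d * ((s' : ℤ) : KK D) := ⟨_, rfl⟩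
  obtain ⟨C, hC⟩ : ∃ C : KK D, C = c * d := ⟨_, rfl⟩
  obtain ⟨g, hg⟩ : ∃ g : GG D, g = E21 (-C) * E12 (-B) * h := ⟨_, rfl⟩
  have g00 : pa g = a - B * c := by
    rw [hg]
    simp only [mul_00, mul_01, E12, E21, mk4_00, mk4_01, mk4_10, mk4_11, ← ha',
      ← hc']
    ring
  have g01 : pb g = b - B * d := by
    rw [hg]
    simp only [mul_00, mul_01, E12, E21, mk4_00, mk4_01, mk4_10, mk4_11, ← hb',
      ← hd']
    ring
  have g10 : pc g = c - C * (a - B * c) := by
    rw [hg]
    simp only [mul_10, mul_11, E12, E21, mk4_00, mk4_01, mk4_10, mk4_11, ← ha',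
      ← hc']
    ring
  have g11 : pd g = d - C * (b - B * d) := by
    rw [hg]
    simp only [mul_10, mul_11, E12, E21, mk4_00, mk4_01, mk4_10, mk4_11, ← hb',
      ← hd']
    ring
  -- the new entries
  have e01 : b - B * d = ((Q * k : ℤ) : KK D) * b := by
    rw [hB]
    push_cast
    linear_combination (-(b * ((s' : ℤ) : KK D))) * hn - b * hk'
  have e00 : pa g = a - ((s' : ℤ) : KK D) * (star d * w) := by
    rw [g00, hB, ← hbc]
    ring
  have e11 : pd g = d - ((Q * k : ℤ) : KK D) * (d * w) := by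
    rw [g11, e01, hC, ← hbc]
    ring
  have e10 : pc g = -(((Q * k : ℤ) : KK D) * (w * c)) := by
    rw [g10, hC, ← hbc]
    linear_combination (-c) * hdet - c * c * e01
  have halb : (al : KK D) * pb g = ((Q * k : ℤ) : KK D) * ((al : KK D) * b) := by
    rw [g01, e01]
    ring
  have hsc : star (pc g) = ((Q * (-k) : ℤ) : KK D) * (star w * star c) := by
    rw [e10, star_neg, star_mul, star_mul, star_int]
    push_cast
    ring
  have hwc : N1 al be (star w * star c) := N1.mul hDq hw.star hc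
  refine ⟨E21 (-C) * E12 (-B), ?_, ?_, ?_⟩
  · refine mul_mem (Subgroup.subset_closure (Or.inl (Or.inr ⟨-C, ?_, rfl⟩)))
      (Subgroup.subset_closure (Or.inl (Or.inl ⟨-B, ?_, rfl⟩)))
    · rw [NN_iff]
      have e : star (-C) = ((-1 : ℤ) : KK D) * (star d * star c) := by
        rw [hC, star_neg, star_mul]
        push_cast
        ring
      rw [e]
      exact N1.mul hDq (O1.int be (-1)) (N1.mul hDq hd.star hc)
    · rw [NN_iff]
      have e : (al : KK D) * -B = ((-s' : ℤ) : KK D) * (star d * ((al : KK D) * b)) := by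
        rw [hB]
        push_cast
        ring
      rw [e]
      exact N1.mul hDq (O1.int be (-s')) (N1.mul hDq hd.star hb)
  · rw [← hg]
    refine ⟨?_, ?_, ?_, ?_⟩
    · rw [OO_iff, e00]
      exact ha.sub (O1.mul hDq (O1.int be s') (O1.mul hDq hd.star hw))
    · rw [OO_iff, e11]
      exact hd.sub (O1.mul hDq (O1.int be (Q * k)) (O1.mul hDq hd hw))
    · rw [NN_iff, halb]
      exact N1.mul hDq (O1.int be (Q * k)) hb
    · rw [NN_iff, hsc]
      exact N1.mul hDq (O1.int be (Q * (-k))) hwc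
  · rw [← hg]
    refine ⟨?_, ?_⟩
    · obtain ⟨x, y, hxy⟩ := hb
      exact ⟨k * x, k * y, by rw [halb, hxy, io_mul]⟩
    · obtain ⟨x, y, hxy⟩ := hwc
      exact ⟨-k * x, -k * y, by rw [hsc, hxy, io_mul]⟩

end K3S
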