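import Pool.Agent.K3S.TargetsB

/-!
# K3S, target CIN: make the upper left entry `1` modulo `k`
-/

set_option autoImplicit false

namespace K3S

open Matrix

namespace CIN_

/-- `u + v θ'` -/
def oo (D be : ℤ) (u v : ℚ) : KK D := ⟨u + v * be / 2, v / 2⟩

variable {D al be ga : ℤ}

theorem castD (h : D = be ^ 2 - 4 * al * ga) : (D : ℚ) = be ^ 2 - 4 * al * ga := by
  rw [h]
  push_cast
  ring

theorem io_mul_oo (h : D = be ^ 2 - 4 * al * ga) (x y u v : ℚ) :
    io D al be x y * oo D be u v =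
      io D al be (x * u - ga * y * v) (al * x * v + y * u + be * y * v) := by
  apply QuadraticAlgebra.ext
  · simp only [io, oo, QuadraticAlgebra.re_mul]
    linear_combination (y * v / 4) * castD h
  · simp only [io, oo, QuadraticAlgebra.im_mul]
    ring

theorem io_mul_star (h : D = be ^ 2 - 4 * al * ga) (x y x' y' : ℚ) :
    io D al be x y * star (io D al be x' y') =
      (al : KK D) * oo D be (al * x * x' + be * x * y' + ga * y * y') (x' * y - x * y') := by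
  apply QuadraticAlgebra.ext
  · simp only [io, oo, QuadraticAlgebra.re_mul, QuadraticAlgebra.re_star, QuadraticAlgebra.im_star,
      QuadraticAlgebra.re_intCast, QuadraticAlgebra.im_intCast]
    linear_combination (-(y * y' / 4)) * castD h
  · simp only [io, oo, QuadraticAlgebra.im_mul, QuadraticAlgebra.re_star, QuadraticAlgebra.im_star,
      QuadraticAlgebra.re_intCast, QuadraticAlgebra.im_intCast]
    ring

theorem star_oo (u v : ℚ) : star (oo D be u v) = oo D be (u + be * v) (-v) := by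
  apply QuadraticAlgebra.ext
  · simp only [oo, QuadraticAlgebra.re_star]
    ring
  · simp only [oo, QuadraticAlgebra.im_star]
    ring

theorem oo_add (u v u' v' : ℚ) :
    oo D be u v + oo D be u' v' = oo D be (u + u') (v + v') := by
  apply QuadraticAlgebra.ext
  · simp only [oo, QuadraticAlgebra.re_add]
    ring
  · simp only [oo, QuadraticAlgebra.im_add]
    ring

theorem int_oo (n : ℤ) (u v : ℚ) : (n : KK D) * oo D be u v = oo D be (n * u) (n * v) := by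
  apply QuadraticAlgebra.ext
  · simp only [oo, QuadraticAlgebra.re_mul, QuadraticAlgebra.re_intCast,
      QuadraticAlgebra.im_intCast]
    ring
  · simp only [oo, QuadraticAlgebra.im_mul, QuadraticAlgebra.re_intCast,
      QuadraticAlgebra.im_intCast]
    ring

theorem io_add (u v u' v' : ℚ) :
    io D al be u v + io D al be u' v' = io D al be (u + u') (v + v') := by
  apply QuadraticAlgebra.ext
  · simp only [io, QuadraticAlgebra.re_add]
    ring
  · simp only [io, QuadraticAlgebra.im_add]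
    ring

theorem int_io (n : ℤ) (u v : ℚ) :
    (n : KK D) * io D al be u v = io D al be (n * u) (n * v) := by
  apply QuadraticAlgebra.ext
  · simp only [io, QuadraticAlgebra.re_mul, QuadraticAlgebra.re_intCast,
      QuadraticAlgebra.im_intCast]
    ring
  · simp only [io, QuadraticAlgebra.im_mul, QuadraticAlgebra.re_intCast,
      QuadraticAlgebra.im_intCast]
    ring

theorem norm_oo (h : D = be ^ 2 - 4 * al * ga) (u v : ℚ) :
    (oo D be u v).norm = u ^ 2 + be * u * v + al * ga * v ^ 2 := by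
  rw [QuadraticAlgebra.norm_def]
  simp only [oo]
  linear_combination (-(v ^ 2 / 4)) * castD h

theorem oo_zero (u : ℤ) : oo D be u 0 = (u : KK D) := by
  apply QuadraticAlgebra.ext
  · simp only [oo, QuadraticAlgebra.re_intCast]
    ring
  · simp only [oo, QuadraticAlgebra.im_intCast]
    ring

theorem al_ne [h : NS D] (hD : D = be ^ 2 - 4 * al * ga) : al ≠ 0 := by
  rintro rfl
  exact h.nsq ⟨be, by rw [hD]; ring⟩

theorem al_ne' [NS D] (hD : D = be ^ 2 - 4 * al * ga) : (al : KK D) ≠ 0 := by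
  intro h
  have h1 := congrArg QuadraticAlgebra.re h
  rw [QuadraticAlgebra.re_intCast, QuadraticAlgebra.re_zero] at h1
  exact al_ne hD (by exact_mod_cast h1)

theorem OO_Zr {z : KK D} : OO Zr be z ↔ ∃ u v : ℤ, z = oo D be u v := by
  constructor
  · rintro ⟨u, hu, v, hv, rfl⟩
    obtain ⟨a, rfl⟩ := mem_Zr.1 hu
    obtain ⟨b, rfl⟩ := mem_Zr.1 hv
    exact ⟨a, b, rfl⟩
  · rintro ⟨u, v, rfl⟩
    exact ⟨u, mem_Zr.2 ⟨u, rfl⟩, v, mem_Zr.2 ⟨v, rfl⟩, rfl⟩

theorem NN_Zr {z : KK D} : NN Zr al be z ↔ ∃ x y : ℤ, z = io D al be x y := by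
  constructor
  · rintro ⟨u, hu, v, hv, rfl⟩
    obtain ⟨a, rfl⟩ := mem_Zr.1 hu
    obtain ⟨b, rfl⟩ := mem_Zr.1 hv
    exact ⟨a, b, rfl⟩
  · rintro ⟨u, v, rfl⟩
    exact ⟨u, mem_Zr.2 ⟨u, rfl⟩, v, mem_Zr.2 ⟨v, rfl⟩, rfl⟩

/-- the product of an element `β` with `al β ∈ 𝔫` and an element `c` with `star c ∈ 𝔫` -/
theorem mul_bc [NS D] (hD : D = be ^ 2 - 4 * al * ga) {b c : KK D} {x y x' y' : ℚ}
    (hb : (al : KK D) * b = io D al be x y) (hc : star c = io D al be x' y') :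
    b * c = oo D be (al * x * x' + be * x * y' + ga * y * y') (x' * y - x * y') := by
  apply mul_left_cancel₀ (al_ne' hD)
  rw [← io_mul_star hD, ← mul_assoc, hb, ← hc, star_star]

/-- the norm of the upper left entry is prime to `Q`, so `u` is prime to `k` -/
theorem coprime_uk {k a₀ Q Q₁ u v u' v' A B : ℤ} (hal : al = k * a₀) (hQ : Q = k * Q₁)
    (hN : (u ^ 2 + be * u * v + al * ga * v ^ 2) * (u' ^ 2 + be * u' * v' + al * ga * v' ^ 2) =
      (1 + Q * A) ^ 2 + be * (1 + Q * A) * (Q * B) + al * ga * (Q * B) ^ 2) :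
    IsCoprime u k := by
  refine ⟨(u + be * v) * (u' ^ 2 + be * u' * v' + al * ga * v' ^ 2),
    a₀ * ga * v ^ 2 * (u' ^ 2 + be * u' * v' + al * ga * v' ^ 2) -
      Q₁ * (2 * A + Q * A ^ 2 + be * (1 + Q * A) * B + al * ga * Q * B ^ 2), ?_⟩
  subst hQ
  subst hal
  linear_combination hN

theorem numbers (hREP : T_REP) [hNS : NS D] (hD : D = be ^ 2 - 4 * al * ga) {k Q u : ℤ}
    (hk : 0 < k) (hQ : 0 < Q) (hu : IsCoprime u k) :
    ∃ p s x y j : ℤ, u = p + k * j ∧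
      s * p = 1 + Q ^ 2 * (al * x ^ 2 + be * x * y + ga * y ^ 2) := by
  have hkn : ((k.natAbs : ℕ) : ℤ) = k := Int.natAbs_of_nonneg hk.le
  obtain ⟨p, hpn, hp, hmod⟩ := Nat.forall_exists_prime_gt_and_zmodEq
    (D.natAbs + Q.natAbs + 2) (q := k.natAbs) (a := u) (by omega) (by rwa [hkn])
  rw [hkn] at hmod
  obtain ⟨j, hj⟩ := hmod.dvd
  have hpD : ¬ (p : ℤ) ∣ D := by
    intro h
    have h1 := Nat.le_of_dvd (Int.natAbs_pos.2 hNS.pos.ne') (Int.natCast_dvd.1 h)
    omega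
  have hpQ : ¬ (p : ℤ) ∣ Q := by
    intro h
    have h1 := Nat.le_of_dvd (Int.natAbs_pos.2 hQ.ne') (Int.natCast_dvd.1 h)
    omega
  have hco : IsCoprime (p : ℤ) (Q ^ 2) :=
    (((Nat.prime_iff_prime_int.1 hp).irreducible.coprime_iff_not_dvd).2 hpQ).pow_right
  obtain ⟨r, Q', hr⟩ := hco
  obtain ⟨x, y, w, hw⟩ := hREP D al be ga (-Q') p hD hp (by omega) hpD
  refine ⟨p, Q ^ 2 * w + r, x, y, j, by linarith, ?_⟩
  linear_combination hr - Q ^ 2 * hw

end CIN_

open CIN_ in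
theorem p_CIN (hREP : T_REP) : T_CIN := by
  intro D _ al be ga k a₀ b₀ c₀ hD hk ha₀ hb₀ hc₀ Q hQ hkQ h hRG hDG
  obtain ⟨Q₁, hQ₁⟩ := hkQ
  obtain ⟨hA, hD', -, -⟩ := hRG
  obtain ⟨u, v, ha⟩ := OO_Zr.1 hA
  obtain ⟨u', v', hd⟩ := OO_Zr.1 hD'
  obtain ⟨⟨x₁, y₁, hb⟩, ⟨x₂, y₂, hc⟩⟩ := hDG
  have hbc := mul_bc hD hb hc
  have hdet := gg_det h
  have hal := al_ne' (D := D) hD
  have hN : (u ^ 2 + be * u * v + al * ga * v ^ 2) * (u' ^ 2 + be * u' * v' + al * ga * v' ^ 2) =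
      (1 + Q * (Q * (al * x₁ * x₂ + be * x₁ * y₂ + ga * y₁ * y₂))) ^ 2 +
      be * (1 + Q * (Q * (al * x₁ * x₂ + be * x₁ * y₂ + ga * y₁ * y₂))) *
        (Q * (Q * (x₂ * y₁ - x₁ * y₂))) + al * ga * (Q * (Q * (x₂ * y₁ - x₁ * y₂))) ^ 2 := by
    have h1 : (oo D be u v).norm * (oo D be u' v').norm =
        (oo D be (1 + (Q : ℚ) * (Q * (al * x₁ * x₂ + be * x₁ * y₂ + ga * y₁ * y₂)))
          (Q * (Q * (x₂ * y₁ - x₁ * y₂)))).norm := by
      rw [← map_mul, ← ha, ← hd]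
      congr 1
      have h2 : pa h * pd h = oo D be ((1 : ℤ) : ℚ) 0 + pb h * pc h := by
        rw [oo_zero, Int.cast_one]
        linear_combination hdet
      rw [h2, hbc, oo_add]
      congr 1
      · push_cast
        ring
      · ring
    rw [norm_oo hD, norm_oo hD, norm_oo hD] at h1
    exact_mod_cast h1
  have huk := coprime_uk ha₀ hQ₁ hN
  obtain ⟨p, s, x, y, j, hu, hs⟩ := numbers hREP hD hk hQ huk
  have hsQ : ((s : ℤ) : ℚ) * p = 1 + Q ^ 2 * (al * x ^ 2 + be * x * y + ga * y ^ 2) := by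
    exact_mod_cast hs
  obtain ⟨W, hW⟩ : ∃ W : KK D, W = io D al be ((-(Q * x) : ℤ) : ℚ) ((-(Q * y) : ℤ) : ℚ) :=
    ⟨_, rfl⟩
  have hβ : (al : KK D) * ((al : KK D)⁻¹ * W) = io D al be ((-(Q * x) : ℤ) : ℚ)
      ((-(Q * y) : ℤ) : ℚ) := by
    rw [mul_inv_cancel_left₀ hal, hW]
  have hsW : star (star W) = io D al be ((-(Q * x) : ℤ) : ℚ) ((-(Q * y) : ℤ) : ℚ) := by
    rw [star_star, hW]
  have hdetκ : (s : KK D) * (p : KK D) - (al : KK D)⁻¹ * W * star W = 1 := by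
    have h1 : (1 : KK D) = oo D be ((1 : ℤ) : ℚ) 0 := by
      rw [oo_zero, Int.cast_one]
    rw [mul_bc hD hβ hsW, sub_eq_iff_eq_add, h1, oo_add, ← oo_zero (be := be) p, int_oo]
    congr 1
    · push_cast
      linear_combination hsQ
    · ring
  obtain ⟨κ, hκ⟩ : ∃ κ : GG D, κ = mk4 (s : KK D) ((al : KK D)⁻¹ * W) (star W) (p : KK D) hdetκ :=
    ⟨_, rfl⟩
  have ka : pa κ = (s : KK D) := by rw [hκ, mk4_00]
  have kb : pb κ = (al : KK D)⁻¹ * W := by rw [hκ, mk4_01]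
  have kc : pc κ = star W := by rw [hκ, mk4_10]
  have kd : pd κ = (p : KK D) := by rw [hκ, mk4_11]
  have hκT : κ ∈ KT D al be := by
    refine Subgroup.subset_closure (Or.inr ⟨s, p, -(Q * x), -(Q * y), ka, ?_, ?_, kd⟩)
    · rw [kb, hβ]
    · rw [kc, hsW]
  have e00 : pa (κ * h) = oo D be ((1 + k * (Q₁ * Q * (al * x ^ 2 + be * x * y + ga * y ^ 2) +
      s * j - Q * Q * (a₀ * x * x₂ + b₀ * x * y₂ + c₀ * y * y₂)) : ℤ) : ℚ)
      ((s * v + (Q * x₂ * (-(Q * y)) - (-(Q * x)) * (Q * y₂)) : ℤ) : ℚ) := by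
    rw [mul_00, ka, kb, ha, mul_bc hD hβ hc, int_oo, oo_add]
    congr 1
    · have hu' : (u : ℚ) = p + k * j := by exact_mod_cast hu
      have h1 : (al : ℚ) = k * a₀ := by exact_mod_cast ha₀
      have h2 : (be : ℚ) = k * b₀ := by exact_mod_cast hb₀
      have h3 : (ga : ℚ) = k * c₀ := by exact_mod_cast hc₀
      have h4 : (Q : ℚ) = k * Q₁ := by exact_mod_cast hQ₁
      push_cast
      linear_combination (s : ℚ) * hu' + hsQ - (Q ^ 2 * x * x₂ : ℚ) * h1 -
        (Q ^ 2 * x * y₂ : ℚ) * h2 - (Q ^ 2 * y * y₂ : ℚ) * h3 +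
        (Q * (al * x ^ 2 + be * x * y + ga * y ^ 2) : ℚ) * h4
    · push_cast
      ring
  have e01 : (al : KK D) * pb (κ * h) = io D al be
      (Q * ((s * x₁ - x * u' + ga * y * v' : ℤ) : ℚ))
      (Q * ((s * y₁ - al * x * v' - y * u' - be * y * v' : ℤ) : ℚ)) := by
    have h1 : (al : KK D) * pb (κ * h) = (s : KK D) * ((al : KK D) * pb h) +
        ((al : KK D) * ((al : KK D)⁻¹ * W)) * pd h := by
      rw [mul_01, ka, kb]
      ring
    rw [h1, hb, hβ, hd, int_io, io_mul_oo hD, io_add]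
    congr 1
    · push_cast
      ring
    · push_cast
      ring
  have e10 : star (pc (κ * h)) = io D al be
      (Q * ((-(x * (u + be * v)) - ga * y * v + p * x₂ : ℤ) : ℚ))
      (Q * ((al * x * v - y * (u + be * v) + be * y * v + p * y₂ : ℤ) : ℚ)) := by
    have h1 : star (pc (κ * h)) = star (star W) * star (pa h) + (p : KK D) * star (pc h) := by
      rw [mul_10, kc, kd, star_add, star_mul', star_mul', star_intCast]
    rw [h1, hsW, ha, star_oo, hc, int_io, io_mul_oo hD, io_add]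
    congr 1
    · push_cast
      ring
    · push_cast
      ring
  have e11 : pd (κ * h) = oo D be
      ((al * (Q * x₁) * (-(Q * x)) + be * (Q * x₁) * (-(Q * y)) + ga * (Q * y₁) * (-(Q * y)) +
        p * u' : ℤ) : ℚ)
      (((-(Q * x)) * (Q * y₁) - (Q * x₁) * (-(Q * y)) + p * v' : ℤ) : ℚ) := by
    have h1 : pd (κ * h) = pb h * star W + (p : KK D) * pd h := by
      rw [mul_11, kc, kd]
      ring
    rw [h1, mul_bc hD hb hsW, hd, int_oo, oo_add]
    congr 1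
    · push_cast
      ring
    · push_cast
      ring
  have f01 := e01
  rw [← Int.cast_mul, ← Int.cast_mul] at f01
  have f10 := e10
  rw [← Int.cast_mul, ← Int.cast_mul] at f10
  refine ⟨κ, hκT, ⟨OO_Zr.2 ⟨_, _, e00⟩, OO_Zr.2 ⟨_, _, e11⟩, NN_Zr.2 ⟨_, _, f01⟩,
    NN_Zr.2 ⟨_, _, f10⟩⟩, ⟨⟨_, _, e01⟩, ⟨_, _, e10⟩⟩,
    Q₁ * Q * (al * x ^ 2 + be * x * y + ga * y ^ 2) + s * j -
      Q * Q * (a₀ * x * x₂ + b₀ * x * y₂ + c₀ * y * y₂),
    s * v + (Q * x₂ * (-(Q * y)) - (-(Q * x)) * (Q * y₂)), ?_⟩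
  rw [e00, oo]
  congr 2
  push_cast
  ring

end K3S
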