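import Pool.Agent.K3S.TargetsB

/-!
# CMP: composition of the maps `X ↦ h X h* / ρ`
-/

set_option autoImplicit false
set_option linter.unusedSectionVars false
set_option linter.unusedSimpArgs false

namespace K3S

open Matrix

namespace CMP_

variable {D : ℤ}

lemma act1 (a b c d : KK D) (ρ : ℚ) (v : VV D) : (act a b c d ρ v).1 =
    (a.norm * v.1 + 2 * (a * v.2.1 * star b).re + b.norm * v.2.2) / ρ := rfl

lemma act2 (a b c d : KK D) (ρ : ℚ) (v : VV D) : (act a b c d ρ v).2.1 =
    ρ⁻¹ • (v.1 • (a * star c) + a * v.2.1 * star d + b * star v.2.1 * star c +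
      v.2.2 • (b * star d)) := rfl

lemma act3 (a b c d : KK D) (ρ : ℚ) (v : VV D) : (act a b c d ρ v).2.2 =
    (c.norm * v.1 + 2 * (c * v.2.1 * star d).re + d.norm * v.2.2) / ρ := rfl

lemma c1 (a b c d a' b' c' d' : KK D) (ρ ρ' r t : ℚ) (w : KK D) :
    (act a b c d ρ (act a' b' c' d' ρ' (r, w, t))).1 =
      (act (a * a' + b * c') (a * b' + b * d') (c * a' + d * c') (c * b' + d * d')
        (ρ * ρ') (r, w, t)).1 := by
  rw [act1, act1, act1, act2, act3]
  simp only [QuadraticAlgebra.norm_def, QuadraticAlgebra.re_mul, QuadraticAlgebra.im_mul,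
    QuadraticAlgebra.re_add, QuadraticAlgebra.im_add, QuadraticAlgebra.re_smul,
    QuadraticAlgebra.im_smul, QuadraticAlgebra.re_star, QuadraticAlgebra.im_star, smul_eq_mul]
  field_simp
  ring

lemma c3 (a b c d a' b' c' d' : KK D) (ρ ρ' r t : ℚ) (w : KK D) :
    (act a b c d ρ (act a' b' c' d' ρ' (r, w, t))).2.2 =
      (act (a * a' + b * c') (a * b' + b * d') (c * a' + d * c') (c * b' + d * d')
        (ρ * ρ') (r, w, t)).2.2 := by
  rw [act3, act3, act1, act2, act3]
  simp only [QuadraticAlgebra.norm_def, QuadraticAlgebra.re_mul, QuadraticAlgebra.im_mul,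
    QuadraticAlgebra.re_add, QuadraticAlgebra.im_add, QuadraticAlgebra.re_smul,
    QuadraticAlgebra.im_smul, QuadraticAlgebra.re_star, QuadraticAlgebra.im_star, smul_eq_mul]
  field_simp
  ring

lemma c2re (a b c d a' b' c' d' : KK D) (ρ ρ' r t : ℚ) (w : KK D) :
    (act a b c d ρ (act a' b' c' d' ρ' (r, w, t))).2.1.re =
      (act (a * a' + b * c') (a * b' + b * d') (c * a' + d * c') (c * b' + d * d')
        (ρ * ρ') (r, w, t)).2.1.re := by
  rw [act2, act2, act1, act2, act3]
  simp only [QuadraticAlgebra.norm_def, QuadraticAlgebra.re_mul, QuadraticAlgebra.im_mul,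
    QuadraticAlgebra.re_add, QuadraticAlgebra.im_add, QuadraticAlgebra.re_smul,
    QuadraticAlgebra.im_smul, QuadraticAlgebra.re_star, QuadraticAlgebra.im_star,
    smul_eq_mul]
  field_simp
  ring

lemma c2im (a b c d a' b' c' d' : KK D) (ρ ρ' r t : ℚ) (w : KK D) :
    (act a b c d ρ (act a' b' c' d' ρ' (r, w, t))).2.1.im =
      (act (a * a' + b * c') (a * b' + b * d') (c * a' + d * c') (c * b' + d * d')
        (ρ * ρ') (r, w, t)).2.1.im := by
  rw [act2, act2, act1, act2, act3]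
  simp only [QuadraticAlgebra.norm_def, QuadraticAlgebra.re_mul, QuadraticAlgebra.im_mul,
    QuadraticAlgebra.re_add, QuadraticAlgebra.im_add, QuadraticAlgebra.re_smul,
    QuadraticAlgebra.im_smul, QuadraticAlgebra.re_star, QuadraticAlgebra.im_star,
    smul_eq_mul]
  field_simp
  ring

end CMP_

open CMP_

theorem p_CMP : T_CMP := by
  intro D a b c d a' b' c' d' ρ ρ'
  refine LinearMap.ext fun v => ?_
  obtain ⟨r, w, t⟩ := v
  rw [LinearMap.comp_apply]
  exact Prod.ext (c1 _ _ _ _ _ _ _ _ _ _ _ _ _) (Prod.ext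
    (QuadraticAlgebra.ext (c2re _ _ _ _ _ _ _ _ _ _ _ _ _) (c2im _ _ _ _ _ _ _ _ _ _ _ _ _))
    (c3 _ _ _ _ _ _ _ _ _ _ _ _ _))

end K3S
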