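import Pool.Agent.K3S.TargetsB

/-!
# MP_98be90_ag, part B, target CON: the last step of the approximation
-/

set_option autoImplicit false

namespace K3S

open Matrix

namespace CON_

variable {D : ℤ}

/-- the order of discriminant `D / k²` -/
def OK (k b₀ : ℤ) (z : KK D) : Prop := ∃ u v : ℤ, z = ⟨u + v * b₀ / 2, v / (2 * k)⟩

/-- the module `𝔫` -/
def NI (al be : ℤ) (z : KK D) : Prop := ∃ x y : ℤ, z = io D al be x y

theorem re_int (n : ℤ) : (n : KK D).re = n := by simp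
theorem im_int (n : ℤ) : (n : KK D).im = 0 := by simp

theorem ok_int (k b₀ n : ℤ) : OK k b₀ (n : KK D) := by
  refine ⟨n, 0, ?_⟩
  apply QuadraticAlgebra.ext
  · rw [re_int]
    simp
  · rw [im_int]
    simp

theorem ok_one (k b₀ : ℤ) : OK k b₀ (1 : KK D) := by
  have h := ok_int (D := D) k b₀ 1
  rwa [Int.cast_one] at h

theorem ok_add {k b₀ : ℤ} {z w : KK D} (hz : OK k b₀ z) (hw : OK k b₀ w) : OK k b₀ (z + w) := by
  obtain ⟨u, v, rfl⟩ := hz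
  obtain ⟨u', v', rfl⟩ := hw
  refine ⟨u + u', v + v', ?_⟩
  apply QuadraticAlgebra.ext
  · simp
    ring
  · simp
    ring

theorem ok_neg {k b₀ : ℤ} {z : KK D} (hz : OK k b₀ z) : OK k b₀ (-z) := by
  obtain ⟨u, v, rfl⟩ := hz
  refine ⟨-u, -v, ?_⟩
  apply QuadraticAlgebra.ext
  · simp
    ring
  · simp
    ring

theorem ok_star {k b₀ : ℤ} {z : KK D} (hz : OK k b₀ z) : OK k b₀ (star z) := by
  obtain ⟨u, v, rfl⟩ := hz
  refine ⟨u + v * b₀, -v, ?_⟩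
  apply QuadraticAlgebra.ext
  · simp
    ring
  · simp
    ring

theorem ok_mul {k a₀ b₀ c₀ : ℤ} (hk : 0 < k) (hD : D = k ^ 2 * (b₀ ^ 2 - 4 * a₀ * c₀))
    {z w : KK D} (hz : OK k b₀ z) (hw : OK k b₀ w) : OK k b₀ (z * w) := by
  have hk' : (k : ℚ) ≠ 0 := by exact_mod_cast hk.ne'
  have hDq : (D : ℚ) = k ^ 2 * (b₀ ^ 2 - 4 * a₀ * c₀) := by rw [hD]; push_cast; ring
  obtain ⟨u, v, rfl⟩ := hz
  obtain ⟨u', v', rfl⟩ := hw
  refine ⟨u * u' - a₀ * c₀ * v * v', u * v' + v * u' + b₀ * v * v', ?_⟩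
  apply QuadraticAlgebra.ext
  · simp only [QuadraticAlgebra.re_mul, hDq]
    push_cast
    field_simp
    ring
  · simp only [QuadraticAlgebra.im_mul]
    push_cast
    field_simp
    ring

theorem ni_add {al be : ℤ} {z w : KK D} (hz : NI al be z) (hw : NI al be w) :
    NI al be (z + w) := by
  obtain ⟨x, y, rfl⟩ := hz
  obtain ⟨x', y', rfl⟩ := hw
  refine ⟨x + x', y + y', ?_⟩
  apply QuadraticAlgebra.ext
  · simp [io]
    ring
  · simp [io]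
    ring

theorem ni_neg {al be : ℤ} {z : KK D} (hz : NI al be z) : NI al be (-z) := by
  obtain ⟨x, y, rfl⟩ := hz
  refine ⟨-x, -y, ?_⟩
  apply QuadraticAlgebra.ext
  · simp [io]
    ring
  · simp [io]
    ring

theorem ni_mul {k a₀ b₀ c₀ : ℤ} (hk : 0 < k) (hD : D = k ^ 2 * (b₀ ^ 2 - 4 * a₀ * c₀))
    {z w : KK D} (hz : NI (k * a₀) (k * b₀) z) (hw : OK k b₀ w) :
    NI (k * a₀) (k * b₀) (z * w) := by
  have hk' : (k : ℚ) ≠ 0 := by exact_mod_cast hk.ne'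
  have hDq : (D : ℚ) = k ^ 2 * (b₀ ^ 2 - 4 * a₀ * c₀) := by rw [hD]; push_cast; ring
  obtain ⟨x, y, rfl⟩ := hz
  obtain ⟨u, v, rfl⟩ := hw
  refine ⟨x * u - c₀ * y * v, a₀ * x * v + y * u + b₀ * y * v, ?_⟩
  apply QuadraticAlgebra.ext
  · simp only [QuadraticAlgebra.re_mul, hDq, io]
    push_cast
    field_simp
    ring
  · simp only [QuadraticAlgebra.im_mul, io]
    push_cast
    field_simp
    ring

theorem pair {k a₀ b₀ c₀ : ℤ} (hD : D = k ^ 2 * (b₀ ^ 2 - 4 * a₀ * c₀)) (hk : 0 < k)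
    {z w : KK D} (hz : NI (k * a₀) (k * b₀) z) (hw : NI (k * a₀) (k * b₀) w) :
    ∃ t : KK D, OK k b₀ t ∧ z * star w = ((k * a₀ : ℤ) : KK D) * t := by
  have hk' : (k : ℚ) ≠ 0 := by exact_mod_cast hk.ne'
  have hDq : (D : ℚ) = k ^ 2 * (b₀ ^ 2 - 4 * a₀ * c₀) := by rw [hD]; push_cast; ring
  obtain ⟨x, y, rfl⟩ := hz
  obtain ⟨x', y', rfl⟩ := hw
  refine ⟨(k : KK D) * ⟨((a₀ * x * x' + b₀ * x * y' + c₀ * y * y' : ℤ) : ℚ) +
      ((y * x' - x * y' : ℤ) : ℚ) * b₀ / 2, ((y * x' - x * y' : ℤ) : ℚ) / (2 * k)⟩,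
    ok_mul hk hD (ok_int k b₀ k) ⟨_, _, rfl⟩, ?_⟩
  apply QuadraticAlgebra.ext
  · simp only [QuadraticAlgebra.re_mul, re_int, im_int, hDq, io, QuadraticAlgebra.re_star,
      QuadraticAlgebra.im_star]
    push_cast
    field_simp
    ring
  · simp only [QuadraticAlgebra.im_mul, QuadraticAlgebra.re_mul, re_int, im_int, io,
      QuadraticAlgebra.re_star, QuadraticAlgebra.im_star]
    push_cast
    field_simp
    ring

/-- `norm (io x y) = al k e₀` -/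
theorem nrm {k a₀ b₀ c₀ : ℤ} (hD : D = k ^ 2 * (b₀ ^ 2 - 4 * a₀ * c₀)) (x y : ℤ) :
    io D (k * a₀) (k * b₀) x y * star (io D (k * a₀) (k * b₀) x y) =
      ((k * a₀ : ℤ) : KK D) * ((k * (a₀ * x ^ 2 + b₀ * x * y + c₀ * y ^ 2) : ℤ) : KK D) := by
  have hDq : (D : ℚ) = k ^ 2 * (b₀ ^ 2 - 4 * a₀ * c₀) := by rw [hD]; push_cast; ring
  apply QuadraticAlgebra.ext
  · simp only [QuadraticAlgebra.re_mul, re_int, im_int, hDq, io, QuadraticAlgebra.re_star,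
      QuadraticAlgebra.im_star]
    push_cast
    ring
  · simp only [QuadraticAlgebra.im_mul, re_int, im_int, io,
      QuadraticAlgebra.re_star, QuadraticAlgebra.im_star]
    push_cast
    ring

theorem nn_of_ni {al be : ℤ} {z : KK D} (hz : NI al be z) : NN Zr al be z := by
  obtain ⟨x, y, rfl⟩ := hz
  exact ⟨x, mem_Zr.2 ⟨x, rfl⟩, y, mem_Zr.2 ⟨y, rfl⟩, rfl⟩

theorem ni_of_nn {al be : ℤ} {z : KK D} (hz : NN Zr al be z) : NI al be z := by
  obtain ⟨x, hx, y, hy, rfl⟩ := hz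
  obtain ⟨m, rfl⟩ := mem_Zr.1 hx
  obtain ⟨n, rfl⟩ := mem_Zr.1 hy
  exact ⟨m, n, rfl⟩

theorem ok_of_oo {k b₀ : ℤ} (hk : 0 < k) {z : KK D} (hz : OO Zr (k * b₀) z) : OK k b₀ z := by
  have hk' : (k : ℚ) ≠ 0 := by exact_mod_cast hk.ne'
  obtain ⟨u, hu, v, hv, rfl⟩ := hz
  obtain ⟨m, rfl⟩ := mem_Zr.1 hu
  obtain ⟨n, rfl⟩ := mem_Zr.1 hv
  refine ⟨m, k * n, ?_⟩
  apply QuadraticAlgebra.ext
  · push_cast
    ring
  · push_cast
    field_simp

theorem io_mul (al be Q x y : ℤ) :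
    io D al be (Q * x) (Q * y) = (Q : KK D) * io D al be x y := by
  apply QuadraticAlgebra.ext
  · simp [io]
    ring
  · simp [io]
    ring

/-! ### divisibility by `q` -/

theorem jd_ok {k b₀ q Q al t : ℤ} (hk : 0 < k) (hQ : Q = 2 * k * al * q * t) {z : KK D}
    (hz : OK k b₀ z) : Jd q ((Q : KK D) * z) := by
  have hk' : (k : ℚ) ≠ 0 := by exact_mod_cast hk.ne'
  have hQq : (Q : ℚ) = 2 * k * al * q * t := by rw [hQ]; push_cast; ring
  obtain ⟨u, v, rfl⟩ := hz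
  refine ⟨⟨al * t * (2 * k * u + k * v * b₀), al * t * v⟩, ?_⟩
  apply QuadraticAlgebra.ext
  · simp [hQq]
    ring
  · simp [hQq]
    field_simp

theorem jd_al {k q Q al be t : ℤ} (hal : al ≠ 0) (hQ : Q = 2 * k * al * q * t) {z n : KK D}
    (hn : NI al be n) (hz : (al : KK D) * z = (Q : KK D) * n) : Jd q z := by
  have hal' : (al : ℚ) ≠ 0 := by exact_mod_cast hal
  have hQq : (Q : ℚ) = 2 * k * al * q * t := by rw [hQ]; push_cast; ring
  obtain ⟨x, y, rfl⟩ := hn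
  have h1 := congrArg QuadraticAlgebra.re hz
  have h2 := congrArg QuadraticAlgebra.im hz
  simp [io, hQq] at h1 h2
  refine ⟨⟨k * t * (2 * al * x + be * y), k * t * y⟩, ?_⟩
  apply QuadraticAlgebra.ext
  · simp
    apply mul_left_cancel₀ hal'
    linear_combination h1
  · simp
    apply mul_left_cancel₀ hal'
    linear_combination h2

theorem jd_star {k q Q al be t : ℤ} (hQ : Q = 2 * k * al * q * t) {z n : KK D}
    (hn : NI al be n) (hz : star z = (Q : KK D) * n) : Jd q z := by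
  have hQq : (Q : ℚ) = 2 * k * al * q * t := by rw [hQ]; push_cast; ring
  obtain ⟨x, y, rfl⟩ := hn
  have h1 := congrArg QuadraticAlgebra.re hz
  have h2 := congrArg QuadraticAlgebra.im hz
  simp [io, hQq] at h1 h2
  refine ⟨⟨k * al * t * (2 * al * x + be * y), -(k * al * t * y)⟩, ?_⟩
  apply QuadraticAlgebra.ext
  · simp
    linear_combination h1
  · simp
    linear_combination -h2

/-! ### a value of the form prime to `Q` -/

theorem dvd_prod {S : Finset ℕ} (hS : ∀ p ∈ S, p.Prime) {p : ℕ} (hp : p.Prime) :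
    p ∣ ∏ r ∈ S, r ↔ p ∈ S := by
  rw [Prime.dvd_finsetProd_iff hp.prime]
  constructor
  · rintro ⟨r, hr, h⟩
    rwa [(Nat.prime_dvd_prime_iff_eq hp (hS r hr)).1 h]
  · intro h
    exact ⟨p, h, dvd_refl p⟩

theorem value (a₀ b₀ c₀ Q : ℤ) (hQ : 0 < Q)
    (hp : ∀ p : ℤ, Prime p → ¬ (p ∣ a₀ ∧ p ∣ b₀ ∧ p ∣ c₀)) :
    ∃ x y : ℤ, IsCoprime (a₀ * x ^ 2 + b₀ * x * y + c₀ * y ^ 2) Q := by
  classical
  set S₁ : Finset ℕ := Q.natAbs.primeFactors.filter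
    (fun p => (p : ℤ) ∣ a₀ ∧ ¬ (p : ℤ) ∣ c₀) with hS₁
  set S₂ : Finset ℕ := Q.natAbs.primeFactors.filter (fun p => ¬ (p : ℤ) ∣ a₀) with hS₂
  have pr1 : ∀ p ∈ S₁, p.Prime := fun p h => Nat.prime_of_mem_primeFactors
    (Finset.mem_filter.1 h).1
  have pr2 : ∀ p ∈ S₂, p.Prime := fun p h => Nat.prime_of_mem_primeFactors
    (Finset.mem_filter.1 h).1
  refine ⟨((∏ r ∈ S₁, r : ℕ) : ℤ), ((∏ r ∈ S₂, r : ℕ) : ℤ), ?_⟩
  rw [Int.isCoprime_iff_gcd_eq_one]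
  by_contra hg
  obtain ⟨p, hpp, hpd⟩ := Nat.exists_prime_and_dvd hg
  have h1 : (p : ℤ) ∣ a₀ * ((∏ r ∈ S₁, r : ℕ) : ℤ) ^ 2 +
      b₀ * ((∏ r ∈ S₁, r : ℕ) : ℤ) * ((∏ r ∈ S₂, r : ℕ) : ℤ) +
      c₀ * ((∏ r ∈ S₂, r : ℕ) : ℤ) ^ 2 :=
    (Int.natCast_dvd_natCast.2 hpd).trans (Int.gcd_dvd_left ..)
  have h2 : (p : ℤ) ∣ Q := (Int.natCast_dvd_natCast.2 hpd).trans (Int.gcd_dvd_right ..)
  have hmem : p ∈ Q.natAbs.primeFactors := by
    rw [Nat.mem_primeFactors]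
    exact ⟨hpp, Int.natCast_dvd.1 h2, by omega⟩
  have hpi : Prime (p : ℤ) := Nat.prime_iff_prime_int.1 hpp
  have i1 : (p : ℤ) ∣ ((∏ r ∈ S₁, r : ℕ) : ℤ) ↔ p ∈ S₁ := by
    rw [Int.natCast_dvd_natCast]
    exact dvd_prod pr1 hpp
  have i2 : (p : ℤ) ∣ ((∏ r ∈ S₂, r : ℕ) : ℤ) ↔ p ∈ S₂ := by
    rw [Int.natCast_dvd_natCast]
    exact dvd_prod pr2 hpp
  generalize ((∏ r ∈ S₁, r : ℕ) : ℤ) = x at h1 i1
  generalize ((∏ r ∈ S₂, r : ℕ) : ℤ) = y at h1 i2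
  by_cases ha : (p : ℤ) ∣ a₀
  · by_cases hc : (p : ℤ) ∣ c₀
    · have n1 : ¬ (p : ℤ) ∣ x := fun h => (Finset.mem_filter.1 (i1.1 h)).2.2 hc
      have n2 : ¬ (p : ℤ) ∣ y := fun h => (Finset.mem_filter.1 (i2.1 h)).2 ha
      have h3 : (p : ℤ) ∣ b₀ * x * y := by
        have h4 : (p : ℤ) ∣ a₀ * x ^ 2 := ha.mul_right _
        have h5 : (p : ℤ) ∣ c₀ * y ^ 2 := hc.mul_right _
        have h6 := dvd_sub (dvd_sub h1 h4) h5
        have e : a₀ * x ^ 2 + b₀ * x * y + c₀ * y ^ 2 - a₀ * x ^ 2 - c₀ * y ^ 2 =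
            b₀ * x * y := by ring
        rwa [e] at h6
      rcases hpi.dvd_mul.1 h3 with h4 | h4
      · rcases hpi.dvd_mul.1 h4 with h5 | h5
        · exact hp p hpi ⟨ha, h5, hc⟩
        · exact n1 h5
      · exact n2 h4
    · have m1 : (p : ℤ) ∣ x := i1.2 (Finset.mem_filter.2 ⟨hmem, ha, hc⟩)
      have n2 : ¬ (p : ℤ) ∣ y := fun h => (Finset.mem_filter.1 (i2.1 h)).2 ha
      have h3 : (p : ℤ) ∣ c₀ * y ^ 2 := by
        have h6 := dvd_sub h1 (m1.mul_right (a₀ * x + b₀ * y))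
        have e : a₀ * x ^ 2 + b₀ * x * y + c₀ * y ^ 2 - x * (a₀ * x + b₀ * y) =
            c₀ * y ^ 2 := by ring
        rwa [e] at h6
      rcases hpi.dvd_mul.1 h3 with h4 | h4
      · exact hc h4
      · exact n2 (hpi.dvd_of_dvd_pow h4)
  · have m2 : (p : ℤ) ∣ y := i2.2 (Finset.mem_filter.2 ⟨hmem, ha⟩)
    have n1 : ¬ (p : ℤ) ∣ x := fun h => ha (Finset.mem_filter.1 (i1.1 h)).2.1
    have h3 : (p : ℤ) ∣ a₀ * x ^ 2 := by
      have h6 := dvd_sub h1 (m2.mul_right (b₀ * x + c₀ * y))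
      have e : a₀ * x ^ 2 + b₀ * x * y + c₀ * y ^ 2 - y * (b₀ * x + c₀ * y) =
          a₀ * x ^ 2 := by ring
      rwa [e] at h6
    rcases hpi.dvd_mul.1 h3 with h4 | h4
    · exact ha h4
    · exact n1 (hpi.dvd_of_dvd_pow h4)

/-! ### entries -/

theorem e12 [NS D] (x : KK D) (g : GG D) : pa (E12 x * g) = pa g + x * pc g ∧
    pb (E12 x * g) = pb g + x * pd g ∧ pc (E12 x * g) = pc g ∧ pd (E12 x * g) = pd g := by
  have e0 : pa (E12 x) = 1 := rfl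
  have e1 : pb (E12 x) = x := rfl
  have e2 : pc (E12 x) = 0 := rfl
  have e3 : pd (E12 x) = 1 := rfl
  refine ⟨?_, ?_, ?_, ?_⟩
  · rw [mul_00, e0, e1, one_mul]
  · rw [mul_01, e0, e1, one_mul]
  · rw [mul_10, e2, e3, one_mul, zero_mul, zero_add]
  · rw [mul_11, e2, e3, one_mul, zero_mul, zero_add]

theorem e21 [NS D] (x : KK D) (g : GG D) : pa (E21 x * g) = pa g ∧
    pb (E21 x * g) = pb g ∧ pc (E21 x * g) = pc g + x * pa g ∧
    pd (E21 x * g) = pd g + x * pb g := by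
  have e0 : pa (E21 x) = 1 := rfl
  have e1 : pb (E21 x) = 0 := rfl
  have e2 : pc (E21 x) = x := rfl
  have e3 : pd (E21 x) = 1 := rfl
  refine ⟨?_, ?_, ?_, ?_⟩
  · rw [mul_00, e0, e1, one_mul, zero_mul, add_zero]
  · rw [mul_01, e0, e1, one_mul, zero_mul, add_zero]
  · rw [mul_10, e2, e3, one_mul, add_comm]
  · rw [mul_11, e2, e3, one_mul, add_comm]

end CON_

open CON_ in
/-- **CON** -/
theorem p_CON : T_CON := by
  intro D hNS al be ga k a₀ b₀ c₀ hD hk hal hbe hga hp q Q hq hQ hdiv h hRG hDG hpa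
  subst hal hbe hga
  have hDk : D = k ^ 2 * (b₀ ^ 2 - 4 * a₀ * c₀) := by rw [hD]; ring
  have hal0 : k * a₀ ≠ 0 := by
    intro h0
    refine hNS.nsq ⟨k * b₀, ?_⟩
    rw [hD, h0]
    ring
  have halK : ((k * a₀ : ℤ) : KK D) ≠ 0 := by
    intro h0
    have h1 := congrArg QuadraticAlgebra.re h0
    rw [re_int, QuadraticAlgebra.re_zero] at h1
    exact hal0 (by exact_mod_cast h1)
  obtain ⟨t, ht⟩ := hdiv
  obtain ⟨x₀, y₀, e₁, e₂, he⟩ : ∃ x₀ y₀ e₁ e₂ : ℤ,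
      (a₀ * x₀ ^ 2 + b₀ * x₀ * y₀ + c₀ * y₀ ^ 2) * e₁ = 1 + Q * e₂ := by
    obtain ⟨x, y, u, v, huv⟩ := value a₀ b₀ c₀ Q hQ hp
    exact ⟨x, y, u, -v, by linear_combination huv⟩
  obtain ⟨⟨xb, yb, hb⟩, ⟨xc, yc, hc⟩⟩ := hDG
  rw [io_mul] at hb hc
  obtain ⟨-, hd, -, -⟩ := hRG
  have okd := ok_of_oo hk hd
  obtain ⟨u, v, hpa⟩ := hpa
  have hk' : (k : ℚ) ≠ 0 := by exact_mod_cast hk.ne'
  obtain ⟨y', oky, hay⟩ : ∃ y' : KK D, OK k b₀ y' ∧ pa h = 1 + (k : KK D) * y' := by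
    refine ⟨⟨u + v * b₀ / 2, v / (2 * k)⟩, ⟨u, v, rfl⟩, ?_⟩
    rw [hpa]
    apply QuadraticAlgebra.ext
    · simp [QuadraticAlgebra.re_one]
      ring
    · simp [QuadraticAlgebra.im_one]
      field_simp
  have nib : NI (k * a₀) (k * b₀) (io D (k * a₀) (k * b₀) xb yb) := ⟨xb, yb, rfl⟩
  have nic : NI (k * a₀) (k * b₀) (io D (k * a₀) (k * b₀) xc yc) := ⟨xc, yc, rfl⟩
  have niw : NI (k * a₀) (k * b₀) (io D (k * a₀) (k * b₀) x₀ y₀) := ⟨x₀, y₀, rfl⟩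
  have hnw := nrm (D := D) hDk x₀ y₀
  generalize io D (k * a₀) (k * b₀) xb yb = nb at hb nib
  generalize io D (k * a₀) (k * b₀) xc yc = nc at hc nic
  generalize io D (k * a₀) (k * b₀) x₀ y₀ = w at niw hnw
  have hstQ : ∀ z : KK D, star ((Q : KK D) * z) = (Q : KK D) * star z := by
    intro z
    rw [star_mul', star_intCast]
  have hc' : pc h = (Q : KK D) * star nc := by
    rw [← hstQ, ← hc, star_star]
  -- products
  have mulok : ∀ {z w : KK D}, OK k b₀ z → OK k b₀ w → OK k b₀ (z * w) :=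
    fun hz hw => ok_mul hk hDk hz hw
  set alK : KK D := ((k * a₀ : ℤ) : KK D) with halKd
  set B : KK D := w * y' * (e₁ : KK D) / alK with hB
  have alB : alK * B = w * (y' * (e₁ : KK D)) := by
    rw [hB]
    field_simp
  have okye : OK k b₀ (y' * (e₁ : KK D)) := mulok oky (ok_int k b₀ e₁)
  have niB : NI (k * a₀) (k * b₀) (alK * B) := by
    rw [alB]
    exact ni_mul hk hDk niw okye
  have hBC : B * star w = (k : KK D) * y' + (Q : KK D) * ((e₂ : KK D) * ((k : KK D) * y')) := by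
    have h1 : alK * (B * star w) = alK * ((k : KK D) * y' +
        (Q : KK D) * ((e₂ : KK D) * ((k : KK D) * y'))) := by
      have h2 : ((k * (a₀ * x₀ ^ 2 + b₀ * x₀ * y₀ + c₀ * y₀ ^ 2) : ℤ) : KK D) * (e₁ : KK D) =
          (k : KK D) * (1 + (Q : KK D) * (e₂ : KK D)) := by
        have h3 : k * (a₀ * x₀ ^ 2 + b₀ * x₀ * y₀ + c₀ * y₀ ^ 2) * e₁ = k * (1 + Q * e₂) := by
          rw [mul_assoc, he]
        exact_mod_cast congrArg (fun n : ℤ => (n : KK D)) h3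
      linear_combination (star w) * alB + (y' * (e₁ : KK D)) * hnw + alK * y' * h2
    exact mul_left_cancel₀ halK h1
  -- the matrix `h₄`
  obtain ⟨p1, p2, p3, p4⟩ := e12 (-B) h
  obtain ⟨r1, r2, r3, r4⟩ := e21 (-(star w)) (E12 (-B) * h)
  set h₄ : GG D := E21 (-(star w)) * (E12 (-B) * h) with hh₄
  rw [p1] at r1 r3
  rw [p2] at r2 r4
  rw [p3] at r3
  rw [p4] at r4
  have hdet4 := gg_det h₄
  have hdet := gg_det h
  -- small products
  obtain ⟨t1, okt1, ht1⟩ := pair hDk hk nib nic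
  obtain ⟨t2, okt2, ht2⟩ := pair hDk hk nib niw
  obtain ⟨t3, okt3, ht3⟩ := pair hDk hk niB nic
  have hbc : pb h * pc h = (Q : KK D) * ((Q : KK D) * t1) := by
    apply mul_left_cancel₀ halK
    rw [hc']
    linear_combination ((Q : KK D) * star nc) * hb + (Q : KK D) * (Q : KK D) * ht1
  have hCb : star w * pb h = (Q : KK D) * t2 := by
    apply mul_left_cancel₀ halK
    linear_combination (star w) * hb + (Q : KK D) * ht2
  have hBc : B * pc h = (Q : KK D) * t3 := by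
    apply mul_left_cancel₀ halK
    rw [hc']
    linear_combination (Q : KK D) * ht3
  -- `d₄ - 1`
  have oksub : ∀ {z w : KK D}, OK k b₀ z → OK k b₀ w → OK k b₀ (z - w) := fun hz hw => by
    rw [sub_eq_add_neg]
    exact ok_add hz (ok_neg hw)
  obtain ⟨s4, oks4, hs4⟩ : ∃ s : KK D, OK k b₀ s ∧ pd h₄ - 1 = (Q : KK D) * s := by
    refine ⟨(Q : KK D) * t1 + (e₂ : KK D) * ((k : KK D) * y') * pd h - t2,
      oksub (ok_add (mulok (ok_int k b₀ Q) okt1) (mulok (mulok (ok_int k b₀ e₂)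
        (mulok (ok_int k b₀ k) oky)) okd)) okt2, ?_⟩
    rw [r4]
    linear_combination pd h * hBC + hdet + hbc - hCb - pd h * hay
  have oka4 : OK k b₀ (pa h₄) := by
    have e : pa h₄ = 1 + (k : KK D) * y' - (Q : KK D) * t3 := by
      rw [r1, hay, ← hBc]
      ring
    rw [e]
    exact oksub (ok_add (ok_one k b₀) (mulok (ok_int k b₀ k) oky))
      (mulok (ok_int k b₀ Q) okt3)
  have nib4 : NI (k * a₀) (k * b₀) (alK * pb h₄) := by
    have e : alK * pb h₄ = nb * (Q : KK D) + -(alK * B * pd h) := by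
      rw [r2]
      linear_combination hb
    rw [e]
    exact ni_add (ni_mul hk hDk nib (ok_int k b₀ Q)) (ni_neg (ni_mul hk hDk niB okd))
  have nic4 : NI (k * a₀) (k * b₀) (star (pc h₄)) := by
    have e : star (pc h₄) = nc * (Q : KK D) + -(w * star (pa h₄)) := by
      have e1 : pc h₄ = pc h + -(star w) * pa h₄ := by rw [r3, r1]
      rw [e1, star_add, star_mul', star_neg, star_star, hc]
      ring
    rw [e]
    exact ni_add (ni_mul hk hDk nic (ok_int k b₀ Q)) (ni_neg (ni_mul hk hDk niw (ok_star oka4)))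
  -- `h₅` and `h₆`
  obtain ⟨a1, a2, a3, a4⟩ := e12 (-(pb h₄)) h₄
  obtain ⟨f1, f2, f3, f4⟩ := e21 (-(pc h₄)) (E12 (-(pb h₄)) * h₄)
  rw [a1] at f1 f3
  rw [a2] at f2 f4
  rw [a3] at f3
  rw [a4] at f4
  have k1 : pa h₄ + -(pb h₄) * pc h₄ = 1 - (Q : KK D) * (pa h₄ * s4) := by
    linear_combination hdet4 - pa h₄ * hs4
  have k2 : pb h₄ + -(pb h₄) * pd h₄ = -((Q : KK D) * (pb h₄ * s4)) := by
    linear_combination -(pb h₄) * hs4
  obtain ⟨t4, okt4, ht4⟩ := pair hDk hk (ni_mul hk hDk nib4 oks4) nic4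
  rw [star_star] at ht4
  have hcb : pc h₄ * (pb h₄ * s4) = t4 := by
    apply mul_left_cancel₀ halK
    linear_combination ht4
  have m1 : E12 (-B) ∈ KT D (k * a₀) (k * b₀) := by
    refine Subgroup.subset_closure (Or.inl (Or.inl ⟨-B, nn_of_ni ?_, rfl⟩))
    have e : alK * -B = -(alK * B) := by ring
    rw [← halKd, e]
    exact ni_neg niB
  have m2 : E21 (-(star w)) ∈ KT D (k * a₀) (k * b₀) := by
    refine Subgroup.subset_closure (Or.inl (Or.inr ⟨-(star w), nn_of_ni ?_, rfl⟩))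
    rw [star_neg, star_star]
    exact ni_neg niw
  have m3 : E12 (-(pb h₄)) ∈ KT D (k * a₀) (k * b₀) := by
    refine Subgroup.subset_closure (Or.inl (Or.inl ⟨-(pb h₄), nn_of_ni ?_, rfl⟩))
    have e : alK * -(pb h₄) = -(alK * pb h₄) := by ring
    rw [← halKd, e]
    exact ni_neg nib4
  have m4 : E21 (-(pc h₄)) ∈ KT D (k * a₀) (k * b₀) := by
    refine Subgroup.subset_closure (Or.inl (Or.inr ⟨-(pc h₄), nn_of_ni ?_, rfl⟩))
    rw [star_neg]
    exact ni_neg nic4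
  refine ⟨E21 (-(pc h₄)) * (E12 (-(pb h₄)) * (E21 (-(star w)) * E12 (-B))),
    mul_mem m4 (mul_mem m3 (mul_mem m2 m1)), ?_⟩
  have e6 : E21 (-(pc h₄)) * (E12 (-(pb h₄)) * (E21 (-(star w)) * E12 (-B))) * h =
      E21 (-(pc h₄)) * (E12 (-(pb h₄)) * h₄) := by
    rw [hh₄]
    group
  rw [e6]
  refine ⟨?_, ?_, ?_, ?_⟩
  · have e : pa (E21 (-(pc h₄)) * (E12 (-(pb h₄)) * h₄)) - 1 =
        (Q : KK D) * -(pa h₄ * s4) := by
      rw [f1, k1]
      ring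
    rw [e]
    exact jd_ok hk ht (ok_neg (mulok oka4 oks4))
  · refine jd_al hal0 ht (ni_neg (ni_mul hk hDk nib4 oks4)) ?_
    rw [f2, k2, ← halKd]
    ring
  · refine jd_star ht (ni_mul hk hDk nic4 (ok_star (mulok oka4 oks4))) ?_
    rw [f3, k1]
    have e : pc h₄ + -(pc h₄) * (1 - (Q : KK D) * (pa h₄ * s4)) =
        (Q : KK D) * (pc h₄ * (pa h₄ * s4)) := by ring
    rw [e, hstQ, star_mul']
  · have e : pd (E21 (-(pc h₄)) * (E12 (-(pb h₄)) * h₄)) - 1 =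
        (Q : KK D) * (s4 + t4) := by
      rw [f4, k2, ← hcb]
      linear_combination hs4
    rw [e]
    exact jd_ok hk ht (ok_add oks4 okt4)

end K3S
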