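import Pool.Agent.K3S.TargetsB

/-!
# K3S.CPR: an element of `KT` makes the norm of `d` prime to `Q` (helper53)
-/

set_option autoImplicit false
set_option linter.unusedSectionVars false
set_option linter.unusedSimpArgs false

namespace K3S

open Matrix

namespace CPR_

/-- the quadratic form -/
def qq (al be ga x y : ℤ) : ℤ := al * x ^ 2 + be * x * y + ga * y ^ 2

/-- the norm of `U + V θ'` -/
def nn (al be ga U V : ℤ) : ℤ := U ^ 2 + be * U * V + al * ga * V ^ 2

/-- the norm of `d + star (io x y) b` -/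
def NO (al be ga u' v' x1 y1 x y : ℤ) : ℤ :=
  nn al be ga (u' + x1 * (al * x + be * y) + ga * y * y1) (v' + x * y1 - y * x1)

theorem qq_mod (al be ga m x y x' y' : ℤ) (hx : x ≡ x' [ZMOD m]) (hy : y ≡ y' [ZMOD m]) :
    qq al be ga x y ≡ qq al be ga x' y' [ZMOD m] := by
  unfold qq
  gcongr

theorem NO_mod (al be ga u' v' x1 y1 m x y x' y' : ℤ) (hx : x ≡ x' [ZMOD m])
    (hy : y ≡ y' [ZMOD m]) :
    NO al be ga u' v' x1 y1 x y ≡ NO al be ga u' v' x1 y1 x' y' [ZMOD m] := by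
  unfold NO nn
  gcongr

theorem loc (al be ga u v u' v' x1 y1 x2 y2 : ℤ)
    (E1 : u * u' - al * ga * v * v' - (al * x1 * x2 + be * x1 * y2 + ga * y1 * y2) = 1)
    (E2 : u * v' + v * u' + be * v * v' - (x2 * y1 - x1 * y2) = 0) (p : ℕ) (hp : p.Prime) :
    ∃ x y : ℤ, ¬ (p : ℤ) ∣ NO al be ga u' v' x1 y1 x y := by
  have hp1 : ¬ (p : ℤ) ∣ 1 := by
    intro h
    have h7 : p ∣ 1 := by exact_mod_cast h
    exact hp.one_lt.ne' (Nat.dvd_one.1 h7)
  have hpp : Prime (p : ℤ) := Nat.prime_iff_prime_int.1 hp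
  obtain ⟨s, hs⟩ : ∃ s, s = nn al be ga u' v' := ⟨_, rfl⟩
  obtain ⟨r, hr⟩ : ∃ r, r = qq al be ga x1 y1 := ⟨_, rfl⟩
  obtain ⟨w1, hw1⟩ : ∃ w1, w1 = x1 * u' + be * x1 * v' + ga * y1 * v' := ⟨_, rfl⟩
  obtain ⟨w2, hw2⟩ : ∃ w2, w2 = y1 * u' - al * x1 * v' := ⟨_, rfl⟩
  have hN : ∀ x y, NO al be ga u' v' x1 y1 x y =
      s + (2 * al * w1 * x + be * (w1 * y + w2 * x) + 2 * ga * w2 * y) +
        r * qq al be ga x y := by
    intro x y
    rw [hs, hr, hw1, hw2]
    simp only [NO, nn, qq]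
    ring
  have hrN : ∀ x y, r * NO al be ga u' v' x1 y1 x y =
      qq al be ga (w1 + r * x) (w2 + r * y) := by
    intro x y
    rw [hr, hw1, hw2]
    simp only [NO, nn, qq]
    ring
  by_cases h1 : (p : ℤ) ∣ s
  swap
  · refine ⟨0, 0, ?_⟩
    rw [hN]
    simpa [qq] using h1
  by_cases h2 : (p : ℤ) ∣ r
  · refine ⟨u * x2 - ga * v * y2, u * y2 + al * v * x2 + be * v * y2, ?_⟩
    intro h
    apply hp1
    obtain ⟨z1, hz1⟩ : ∃ z1, z1 = u * x2 - ga * v * y2 := ⟨_, rfl⟩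
    obtain ⟨z2, hz2⟩ : ∃ z2, z2 = u * y2 + al * v * x2 + be * v * y2 := ⟨_, rfl⟩
    rw [← hz1, ← hz2, hN] at h
    have hB : 2 * al * w1 * z1 + be * (w1 * z2 + w2 * z1) + 2 * ga * w2 * z2 =
        r * qq al be ga x2 y2 + nn al be ga u v * s - 1 := by
      rw [hr, hs, hw1, hw2, hz1, hz2]
      simp only [nn, qq]
      linear_combination (-(u * u' - al * ga * v * v' -
        (al * x1 * x2 + be * x1 * y2 + ga * y1 * y2) + 1)) * E1 -
        (be * (u * u' - al * ga * v * v' - (al * x1 * x2 + be * x1 * y2 + ga * y1 * y2)) +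
          al * ga * (u * v' + v * u' + be * v * v' - (x2 * y1 - x1 * y2))) * E2
    rw [hB] at h
    have h3 := (dvd_add (dvd_mul_of_dvd_left h2 (qq al be ga x2 y2 + qq al be ga z1 z2))
      (dvd_mul_of_dvd_left h1 (1 + nn al be ga u v))).sub h
    have h4 : r * (qq al be ga x2 y2 + qq al be ga z1 z2) + s * (1 + nn al be ga u v) -
      (s + (r * qq al be ga x2 y2 + nn al be ga u v * s - 1) + r * qq al be ga z1 z2) = 1 := by
      ring
    rwa [h4] at h3
  · obtain ⟨ex, ey, he⟩ : ∃ ex ey : ℤ, ¬ (p : ℤ) ∣ qq al be ga ex ey := by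
      by_contra hcon
      push Not at hcon
      have g1 := hcon 1 0
      have g2 := hcon 0 1
      have g3 := hcon 1 1
      simp only [qq] at g1 g2 g3
      apply h2
      have g1' : (p : ℤ) ∣ al := by
        have e : al * 1 ^ 2 + be * 1 * 0 + ga * 0 ^ 2 = al := by ring
        rwa [e] at g1
      have g2' : (p : ℤ) ∣ ga := by
        have e : al * 0 ^ 2 + be * 0 * 1 + ga * 1 ^ 2 = ga := by ring
        rwa [e] at g2
      have g3' : (p : ℤ) ∣ be := by
        have e : al * 1 ^ 2 + be * 1 * 1 + ga * 1 ^ 2 = be + (al + ga) := by ring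
        rw [e] at g3
        exact (dvd_add_left (dvd_add g1' g2')).1 g3
      rw [hr]
      simp only [qq]
      exact dvd_add (dvd_add (dvd_mul_of_dvd_left g1' _)
        (dvd_mul_of_dvd_left (dvd_mul_of_dvd_left g3' _) _)) (dvd_mul_of_dvd_left g2' _)
    have hco : IsCoprime r (p : ℤ) := (hpp.coprime_iff_not_dvd.2 h2).symm
    obtain ⟨α, β, hab⟩ := hco
    refine ⟨α * (ex - w1), α * (ey - w2), ?_⟩
    intro h
    apply he
    have h3 : (p : ℤ) ∣ qq al be ga (w1 + r * (α * (ex - w1))) (w2 + r * (α * (ey - w2))) := by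
      rw [← hrN]
      exact dvd_mul_of_dvd_right h r
    have h4 := qq_mod al be ga (p : ℤ) (w1 + r * (α * (ex - w1))) (w2 + r * (α * (ey - w2)))
      ex ey ?_ ?_
    · exact (Int.ModEq.dvd_iff h4).1 h3
    · rw [Int.modEq_iff_dvd]
      exact ⟨β * (ex - w1), by linear_combination -(ex - w1) * hab⟩
    · rw [Int.modEq_iff_dvd]
      exact ⟨β * (ey - w2), by linear_combination -(ey - w2) * hab⟩

theorem crt (F : ℤ → ℤ → ℤ) (hF : ∀ m x y x' y' : ℤ, x ≡ x' [ZMOD m] → y ≡ y' [ZMOD m] →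
    F x y ≡ F x' y' [ZMOD m]) (T : Finset ℕ) (hT : ∀ p ∈ T, p.Prime)
    (h : ∀ p ∈ T, ∃ x y, ¬ (p : ℤ) ∣ F x y) : ∃ x y, ∀ p ∈ T, ¬ (p : ℤ) ∣ F x y := by
  classical
  induction T using Finset.induction_on with
  | empty => exact ⟨0, 0, by simp⟩
  | insert p T hpT ih =>
    obtain ⟨x, y, hxy⟩ := ih (fun q hq => hT q (Finset.mem_insert_of_mem hq))
      (fun q hq => h q (Finset.mem_insert_of_mem hq))
    obtain ⟨x', y', hxy'⟩ := h p (Finset.mem_insert_self _ _)
    have hco : IsCoprime ((∏ q ∈ T, q : ℕ) : ℤ) (p : ℤ) := by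
      rw [Nat.isCoprime_iff_coprime]
      apply Nat.Coprime.prod_left
      intro q hq
      refine (Nat.coprime_primes (hT q (Finset.mem_insert_of_mem hq))
        (hT p (Finset.mem_insert_self _ _))).2 ?_
      rintro rfl
      exact hpT hq
    obtain ⟨P, hP⟩ : ∃ P : ℤ, P = ((∏ q ∈ T, q : ℕ) : ℤ) := ⟨_, rfl⟩
    rw [← hP] at hco
    obtain ⟨α, β, hab⟩ := hco
    refine ⟨x * (β * p) + x' * (α * P), y * (β * p) + y' * (α * P), ?_⟩
    intro q hq
    rcases Finset.mem_insert.1 hq with rfl | hq'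
    · intro hd
      apply hxy'
      refine (Int.ModEq.dvd_iff (hF q _ _ x' y' ?_ ?_)).1 hd
      · rw [Int.modEq_iff_dvd]
        exact ⟨β * (x' - x), by linear_combination -x' * hab⟩
      · rw [Int.modEq_iff_dvd]
        exact ⟨β * (y' - y), by linear_combination -y' * hab⟩
    · intro hd
      have hqP : (q : ℤ) ∣ P := by
        rw [hP]
        exact_mod_cast Finset.dvd_prod_of_mem _ hq'
      obtain ⟨k, hk⟩ := hqP
      apply hxy q hq'
      refine (Int.ModEq.dvd_iff (hF q _ _ x y ?_ ?_)).1 hd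
      · rw [Int.modEq_iff_dvd]
        exact ⟨k * α * (x - x'), by linear_combination -x * hab + α * (x - x') * hk⟩
      · rw [Int.modEq_iff_dvd]
        exact ⟨k * α * (y - y'), by linear_combination -y * hab + α * (y - y') * hk⟩

theorem cop {n Q : ℤ} (hQ : Q ≠ 0) (h : ∀ p ∈ Q.natAbs.primeFactors, ¬ (p : ℤ) ∣ n) :
    IsCoprime n Q := by
  rw [Int.isCoprime_iff_gcd_eq_one]
  by_contra hg
  obtain ⟨p, hp, hpd⟩ := Nat.exists_prime_and_dvd hg
  have h1 : (p : ℤ) ∣ n := (Int.natCast_dvd_natCast.2 hpd).trans (Int.gcd_dvd_left ..)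
  have h2 : (p : ℤ) ∣ Q := (Int.natCast_dvd_natCast.2 hpd).trans (Int.gcd_dvd_right ..)
  refine h p ?_ h1
  rw [Nat.mem_primeFactors]
  exact ⟨hp, Int.natCast_dvd.1 h2, by simpa using hQ⟩

/-- the element `U + V θ'` -/
def EL (D be : ℤ) (U V : ℚ) : KK D := ⟨U + V * be / 2, V / 2⟩

end CPR_

open CPR_ in
theorem p_CPR : T_CPR := by
  intro D _ al be ga hD Q hQ h hh
  have hal : al ≠ 0 := by
    rintro rfl
    exact NS.nsq (D := D) ⟨be, by rw [hD]; ring⟩
  have halq : (al : ℚ) ≠ 0 := by exact_mod_cast hal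
  have halK : ((al : ℤ) : KK D) ≠ 0 := by
    intro h0
    have := congrArg QuadraticAlgebra.re h0
    simp only [QuadraticAlgebra.re_intCast, QuadraticAlgebra.re_zero] at this
    exact halq this
  have hDq : (D : ℚ) = (be : ℚ) ^ 2 - 4 * al * ga := by exact_mod_cast hD
  obtain ⟨⟨_, hu, _, hv, ha⟩, ⟨_, hu', _, hv', hd⟩, ⟨_, hx1, _, hy1, hb⟩,
    ⟨_, hx2, _, hy2, hc⟩⟩ := hh
  obtain ⟨u, rfl⟩ := mem_Zr.1 hu
  obtain ⟨v, rfl⟩ := mem_Zr.1 hv
  obtain ⟨u', rfl⟩ := mem_Zr.1 hu'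
  obtain ⟨v', rfl⟩ := mem_Zr.1 hv'
  obtain ⟨x1, rfl⟩ := mem_Zr.1 hx1
  obtain ⟨y1, rfl⟩ := mem_Zr.1 hy1
  obtain ⟨x2, rfl⟩ := mem_Zr.1 hx2
  obtain ⟨y2, rfl⟩ := mem_Zr.1 hy2
  have hc' : pc h = star (io D al be x2 y2) := by rw [← hc, star_star]
  have hdet := gg_det h
  have hdet2 : ((al : ℤ) : KK D) * (pa h * pd h) - (((al : ℤ) : KK D) * pb h) * pc h =
      ((al : ℤ) : KK D) := by linear_combination ((al : ℤ) : KK D) * hdet
  rw [ha, hd, hb, hc'] at hdet2
  have hre := congrArg QuadraticAlgebra.re hdet2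
  have him := congrArg QuadraticAlgebra.im hdet2
  simp only [io, QuadraticAlgebra.re_sub, QuadraticAlgebra.im_sub, QuadraticAlgebra.re_mul,
    QuadraticAlgebra.im_mul, QuadraticAlgebra.re_intCast, QuadraticAlgebra.im_intCast,
    QuadraticAlgebra.re_star, QuadraticAlgebra.im_star] at hre him
  rw [hDq] at hre
  have E1q : (u : ℚ) * u' - al * ga * v * v' -
      (al * x1 * x2 + be * x1 * y2 + ga * y1 * y2) = 1 := by
    apply mul_left_cancel₀ halq
    linear_combination hre - be * him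
  have E2q : (u : ℚ) * v' + v * u' + be * v * v' - (x2 * y1 - x1 * y2) = 0 := by
    apply mul_left_cancel₀ halq
    linear_combination 2 * him
  have E1 : u * u' - al * ga * v * v' - (al * x1 * x2 + be * x1 * y2 + ga * y1 * y2) = 1 := by
    exact_mod_cast E1q
  have E2 : u * v' + v * u' + be * v * v' - (x2 * y1 - x1 * y2) = 0 := by exact_mod_cast E2q
  obtain ⟨x, y, hxy⟩ := crt (NO al be ga u' v' x1 y1)
    (fun m x y x' y' h1 h2 => NO_mod al be ga u' v' x1 y1 m x y x' y' h1 h2)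
    Q.natAbs.primeFactors (fun p hp => Nat.prime_of_mem_primeFactors hp)
    (fun p hp => loc al be ga u v u' v' x1 y1 x2 y2 E1 E2 p (Nat.prime_of_mem_primeFactors hp))
  have hcop := cop hQ hxy
  have mz : ∀ n : ℤ, (n : ℚ) ∈ Zr := fun n => mem_Zr.2 ⟨n, rfl⟩
  have hpd : pd (E21 (star (io D al be x y)) * h) =
      ⟨((u' + x1 * (al * x + be * y) + ga * y * y1 : ℤ) : ℚ) +
        ((v' + x * y1 - y * x1 : ℤ) : ℚ) * be / 2, ((v' + x * y1 - y * x1 : ℤ) : ℚ) / 2⟩ := by
    apply mul_left_cancel₀ halK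
    have e : ((al : ℤ) : KK D) * pd (E21 (star (io D al be x y)) * h) =
        star (io D al be x y) * (((al : ℤ) : KK D) * pb h) + ((al : ℤ) : KK D) * pd h := by
      rw [mul_11]
      simp only [E21, mk4_10, mk4_11]
      ring
    rw [e, hb, hd]
    ext
    · simp only [io, QuadraticAlgebra.re_add, QuadraticAlgebra.re_mul,
        QuadraticAlgebra.re_intCast, QuadraticAlgebra.im_intCast,
        QuadraticAlgebra.re_star, QuadraticAlgebra.im_star]
      push_cast
      rw [hDq]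
      ring
    · simp only [io, QuadraticAlgebra.im_add, QuadraticAlgebra.im_mul,
        QuadraticAlgebra.re_intCast, QuadraticAlgebra.im_intCast,
        QuadraticAlgebra.re_star, QuadraticAlgebra.im_star]
      push_cast
      ring
  refine ⟨E21 (star (io D al be x y)), ?_, ⟨?_, ?_, ?_, ?_⟩, ?_⟩
  · refine Subgroup.subset_closure (Or.inl (Or.inr ⟨star (io D al be x y), ?_, rfl⟩))
    exact ⟨x, mz x, y, mz y, star_star _⟩
  · refine ⟨u, mz u, v, mz v, ?_⟩
    rw [mul_00, ha]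
    simp [E21]
  · exact ⟨_, mz _, _, mz _, hpd⟩
  · refine ⟨x1, mz x1, y1, mz y1, ?_⟩
    rw [← hb, mul_01]
    simp [E21]
  · refine ⟨((x * (u + v * be) + ga * y * v + x2 : ℤ) : ℚ), mz _,
      ((y * u - al * x * v + y2 : ℤ) : ℚ), mz _, ?_⟩
    rw [mul_10, star_add, star_mul, star_mul, ha, hc']
    simp only [E21, mk4_10, mk4_11, star_star, star_one, mul_one]
    ext
    · simp only [io, QuadraticAlgebra.re_add, QuadraticAlgebra.re_mul,
        QuadraticAlgebra.re_intCast, QuadraticAlgebra.im_intCast,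
        QuadraticAlgebra.re_star, QuadraticAlgebra.im_star]
      push_cast
      rw [hDq]
      ring
    · simp only [io, QuadraticAlgebra.im_add, QuadraticAlgebra.im_mul,
        QuadraticAlgebra.re_intCast, QuadraticAlgebra.im_intCast,
        QuadraticAlgebra.re_star, QuadraticAlgebra.im_star]
      push_cast
      ring
  · refine ⟨_, ?_, hcop⟩
    rw [hpd, QuadraticAlgebra.norm_def]
    simp only [NO, nn]
    push_cast
    rw [hDq]
    ring

end K3S
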