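import Pool.Agent.K3S.TargetsB

/-!
# MP_98be90_ag, part B, target DEC
-/

set_option autoImplicit false
set_option linter.unusedSectionVars false

namespace K3S

open Matrix

namespace DEC_

theorem split (al be ga : ℤ) (hal : al ≠ 0) : ∃ k a₀ b₀ c₀ : ℤ, 0 < k ∧ al = k * a₀ ∧
    be = k * b₀ ∧ ga = k * c₀ ∧ ∀ p : ℤ, Prime p → ¬ (p ∣ a₀ ∧ p ∣ b₀ ∧ p ∣ c₀) := by
  set k : ℕ := Int.gcd al (Int.gcd be ga) with hk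
  have hk0 : 0 < k := Int.gcd_pos_of_ne_zero_left _ hal
  have h1 : (k : ℤ) ∣ al := Int.gcd_dvd_left _ _
  have h23 : (k : ℤ) ∣ (Int.gcd be ga : ℤ) := Int.gcd_dvd_right _ _
  have h2 : (k : ℤ) ∣ be := h23.trans (Int.gcd_dvd_left _ _)
  have h3 : (k : ℤ) ∣ ga := h23.trans (Int.gcd_dvd_right _ _)
  obtain ⟨a₀, ha⟩ := h1
  obtain ⟨b₀, hb⟩ := h2
  obtain ⟨c₀, hc⟩ := h3
  refine ⟨k, a₀, b₀, c₀, by exact_mod_cast hk0, ha, hb, hc, ?_⟩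
  rintro p hp ⟨⟨a, rfl⟩, ⟨b, rfl⟩, ⟨c, rfl⟩⟩
  have e1 : (k : ℤ) * p ∣ al := ⟨a, by rw [ha]; ring⟩
  have e2 : (k : ℤ) * p ∣ be := ⟨b, by rw [hb]; ring⟩
  have e3 : (k : ℤ) * p ∣ ga := ⟨c, by rw [hc]; ring⟩
  have e4 : (k : ℤ) * p ∣ (k : ℤ) := Int.dvd_coe_gcd e1 (Int.dvd_coe_gcd e2 e3)
  have hk1 : (k : ℤ) ≠ 0 := by exact_mod_cast hk0.ne'
  obtain ⟨t, ht⟩ := e4
  have e5 : (k : ℤ) * 1 = k * (p * t) := by rw [mul_one, ← mul_assoc]; exact ht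
  have e6 := mul_left_cancel₀ hk1 e5
  exact hp.not_isUnit (IsUnit.of_mul_eq_one t e6.symm)

end DEC_

open DEC_ in
theorem p_DEC (hCPR : T_CPR) (hCDI : T_CDI) (hCIN : T_CIN) (hCON : T_CON) : T_DEC := by
  intro D _ al be ga hD q hq h hh
  have hal : al ≠ 0 := by
    rintro rfl
    have h1 : D = be * be := by rw [hD]; ring
    exact NS.nsq (D := D) ⟨be, h1⟩
  obtain ⟨k, a₀, b₀, c₀, hk, ha, hb, hc, hp⟩ := split al be ga hal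
  have hQ : 0 < 2 * k * |al| * q := by
    have : 0 < |al| := abs_pos.mpr hal
    positivity
  have hkQ : k ∣ 2 * k * |al| * q := ⟨2 * |al| * q, by ring⟩
  have hdQ : 2 * k * al * q ∣ 2 * k * |al| * q := by
    have h1 : al ∣ |al| := (dvd_abs al al).mpr dvd_rfl
    exact mul_dvd_mul_right (mul_dvd_mul_left _ h1) _
  obtain ⟨κ₁, m1, r1, s, hs, hcop⟩ := hCPR D al be ga hD _ hQ.ne' h hh
  obtain ⟨κ₂, m2, r2, d2⟩ := hCDI D al be ga hD _ hQ (κ₁ * h) r1 ⟨s, hs, hcop⟩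
  obtain ⟨κ₃, m3, r3, d3, huv⟩ := hCIN D al be ga k a₀ b₀ c₀ hD hk ha hb hc _ hQ hkQ
    (κ₂ * (κ₁ * h)) r2 d2
  obtain ⟨κ₄, m4, r4⟩ := hCON D al be ga k a₀ b₀ c₀ hD hk ha hb hc hp q _ hq hQ hdQ
    (κ₃ * (κ₂ * (κ₁ * h))) r3 d3 huv
  refine ⟨κ₄ * κ₃ * κ₂ * κ₁, ?_, ?_⟩
  · exact mul_mem (mul_mem (mul_mem m4 m3) m2) m1
  · have e : κ₄ * κ₃ * κ₂ * κ₁ * h = κ₄ * (κ₃ * (κ₂ * (κ₁ * h))) := by
      simp only [mul_assoc]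
    rw [e]
    exact r4

end K3S
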