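import Pool.Agent.K3S.TargetsB

/-!
# MP_98be90_ag, part B, target ELE: elementary matrices preserve the lattice
-/

set_option autoImplicit false

namespace K3S

open Matrix

namespace ELE_

theorem act12 {D : ℤ} (x : KK D) (v : VV D) : act 1 x 0 1 1 v =
    (v.1 + 2 * (v.2.1.re * x.re - D * v.2.1.im * x.im) + (x.re ^ 2 - D * x.im ^ 2) * v.2.2,
      ⟨v.2.1.re + v.2.2 * x.re, v.2.1.im + v.2.2 * x.im⟩, v.2.2) := by
  refine Prod.ext ?_ (Prod.ext ?_ ?_)
  · simp [act, QuadraticAlgebra.norm_def, QuadraticAlgebra.re_one, QuadraticAlgebra.im_one]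
    ring
  · apply QuadraticAlgebra.ext <;> simp [act]
  · simp [act, QuadraticAlgebra.norm_def, QuadraticAlgebra.re_one, QuadraticAlgebra.im_one]

theorem act21 {D : ℤ} (c : KK D) (v : VV D) : act 1 0 c 1 1 v =
    (v.1, ⟨v.2.1.re + v.1 * c.re, v.2.1.im - v.1 * c.im⟩,
      v.2.2 + 2 * (c.re * v.2.1.re + D * c.im * v.2.1.im) +
        (c.re ^ 2 - D * c.im ^ 2) * v.1) := by
  refine Prod.ext ?_ (Prod.ext ?_ ?_)
  · simp [act, QuadraticAlgebra.norm_def, QuadraticAlgebra.re_one, QuadraticAlgebra.im_one]
  · apply QuadraticAlgebra.ext <;> simp [act] <;> ring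
  · simp [act, QuadraticAlgebra.norm_def, QuadraticAlgebra.re_one, QuadraticAlgebra.im_one]
    ring

end ELE_

open ELE_ in
/-- **ELE** -/
theorem p_ELE : T_ELE := by
  intro D hNS al be ga hD S
  have hal : (al : ℚ) ≠ 0 := by
    intro h
    have h1 : al = 0 := by exact_mod_cast h
    refine hNS.nsq ⟨be, ?_⟩
    rw [hD, h1]
    ring
  have hDq : (D : ℚ) = be ^ 2 - 4 * al * ga := by rw [hD]; push_cast; ring
  have hz : ∀ n : ℤ, (n : ℚ) ∈ S := fun n => intCast_mem S n
  have h2 : (2 : ℚ) ∈ S := by exact_mod_cast hz 2
  constructor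
  · rintro x ⟨x', hx', y', hy', hx⟩
    have e1 : x.re = x' + be * y' / (2 * al) := by
      have h := congrArg QuadraticAlgebra.re hx
      simp [io] at h
      field_simp
      linear_combination 2 * h
    have e2 : x.im = y' / (2 * al) := by
      have h := congrArg QuadraticAlgebra.im hx
      simp [io] at h
      field_simp
      linear_combination 2 * h
    constructor
    · rintro ⟨r, w, t⟩ ⟨hr, ⟨X, hX, Y, hY, hw⟩, s, hs, ht⟩
      simp only at hr hw ht
      subst hw ht
      rw [act12]
      refine ⟨?_, ⟨X + s * x', add_mem hX (mul_mem hs hx'), Y + s * y',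
        add_mem hY (mul_mem hs hy'), ?_⟩, s, hs, rfl⟩
      · have e : r + 2 * ((io D al be X Y).re * x.re - D * (io D al be X Y).im * x.im) +
            (x.re ^ 2 - D * x.im ^ 2) * (al * s) =
            r + (2 * al * (X * x') + be * (X * y' + Y * x') + 2 * ga * (Y * y')) +
              (al * (x' * x') + be * (x' * y') + ga * (y' * y')) * s := by
          simp only [io, e1, e2, hDq]
          field_simp
          ring
        simp only
        rw [e]
        exact add_mem (add_mem hr (add_mem (add_mem
          (mul_mem (mul_mem h2 (hz al)) (mul_mem hX hx'))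
          (mul_mem (hz be) (add_mem (mul_mem hX hy') (mul_mem hY hx'))))
          (mul_mem (mul_mem h2 (hz ga)) (mul_mem hY hy'))))
          (mul_mem (add_mem (add_mem (mul_mem (hz al) (mul_mem hx' hx'))
            (mul_mem (hz be) (mul_mem hx' hy'))) (mul_mem (hz ga) (mul_mem hy' hy'))) hs)
      · apply QuadraticAlgebra.ext
        · simp only [io, e1]
          field_simp
          ring
        · simp only [io, e2]
          field_simp
    · rintro ν ⟨X, hX, Y, hY, hν⟩
      have n1 : (D : ℚ) * ν.im = al * X + be * Y / 2 := by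
        have h := congrArg QuadraticAlgebra.re hν
        simpa [io, sqD] using h
      have n2 : ν.re = Y / 2 := by
        have h := congrArg QuadraticAlgebra.im hν
        simpa [io, sqD] using h
      rw [act12]
      refine ⟨?_, ⟨0, zero_mem S, 0, zero_mem S, ?_⟩, 0, zero_mem S, ?_⟩
      · have e : 2 * (ν.re * x.re - D * ν.im * x.im) = Y * x' - X * y' := by
          rw [n1, n2, e1, e2]
          field_simp
          ring
        have e' : ((0 : ℚ) + 2 * (ν.re * x.re - D * ν.im * x.im) +
            (x.re ^ 2 - D * x.im ^ 2) * 0) - 0 = Y * x' - X * y' := by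
          rw [e]
          ring
        change (0 : ℚ) + 2 * (ν.re * x.re - D * ν.im * x.im) +
            (x.re ^ 2 - D * x.im ^ 2) * 0 - 0 ∈ S
        rw [e']
        exact sub_mem (mul_mem hY hx') (mul_mem hX hy')
      · apply QuadraticAlgebra.ext <;> simp [io]
      · simp
  · rintro c ⟨x', hx', y', hy', hc⟩
    have e1 : c.re = al * x' + be * y' / 2 := by
      have h := congrArg QuadraticAlgebra.re hc
      simpa [io] using h
    have e2 : c.im = -(y' / 2) := by
      have h := congrArg QuadraticAlgebra.im hc
      simp [io] at h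
      linear_combination -h
    constructor
    · rintro ⟨r, w, t⟩ ⟨hr, ⟨X, hX, Y, hY, hw⟩, s, hs, ht⟩
      simp only at hr hw ht
      subst hw ht
      rw [act21]
      refine ⟨hr, ⟨X + r * x', add_mem hX (mul_mem hr hx'), Y + r * y',
        add_mem hY (mul_mem hr hy'), ?_⟩,
        s + (2 * al * (X * x') + be * (X * y' + Y * x') + 2 * ga * (Y * y')) +
              (al * (x' * x') + be * (x' * y') + ga * (y' * y')) * r, ?_, ?_⟩
      · apply QuadraticAlgebra.ext
        · simp only [io, e1]
          ring
        · simp only [io, e2]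
          ring
      · exact add_mem (add_mem hs (add_mem (add_mem
          (mul_mem (mul_mem h2 (hz al)) (mul_mem hX hx'))
          (mul_mem (hz be) (add_mem (mul_mem hX hy') (mul_mem hY hx'))))
          (mul_mem (mul_mem h2 (hz ga)) (mul_mem hY hy'))))
          (mul_mem (add_mem (add_mem (mul_mem (hz al) (mul_mem hx' hx'))
            (mul_mem (hz be) (mul_mem hx' hy'))) (mul_mem (hz ga) (mul_mem hy' hy'))) hr)
      · simp only [io, e1, e2, hDq]
        ring
    · rintro ν ⟨X, hX, Y, hY, hν⟩
      have n1 : (D : ℚ) * ν.im = al * X + be * Y / 2 := by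
        have h := congrArg QuadraticAlgebra.re hν
        simpa [io, sqD] using h
      have n2 : ν.re = Y / 2 := by
        have h := congrArg QuadraticAlgebra.im hν
        simpa [io, sqD] using h
      rw [act21]
      refine ⟨?_, ⟨0, zero_mem S, 0, zero_mem S, ?_⟩, x' * Y - X * y', ?_, ?_⟩
      · change (0 : ℚ) - 0 ∈ S
        rw [sub_zero]
        exact zero_mem S
      · apply QuadraticAlgebra.ext <;> simp [io]
      · exact sub_mem (mul_mem hx' hY) (mul_mem hX hy')
      · change (0 : ℚ) + 2 * (c.re * ν.re + D * c.im * ν.im) +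
            (c.re ^ 2 - D * c.im ^ 2) * 0 - 0 = al * (x' * Y - X * y')
        rw [e1, e2, n2]
        linear_combination -y' * n1

end K3S
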