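import Pool.Agent.K3S.TargetsC

/-!
# MP_98be90_ag, part C: FWD, orientation preserving implies `g ∈ KL`
-/

set_option autoImplicit false
set_option linter.unusedSectionVars false

namespace K3S

open Matrix

namespace FWD_

theorem al_ne (D : ℤ) [hN : NS D] {al be ga : ℤ} (h : D = be ^ 2 - 4 * al * ga) : al ≠ 0 := by
  rintro rfl
  exact hN.nsq ⟨be, by rw [h]; ring⟩

theorem Re_mul {D al be : ℤ} {Λ : Type} [AddCommGroup Λ] {B : LinearMap.BilinForm ℤ Λ}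
    {e f F G x₀ y₀ : Λ} {g k : Λ ≃ₗ[ℤ] Λ} {φ ψ : VV D →ₗ[ℚ] VV D}
    (hg : Re D al be B e f F G x₀ y₀ g φ) (hk : Re D al be B e f F G x₀ y₀ k ψ) :
    Re D al be B e f F G x₀ y₀ (g * k) (φ.comp ψ) := by
  refine ⟨⟨fun x y => ?_, fun t ht => ?_⟩, fun v hv => ?_⟩
  · exact (hg.1.1 (k x) (k y)).trans (hk.1.1 x y)
  · show g (k t) = t
    rw [hk.1.2 t ht, hg.1.2 t ht]
  · have h1 := hk.2 v hv
    have h2 := hg.2 (k v) h1.1
    refine ⟨h2.1, ?_⟩
    show crd D al be B e f x₀ y₀ (g (k v)) = φ (ψ (crd D al be B e f x₀ y₀ v))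
    rw [h2.2, h1.2]

theorem IL_s0 {D al be : ℤ} (hal : al ≠ 0) {S : Subring ℚ} {φ : VV D →ₗ[ℚ] VV D}
    (h : IL S al be φ) : IL S al be (φ.comp (s0 al)) := by
  have hal' : (al : ℚ) ≠ 0 := by exact_mod_cast hal
  refine ⟨fun v hv => ?_, fun ν hν => ?_⟩
  · obtain ⟨h1, h2, s, hs, h3⟩ := hv
    refine h.1 _ ⟨?_, h2, -v.1, S.neg_mem h1, ?_⟩
    · show -v.2.2 / (al : ℚ) ∈ S
      rw [h3, neg_div, mul_div_cancel_left₀ _ hal']
      exact S.neg_mem hs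
    · show -(al : ℚ) * v.1 = al * -v.1
      ring
  · have e : s0 al ((0, ν, 0) : VV D) = (0, ν, 0) := by
      refine Prod.ext ?_ (Prod.ext rfl ?_)
      · show -(0 : ℚ) / (al : ℚ) = 0
        simp
      · show -(al : ℚ) * 0 = 0
        simp
    rw [LinearMap.comp_apply, e]
    exact h.2 ν hν

end FWD_

open FWD_ in
theorem p_FWD (h_GD : T_GD) (h_LIF : T_LIF) (h_ORF : T_ORF) (h_ROT : T_ROT) (h_RR : T_RR)
    (h_SO : T_SO) : T_FWD := by
  intro D _ al be ga hD Λ _ B e f F G x₀ y₀ hS h hh hB g hg ho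
  have hal := al_ne D hD
  obtain ⟨φ, hRe, hq, hIL⟩ := h_GD D al be ga hD Λ B e f F G x₀ y₀ hS g hg
  obtain ⟨a, b, c, d, ρ, hρ, hdet, hφ⟩ := h_LIF D al be ga hD φ hq
  have hρ0 : 0 < ρ := (h_ORF D al be ga hD Λ B e f F G x₀ y₀ hS h hh hB g φ a b c d ρ hρ hdet
    hφ hRe).1 ho
  rcases hφ with rfl | hφ
  · exact h_ROT D al be ga hD Λ B e f F G x₀ y₀ hS g a b c d ρ hρ0 hdet hIL hRe
  · obtain ⟨k, hk, hRk⟩ := (h_RR D al be ga hD Λ B e f F G x₀ y₀ hS).1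
    have e1 : act a b c d ρ = φ.comp (s0 al) := by
      refine LinearMap.ext fun v => ?_
      rw [hφ, LinearMap.comp_apply, LinearMap.comp_apply, (h_SO D al hal).1 v]
    have h1 : g * k ∈ KL B e f F G := by
      refine h_ROT D al be ga hD Λ B e f F G x₀ y₀ hS (g * k) a b c d ρ hρ0 hdet ?_ ?_
      · rw [e1]
        exact IL_s0 hal hIL
      · rw [e1]
        exact Re_mul hRe hRk
    have h2 := (KL B e f F G).mul_mem h1 ((KL B e f F G).inv_mem hk)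
    rwa [mul_inv_cancel_right] at h2

end K3S
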