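import Pool.Agent.K3S.TargetsC

/-!
# MP_98be90_ag, target GD: a `Good` isometry gives an isometry of `VV D`
-/

set_option autoImplicit false
set_option linter.unusedSectionVars false
set_option linter.unusedSimpArgs false

namespace K3S

open Matrix

namespace GD_

variable {Λ : Type} [AddCommGroup Λ] {B : LinearMap.BilinForm ℤ Λ} {e f F G x₀ y₀ : Λ}
  {al be ga : ℤ}

theorem cf (S : Sit B e f F G x₀ y₀ al be ga) (a b c d : ℤ) :
    B f (a • e + b • F + c • G + d • f) = -a := by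
  simp only [map_add, map_smul, smul_eq_mul, S.symm f e, S.ef, S.fF, S.fG, S.ff]
  ring

theorem ce (S : Sit B e f F G x₀ y₀ al be ga) (a b c d : ℤ) :
    B e (a • e + b • F + c • G + d • f) = -d := by
  simp only [map_add, map_smul, smul_eq_mul, S.ee, S.ef, S.eF, S.eG]
  ring

theorem cx (S : Sit B e f F G x₀ y₀ al be ga) (a b c d : ℤ) :
    B x₀ (a • e + b • F + c • G + d • f) = b := by
  simp only [map_add, map_smul, smul_eq_mul, S.symm x₀ e, S.symm x₀ f, S.symm x₀ F, S.symm x₀ G,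
    S.ex, S.fx, S.Fx, S.Gx]
  ring

theorem cy (S : Sit B e f F G x₀ y₀ al be ga) (a b c d : ℤ) :
    B y₀ (a • e + b • F + c • G + d • f) = c := by
  simp only [map_add, map_smul, smul_eq_mul, S.symm y₀ e, S.symm y₀ f, S.symm y₀ F, S.symm y₀ G,
    S.ey, S.fy, S.Fy, S.Gy]
  ring

theorem inM_mk (S : Sit B e f F G x₀ y₀ al be ga) (a b c d : ℤ) :
    InM B e f F G x₀ y₀ (a • e + b • F + c • G + d • f) := by
  unfold InM
  rw [cf S, ce S, cx S, cy S, neg_neg, neg_neg]

theorem inM_iff (S : Sit B e f F G x₀ y₀ al be ga) (v : Λ) :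
    InM B e f F G x₀ y₀ v ↔ ∃ a b c d : ℤ, v = a • e + b • F + c • G + d • f := by
  constructor
  · intro h
    exact ⟨_, _, _, _, h⟩
  · rintro ⟨a, b, c, d, rfl⟩
    exact inM_mk S a b c d

theorem inM_add (S : Sit B e f F G x₀ y₀ al be ga) {u v : Λ} (hu : InM B e f F G x₀ y₀ u)
    (hv : InM B e f F G x₀ y₀ v) : InM B e f F G x₀ y₀ (u + v) := by
  rw [inM_iff S] at hu hv ⊢
  obtain ⟨a, b, c, d, rfl⟩ := hu
  obtain ⟨a', b', c', d', rfl⟩ := hv
  exact ⟨a + a', b + b', c + c', d + d', by module⟩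

/-- orthogonal to `T` implies in `M` -/
theorem inM_of_orth (S : Sit B e f F G x₀ y₀ al be ga) {z : Λ}
    (hz : ∀ t, B e t = 0 ∧ B f t = 0 ∧ B F t = 0 ∧ B G t = 0 → B z t = 0) :
    InM B e f F G x₀ y₀ z := by
  unfold InM
  rw [← sub_eq_zero]
  refine S.nondeg _ fun v => ?_
  have ht := hz (v + (B f v) • e + (B e v) • f - (B F v) • x₀ - (B G v) • y₀) (by
    refine ⟨?_, ?_, ?_, ?_⟩
    · simp only [map_add, map_sub, map_smul, smul_eq_mul, S.ee, S.ef, S.ex, S.ey]
      ring
    · simp only [map_add, map_sub, map_smul, smul_eq_mul, S.symm f e, S.ef, S.ff, S.fx, S.fy]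
      ring
    · simp only [map_add, map_sub, map_smul, smul_eq_mul, S.symm F e, S.symm F f, S.eF, S.fF,
        S.Fx, S.Fy]
      ring
    · simp only [map_add, map_sub, map_smul, smul_eq_mul, S.symm G e, S.symm G f, S.eG, S.fG,
        S.Gx, S.Gy]
      ring)
  simp only [map_add, map_sub, map_smul, smul_eq_mul] at ht
  simp only [map_add, map_sub, map_smul, smul_eq_mul, LinearMap.add_apply, LinearMap.sub_apply,
    LinearMap.smul_apply]
  rw [S.symm z e, S.symm z f, S.symm z x₀, S.symm z y₀] at ht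
  linarith

theorem good_sub (S : Sit B e f F G x₀ y₀ al be ga) {g : Λ ≃ₗ[ℤ] Λ} (hg : Good B e f F G g)
    (z : Λ) : InM B e f F G x₀ y₀ (g z - z) := by
  refine inM_of_orth S fun t ht => ?_
  have h1 := hg.1 z t
  rw [hg.2 t ht] at h1
  rw [map_sub, LinearMap.sub_apply, h1, sub_self]

theorem good_inM (S : Sit B e f F G x₀ y₀ al be ga) {g : Λ ≃ₗ[ℤ] Λ} (hg : Good B e f F G g)
    {z : Λ} (hz : InM B e f F G x₀ y₀ z) : InM B e f F G x₀ y₀ (g z) := by
  have := inM_add S (good_sub S hg z) hz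
  rwa [sub_add_cancel] at this

theorem crd_add (D : ℤ) (u v : Λ) : crd D al be B e f x₀ y₀ (u + v) =
    crd D al be B e f x₀ y₀ u + crd D al be B e f x₀ y₀ v := by
  unfold crd io
  refine Prod.ext ?_ (Prod.ext ?_ ?_)
  · simp only [map_add, Prod.fst_add]
    push_cast
    ring
  · apply QuadraticAlgebra.ext
    · simp only [map_add, Prod.fst_add, Prod.snd_add, QuadraticAlgebra.re_add]
      push_cast
      ring
    · simp only [map_add, Prod.fst_add, Prod.snd_add, QuadraticAlgebra.im_add]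
      push_cast
      ring
  · simp only [map_add, Prod.snd_add]
    push_cast
    ring

theorem crd_smul (D n : ℤ) (u : Λ) : crd D al be B e f x₀ y₀ (n • u) =
    (n : ℚ) • crd D al be B e f x₀ y₀ u := by
  unfold crd io
  refine Prod.ext ?_ (Prod.ext ?_ ?_)
  · simp only [map_smul, smul_eq_mul, Prod.smul_fst]
    push_cast
    ring
  · apply QuadraticAlgebra.ext
    · simp only [map_smul, smul_eq_mul, Prod.smul_fst, Prod.smul_snd, QuadraticAlgebra.re_smul]
      push_cast
      ring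
    · simp only [map_smul, smul_eq_mul, Prod.smul_fst, Prod.smul_snd, QuadraticAlgebra.im_smul]
      push_cast
      ring
  · simp only [map_smul, smul_eq_mul, Prod.smul_snd]
    push_cast
    ring

theorem crd_sub (D : ℤ) (u v : Λ) : crd D al be B e f x₀ y₀ (u - v) =
    crd D al be B e f x₀ y₀ u - crd D al be B e f x₀ y₀ v := by
  have h := crd_add (al := al) (be := be) (B := B) (e := e) (f := f) (x₀ := x₀) (y₀ := y₀) D
    (u - v) v
  rw [sub_add_cancel] at h
  rw [h, add_sub_cancel_right]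

theorem crd_mk (S : Sit B e f F G x₀ y₀ al be ga) (D a b c d : ℤ) :
    crd D al be B e f x₀ y₀ (a • e + b • F + c • G + d • f) =
      ((a : ℚ), io D al be b c, al * (d : ℚ)) := by
  unfold crd
  rw [cf S, ce S, cx S, cy S]
  refine Prod.ext ?_ (Prod.ext ?_ ?_)
  · simp
  · rfl
  · simp only
    push_cast
    ring

/-- every `crd u` is in the lattice -/
theorem LL_crd (D : ℤ) (u : Λ) : LL Zr al be (crd D al be B e f x₀ y₀ u) := by
  refine ⟨mem_Zr.2 ⟨_, rfl⟩, ⟨_, mem_Zr.2 ⟨_, rfl⟩, _, mem_Zr.2 ⟨_, rfl⟩, rfl⟩,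
    ((-B e u : ℤ) : ℚ), mem_Zr.2 ⟨_, rfl⟩, ?_⟩
  unfold crd
  simp only
  push_cast
  ring

theorem LL_iff (S : Sit B e f F G x₀ y₀ al be ga) (D : ℤ) (v : VV D) :
    LL Zr al be v → ∃ a b c d : ℤ,
      v = crd D al be B e f x₀ y₀ (a • e + b • F + c • G + d • f) := by
  rintro ⟨h1, ⟨x, hx, y, hy, h2⟩, s, hs, h3⟩
  obtain ⟨a, ha⟩ := mem_Zr.1 h1
  obtain ⟨b, hb⟩ := mem_Zr.1 hx
  obtain ⟨c, hc⟩ := mem_Zr.1 hy
  obtain ⟨d, hd⟩ := mem_Zr.1 hs
  refine ⟨a, b, c, d, ?_⟩
  rw [crd_mk S]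
  refine Prod.ext ha (Prod.ext ?_ ?_)
  · simp only
    rw [h2, hb, hc]
  · simp only
    rw [h3, hd]

theorem bb_crd (S : Sit B e f F G x₀ y₀ al be ga) {D : ℤ} (hD : D = be ^ 2 - 4 * al * ga)
    (hal : al ≠ 0) {u v : Λ} (hu : InM B e f F G x₀ y₀ u) (hv : InM B e f F G x₀ y₀ v) :
    bb al (crd D al be B e f x₀ y₀ u) (crd D al be B e f x₀ y₀ v) = B u v := by
  rw [inM_iff S] at hu hv
  obtain ⟨a, b, c, d, rfl⟩ := hu
  obtain ⟨a', b', c', d', rfl⟩ := hv
  have hal' : (al : ℚ) ≠ 0 := by exact_mod_cast hal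
  have hDq : (D : ℚ) = be ^ 2 - 4 * al * ga := by rw [hD]; push_cast; ring
  have e1 : B (a • e + b • F + c • G + d • f) (a' • e + b' • F + c' • G + d' • f) =
      2 * al * b * b' + be * (b * c' + b' * c) + 2 * ga * c * c' - a * d' - d * a' := by
    simp only [map_add, map_smul, smul_eq_mul, LinearMap.add_apply, LinearMap.smul_apply,
      S.symm f e, S.symm F e, S.symm G e, S.symm F f, S.symm G f, S.symm G F,
      S.ee, S.ff, S.ef, S.eF, S.eG, S.fF, S.fG, S.FF, S.FG, S.GG]
    ring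
  rw [crd_mk S, crd_mk S, e1]
  unfold bb io
  simp only [QuadraticAlgebra.re_mul, QuadraticAlgebra.re_star, QuadraticAlgebra.im_star]
  push_cast
  field_simp
  rw [hDq]
  ring

/-- the linear map -/
def phi (D al be : ℤ) (c1 c2 c3 c4 : VV D) : VV D →ₗ[ℚ] VV D where
  toFun v := v.1 • c1 + ((v.2.1.re - be * v.2.1.im) / al) • c2 + (2 * v.2.1.im) • c3 +
    (v.2.2 / al) • c4
  map_add' v v' := by
    simp only [Prod.fst_add, Prod.snd_add, QuadraticAlgebra.re_add, QuadraticAlgebra.im_add]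
    module
  map_smul' s v := by
    simp only [Prod.smul_fst, Prod.smul_snd, QuadraticAlgebra.re_smul, QuadraticAlgebra.im_smul,
      smul_eq_mul, RingHom.id_apply]
    module

theorem phi_apply (D al be : ℤ) (c1 c2 c3 c4 v : VV D) : phi D al be c1 c2 c3 c4 v =
    v.1 • c1 + ((v.2.1.re - be * v.2.1.im) / al) • c2 + (2 * v.2.1.im) • c3 +
    (v.2.2 / al) • c4 := rfl

theorem qf_lin {D : ℤ} (hal : al ≠ 0) (c1 c2 c3 c4 : VV D) (a b c d : ℚ) :
    qf (a • c1 + b • c2 + c • c3 + d • c4) = al / 2 *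
      (a ^ 2 * bb al c1 c1 + b ^ 2 * bb al c2 c2 + c ^ 2 * bb al c3 c3 + d ^ 2 * bb al c4 c4 +
        2 * a * b * bb al c1 c2 + 2 * a * c * bb al c1 c3 + 2 * a * d * bb al c1 c4 +
        2 * b * c * bb al c2 c3 + 2 * b * d * bb al c2 c4 + 2 * c * d * bb al c3 c4) := by
  have hal' : (al : ℚ) ≠ 0 := by exact_mod_cast hal
  unfold qf bb
  rw [QuadraticAlgebra.norm_def]
  simp only [QuadraticAlgebra.re_mul, QuadraticAlgebra.re_star, QuadraticAlgebra.im_star,
    Prod.fst_add, Prod.snd_add, QuadraticAlgebra.re_add, QuadraticAlgebra.im_add,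
    Prod.smul_fst, Prod.smul_snd, QuadraticAlgebra.re_smul, QuadraticAlgebra.im_smul, smul_eq_mul]
  field_simp
  ring

end GD_

open GD_ in
theorem p_GD : T_GD := by
  intro D hNS al be ga hD Λ _ B e f F G x₀ y₀ S g hg
  have hal : al ≠ 0 := by
    rintro rfl
    exact hNS.nsq ⟨be, by rw [hD]; ring⟩
  have hal' : (al : ℚ) ≠ 0 := by exact_mod_cast hal
  have hD0 : (D : ℚ) ≠ 0 := by exact_mod_cast hNS.pos.ne'
  have hDq : (D : ℚ) = be ^ 2 - 4 * al * ga := by rw [hD]; push_cast; ring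
  set φ := phi D al be (crd D al be B e f x₀ y₀ (g e)) (crd D al be B e f x₀ y₀ (g F))
    (crd D al be B e f x₀ y₀ (g G)) (crd D al be B e f x₀ y₀ (g f)) with hφ
  have hval : ∀ a b c d : ℤ, φ (crd D al be B e f x₀ y₀ (a • e + b • F + c • G + d • f)) =
      crd D al be B e f x₀ y₀ (g (a • e + b • F + c • G + d • f)) := by
    intro a b c d
    rw [hφ, phi_apply, crd_mk S]
    simp only [map_add, map_smul, crd_add, crd_smul]
    have h1 : ((io D al be b c).re - be * (io D al be b c).im) / (al : ℚ) = b := by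
      unfold io
      simp only
      field_simp
      ring
    have h2 : 2 * (io D al be b c).im = c := by
      unfold io
      simp only
      ring
    have h3 : (al : ℚ) * d / al = d := by field_simp
    rw [h1, h2, h3]
  have hre : ∀ v, InM B e f F G x₀ y₀ v →
      crd D al be B e f x₀ y₀ (g v) = φ (crd D al be B e f x₀ y₀ v) := by
    intro v hv
    obtain ⟨a, b, c, d, rfl⟩ := (inM_iff S v).1 hv
    exact (hval a b c d).symm
  refine ⟨φ, ⟨hg, fun v hv => ⟨good_inM S hg hv, hre v hv⟩⟩, ?_, ?_, ?_⟩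
  · intro v
    have he : InM B e f F G x₀ y₀ e := (inM_iff S e).2 ⟨1, 0, 0, 0, by module⟩
    have hF : InM B e f F G x₀ y₀ F := (inM_iff S F).2 ⟨0, 1, 0, 0, by module⟩
    have hG : InM B e f F G x₀ y₀ G := (inM_iff S G).2 ⟨0, 0, 1, 0, by module⟩
    have hf : InM B e f F G x₀ y₀ f := (inM_iff S f).2 ⟨0, 0, 0, 1, by module⟩
    have ge := good_inM S hg he
    have gF := good_inM S hg hF
    have gG := good_inM S hg hG
    have gf := good_inM S hg hf
    rw [hφ, phi_apply, qf_lin hal]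
    rw [bb_crd S hD hal ge ge, bb_crd S hD hal gF gF, bb_crd S hD hal gG gG,
      bb_crd S hD hal gf gf, bb_crd S hD hal ge gF, bb_crd S hD hal ge gG,
      bb_crd S hD hal ge gf, bb_crd S hD hal gF gG, bb_crd S hD hal gF gf,
      bb_crd S hD hal gG gf]
    simp only [hg.1, S.symm F f, S.symm G f, S.ee, S.ff, S.ef, S.eF, S.eG, S.fF, S.fG, S.FF,
      S.FG, S.GG]
    unfold qf
    rw [QuadraticAlgebra.norm_def]
    push_cast
    field_simp
    linear_combination (2 * al * v.2.1.im ^ 2) * hDq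
  · intro v hv
    obtain ⟨a, b, c, d, rfl⟩ := LL_iff S D v hv
    rw [hval]
    exact LL_crd D _
  · rintro ν ⟨x, hx, y, hy, hν⟩
    obtain ⟨x, rfl⟩ := mem_Zr.1 hx
    obtain ⟨y, rfl⟩ := mem_Zr.1 hy
    set z : Λ := y • x₀ - x • y₀ with hz
    set m : Λ := (0 : ℤ) • e + (-2 * ga * y - be * x) • F + (be * y + 2 * al * x) • G +
      (0 : ℤ) • f with hm
    have hT : g (D • z - m) = D • z - m := by
      refine hg.2 _ ⟨?_, ?_, ?_, ?_⟩
      · rw [map_sub, map_smul, hm, ce S, hz]
        simp only [map_sub, map_smul, smul_eq_mul, S.ex, S.ey]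
        ring
      · rw [map_sub, map_smul, hm, cf S, hz]
        simp only [map_sub, map_smul, smul_eq_mul, S.fx, S.fy]
        ring
      · rw [hm, hz, hD]
        simp only [map_add, map_sub, map_smul, smul_eq_mul, S.Fx, S.Fy, S.symm F e, S.symm F f,
          S.eF, S.fF, S.FF, S.FG]
        ring
      · rw [hm, hz, hD]
        simp only [map_add, map_sub, map_smul, smul_eq_mul, S.Gx, S.Gy, S.symm G e, S.symm G f,
          S.symm G F, S.eG, S.fG, S.FG, S.GG]
        ring
    have h1 : D • (g z - z) = g m - m := by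
      rw [map_sub, map_smul] at hT
      rw [smul_sub]
      have := congrArg (fun u => u + g m - D • z) hT
      calc D • g z - D • z = D • g z - g m + g m - D • z := by abel
        _ = D • z - m + g m - D • z := this
        _ = g m - m := by abel
    have h2 : crd D al be B e f x₀ y₀ m = (D : ℚ) • ((0, ν, 0) : VV D) := by
      rw [hm, crd_mk S]
      have hν1 := congrArg QuadraticAlgebra.re hν
      have hν2 := congrArg QuadraticAlgebra.im hν
      simp only [sqD, io, QuadraticAlgebra.re_mul, QuadraticAlgebra.im_mul] at hν1 hν2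
      refine Prod.ext ?_ (Prod.ext ?_ ?_)
      · simp
      · apply QuadraticAlgebra.ext
        · simp only [io, Prod.smul_snd, Prod.smul_fst, QuadraticAlgebra.re_smul, smul_eq_mul]
          push_cast
          linear_combination (-(D : ℚ)) * hν2 - y / 2 * hDq
        · simp only [io, Prod.smul_snd, Prod.smul_fst, QuadraticAlgebra.im_smul, smul_eq_mul]
          push_cast
          linear_combination (-1 : ℚ) * hν1
      · simp
    have h3 : φ (0, ν, 0) - (0, ν, 0) = crd D al be B e f x₀ y₀ (g z - z) := by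
      have h4 : (D : ℚ) • (φ (0, ν, 0) - (0, ν, 0)) =
          (D : ℚ) • crd D al be B e f x₀ y₀ (g z - z) := by
        rw [← crd_smul, h1, crd_sub, hm, ← hval, ← hm, h2, map_smul, smul_sub]
      exact smul_right_injective _ hD0 h4
    rw [h3]
    exact LL_crd D _

end K3S
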