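import Pool.Agent.K3S.RT

/-!
# GEN: the generators have positive spinor norm
-/

set_option autoImplicit false
set_option linter.unusedSectionVars false
set_option linter.unusedSimpArgs false

namespace K3S

open Matrix

namespace GEN_

open RT_

section

variable {D : ℤ} {al be ga : ℤ}

/-- the reflection as a rotation times `s0` -/
theorem refl_act (hal : (al : ℚ) ≠ 0) (m s p q : ℚ) (h : p ^ 2 - D * q ^ 2 = al * (m * s - 1))
    (v : VV D) : act (⟨m, 0⟩ : KK D) ⟨p / al, q / al⟩ ⟨p, -q⟩ ⟨s, 0⟩ 1 (s0 al v) =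
      v + bb al v (m, ⟨p, q⟩, al * s) • ((m, ⟨p, q⟩, al * s) : VV D) := by
  obtain ⟨r, ⟨w1, w2⟩, t⟩ := v
  refine Prod.ext ?_ (Prod.ext ?_ ?_)
  · simp [act, s0, bb, QuadraticAlgebra.norm_def]
    field_simp
    linear_combination (-r) * h
  · apply QuadraticAlgebra.ext
    · simp [act, s0, bb]
      field_simp
      linear_combination (-w1) * h
    · simp [act, s0, bb]
      field_simp
      linear_combination (-w2) * h
  · simp [act, s0, bb, QuadraticAlgebra.norm_def]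
    field_simp
    linear_combination (-t) * h

theorem refl_det (hal : (al : ℚ) ≠ 0) (m s p q : ℚ)
    (h : p ^ 2 - D * q ^ 2 = al * (m * s - 1)) :
    (⟨m, 0⟩ : KK D) * ⟨s, 0⟩ - ⟨p / al, q / al⟩ * ⟨p, -q⟩ = cc D 1 := by
  apply QuadraticAlgebra.ext
  · simp [cc]
    field_simp
    linear_combination (-1) * h
  · simp [cc]
    field_simp
    ring

/-! ### transvections -/

theorem tv_comp {z w₁ w₂ : VV D} (hzz : bb al z z = 0) (h1 : bb al z w₁ = 0)
    (h2 : bb al z w₂ = 0) (v : VV D) :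
    tv al z w₁ (tv al z w₂ v) = tv al z (w₁ + w₂) v := by
  have h1' : bb al w₁ z = 0 := by rw [bb_symm]; exact h1
  have h2' : bb al w₂ z = 0 := by rw [bb_symm]; exact h2
  have h3 : bb al w₂ w₁ = bb al w₁ w₂ := bb_symm _ _
  simp only [tv_apply, bb_add_right, bb_sub_right, bb_smul_right, bb_add_left, hzz, h1, h2, h1',
    h2', h3]
  module

theorem qf_tv (hal : (al : ℚ) ≠ 0) {z w : VV D} (hzz : bb al z z = 0) (h1 : bb al z w = 0)
    (v : VV D) : qf (tv al z w v) = qf v := by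
  have h1' : bb al w z = 0 := by rw [bb_symm]; exact h1
  have e1 := bb_self hal (tv al z w v)
  have e2 := bb_self hal v
  have e3 : bb al (tv al z w v) (tv al z w v) = bb al v v := by
    simp only [tv_apply, bb_add_right, bb_sub_right, bb_smul_right, bb_add_left, bb_sub_left,
      bb_smul_left, hzz, h1, h1', bb_symm v z, bb_symm v w]
    ring
  rw [e3] at e1
  linarith

theorem pos_tv (hL : T_LIF) (hP : T_PGR) [NS D] (hD : D = be ^ 2 - 4 * al * ga) {z w : VV D}
    (hzz : bb al z z = 0) (h1 : bb al z w = 0) : Pos al (tv al z w) := by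
  have hal : (al : ℚ) ≠ 0 := al_ne hD
  have hal' : al ≠ 0 := by exact_mod_cast hal
  set w₂ : VV D := (1 / 2 : ℚ) • w with hw₂
  have h2 : bb al z w₂ = 0 := by rw [hw₂, bb_smul_right, h1, mul_zero]
  obtain ⟨a, b, c, d, ρ, hρ, hdet, hor⟩ := hL D al be ga hD (tv al z w₂) (qf_tv hal hzz h2)
  obtain ⟨-, -, -, -, h5⟩ := hP D al hal'
  have h6 := h5 a b c d ρ (tv al z w₂) hρ hdet hor
  have h7 : (tv al z w₂).comp (tv al z w₂) = tv al z w := by
    refine LinearMap.ext fun v => ?_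
    rw [LinearMap.comp_apply, tv_comp hzz h2 h2]
    have h8 : w₂ + w₂ = w := by
      rw [hw₂]
      module
    rw [h8]
  rwa [h7] at h6

end

section

variable {Λ : Type} [AddCommGroup Λ] {B : LinearMap.BilinForm ℤ Λ} {e f F G x₀ y₀ : Λ}
  {al be ga : ℤ}

theorem refl (S : Sit B e f F G x₀ y₀ al be ga) {D : ℤ} [NS D] (hD : D = be ^ 2 - 4 * al * ga)
    (g : Λ ≃ₗ[ℤ] Λ) (hg : IsRf B e f F G g) :
    ∃ φ : VV D →ₗ[ℚ] VV D, Pos al φ ∧ Re D al be B e f F G x₀ y₀ g φ := by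
  obtain ⟨δ, hδ, hδδ, hgx⟩ := hg
  obtain ⟨m, x, y, s, rfl⟩ := span_mk hδ
  have hal : (al : ℚ) ≠ 0 := al_ne hD
  have hDq : (D : ℚ) = be ^ 2 - 4 * al * ga := by rw [hD]; push_cast; ring
  have hM := inM_mk S m x y s
  have hn : (((al : ℚ) * x + be * y / 2) ^ 2 - D * ((y : ℚ) / 2) ^ 2) =
      al * ((m : ℚ) * s - 1) := by
    have h1 := hδδ
    rw [B_mk_mk S] at h1
    have h2 : (2 * al * x * x + be * (x * y + y * x) + 2 * ga * y * y - m * s - s * m : ℚ) =
        -2 := by exact_mod_cast h1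
    rw [hDq]
    linear_combination (al / 2 : ℚ) * h2
  refine ⟨(act (⟨m, 0⟩ : KK D) ⟨((al : ℚ) * x + be * y / 2) / al, ((y : ℚ) / 2) / al⟩
    ⟨(al : ℚ) * x + be * y / 2, -((y : ℚ) / 2)⟩ ⟨s, 0⟩ 1).comp (s0 al), ?_, ?_, ?_⟩
  · exact ⟨_, _, _, _, 1, one_pos, refl_det hal m s _ _ hn, Or.inr rfl⟩
  · refine ⟨fun u v => ?_, fun t ht => ?_⟩
    · rw [hgx, hgx]
      simp only [map_add, map_smul, LinearMap.add_apply, LinearMap.smul_apply, smul_eq_mul, hδδ]
      rw [S.symm (mk e f F G m x y s) v]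
      ring
    · obtain ⟨h1, h2, h3, h4⟩ := ht
      have e1 : B (mk e f F G m x y s) t = 0 := by rw [B_left, h1, h2, h3, h4]; ring
      rw [hgx, S.symm t, e1, zero_smul, add_zero]
  · intro v hv
    refine ⟨?_, ?_⟩
    · rw [hgx]
      exact inM_add hv (inM_smul _ hM)
    · rw [hgx, crd_add, crd_smul, LinearMap.comp_apply, refl_act hal m s _ _ hn]
      have h1 := bb_crd S hD hv hM
      rw [crd_mk S] at h1
      rw [crd_mk S]
      simp only [io] at h1 ⊢
      rw [h1]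

end

end GEN_

open RT_ GEN_ in
theorem p_GEN (hL : T_LIF) (hP : T_PGR) : T_GEN := by
  intro D _ al be ga hD Λ _ B e f F G x₀ y₀ S g hg
  rcases hg with hg | ⟨z, hz, w, hw, m, hzz, hzw, hww, hgx⟩
  · exact refl S hD g hg
  · obtain ⟨a, x, y, b, rfl⟩ := span_mk hz
    obtain ⟨a', x', y', b', rfl⟩ := span_mk hw
    have hMz := inM_mk S a x y b
    have hMw := inM_mk S a' x' y' b'
    refine ⟨tv al _ _, pos_tv hL hP hD ?_ ?_, re_tv S hD hMz hMw hzz hzw hww g hgx _
      (fun v => rfl)⟩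
    · rw [bb_crd S hD hMz hMz, hzz]
      simp
    · rw [bb_crd S hD hMz hMw, hzw]
      simp

end K3S
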