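import Pool.Agent.K3S.TargetsB

/-!
# MP_98be90_ag, project K3S, job GLO (helper83)
-/

set_option autoImplicit false
set_option linter.unusedSectionVars false

namespace K3S

open Matrix

namespace GLO_

theorem den_one {x : ℚ} (h : ∀ (p : ℕ) [Fact p.Prime], x ∈ ZP p) : x ∈ Zr := by
  rw [mem_Zr]
  have hd : x.den = 1 := by
    by_contra hne
    obtain ⟨p, hp, hpd⟩ := Nat.exists_prime_and_dvd hne
    have : Fact p.Prime := ⟨hp⟩
    have h1 : padicNorm p x ≤ 1 := h p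
    have hx0 : x ≠ 0 := by
      rintro rfl
      simp at hne
    have hnum : ¬ (p : ℤ) ∣ x.num := by
      intro hpn
      have hc := x.reduced
      have : p ∣ 1 := by
        rw [← hc]
        exact Nat.dvd_gcd (Int.natCast_dvd.mp hpn) hpd
      exact hp.one_lt.ne' (Nat.dvd_one.mp this)
    have e1 : padicNorm p (x.num : ℚ) = 1 := (padicNorm.int_eq_one_iff x.num).mpr hnum
    have e2 : padicNorm p (x.den : ℚ) < 1 := (padicNorm.nat_lt_one_iff x.den).mpr hpd
    have e3 : padicNorm p x * padicNorm p (x.den : ℚ) = 1 := by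
      rw [← padicNorm.mul, Rat.mul_den_eq_num, e1]
    have e4 : 0 ≤ padicNorm p (x.den : ℚ) := padicNorm.nonneg _
    nlinarith
  refine ⟨x.num, ?_⟩
  conv_lhs => rw [← Rat.num_div_den x, hd]
  simp

theorem unit_norm {p : ℕ} [Fact p.Prime] {s : ℚ} (h : US (ZP p) s) : padicNorm p s = 1 := by
  obtain ⟨h1, h2, h3⟩ := h
  have h1 : padicNorm p s ≤ 1 := h1
  have h2 : padicNorm p s⁻¹ ≤ 1 := h2
  have h4 : padicNorm p s * padicNorm p s⁻¹ = 1 := by
    rw [← padicNorm.mul, mul_inv_cancel₀ h3, padicNorm.one]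
  have h5 : 0 ≤ padicNorm p s := padicNorm.nonneg _
  have h6 : 0 ≤ padicNorm p s⁻¹ := padicNorm.nonneg _
  nlinarith

/-- a natural number which is locally a unit times a square is a square -/
theorem nat_sq {N : ℕ} (hN : N ≠ 0)
    (h : ∀ (p : ℕ) [Fact p.Prime], ∃ l : ℚ, l ≠ 0 ∧ padicNorm p (l ^ 2 * N) = 1) :
    ∃ m : ℕ, m ≠ 0 ∧ N = m ^ 2 := by
  obtain ⟨a, b, hab, hsq⟩ := Nat.sq_mul_squarefree N
  have ha0 : a ≠ 0 := by
    rintro rfl
    simp at hab
    exact hN hab.symm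
  have hb0 : b ≠ 0 := by
    rintro rfl
    simp at hab
    exact hN hab.symm
  have ha1 : a = 1 := by
    by_contra hne
    obtain ⟨p, hp, hpa⟩ := Nat.exists_prime_and_dvd hne
    have : Fact p.Prime := ⟨hp⟩
    obtain ⟨l, hl, hln⟩ := h p
    have haq : (a : ℚ) ≠ 0 := by exact_mod_cast ha0
    have hbq : (b : ℚ) ≠ 0 := by exact_mod_cast hb0
    have hv : padicValRat p (l ^ 2 * N) = 0 := by
      have hne0 : (l ^ 2 * N : ℚ) ≠ 0 := by positivity
      rw [padicNorm.eq_zpow_of_nonzero hne0] at hln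
      have hp1 : (1 : ℚ) < p := by exact_mod_cast hp.one_lt
      have := (zpow_eq_one_iff_right₀ (by positivity) hp1.ne').mp hln
      omega
    have hN' : (N : ℚ) = (b : ℚ) ^ 2 * a := by rw [← hab]; push_cast; ring
    rw [hN', padicValRat.mul (by positivity) (by positivity), padicValRat.mul (by positivity) haq,
      padicValRat.pow, padicValRat.pow] at hv
    have hav : padicValRat p (a : ℚ) = 1 := by
      rw [padicValRat.of_nat]
      obtain ⟨c, hc⟩ := hpa
      have hpc : ¬ p ∣ c := by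
        rintro ⟨d, rfl⟩
        have : IsUnit p := hsq p ⟨d, by rw [hc]; ring⟩
        exact hp.one_lt.ne' (Nat.isUnit_iff.mp this)
      have hc0 : c ≠ 0 := by rintro rfl; simp at hc; exact ha0 hc
      rw [hc, padicValNat.mul hp.ne_zero hc0, padicValNat_self,
        padicValNat.eq_zero_of_not_dvd hpc]
      rfl
    rw [hav] at hv
    push_cast at hv
    omega
  refine ⟨b, hb0, ?_⟩
  rw [← hab, ha1, mul_one]

/-- a positive rational number which is locally a unit times a square is a square -/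
theorem rat_sq {r : ℚ} (hr : 0 < r)
    (h : ∀ (p : ℕ) [Fact p.Prime], ∃ l : ℚ, l ≠ 0 ∧ US (ZP p) (l ^ 2 * r)) :
    ∃ m : ℚ, m ≠ 0 ∧ r = m ^ 2 := by
  have hd0 : (r.den : ℚ) ≠ 0 := by exact_mod_cast r.den_nz
  have hn : 0 < r.num := Rat.num_pos.mpr hr
  have hcast : ((r.num.natAbs * r.den : ℕ) : ℚ) = r * (r.den : ℚ) ^ 2 := by
    push_cast
    rw [Nat.cast_natAbs, abs_of_pos hn, ← Rat.mul_den_eq_num r]
    ring
  have hN : r.num.natAbs * r.den ≠ 0 := by
    have : r.num.natAbs ≠ 0 := by omega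
    exact mul_ne_zero this r.den_nz
  obtain ⟨m, hm, hmN⟩ := nat_sq hN (fun p _ ↦ by
    obtain ⟨l, hl, hu⟩ := h p
    refine ⟨l / r.den, div_ne_zero hl hd0, ?_⟩
    have : (l / r.den) ^ 2 * ((r.num.natAbs * r.den : ℕ) : ℚ) = l ^ 2 * r := by
      rw [hcast]
      field_simp
    rw [this]
    exact unit_norm hu)
  refine ⟨m / r.den, div_ne_zero (by exact_mod_cast hm) hd0, ?_⟩
  rw [div_pow, eq_div_iff (pow_ne_zero _ hd0), ← hcast, hmN]
  push_cast
  ring

variable {D : ℤ}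

theorem cc_mul (s : ℚ) (x : KK D) : cc D s * x = ⟨s * x.re, s * x.im⟩ := by
  apply QuadraticAlgebra.ext <;> simp [cc]

theorem cc_cc (s t : ℚ) : cc D s * cc D t = cc D (s * t) := by
  apply QuadraticAlgebra.ext <;> simp [cc]

theorem cc_one : cc D 1 = 1 := by
  apply QuadraticAlgebra.ext <;> simp [cc, QuadraticAlgebra.re_one, QuadraticAlgebra.im_one]

theorem OO_loc {be : ℤ} {x : KK D} {S : Subring ℚ} {l : ℚ} (hl : l ≠ 0) (hu : l⁻¹ ∈ S)
    (h : OO S be (cc D l * x)) : 2 * x.im ∈ S ∧ x.re - x.im * be ∈ S := by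
  obtain ⟨u, hu', v, hv', he⟩ := h
  rw [cc_mul] at he
  have h1 := congrArg QuadraticAlgebra.re he
  have h2 := congrArg QuadraticAlgebra.im he
  simp only at h1 h2
  constructor
  · have : 2 * x.im = l⁻¹ * v := by
      field_simp
      linarith
    rw [this]
    exact mul_mem hu hv'
  · have : x.re - x.im * be = l⁻¹ * u := by
      field_simp
      linear_combination h1 - be * h2
    rw [this]
    exact mul_mem hu hu'

theorem NN_loc {al be : ℤ} (hal : al ≠ 0) {x : KK D} {S : Subring ℚ} {l : ℚ} (hl : l ≠ 0)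
    (hu : l⁻¹ ∈ S) (h : NN S al be (cc D l * x)) :
    2 * x.im ∈ S ∧ (x.re - x.im * be) / al ∈ S := by
  have hal' : (al : ℚ) ≠ 0 := by exact_mod_cast hal
  obtain ⟨u, hu', v, hv', he⟩ := h
  rw [cc_mul, io] at he
  have h1 := congrArg QuadraticAlgebra.re he
  have h2 := congrArg QuadraticAlgebra.im he
  simp only at h1 h2
  constructor
  · have : 2 * x.im = l⁻¹ * v := by
      field_simp
      linarith
    rw [this]
    exact mul_mem hu hv'
  · have : (x.re - x.im * be) / al = l⁻¹ * u := by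
      field_simp
      linear_combination h1 - be * h2
    rw [this]
    exact mul_mem hu hu'

theorem OO_glo {be : ℤ} {x : KK D}
    (h : ∀ (p : ℕ) [Fact p.Prime], ∃ l : ℚ, l ≠ 0 ∧ l⁻¹ ∈ ZP p ∧ OO (ZP p) be (cc D l * x)) :
    OO Zr be x := by
  refine ⟨x.re - x.im * be, den_one ?_, 2 * x.im, den_one ?_, ?_⟩
  · intro p _
    obtain ⟨l, h1, h2, h3⟩ := h p
    exact (OO_loc h1 h2 h3).2
  · intro p _
    obtain ⟨l, h1, h2, h3⟩ := h p
    exact (OO_loc h1 h2 h3).1
  · apply QuadraticAlgebra.ext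
    · simp only; ring
    · simp only; ring

theorem NN_glo {al be : ℤ} (hal : al ≠ 0) {x : KK D}
    (h : ∀ (p : ℕ) [Fact p.Prime], ∃ l : ℚ, l ≠ 0 ∧ l⁻¹ ∈ ZP p ∧ NN (ZP p) al be (cc D l * x)) :
    NN Zr al be x := by
  have hal' : (al : ℚ) ≠ 0 := by exact_mod_cast hal
  refine ⟨(x.re - x.im * be) / al, den_one ?_, 2 * x.im, den_one ?_, ?_⟩
  · intro p _
    obtain ⟨l, h1, h2, h3⟩ := h p
    exact (NN_loc hal h1 h2 h3).2
  · intro p _
    obtain ⟨l, h1, h2, h3⟩ := h p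
    exact (NN_loc hal h1 h2 h3).1
  · apply QuadraticAlgebra.ext
    · simp only [io]; field_simp; ring
    · simp only [io]; ring

theorem star_cc_mul (s : ℚ) (x : KK D) : star (cc D s * x) = cc D s * star x := by
  apply QuadraticAlgebra.ext <;> simp [cc]

theorem act_scale (a b c d : KK D) {m : ℚ} (hm : m ≠ 0) :
    act a b c d (m ^ 2) =
      act (cc D m⁻¹ * a) (cc D m⁻¹ * b) (cc D m⁻¹ * c) (cc D m⁻¹ * d) 1 := by
  apply LinearMap.ext
  intro v
  refine Prod.ext ?_ (Prod.ext ?_ ?_)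
  · simp only [act, LinearMap.coe_mk, AddHom.coe_mk, QuadraticAlgebra.norm_def]
    simp [cc]
    field_simp
  · simp only [act, LinearMap.coe_mk, AddHom.coe_mk]
    apply QuadraticAlgebra.ext
    · simp [cc]
      field_simp
    · simp [cc]
      field_simp
  · simp only [act, LinearMap.coe_mk, AddHom.coe_mk, QuadraticAlgebra.norm_def]
    simp [cc]
    field_simp

end GLO_

open GLO_

theorem p_GLO (h1 : T_LOC) (h2 : T_LOZ) : T_GLO := by
  intro D _ al be ga hD a b c d ρ hρ hdet hIL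
  have hal : al ≠ 0 := by
    rintro rfl
    exact (NS.nsq (D := D)) ⟨be, by rw [hD]; ring⟩
  obtain ⟨m, hm, hρm⟩ := rat_sq hρ (fun p _ ↦ by
    obtain ⟨l, hl, -, hu⟩ := h1 D al be ga hD p a b c d ρ hρ.ne' hdet (h2 D al be p _ hIL)
    exact ⟨l, hl, hu⟩)
  have hdet' : (cc D m⁻¹ * a) * (cc D m⁻¹ * d) - (cc D m⁻¹ * b) * (cc D m⁻¹ * c) = cc D 1 := by
    have e : (cc D m⁻¹ * a) * (cc D m⁻¹ * d) - (cc D m⁻¹ * b) * (cc D m⁻¹ * c) =
        (cc D m⁻¹ * cc D m⁻¹) * (a * d - b * c) := by ring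
    rw [e, hdet, cc_cc, cc_cc, hρm]
    congr 1
    field_simp
  have hact : act a b c d ρ =
      act (cc D m⁻¹ * a) (cc D m⁻¹ * b) (cc D m⁻¹ * c) (cc D m⁻¹ * d) 1 := by
    rw [hρm]
    exact act_scale a b c d hm
  rw [hact] at hIL
  have key : ∀ (p : ℕ) [Fact p.Prime], ∃ l : ℚ, l ≠ 0 ∧ l⁻¹ ∈ ZP p ∧
      RS (ZP p) al be (cc D l * (cc D m⁻¹ * a)) (cc D l * (cc D m⁻¹ * b))
        (cc D l * (cc D m⁻¹ * c)) (cc D l * (cc D m⁻¹ * d)) := by
    intro p _
    obtain ⟨l, hl, hR, hu⟩ := h1 D al be ga hD p _ _ _ _ 1 one_ne_zero hdet' (h2 D al be p _ hIL)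
    refine ⟨l, hl, ?_, hR⟩
    have e1 := unit_norm hu
    rw [mul_one, sq, padicNorm.mul] at e1
    have e2 : 0 ≤ padicNorm p l := padicNorm.nonneg _
    have e3 : padicNorm p l = 1 := by nlinarith
    have e4 : padicNorm p l * padicNorm p l⁻¹ = 1 := by
      rw [← padicNorm.mul, mul_inv_cancel₀ hl, padicNorm.one]
    rw [e3, one_mul] at e4
    exact e4.le
  refine ⟨mk4 (cc D m⁻¹ * a) (cc D m⁻¹ * b) (cc D m⁻¹ * c) (cc D m⁻¹ * d)
    (hdet'.trans cc_one), ?_, ?_, ?_, ?_, ?_⟩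
  · rw [hact]
    rfl
  · exact OO_glo fun p _ ↦ by
      obtain ⟨l, e1, e2, e3⟩ := key p
      exact ⟨l, e1, e2, e3.1⟩
  · exact OO_glo fun p _ ↦ by
      obtain ⟨l, e1, e2, e3⟩ := key p
      exact ⟨l, e1, e2, e3.2.1⟩
  · refine NN_glo hal fun p _ ↦ ?_
    obtain ⟨l, e1, e2, e3⟩ := key p
    refine ⟨l, e1, e2, ?_⟩
    have := e3.2.2.1
    rw [mk4_01]
    have e : cc D l * ((al : KK D) * (cc D m⁻¹ * b)) =
      (al : KK D) * (cc D l * (cc D m⁻¹ * b)) := by ring
    rw [e]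
    exact this
  · refine NN_glo hal fun p _ ↦ ?_
    obtain ⟨l, e1, e2, e3⟩ := key p
    refine ⟨l, e1, e2, ?_⟩
    have := e3.2.2.2
    rw [star_cc_mul] at this
    rw [mk4_10]
    exact this

end K3S
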