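import Pool.Agent.K3S.TargetsB

/-!
# K3S, target LIF: every isometry is a rotation `act` or a rotation times `s0`
-/

set_option autoImplicit false
set_option linter.unusedSectionVars false
set_option linter.unusedSimpArgs false

namespace K3S

open Matrix

namespace LIF_

variable {D : ℤ}

/-- the polar form -/
def pol (v v' : VV D) : ℚ := 2 * (v.2.1 * star v'.2.1).re - v.1 * v'.2.2 - v.2.2 * v'.1

lemma pol_qf (v v' : VV D) : pol v v' = qf (v + v') - qf v - qf v' := by
  obtain ⟨r, ⟨w0, w1⟩, t⟩ := v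
  obtain ⟨r', ⟨w0', w1'⟩, t'⟩ := v'
  simp only [pol, qf, QuadraticAlgebra.norm_def, QuadraticAlgebra.re_mul, Prod.mk_add_mk,
    QuadraticAlgebra.re_add, QuadraticAlgebra.im_add, QuadraticAlgebra.re_star,
    QuadraticAlgebra.im_star]
  ring

lemma pol_map {φ : VV D →ₗ[ℚ] VV D} (h : ∀ v, qf (φ v) = qf v) (v v' : VV D) :
    pol (φ v) (φ v') = pol v v' := by
  rw [pol_qf, pol_qf, ← map_add, h, h, h]

lemma act_apply (a b c d : KK D) (ρ : ℚ) (v : VV D) :
    act a b c d ρ v = ((a.norm * v.1 + 2 * (a * v.2.1 * star b).re + b.norm * v.2.2) / ρ,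
    ρ⁻¹ • (v.1 • (a * star c) + a * v.2.1 * star d + b * star v.2.1 * star c +
      v.2.2 • (b * star d)),
    (c.norm * v.1 + 2 * (c * v.2.1 * star d).re + d.norm * v.2.2) / ρ) := rfl

/-- a rotation or a rotation times `s0` -/
def P (al : ℤ) (φ : VV D →ₗ[ℚ] VV D) : Prop :=
  ∃ (a b c d : KK D) (ρ : ℚ), ρ ≠ 0 ∧ a * d - b * c = cc D ρ ∧
    (φ = act a b c d ρ ∨ φ = (act a b c d ρ).comp (s0 al))

lemma act_cc {ρ : ℚ} (h : ρ ≠ 0) :
    (act (cc D ρ) 0 0 (cc D ρ) (ρ * ρ) : VV D →ₗ[ℚ] VV D) = LinearMap.id := by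
  apply LinearMap.ext
  rintro ⟨r, ⟨w0, w1⟩, t⟩
  rw [act_apply, LinearMap.id_apply]
  refine Prod.ext ?_ (Prod.ext ?_ ?_)
  · simp [cc, QuadraticAlgebra.norm_def]
    field_simp
  · apply QuadraticAlgebra.ext
    · simp [cc]
      field_simp
    · simp [cc]
      field_simp
  · simp [cc, QuadraticAlgebra.norm_def]
    field_simp

lemma inv_comp (hC : T_CMP) {a b c d : KK D} {ρ : ℚ} (hρ : ρ ≠ 0) (h : a * d - b * c = cc D ρ) :
    (act d (-b) (-c) a ρ).comp (act a b c d ρ) = LinearMap.id := by
  rw [hC, ← act_cc hρ]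
  have e1 : d * a + -b * c = cc D ρ := by rw [← h]; ring
  have e2 : d * b + -b * d = 0 := by ring
  have e3 : -c * a + a * c = 0 := by ring
  have e4 : -c * b + a * d = cc D ρ := by rw [← h]; ring
  rw [e1, e2, e3, e4]

lemma cc_mul (ρ ρ' : ℚ) : cc D ρ * cc D ρ' = cc D (ρ * ρ') := by
  apply QuadraticAlgebra.ext <;> simp [cc]

lemma P_of_comp (hC : T_CMP) {al : ℤ} {a b c d : KK D} {ρ : ℚ} (hρ : ρ ≠ 0)
    (h : a * d - b * c = cc D ρ) {φ : VV D →ₗ[ℚ] VV D}
    (hP : P al ((act a b c d ρ).comp φ)) : P al φ := by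
  obtain ⟨a', b', c', d', ρ', hρ', h', h3⟩ := hP
  have e : φ = (act d (-b) (-c) a ρ).comp ((act a b c d ρ).comp φ) := by
    rw [← LinearMap.comp_assoc, inv_comp hC hρ h, LinearMap.id_comp]
  refine ⟨d * a' + -b * c', d * b' + -b * d', -c * a' + a * c', -c * b' + a * d', ρ * ρ',
    mul_ne_zero hρ hρ', ?_, ?_⟩
  · rw [← cc_mul, ← h, ← h']
    ring
  · rcases h3 with h3 | h3
    · left
      rw [e, h3, hC]
    · right
      rw [e, h3, ← LinearMap.comp_assoc, hC]

/-- linear maps which agree on a basis -/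
lemma ext4 {al : ℤ} (hal : (al : ℚ) ≠ 0) {φ ψ : VV D →ₗ[ℚ] VV D}
    (h1 : φ (1, 0, 0) = ψ (1, 0, 0)) (h2 : φ (0, 1, 0) = ψ (0, 1, 0))
    (h3 : φ (0, sqD D, 0) = ψ (0, sqD D, 0)) (h4 : φ (0, 0, al) = ψ (0, 0, al)) : φ = ψ := by
  apply LinearMap.ext
  rintro ⟨r, ⟨w0, w1⟩, t⟩
  have e : ((r, (⟨w0, w1⟩ : KK D), t) : VV D) = r • ((1, 0, 0) : VV D) + w0 • ((0, 1, 0) : VV D) +
      w1 • ((0, sqD D, 0) : VV D) + (t / al) • ((0, 0, (al : ℚ)) : VV D) := by
    refine Prod.ext ?_ (Prod.ext ?_ ?_)
    · simp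
    · apply QuadraticAlgebra.ext <;>
        simp [sqD, QuadraticAlgebra.re_one, QuadraticAlgebra.im_one]
    · simp
      field_simp
  rw [e]
  simp only [map_add, map_smul, h1, h2, h3, h4]

/-- the diagonal part -/
lemma diag [NS D] {al : ℤ} (hal : (al : ℚ) ≠ 0) {φ : VV D →ₗ[ℚ] VV D}
    (hq : ∀ v, qf (φ v) = qf v) {t r₁ : ℚ} (ht : r₁ * t = al)
    (h4 : φ (0, 0, al) = (0, 0, t)) (h1 : φ (1, 0, 0) = (r₁, 0, 0)) : P al φ := by
  have ht0 : t ≠ 0 := by
    rintro rfl
    apply hal
    rw [← ht, mul_zero]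
  have hr0 : r₁ ≠ 0 := by
    rintro rfl
    apply hal
    rw [← ht, zero_mul]
  have hD : (D : ℚ) ≠ 0 := by
    have := NS.pos (D := D)
    exact_mod_cast this.ne'
  have hs : ∀ w : KK D, ∃ e : KK D, φ (0, w, 0) = (0, e, 0) := by
    intro w
    refine ⟨(φ (0, w, 0)).2.1, ?_⟩
    have a1 := pol_map hq (0, w, 0) (1, 0, 0)
    have a2 := pol_map hq (0, w, 0) (0, 0, al)
    rw [h1] at a1
    rw [h4] at a2
    simp only [pol, star_zero, mul_zero, QuadraticAlgebra.re_zero, zero_sub, zero_mul,
      sub_zero, neg_eq_zero, mul_eq_zero, ht0, hr0, or_false] at a1 a2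
    exact Prod.ext a2 (Prod.ext rfl a1)
  obtain ⟨e, he⟩ := hs 1
  obtain ⟨f, hf⟩ := hs (sqD D)
  have n1 : e.norm = 1 := by
    have := hq (0, 1, 0)
    rw [he] at this
    simpa [qf, QuadraticAlgebra.norm_def, QuadraticAlgebra.re_one, QuadraticAlgebra.im_one]
      using this
  have n2 : f.norm = -D := by
    have := hq (0, sqD D, 0)
    rw [hf] at this
    simpa [qf, QuadraticAlgebra.norm_def, sqD] using this
  have n3 : (e * star f).re = 0 := by
    have := pol_map hq (0, 1, 0) (0, sqD D, 0)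
    rw [he, hf] at this
    simpa [pol, sqD] using this
  obtain ⟨e1, e2⟩ := e
  obtain ⟨f1, f2⟩ := f
  simp only [QuadraticAlgebra.norm_def, QuadraticAlgebra.re_mul, QuadraticAlgebra.re_star,
    QuadraticAlgebra.im_star, zero_mul, add_zero, mul_neg] at n1 n2 n3
  -- the determinant
  set z : ℚ := e1 * f2 - e2 * f1 with hz
  have g1 : f1 = D * e2 * z := by
    rw [hz]
    linear_combination (-f1) * n1 + e1 * n3
  have g2 : f2 = e1 * z := by
    rw [hz]
    linear_combination (-f2) * n1 + e2 * n3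
  have g3 : z ^ 2 = 1 := by
    have : (D : ℚ) * (z ^ 2 - 1) = 0 := by
      have h5 : (D * e2 * z) * (D * e2 * z) - D * (e1 * z) * (e1 * z) = -D := by
        rw [← g1, ← g2]
        linear_combination n2
      linear_combination (-(D : ℚ) * z ^ 2) * n1 - h5
    rcases mul_eq_zero.1 this with h | h
    · exact absurd h hD
    · linarith
  have g4 : z = 1 ∨ z = -1 := by
    have : (z - 1) * (z + 1) = 0 := by linear_combination g3
    rcases mul_eq_zero.1 this with h | h
    · left; linarith
    · right; linarith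
  rcases g4 with h5 | h5
  · -- `σ w = ε w`
    obtain ⟨d, hd0, hd⟩ : ∃ d : KK D, d ≠ 0 ∧ star d = ⟨e1, e2⟩ * d := by
      by_cases h6 : e1 = -1 ∧ e2 = 0
      · refine ⟨sqD D, ?_, ?_⟩
        · intro h7
          have := congrArg QuadraticAlgebra.im h7
          simp [sqD] at this
        · rw [h6.1, h6.2]
          apply QuadraticAlgebra.ext <;> simp [sqD]
      · refine ⟨⟨1 + e1, -e2⟩, ?_, ?_⟩
        · intro h7
          apply h6
          have h8 := congrArg QuadraticAlgebra.re h7
          have h9 := congrArg QuadraticAlgebra.im h7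
          simp only [QuadraticAlgebra.re_zero, QuadraticAlgebra.im_zero] at h8 h9
          constructor <;> linarith
        · apply QuadraticAlgebra.ext
          · simp
            linear_combination -n1
          · simp
            ring
    have hn : d.norm ≠ 0 := fun h => hd0 (QuadraticAlgebra.norm_eq_zero_iff_eq_zero.1 h)
    obtain ⟨d1, d2⟩ := d
    have k1 := congrArg QuadraticAlgebra.re hd
    have k2 := congrArg QuadraticAlgebra.im hd
    simp only [QuadraticAlgebra.re_star, QuadraticAlgebra.im_star, QuadraticAlgebra.re_mul,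
      QuadraticAlgebra.im_mul, zero_mul, add_zero] at k1 k2
    simp only [QuadraticAlgebra.norm_def, zero_mul, add_zero] at hn
    rw [h5] at g1 g2
    refine ⟨(r₁ : ℚ) • ⟨d1, -d2⟩, 0, 0, ⟨d1, d2⟩, r₁ * (d1 * d1 - D * d2 * d2), ?_, ?_, ?_⟩
    · refine mul_ne_zero hr0 ?_
      intro h
      apply hn
      linear_combination h
    · apply QuadraticAlgebra.ext
      · simp [cc]
        ring
      · simp [cc]
        ring
    · left
      have hn' : d1 * d1 - D * d2 * d2 ≠ 0 := by
        intro h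
        apply hn
        linear_combination h
      have hn2 : d1 ^ 2 - D * d2 ^ 2 ≠ 0 := by
        intro h
        apply hn
        linear_combination h
      refine ext4 hal ?_ ?_ ?_ ?_
      · rw [h1, act_apply]
        refine Prod.ext ?_ (Prod.ext ?_ ?_)
        · simp [QuadraticAlgebra.norm_def]
          field_simp
        · apply QuadraticAlgebra.ext <;> simp
        · simp [QuadraticAlgebra.norm_def]
      · rw [he, act_apply]
        refine Prod.ext ?_ (Prod.ext ?_ ?_)
        · simp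
        · apply QuadraticAlgebra.ext
          · simp
            field_simp
            linear_combination (-d1) * k1 + D * d2 * k2
          · simp
            field_simp
            linear_combination d2 * k1 - d1 * k2
        · simp
      · rw [hf, act_apply]
        refine Prod.ext ?_ (Prod.ext ?_ ?_)
        · simp
        · apply QuadraticAlgebra.ext
          · simp [sqD]
            field_simp
            rw [g1]
            linear_combination D * d2 * k1 - D * d1 * k2
          · simp [sqD]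
            field_simp
            rw [g2]
            linear_combination (-d1) * k1 + D * d2 * k2
        · simp
      · rw [h4, act_apply]
        refine Prod.ext ?_ (Prod.ext ?_ ?_)
        · simp
        · apply QuadraticAlgebra.ext <;> simp
        · simp [QuadraticAlgebra.norm_def]
          rw [← ht]
          field_simp
  · -- `σ w = ε star w`
    obtain ⟨c, hc0, hc⟩ : ∃ c : KK D, c ≠ 0 ∧ star c = -(⟨e1, e2⟩ * c) := by
      by_cases h6 : e1 = -1 ∧ e2 = 0
      · refine ⟨1, one_ne_zero, ?_⟩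
        rw [h6.1, h6.2]
        apply QuadraticAlgebra.ext <;>
          simp [QuadraticAlgebra.re_one, QuadraticAlgebra.im_one]
      · refine ⟨⟨-(D * e2), 1 + e1⟩, ?_, ?_⟩
        · intro h7
          apply h6
          have h8 := congrArg QuadraticAlgebra.re h7
          have h9 := congrArg QuadraticAlgebra.im h7
          simp only [QuadraticAlgebra.re_zero, QuadraticAlgebra.im_zero, neg_eq_zero,
            mul_eq_zero, hD, false_or] at h8 h9
          constructor <;> linarith
        · apply QuadraticAlgebra.ext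
          · simp
            ring
          · simp
            linear_combination n1
    have hn : c.norm ≠ 0 := fun h => hc0 (QuadraticAlgebra.norm_eq_zero_iff_eq_zero.1 h)
    obtain ⟨c1, c2⟩ := c
    have k1 := congrArg QuadraticAlgebra.re hc
    have k2 := congrArg QuadraticAlgebra.im hc
    simp only [QuadraticAlgebra.re_star, QuadraticAlgebra.im_star, QuadraticAlgebra.re_mul,
      QuadraticAlgebra.im_mul, QuadraticAlgebra.re_neg, QuadraticAlgebra.im_neg,
      zero_mul, add_zero] at k1 k2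
    simp only [QuadraticAlgebra.norm_def, zero_mul, add_zero] at hn
    have hn' : c1 * c1 - D * c2 * c2 ≠ 0 := by
      intro h
      apply hn
      linear_combination h
    have hn2 : D * c2 ^ 2 - c1 ^ 2 ≠ 0 := by
      intro h
      apply hn
      linear_combination -h
    rw [h5] at g1 g2
    refine ⟨0, (1 / t : ℚ) • ⟨c1, -c2⟩, ⟨c1, c2⟩, 0, (D * c2 ^ 2 - c1 ^ 2) / t, ?_, ?_, ?_⟩
    · exact div_ne_zero hn2 ht0
    · apply QuadraticAlgebra.ext
      · simp [cc]
        field_simp
        ring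
      · simp [cc]
        ring
    · right
      have hr : r₁ = al / t := by
        rw [← ht]
        field_simp
      refine ext4 hal ?_ ?_ ?_ ?_
      · rw [h1, LinearMap.comp_apply, act_apply]
        refine Prod.ext ?_ (Prod.ext ?_ ?_)
        · simp [QuadraticAlgebra.norm_def, s0, hr]
          field_simp
          ring
        · apply QuadraticAlgebra.ext <;> simp [s0]
        · simp [QuadraticAlgebra.norm_def, s0]
      · rw [he, LinearMap.comp_apply, act_apply]
        refine Prod.ext ?_ (Prod.ext ?_ ?_)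
        · simp [s0]
        · apply QuadraticAlgebra.ext
          · simp [s0]
            field_simp
            linear_combination (-c1) * k1 + D * c2 * k2
          · simp [s0]
            field_simp
            linear_combination c2 * k1 - c1 * k2
        · simp [s0]
      · rw [hf, LinearMap.comp_apply, act_apply]
        refine Prod.ext ?_ (Prod.ext ?_ ?_)
        · simp [s0]
        · apply QuadraticAlgebra.ext
          · simp [sqD, s0]
            field_simp
            rw [g1]
            linear_combination (-D * c2) * k1 + D * c1 * k2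
          · simp [sqD, s0]
            field_simp
            rw [g2]
            linear_combination c1 * k1 - D * c2 * k2
        · simp [s0]
      · rw [h4, LinearMap.comp_apply, act_apply]
        refine Prod.ext ?_ (Prod.ext ?_ ?_)
        · simp [s0]
        · apply QuadraticAlgebra.ext <;> simp [s0]
        · simp [QuadraticAlgebra.norm_def, s0]
          field_simp
          ring

lemma cc_one : cc D 1 = 1 := by
  apply QuadraticAlgebra.ext <;> simp [cc, QuadraticAlgebra.re_one, QuadraticAlgebra.im_one]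

/-- `φ (0,0,al) = (0,0,t)` -/
lemma step3 [NS D] (hC : T_CMP) (hN : T_NRM) {al : ℤ} (hal : (al : ℚ) ≠ 0)
    {φ : VV D →ₗ[ℚ] VV D} (hq : ∀ v, qf (φ v) = qf v) {t : ℚ}
    (h4 : φ (0, 0, al) = (0, 0, t)) : P al φ := by
  obtain ⟨r₁, w₁, t₁, h1⟩ : ∃ r₁ w₁ t₁, φ (1, 0, 0) = (r₁, w₁, t₁) := ⟨_, _, _, rfl⟩
  have a1 := pol_map hq (1, 0, 0) (0, 0, al)
  rw [h1, h4] at a1
  simp only [pol, star_zero, mul_zero, QuadraticAlgebra.re_zero, zero_sub, sub_zero, one_mul,
    neg_inj] at a1
  have hr0 : r₁ ≠ 0 := by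
    rintro rfl
    apply hal
    rw [← a1, zero_mul]
  have hdet : (1 : KK D) * 1 - 0 * ((-(1 / r₁) : ℚ) • star w₁) = cc D 1 := by
    rw [cc_one]
    ring
  refine P_of_comp hC one_ne_zero hdet ?_
  have hq' : ∀ v, qf (((act (1 : KK D) 0 ((-(1 / r₁) : ℚ) • star w₁) 1 1).comp φ) v) = qf v := by
    intro v
    rw [LinearMap.comp_apply, (hN D al _ _ _ _ 1 one_ne_zero hdet (φ v) (φ v)).1, hq]
  have b4 : ((act (1 : KK D) 0 ((-(1 / r₁) : ℚ) • star w₁) 1 1).comp φ) (0, 0, al) =
      (0, 0, t) := by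
    rw [LinearMap.comp_apply, h4, act_apply]
    refine Prod.ext ?_ (Prod.ext ?_ ?_)
    · simp
    · apply QuadraticAlgebra.ext <;> simp
    · simp
  have b1 : ∃ T, ((act (1 : KK D) 0 ((-(1 / r₁) : ℚ) • star w₁) 1 1).comp φ) (1, 0, 0) =
      (r₁, 0, T) := by
    refine ⟨(((act (1 : KK D) 0 ((-(1 / r₁) : ℚ) • star w₁) 1 1).comp φ) (1, 0, 0)).2.2, ?_⟩
    rw [LinearMap.comp_apply, h1, act_apply]
    obtain ⟨x, y⟩ := w₁
    refine Prod.ext ?_ (Prod.ext ?_ rfl)
    · simp
    · apply QuadraticAlgebra.ext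
      · simp [QuadraticAlgebra.re_one, QuadraticAlgebra.im_one]
        field_simp
        ring
      · simp [QuadraticAlgebra.re_one, QuadraticAlgebra.im_one]
        field_simp
        ring
  obtain ⟨T, b1⟩ := b1
  have b2 : T = 0 := by
    have := hq' (1, 0, 0)
    rw [b1] at this
    simpa [qf, hr0] using this
  rw [b2] at b1
  exact diag hal hq' a1 b4 b1

/-- `φ (0,0,al) = (r,w,t)`, `t ≠ 0` -/
lemma step2 [NS D] (hC : T_CMP) (hN : T_NRM) {al : ℤ} (hal : (al : ℚ) ≠ 0)
    {φ : VV D →ₗ[ℚ] VV D} (hq : ∀ v, qf (φ v) = qf v) {r t : ℚ} {w : KK D} (ht : t ≠ 0)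
    (h4 : φ (0, 0, al) = (r, w, t)) : P al φ := by
  have hdet : (1 : KK D) * 1 - ((-(1 / t) : ℚ) • w) * 0 = cc D 1 := by
    rw [cc_one]
    ring
  refine P_of_comp hC one_ne_zero hdet ?_
  have hq' : ∀ v, qf (((act (1 : KK D) ((-(1 / t) : ℚ) • w) 0 1 1).comp φ) v) = qf v := by
    intro v
    rw [LinearMap.comp_apply, (hN D al _ _ _ _ 1 one_ne_zero hdet (φ v) (φ v)).1, hq]
  have b4 : ∃ T, ((act (1 : KK D) ((-(1 / t) : ℚ) • w) 0 1 1).comp φ) (0, 0, al) =
      (T, 0, t) := by
    refine ⟨(((act (1 : KK D) ((-(1 / t) : ℚ) • w) 0 1 1).comp φ) (0, 0, al)).1, ?_⟩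
    rw [LinearMap.comp_apply, h4, act_apply]
    obtain ⟨x, y⟩ := w
    refine Prod.ext rfl (Prod.ext ?_ ?_)
    · apply QuadraticAlgebra.ext
      · simp [QuadraticAlgebra.re_one, QuadraticAlgebra.im_one]
        field_simp
        ring
      · simp [QuadraticAlgebra.re_one, QuadraticAlgebra.im_one]
        field_simp
        ring
    · simp
  obtain ⟨T, b4⟩ := b4
  have b2 : T = 0 := by
    have := hq' (0, 0, al)
    rw [b4] at this
    simpa [qf, ht] using this
  rw [b2] at b4
  exact step3 hC hN hal hq' b4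

end LIF_

open LIF_ in
/-- LIF -/
theorem p_LIF (hC : T_CMP) (hN : T_NRM) : T_LIF := by
  intro D _ al be ga hD φ hq
  have hal : (al : ℚ) ≠ 0 := by
    intro h
    have h' : al = 0 := by exact_mod_cast h
    refine NS.nsq (D := D) ⟨be, ?_⟩
    rw [hD, h']
    ring
  change P al φ
  obtain ⟨r, w, t, h4⟩ : ∃ r w t, φ (0, 0, al) = (r, w, t) := ⟨_, _, _, rfl⟩
  by_cases ht : t = 0
  · have hw : w = 0 := by
      have := hq (0, 0, al)
      rw [h4, ht] at this
      simp only [qf, mul_zero, sub_zero, QuadraticAlgebra.norm_zero, zero_mul] at this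
      exact QuadraticAlgebra.norm_eq_zero_iff_eq_zero.1 this
    have hr : r ≠ 0 := by
      rintro rfl
      have a1 := pol_map hq (1, 0, 0) (0, 0, al)
      rw [h4, ht, hw] at a1
      simp only [pol, star_zero, mul_zero, QuadraticAlgebra.re_zero, zero_sub, sub_zero,
        one_mul, neg_zero] at a1
      exact hal (neg_eq_zero.1 a1.symm)
    have hdet : (0 : KK D) * 0 - 1 * (-1) = cc D 1 := by
      rw [cc_one]
      ring
    refine P_of_comp hC one_ne_zero hdet ?_
    have hq' : ∀ v, qf (((act (0 : KK D) 1 (-1) 0 1).comp φ) v) = qf v := by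
      intro v
      rw [LinearMap.comp_apply, (hN D al _ _ _ _ 1 one_ne_zero hdet (φ v) (φ v)).1, hq]
    refine step2 hC hN hal hq' (r := ((act (0 : KK D) 1 (-1) 0 1).comp φ (0, 0, al)).1)
      (w := ((act (0 : KK D) 1 (-1) 0 1).comp φ (0, 0, al)).2.1) hr ?_
    refine Prod.ext rfl (Prod.ext rfl ?_)
    rw [LinearMap.comp_apply, h4, hw, ht, act_apply]
    simp
  · exact step2 hC hN hal hq ht h4

end K3S
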