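import Pool.Agent.K3S.TargetsB

/-!
# LOA: a lower elementary matrix makes `norm d / ρ` a unit at `p`
-/

set_option autoImplicit false

namespace K3S

open Matrix

namespace LOA_

theorem us_of {p : ℕ} [Fact p.Prime] {x : ℚ} (h : padicNorm p x = 1) : US (ZP p) x := by
  have h0 : x ≠ 0 := by
    rintro rfl
    simp at h
  have h1 : padicNorm p x⁻¹ = 1 := by
    rw [← one_div, padicNorm.div, h]
    simp
  exact ⟨h.le, h1.le, h0⟩

/-- the numerical core -/
theorem rat {p : ℕ} [Fact p.Prime] (al be ga : ℤ)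
    (hnd : ¬ ((p : ℤ) ∣ al ∧ (p : ℤ) ∣ be ∧ (p : ℤ) ∣ ga)) (r s r' s' x0 y0 x1 y1 : ℚ)
    (hr : r ∈ ZP p) (hs : s ∈ ZP p) (hr' : r' ∈ ZP p) (hs' : s' ∈ ZP p) (hx0 : x0 ∈ ZP p)
    (hy0 : y0 ∈ ZP p) (hx1 : x1 ∈ ZP p) (hy1 : y1 ∈ ZP p)
    (h1 : al * x0 ^ 2 + be * x0 * y0 + ga * y0 ^ 2 = r * s)
    (h2 : (2 * al * x0 * x1 + be * (x0 * y1 + x1 * y0) + 2 * ga * y0 * y1) - r' * s - s' * r
      = -1) :
    ∃ x ∈ ZP p, ∃ y ∈ ZP p, padicNorm p (s + (2 * al * x0 * x + be * (x0 * y + x * y0) +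
      2 * ga * y0 * y) + r * (al * x ^ 2 + be * x * y + ga * y ^ 2)) = 1 := by
  by_cases hs1 : padicNorm p s = 1
  · exact ⟨0, zero_mem _, 0, zero_mem _, by simpa using hs1⟩
  by_cases hr1 : padicNorm p r = 1
  · have hr0 : r ≠ 0 := by
      rintro rfl
      simp at hr1
    have hri : r⁻¹ ∈ ZP p := (us_of hr1).2.1
    obtain ⟨X, Y, hXY⟩ : ∃ X Y : ℤ, ¬ (p : ℤ) ∣ al * X ^ 2 + be * X * Y + ga * Y ^ 2 := by
      by_cases ha : (p : ℤ) ∣ al
      · by_cases hg : (p : ℤ) ∣ ga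
        · refine ⟨1, 1, fun h => hnd ⟨ha, ?_, hg⟩⟩
          have h3 : be = (al * 1 ^ 2 + be * 1 * 1 + ga * 1 ^ 2) - al - ga := by ring
          rw [h3]
          exact dvd_sub (dvd_sub h ha) hg
        · exact ⟨0, 1, fun h => hg (by simpa using h)⟩
      · exact ⟨1, 0, fun h => ha (by simpa using h)⟩
    refine ⟨(X - x0) * r⁻¹, mul_mem (sub_mem (intCast_mem _ X) hx0) hri,
      (Y - y0) * r⁻¹, mul_mem (sub_mem (intCast_mem _ Y) hy0) hri, ?_⟩
    have h4 : s + (2 * al * x0 * ((X - x0) * r⁻¹) + be * (x0 * ((Y - y0) * r⁻¹) +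
        (X - x0) * r⁻¹ * y0) + 2 * ga * y0 * ((Y - y0) * r⁻¹)) +
        r * (al * ((X - x0) * r⁻¹) ^ 2 + be * ((X - x0) * r⁻¹) * ((Y - y0) * r⁻¹) +
          ga * ((Y - y0) * r⁻¹) ^ 2) =
        ((al * X ^ 2 + be * X * Y + ga * Y ^ 2 : ℤ) : ℚ) / r := by
      push_cast
      field_simp
      linear_combination -h1
    rw [h4, padicNorm.div, hr1, div_one]
    exact (padicNorm.int_eq_one_iff _).2 hXY
  · have hs2 : padicNorm p s < 1 := lt_of_le_of_ne hs hs1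
    have hr2 : padicNorm p r < 1 := lt_of_le_of_ne hr hr1
    have hadd : ∀ u v : ℚ, padicNorm p u < 1 → padicNorm p v < 1 → padicNorm p (u + v) < 1 :=
      fun u v hu hv => lt_of_le_of_lt padicNorm.nonarchimedean (max_lt hu hv)
    have hmul : ∀ u v : ℚ, u ∈ ZP p → padicNorm p v < 1 → padicNorm p (u * v) < 1 := by
      intro u v hu hv
      rw [padicNorm.mul]
      exact lt_of_le_of_lt (mul_le_of_le_one_left (padicNorm.nonneg v) hu) hv
    have hq : al * x1 ^ 2 + be * x1 * y1 + ga * y1 ^ 2 ∈ ZP p :=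
      add_mem (add_mem (mul_mem (intCast_mem _ al) (pow_mem hx1 2))
        (mul_mem (mul_mem (intCast_mem _ be) hx1) hy1))
        (mul_mem (intCast_mem _ ga) (pow_mem hy1 2))
    refine ⟨x1, hx1, y1, hy1, ?_⟩
    have h5 : s + (2 * al * x0 * x1 + be * (x0 * y1 + x1 * y0) + 2 * ga * y0 * y1) +
        r * (al * x1 ^ 2 + be * x1 * y1 + ga * y1 ^ 2) =
        -1 + (((s + r' * s) + s' * r) + (al * x1 ^ 2 + be * x1 * y1 + ga * y1 ^ 2) * r) := by
      linear_combination h2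
    have h6 : padicNorm p (((s + r' * s) + s' * r) +
        (al * x1 ^ 2 + be * x1 * y1 + ga * y1 ^ 2) * r) < 1 :=
      hadd _ _ (hadd _ _ (hadd _ _ hs2 (hmul _ _ hr' hs2)) (hmul _ _ hs' hr2)) (hmul _ _ hq hr2)
    have h7 : padicNorm p (-1 : ℚ) = 1 := by
      rw [padicNorm.neg]
      simp
    rw [h5, padicNorm.add_eq_max_of_ne (by rw [h7]; exact h6.ne'), h7]
    exact max_eq_left h6.le

variable {D : ℤ}

theorem act_f (al : ℤ) (a b c d : KK D) (ρ : ℚ) : act a b c d ρ (0, 0, (al : ℚ)) =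
    (b.norm * al / ρ, ((al : ℚ) / ρ) • (b * star d), d.norm * al / ρ) := by
  refine Prod.ext ?_ (Prod.ext ?_ ?_)
  · simp [act]
  · apply QuadraticAlgebra.ext
    · simp [act]
      ring
    · simp [act]
      ring
  · simp [act]

theorem act_e (a b c d : KK D) (ρ : ℚ) : act a b c d ρ (1, 0, 0) =
    (a.norm / ρ, ρ⁻¹ • (a * star c), c.norm / ρ) := by
  refine Prod.ext ?_ (Prod.ext ?_ ?_)
  · simp [act]
  · apply QuadraticAlgebra.ext
    · simp [act]
    · simp [act]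
  · simp [act]

theorem nrm (z : KK D) : z.norm = z.re ^ 2 - D * z.im ^ 2 := by
  rw [QuadraticAlgebra.norm_def]
  ring

end LOA_

open LOA_ in
theorem p_LOA (hLOK : T_LOK) : T_LOA := by
  intro D hNS al be ga hD p _ a b c d ρ hρ hdet hIL
  have hNN0 : NN (ZP p) al be (0 : KK D) := by
    refine ⟨0, zero_mem _, 0, zero_mem _, ?_⟩
    apply QuadraticAlgebra.ext
    · simp [io]
    · simp [io]
  by_cases hdiv : (p : ℤ) ∣ al ∧ (p : ℤ) ∣ be ∧ (p : ℤ) ∣ ga
  · refine ⟨0, ?_, ?_⟩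
    · rw [star_zero]
      exact hNN0
    · rw [zero_mul, add_zero]
      exact hLOK D al be ga hD p hdiv.1 hdiv.2.1 hdiv.2.2 a b c d ρ hρ hdet hIL
  have hal : (al : ℚ) ≠ 0 := by
    intro h
    have h0 : al = 0 := by exact_mod_cast h
    apply hNS.nsq
    rw [hD, h0]
    exact ⟨be, by ring⟩
  have hDq : (D : ℚ) = be ^ 2 - 4 * al * ga := by exact_mod_cast hD
  have hf := hIL.1 (0, 0, (al : ℚ)) ⟨zero_mem _, hNN0, 1, one_mem _, by simp⟩
  have he := hIL.1 (1, 0, 0) ⟨one_mem _, hNN0, 0, zero_mem _, by simp⟩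
  rw [act_f] at hf
  rw [act_e] at he
  obtain ⟨hr, ⟨x0, hx0, y0, hy0, hw⟩, s, hs, hs'⟩ := hf
  obtain ⟨hr', ⟨x1, hx1, y1, hy1, hw'⟩, s2, hs2, hs2'⟩ := he
  simp only at hr hw hs' hr' hw' hs2'
  have hU := congrArg QuadraticAlgebra.re hw
  have hV := congrArg QuadraticAlgebra.im hw
  have hU' := congrArg QuadraticAlgebra.re hw'
  have hV' := congrArg QuadraticAlgebra.im hw'
  have hdr := congrArg QuadraticAlgebra.re hdet
  have hdi := congrArg QuadraticAlgebra.im hdet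
  simp [io, cc] at hU hV hU' hV' hdr hdi
  rw [nrm] at hr hs' hr' hs2'
  obtain ⟨r, hrd⟩ : ∃ r : ℚ, r = (b.re ^ 2 - D * b.im ^ 2) * al / ρ := ⟨_, rfl⟩
  obtain ⟨r', hrd'⟩ : ∃ r' : ℚ, r' = (a.re ^ 2 - D * a.im ^ 2) / ρ := ⟨_, rfl⟩
  rw [← hrd] at hr
  rw [← hrd'] at hr'
  have hnb : (b.re ^ 2 - D * b.im ^ 2) * al = ρ * r := by
    rw [hrd]
    field_simp
  have hna : a.re ^ 2 - D * a.im ^ 2 = ρ * r' := by
    rw [hrd']
    field_simp
  have hnd : d.re ^ 2 - D * d.im ^ 2 = ρ * s := by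
    have h3 : (al : ℚ) * (d.re ^ 2 - D * d.im ^ 2) = al * (ρ * s) := by
      have h4 : (d.re ^ 2 - D * d.im ^ 2) * al = ρ * (al * s) := by
        rw [← hs']
        field_simp
      linarith
    exact mul_left_cancel₀ hal h3
  have hnc : c.re ^ 2 - D * c.im ^ 2 = ρ * (al * s2) := by
    rw [← hs2']
    field_simp
  have hU2 : (al : ℚ) * (b.re * d.re - D * b.im * d.im) = ρ * (al * x0 + be * y0 / 2) := by
    rw [← hU]
    field_simp
    ring
  have hV2 : (al : ℚ) * (-(b.re * d.im) + b.im * d.re) = ρ * (y0 / 2) := by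
    rw [← hV]
    field_simp
  have hU2' : a.re * c.re - D * a.im * c.im = ρ * (al * x1 + be * y1 / 2) := by
    rw [← hU']
    field_simp
    ring
  have hV2' : -(a.re * c.im) + a.im * c.re = ρ * (y1 / 2) := by
    rw [← hV']
    field_simp
  have hK : (al : ℚ) * ρ ^ 2 ≠ 0 := mul_ne_zero hal (pow_ne_zero 2 hρ)
  have h1 : al * x0 ^ 2 + be * x0 * y0 + ga * y0 ^ 2 = r * s := by
    apply mul_left_cancel₀ hK
    calc (al : ℚ) * ρ ^ 2 * (al * x0 ^ 2 + be * x0 * y0 + ga * y0 ^ 2)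
        = (ρ * (al * x0 + be * y0 / 2)) ^ 2 - D * (ρ * (y0 / 2)) ^ 2 := by rw [hDq]; ring
      _ = (al * (b.re * d.re - D * b.im * d.im)) ^ 2 -
          D * (al * (-(b.re * d.im) + b.im * d.re)) ^ 2 := by rw [hU2, hV2]
      _ = al * ((b.re ^ 2 - D * b.im ^ 2) * al) * (d.re ^ 2 - D * d.im ^ 2) := by ring
      _ = al * ρ ^ 2 * (r * s) := by rw [hnb, hnd]; ring
  have h2 : (2 * al * x0 * x1 + be * (x0 * y1 + x1 * y0) + 2 * ga * y0 * y1) - r' * s - s2 * r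
      = -1 := by
    apply mul_left_cancel₀ hK
    calc (al : ℚ) * ρ ^ 2 * ((2 * al * x0 * x1 + be * (x0 * y1 + x1 * y0) + 2 * ga * y0 * y1) -
          r' * s - s2 * r)
        = 2 * ((ρ * (al * x0 + be * y0 / 2)) * (ρ * (al * x1 + be * y1 / 2)) -
            D * (ρ * (y0 / 2)) * (ρ * (y1 / 2))) - al * (ρ * r') * (ρ * s) -
            (ρ * (al * s2)) * (ρ * r) := by rw [hDq]; ring
      _ = 2 * ((al * (b.re * d.re - D * b.im * d.im)) * (a.re * c.re - D * a.im * c.im) -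
            D * (al * (-(b.re * d.im) + b.im * d.re)) * (-(a.re * c.im) + a.im * c.re)) -
            al * (a.re ^ 2 - D * a.im ^ 2) * (d.re ^ 2 - D * d.im ^ 2) -
            (c.re ^ 2 - D * c.im ^ 2) * ((b.re ^ 2 - D * b.im ^ 2) * al) := by
          rw [hU2, hV2, hU2', hV2', hna, hnd, hnc, hnb]
      _ = -(al * ((a.re * d.re + D * a.im * d.im - (b.re * c.re + D * b.im * c.im)) ^ 2 -
            D * (a.re * d.im + a.im * d.re - (b.re * c.im + b.im * c.re)) ^ 2)) := by ring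
      _ = al * ρ ^ 2 * (-1) := by rw [hdr, hdi]; ring
  obtain ⟨x, hx, y, hy, hxy⟩ := rat al be ga hdiv r s r' s2 x0 y0 x1 y1 hr hs hr' hs2 hx0 hy0
    hx1 hy1 h1 h2
  refine ⟨star (io D al be x y), ⟨x, hx, y, hy, star_star _⟩, us_of ?_⟩
  have h5 : QuadraticAlgebra.norm (d + star (io D al be x y) * b) / ρ =
      s + (2 * al * x0 * x + be * (x0 * y + x * y0) + 2 * ga * y0 * y) +
        r * (al * x ^ 2 + be * x * y + ga * y ^ 2) := by
    rw [div_eq_iff hρ]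
    apply mul_left_cancel₀ hal
    calc (al : ℚ) * QuadraticAlgebra.norm (d + star (io D al be x y) * b)
        = al * (d.re ^ 2 - D * d.im ^ 2) + 2 * ((al * x + be * y / 2) *
            (al * (b.re * d.re - D * b.im * d.im)) - D * (y / 2) *
            (al * (-(b.re * d.im) + b.im * d.re))) +
            ((al * x + be * y / 2) ^ 2 - D * (y / 2) ^ 2) * ((b.re ^ 2 - D * b.im ^ 2) * al) := by
          rw [nrm]
          simp [io]
          ring
      _ = al * (ρ * s) + 2 * ((al * x + be * y / 2) *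
            (ρ * (al * x0 + be * y0 / 2)) - D * (y / 2) * (ρ * (y0 / 2))) +
            ((al * x + be * y / 2) ^ 2 - D * (y / 2) ^ 2) * (ρ * r) := by
          rw [hU2, hV2, hnd, hnb]
      _ = _ := by
          rw [hDq]
          ring
  rw [h5]
  exact hxy

end K3S
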