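import Pool.Agent.K3S.TargetsB

/-!
# MP_98be90_ag, part B: LOB (local integrality when `norm d / ρ` is a unit)
-/

set_option autoImplicit false
set_option linter.unusedSectionVars false

namespace K3S

open Matrix

namespace LOB_

variable {D : ℤ}

theorem disc {al be ga : ℤ} (h : D = be ^ 2 - 4 * al * ga) :
    (D : ℚ) = (be : ℚ) ^ 2 - 4 * al * ga := by
  rw [h]
  push_cast
  ring

/-! ### the module `NN` and the ring `OO` -/

theorem NN_zero (S : Subring ℚ) (al be : ℤ) : NN S al be (0 : KK D) :=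
  ⟨0, S.zero_mem, 0, S.zero_mem, by
    apply QuadraticAlgebra.ext <;> simp [io]⟩

theorem NN_add {S : Subring ℚ} {al be : ℤ} {z z' : KK D} (h : NN S al be z)
    (h' : NN S al be z') : NN S al be (z + z') := by
  obtain ⟨x, hx, y, hy, rfl⟩ := h
  obtain ⟨x', hx', y', hy', rfl⟩ := h'
  refine ⟨x + x', S.add_mem hx hx', y + y', S.add_mem hy hy', ?_⟩
  apply QuadraticAlgebra.ext <;> simp [io] <;> ring

theorem NN_cc {S : Subring ℚ} {al be : ℤ} {z : KK D} {r : ℚ} (hr : r ∈ S)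
    (h : NN S al be z) : NN S al be (cc D r * z) := by
  obtain ⟨x, hx, y, hy, rfl⟩ := h
  refine ⟨r * x, S.mul_mem hr hx, r * y, S.mul_mem hr hy, ?_⟩
  apply QuadraticAlgebra.ext <;> simp [io, cc] <;> ring

theorem NN_neg {S : Subring ℚ} {al be : ℤ} {z : KK D} (h : NN S al be z) :
    NN S al be (-z) := by
  obtain ⟨x, hx, y, hy, rfl⟩ := h
  refine ⟨-x, S.neg_mem hx, -y, S.neg_mem hy, ?_⟩
  apply QuadraticAlgebra.ext <;> simp [io] <;> ring

theorem OO_add {S : Subring ℚ} {be : ℤ} {z z' : KK D} (h : OO S be z) (h' : OO S be z') :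
    OO S be (z + z') := by
  obtain ⟨x, hx, y, hy, rfl⟩ := h
  obtain ⟨x', hx', y', hy', rfl⟩ := h'
  refine ⟨x + x', S.add_mem hx hx', y + y', S.add_mem hy hy', ?_⟩
  apply QuadraticAlgebra.ext <;> simp <;> ring

theorem OO_cc {S : Subring ℚ} {be : ℤ} {z : KK D} {r : ℚ} (hr : r ∈ S)
    (h : OO S be z) : OO S be (cc D r * z) := by
  obtain ⟨x, hx, y, hy, rfl⟩ := h
  refine ⟨r * x, S.mul_mem hr hx, r * y, S.mul_mem hr hy, ?_⟩
  apply QuadraticAlgebra.ext <;> simp [cc] <;> ring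

theorem OO_star {S : Subring ℚ} {be : ℤ} {z : KK D} (h : OO S be z) : OO S be (star z) := by
  obtain ⟨u, hu, v, hv, rfl⟩ := h
  refine ⟨u + v * be, S.add_mem hu (S.mul_mem hv (intCast_mem S be)), -v, S.neg_mem hv, ?_⟩
  apply QuadraticAlgebra.ext <;> simp <;> ring

/-- `𝔫` is a module over the order -/
theorem NN_mul {al be ga : ℤ} (hD : D = be ^ 2 - 4 * al * ga) {S : Subring ℚ} {z w : KK D}
    (h : NN S al be z) (h' : OO S be w) : NN S al be (z * w) := by
  obtain ⟨x, hx, y, hy, rfl⟩ := h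
  obtain ⟨u, hu, v, hv, rfl⟩ := h'
  have hd := disc hD
  have ha := intCast_mem S al
  have hb := intCast_mem S be
  have hg := intCast_mem S ga
  refine ⟨x * u - y * v * ga, S.sub_mem (S.mul_mem hx hu) (S.mul_mem (S.mul_mem hy hv) hg),
    al * x * v + y * u + y * v * be, S.add_mem (S.add_mem (S.mul_mem (S.mul_mem ha hx) hv)
      (S.mul_mem hy hu)) (S.mul_mem (S.mul_mem hy hv) hb), ?_⟩
  apply QuadraticAlgebra.ext
  · simp only [io, QuadraticAlgebra.re_mul]
    rw [hd]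
    ring
  · simp only [io, QuadraticAlgebra.im_mul]
    ring

/-- `x * star y / al` is in the order for `x, y ∈ 𝔫` -/
theorem OO_div {al be ga : ℤ} (hD : D = be ^ 2 - 4 * al * ga) {S : Subring ℚ}
    {z w v : KK D} (h : NN S al be z) (h' : NN S al be w)
    (hv : (al : KK D) * v = z * star w) (ha0 : al ≠ 0) : OO S be v := by
  obtain ⟨x, hx, y, hy, rfl⟩ := h
  obtain ⟨x', hx', y', hy', rfl⟩ := h'
  have hd := disc hD
  have ha := intCast_mem S al
  have hb := intCast_mem S be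
  have hg := intCast_mem S ga
  have ha1 : (al : ℚ) ≠ 0 := by exact_mod_cast ha0
  have hre := congrArg QuadraticAlgebra.re hv
  have him := congrArg QuadraticAlgebra.im hv
  simp [io] at hre him
  refine ⟨al * x * x' + x * y' * be + y * y' * ga, S.add_mem (S.add_mem
    (S.mul_mem (S.mul_mem ha hx) hx') (S.mul_mem (S.mul_mem hx hy') hb))
      (S.mul_mem (S.mul_mem hy hy') hg), x' * y - x * y', S.sub_mem (S.mul_mem hx' hy)
        (S.mul_mem hx hy'), ?_⟩
  apply QuadraticAlgebra.ext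
  · apply mul_left_cancel₀ ha1
    rw [hre, hd]
    ring
  · apply mul_left_cancel₀ ha1
    rw [him]
    ring

/-! ### the lattice -/

theorem LL_add {S : Subring ℚ} {al be : ℤ} {v v' : VV D} (h : LL S al be v)
    (h' : LL S al be v') : LL S al be (v + v') := by
  obtain ⟨h1, h2, s, hs, h3⟩ := h
  obtain ⟨h1', h2', s', hs', h3'⟩ := h'
  refine ⟨S.add_mem h1 h1', NN_add h2 h2', s + s', S.add_mem hs hs', ?_⟩
  rw [Prod.snd_add, Prod.snd_add, h3, h3']
  ring

theorem IL_comp {S : Subring ℚ} {al be : ℤ} {φ ψ : VV D →ₗ[ℚ] VV D} (hφ : IL S al be φ)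
    (hψ : IL S al be ψ) : IL S al be (ψ.comp φ) := by
  refine ⟨fun v hv => hψ.1 _ (hφ.1 v hv), fun ν hν => ?_⟩
  have h1 := hψ.1 _ (hφ.2 ν hν)
  have h2 := hψ.2 ν hν
  have h3 := LL_add h1 h2
  rw [map_sub] at h3
  have e : ψ (φ (0, ν, 0)) - ψ (0, ν, 0) + (ψ (0, ν, 0) - (0, ν, 0)) =
      (ψ.comp φ) (0, ν, 0) - (0, ν, 0) := by
    rw [LinearMap.comp_apply]
    abel
  rwa [e] at h3

theorem LL_f (S : Subring ℚ) (al be : ℤ) : LL S al be ((0, 0, (al : ℚ)) : VV D) :=
  ⟨S.zero_mem, NN_zero S al be, 1, S.one_mem, by simp⟩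

theorem LL_e (S : Subring ℚ) (al be : ℤ) : LL S al be ((1, 0, 0) : VV D) :=
  ⟨S.one_mem, NN_zero S al be, 0, S.zero_mem, by simp⟩

/-! ### scalars -/

theorem cc_mul (r r' : ℚ) : cc D (r * r') = cc D r * cc D r' := by
  apply QuadraticAlgebra.ext <;> simp [cc]

theorem cc_one : cc D 1 = 1 := by
  apply QuadraticAlgebra.ext
  · rfl
  · rfl

theorem star_cc (r : ℚ) : star (cc D r) = cc D r := by
  apply QuadraticAlgebra.ext <;> simp [cc]

theorem smul_cc (r : ℚ) (z : KK D) : r • z = cc D r * z := by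
  apply QuadraticAlgebra.ext <;> simp [cc]

theorem cc_int (n : ℤ) : cc D (n : ℚ) = (n : KK D) := rfl

theorem mul_star_cc (z : KK D) : z * star z = cc D z.norm := by
  apply QuadraticAlgebra.ext
  · simp [cc, QuadraticAlgebra.norm_def]
    ring
  · simp [cc]
    ring

theorem star3 (u w : KK D) (r : ℚ) :
    star (u * (cc D r * w)) = star u * (cc D r * star w) := by
  rw [star_mul', star_mul', star_cc]

theorem cc_ne [NS D] {r : ℚ} (hr : r ≠ 0) : cc D r ≠ 0 := by
  intro h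
  exact hr (congrArg QuadraticAlgebra.re h)

end LOB_

open LOB_ in
theorem p_LOB (h_CMP : T_CMP) (h_ELE : T_ELE) (h_LOD : T_LOD) : T_LOB := by
  intro D _ al be ga hD p _ a b c d ρ hρ hdet hs hφ
  have ha0 : al ≠ 0 := by
    rintro rfl
    refine NS.nsq (D := D) ⟨be, ?_⟩
    rw [hD]
    ring
  have hd0 : d ≠ 0 := by
    rintro rfl
    apply hs.2.2
    rw [QuadraticAlgebra.norm_zero, zero_div]
  set S := ZP p with hS
  set s : ℚ := d.norm / ρ with hs'
  have hn0 : d.norm ≠ 0 := by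
    intro h
    apply hs.2.2
    rw [hs', h, zero_div]
  have hdn : d * star d = cc D (s * ρ) := by
    rw [mul_star_cc, hs', div_mul_cancel₀ _ hρ]
  have hρ' : cc D ρ ≠ 0 := cc_ne hρ
  have hcs : cc D s ≠ 0 := cc_ne hs.2.2
  -- the element B = b / d
  have hB : NN S al be ((al : KK D) * (b * d⁻¹)) := by
    have h1 := (hφ.1 _ (LL_f S al be)).2.1
    have e1 : (act a b c d ρ ((0, 0, (al : ℚ)) : VV D)).2.1 =
        cc D ρ⁻¹ * (cc D (al : ℚ) * (b * star d)) := by
      rw [← smul_cc, ← smul_cc]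
      simp [act]
    rw [e1] at h1
    have h2 := NN_cc hs.2.1 h1
    have e2 : cc D s⁻¹ * (cc D ρ⁻¹ * (cc D (al : ℚ) * (b * star d))) =
        (al : KK D) * (b * d⁻¹) := by
      have e3 : cc D s⁻¹ * cc D ρ⁻¹ * (d * star d) = 1 := by
        rw [hdn, ← cc_mul, ← cc_mul, ← cc_one]
        congr 1
        have := hs.2.2
        field_simp
      have e4 : star d = d⁻¹ * (d * star d) := by
        rw [← mul_assoc, inv_mul_cancel₀ hd0, one_mul]
      calc cc D s⁻¹ * (cc D ρ⁻¹ * (cc D (al : ℚ) * (b * star d))) =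
          cc D s⁻¹ * (cc D ρ⁻¹ * (cc D (al : ℚ) * (b * (d⁻¹ * (d * star d))))) := by
            rw [← e4]
        _ = (cc D s⁻¹ * cc D ρ⁻¹ * (d * star d)) * (cc D (al : ℚ) * (b * d⁻¹)) := by ring
        _ = _ := by rw [e3, one_mul, cc_int]
    rwa [e2] at h2
  set B : KK D := b * d⁻¹ with hBd
  have hb : b = B * d := by
    rw [hBd, mul_assoc, inv_mul_cancel₀ hd0, mul_one]
  -- first reduction
  have hE1 : IL S al be (act 1 (-B) 0 1 1) := by
    refine (h_ELE D al be ga hD S).1 (-B) ?_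
    rw [mul_neg]
    exact NN_neg hB
  have hφ1 := IL_comp hφ hE1
  rw [h_CMP] at hφ1
  have e5 : (1 : KK D) * a + -B * c = cc D ρ * d⁻¹ := by
    rw [← hdet, hb]
    field_simp
    ring
  have e6 : (1 : KK D) * b + -B * d = 0 := by
    rw [hb]
    ring
  rw [e5, e6, zero_mul, zero_mul, zero_add, zero_add, one_mul, one_mul, one_mul] at hφ1
  -- the element c
  have hC0 : NN S al be (d⁻¹ * star c) := by
    have h1 := (hφ1.1 _ (LL_e S al be)).2.1
    have e1 : (act (cc D ρ * d⁻¹) 0 c d ρ ((1, 0, 0) : VV D)).2.1 =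
        cc D ρ⁻¹ * (cc D ρ * d⁻¹ * star c) := by
      rw [← smul_cc ρ⁻¹]
      show ρ⁻¹ • ((1 : ℚ) • (cc D ρ * d⁻¹ * star c) + cc D ρ * d⁻¹ * 0 * star d +
        0 * star (0 : KK D) * star c + (0 : ℚ) • (0 * star d)) = _
      rw [one_smul, mul_zero, zero_mul, zero_mul, zero_mul, zero_smul, add_zero, add_zero,
        add_zero]
    rw [e1] at h1
    have e2 : cc D ρ⁻¹ * (cc D ρ * d⁻¹ * star c) = d⁻¹ * star c := by
      have e3 : cc D ρ⁻¹ * cc D ρ = 1 := by
        rw [← cc_mul, inv_mul_cancel₀ hρ, cc_one]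
      calc cc D ρ⁻¹ * (cc D ρ * d⁻¹ * star c) = (cc D ρ⁻¹ * cc D ρ) * (d⁻¹ * star c) := by ring
        _ = _ := by rw [e3, one_mul]
    rwa [e2] at h1
  set c' : KK D := c * d * cc D ρ⁻¹ with hc'
  have hC : NN S al be (star c') := by
    have e1 : star c' = cc D s * (d⁻¹ * star c) := by
      have e4 : star d = d⁻¹ * (d * star d) := by
        rw [← mul_assoc, inv_mul_cancel₀ hd0, one_mul]
      have e3 : cc D (s * ρ) * cc D ρ⁻¹ = cc D s := by
        rw [← cc_mul, mul_assoc, mul_inv_cancel₀ hρ, mul_one]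
      rw [hc', star_mul', star_mul', star_cc, e4, hdn]
      calc star c * (d⁻¹ * cc D (s * ρ)) * cc D ρ⁻¹ =
          (cc D (s * ρ) * cc D ρ⁻¹) * (d⁻¹ * star c) := by ring
        _ = _ := by rw [e3]
    rw [e1]
    exact NN_cc hs.1 hC0
  have hc'' : c' * (cc D ρ * d⁻¹) = c := by
    have e3 : cc D ρ⁻¹ * cc D ρ = 1 := by
      rw [← cc_mul, inv_mul_cancel₀ hρ, cc_one]
    calc c' * (cc D ρ * d⁻¹) = (cc D ρ⁻¹ * cc D ρ) * (d * d⁻¹) * c := by
          rw [hc']
          ring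
      _ = c := by rw [e3, mul_inv_cancel₀ hd0, one_mul, one_mul]
  -- second reduction
  have hE2 : IL S al be (act 1 0 (-c') 1 1) := by
    refine (h_ELE D al be ga hD S).2 (-c') ?_
    rw [star_neg]
    exact NN_neg hC
  have hφ2 := IL_comp hφ1 hE2
  rw [h_CMP] at hφ2
  have e7 : -c' * (cc D ρ * d⁻¹) + 1 * c = 0 := by
    rw [neg_mul, hc'']
    ring
  rw [e7, one_mul, zero_mul, add_zero, one_mul, zero_mul, add_zero, mul_zero, zero_add,
    one_mul, one_mul] at hφ2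
  obtain ⟨l, hl0, hl1, hl2, hl3⟩ := h_LOD D al be ga hD p d ρ hρ hd0 hs hφ2
  have hccl : cc D l ≠ 0 := cc_ne hl0
  have hla : cc D l * (cc D ρ * d⁻¹) = cc D (l ^ 2 * ρ) * (cc D l * d)⁻¹ := by
    have e3 : cc D (l ^ 2 * ρ) = cc D l * cc D l * cc D ρ := by
      rw [← cc_mul, ← cc_mul]
      congr 1
      ring
    rw [e3, mul_inv]
    field_simp
  have hlc : cc D l * c = c' * (cc D (l ^ 2 * ρ) * (cc D l * d)⁻¹) := by
    calc cc D l * c = cc D l * (c' * (cc D ρ * d⁻¹)) := by rw [hc'']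
      _ = c' * (cc D l * (cc D ρ * d⁻¹)) := by ring
      _ = _ := by rw [hla]
  have hNc : NN S al be (star (cc D l * c)) := by
    rw [hlc, star3]
    have h1 := NN_mul hD (NN_cc hl3.1 hC) (OO_star hl2)
    have e1 : cc D (l ^ 2 * ρ) * star c' * star (cc D l * d)⁻¹ =
        star c' * (cc D (l ^ 2 * ρ) * star (cc D l * d)⁻¹) := by ring
    rwa [e1] at h1
  refine ⟨l, hl0, ⟨?_, hl1, ?_, hNc⟩, hl3⟩
  · -- l a
    have e1 : cc D l * a = cc D (l ^ 2 * ρ) * (cc D l * d)⁻¹ + B * (cc D l * c) := by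
      rw [← hla, ← e5]
      ring
    rw [e1]
    refine OO_add (OO_cc hl3.1 hl2) ?_
    refine OO_div hD hB hNc (v := B * (cc D l * c)) ?_ ha0
    rw [star_star]
    ring
  · -- l b
    have e1 : (al : KK D) * (cc D l * b) = (al : KK D) * B * (cc D l * d) := by
      rw [hb]
      ring
    rw [e1]
    exact NN_mul hD hB hl1

end K3S
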