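import Pool.Agent.K3S.TargetsB

/-!
# LOC: the local integrality theorem

LOA gives `c₁`; LOB is applied to `act 1 0 c₁ 1 1 ∘ φ`; then the entries are corrected.
-/

set_option autoImplicit false
set_option linter.unusedSectionVars false

namespace K3S

open Matrix

namespace LOC_

variable {D : ℤ} {al be ga : ℤ} {S : Subring ℚ}

theorem al_ne [h : NS D] (hD : D = be ^ 2 - 4 * al * ga) : (al : ℚ) ≠ 0 := by
  intro h0
  have h1 : al = 0 := by exact_mod_cast h0
  apply h.nsq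
  rw [hD, h1]
  exact ⟨be, by ring⟩

theorem nn_add {z z' : KK D} (hz : NN S al be z) (hz' : NN S al be z') :
    NN S al be (z + z') := by
  obtain ⟨x, hx, y, hy, rfl⟩ := hz
  obtain ⟨x', hx', y', hy', rfl⟩ := hz'
  refine ⟨x + x', S.add_mem hx hx', y + y', S.add_mem hy hy', ?_⟩
  apply QuadraticAlgebra.ext <;> simp [io] <;> ring

theorem nn_neg {z : KK D} (hz : NN S al be z) : NN S al be (-z) := by
  obtain ⟨x, hx, y, hy, rfl⟩ := hz
  refine ⟨-x, S.neg_mem hx, -y, S.neg_mem hy, ?_⟩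
  apply QuadraticAlgebra.ext <;> simp [io] <;> ring

theorem nn_sub {z z' : KK D} (hz : NN S al be z) (hz' : NN S al be z') :
    NN S al be (z - z') := by
  rw [sub_eq_add_neg]
  exact nn_add hz (nn_neg hz')

theorem oo_add {z z' : KK D} (hz : OO S be z) (hz' : OO S be z') : OO S be (z + z') := by
  obtain ⟨x, hx, y, hy, rfl⟩ := hz
  obtain ⟨x', hx', y', hy', rfl⟩ := hz'
  refine ⟨x + x', S.add_mem hx hx', y + y', S.add_mem hy hy', ?_⟩
  apply QuadraticAlgebra.ext <;> simp <;> ring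

theorem oo_neg {z : KK D} (hz : OO S be z) : OO S be (-z) := by
  obtain ⟨x, hx, y, hy, rfl⟩ := hz
  refine ⟨-x, S.neg_mem hx, -y, S.neg_mem hy, ?_⟩
  apply QuadraticAlgebra.ext <;> simp <;> ring

theorem oo_sub {z z' : KK D} (hz : OO S be z) (hz' : OO S be z') : OO S be (z - z') := by
  rw [sub_eq_add_neg]
  exact oo_add hz (oo_neg hz')

theorem oo_star {z : KK D} (hz : OO S be z) : OO S be (star z) := by
  obtain ⟨u, hu, v, hv, rfl⟩ := hz
  refine ⟨u + v * be, S.add_mem hu (S.mul_mem hv (intCast_mem S be)), -v, S.neg_mem hv, ?_⟩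
  apply QuadraticAlgebra.ext <;> simp <;> ring

theorem nn_mul (hD : D = be ^ 2 - 4 * al * ga) {z w : KK D} (hz : NN S al be z)
    (hw : OO S be w) : NN S al be (z * w) := by
  obtain ⟨x, hx, y, hy, rfl⟩ := hz
  obtain ⟨u, hu, v, hv, rfl⟩ := hw
  have hal := intCast_mem S al
  have hbe := intCast_mem S be
  have hga := intCast_mem S ga
  have hDq : (D : ℚ) = be ^ 2 - 4 * al * ga := by rw [hD]; push_cast; ring
  refine ⟨u * x - v * ga * y, S.sub_mem (S.mul_mem hu hx) (S.mul_mem (S.mul_mem hv hga) hy),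
    u * y + v * (al * x + be * y), S.add_mem (S.mul_mem hu hy) (S.mul_mem hv
      (S.add_mem (S.mul_mem hal hx) (S.mul_mem hbe hy))), ?_⟩
  apply QuadraticAlgebra.ext
  · simp [io]
    rw [hDq]
    ring
  · simp [io]
    ring

theorem oo_of [NS D] (hD : D = be ^ 2 - 4 * al * ga) {z z' w : KK D} (hz : NN S al be z)
    (hz' : NN S al be z') (hw : (al : KK D) * w = z * star z') : OO S be w := by
  obtain ⟨x, hx, y, hy, rfl⟩ := hz
  obtain ⟨x', hx', y', hy', rfl⟩ := hz'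
  have hal := intCast_mem S al
  have hbe := intCast_mem S be
  have hga := intCast_mem S ga
  have hne := al_ne hD
  have hDq : (D : ℚ) = be ^ 2 - 4 * al * ga := by rw [hD]; push_cast; ring
  refine ⟨al * x * x' + be * x * y' + ga * y * y', S.add_mem (S.add_mem
    (S.mul_mem (S.mul_mem hal hx) hx') (S.mul_mem (S.mul_mem hbe hx) hy'))
    (S.mul_mem (S.mul_mem hga hy) hy'), x' * y - x * y',
    S.sub_mem (S.mul_mem hx' hy) (S.mul_mem hx hy'), ?_⟩
  have h1 := congrArg QuadraticAlgebra.re hw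
  have h2 := congrArg QuadraticAlgebra.im hw
  simp [io] at h1 h2
  apply QuadraticAlgebra.ext
  · apply mul_left_cancel₀ hne
    rw [h1, hDq]
    simp
    ring
  · apply mul_left_cancel₀ hne
    rw [h2]
    simp
    ring

theorem ll_add {v v' : VV D} (hv : LL S al be v) (hv' : LL S al be v') :
    LL S al be (v + v') := by
  obtain ⟨h1, h2, s, hs, h3⟩ := hv
  obtain ⟨h1', h2', s', hs', h3'⟩ := hv'
  refine ⟨S.add_mem h1 h1', nn_add h2 h2', s + s', S.add_mem hs hs', ?_⟩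
  rw [Prod.snd_add, Prod.snd_add, h3, h3']
  ring

theorem il_comp {φ ψ : VV D →ₗ[ℚ] VV D} (hφ : IL S al be φ) (hψ : IL S al be ψ) :
    IL S al be (φ.comp ψ) := by
  refine ⟨fun v hv => hφ.1 _ (hψ.1 v hv), fun ν hν => ?_⟩
  have h1 := hφ.1 _ (hψ.2 ν hν)
  have h2 := ll_add h1 (hφ.2 ν hν)
  have h3 : φ (ψ (0, ν, 0) - (0, ν, 0)) + (φ (0, ν, 0) - (0, ν, 0)) =
      (φ.comp ψ) (0, ν, 0) - (0, ν, 0) := by
    rw [map_sub, LinearMap.comp_apply]
    abel
  rwa [h3] at h2

end LOC_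

open LOC_ in
theorem p_LOC (hA : T_LOA) (hB : T_LOB) (hC : T_CMP) (hE : T_ELE) : T_LOC := by
  intro D _ al be ga hD p _ a b c d ρ hρ hdet hI
  obtain ⟨c₁, hc₁, hu⟩ := hA D al be ga hD p a b c d ρ hρ hdet hI
  have hF : IL (ZP p) al be (act 1 0 c₁ 1 1) := (hE D al be ga hD (ZP p)).2 c₁ hc₁
  have hcomp := hC D 1 0 c₁ 1 a b c d 1 ρ
  have hI2 : IL (ZP p) al be (act a b (c₁ * a + c) (c₁ * b + d) ρ) := by
    have h1 := il_comp hF hI
    rw [hcomp] at h1
    simpa using h1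
  have hdet2 : a * (c₁ * b + d) - b * (c₁ * a + c) = cc D ρ := by
    rw [← hdet]
    ring
  have hu2 : US (ZP p) ((c₁ * b + d).norm / ρ) := by
    rw [add_comm]
    exact hu
  obtain ⟨l, hl, ⟨h1, h2, h3, h4⟩, h5⟩ := hB D al be ga hD p a b (c₁ * a + c) (c₁ * b + d) ρ hρ
    hdet2 hu2 hI2
  refine ⟨l, hl, ⟨h1, ?_, h3, ?_⟩, h5⟩
  · have hw : OO (ZP p) be (c₁ * (cc D l * b)) := by
      refine oo_of hD h3 hc₁ ?_
      rw [star_star]
      ring
    have e : cc D l * d = cc D l * (c₁ * b + d) - c₁ * (cc D l * b) := by ring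
    rw [e]
    exact oo_sub h2 hw
  · have hw : NN (ZP p) al be (star c₁ * star (cc D l * a)) := nn_mul hD hc₁ (oo_star h1)
    have e : star (cc D l * c) = star (cc D l * (c₁ * a + c)) - star c₁ * star (cc D l * a) := by
      rw [← star_mul', ← star_sub]
      congr 1
      ring
    rw [e]
    exact nn_sub h4 hw

end K3S
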