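import Pool.Agent.K3S.TargetsB

/-!
# MP_98be90_ag, part B: LOD (the diagonal case)

With `d = u + v √D`, `N = norm d` one has `T = -4 u v / N`, `n = 4 v² / N` and
`l = -2 v / (N m)`.
-/

set_option autoImplicit false
set_option linter.unusedSectionVars false

namespace K3S

open Matrix

namespace LOD_

theorem norm_mk {D : ℤ} (u v : ℚ) : (⟨u, v⟩ : KK D).norm = u ^ 2 - D * v ^ 2 := by
  rw [QuadraticAlgebra.norm_def]
  ring

theorem cc_mul {D : ℤ} (r : ℚ) (x : KK D) : cc D r * x = r • x := by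
  apply QuadraticAlgebra.ext <;> simp [cc]

/-- the middle component of `φ (0, ν, 0) - (0, ν, 0)` -/
theorem mid {D : ℤ} [NS D] {d : KK D} (hd : d ≠ 0) {ρ : ℚ} (hρ : ρ ≠ 0) (ν : KK D) :
    d * ((act (cc D ρ * d⁻¹) 0 0 d ρ (0, ν, 0) - (0, ν, 0) : VV D).2.1) =
      ν * (star d - d) := by
  have h1 : (act (cc D ρ * d⁻¹) 0 0 d ρ (0, ν, 0) - (0, ν, 0) : VV D).2.1 =
      d⁻¹ * ν * star d - ν := by
    simp only [act, LinearMap.coe_mk, AddHom.coe_mk, Prod.snd_sub, Prod.fst_sub]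
    rw [star_zero, mul_zero, zero_smul, zero_smul, zero_mul, zero_mul, zero_add, add_zero,
      add_zero, cc_mul, smul_mul_assoc, smul_mul_assoc, smul_smul, inv_mul_cancel₀ hρ, one_smul]
  rw [h1]
  have h2 : d * d⁻¹ = 1 := mul_inv_cancel₀ hd
  linear_combination (ν * star d) * h2

theorem us_inv {S : Subring ℚ} {x : ℚ} (h : US S x) : US S x⁻¹ :=
  ⟨h.2.1, by rw [inv_inv]; exact h.1, inv_ne_zero h.2.2⟩

theorem us_mul {S : Subring ℚ} {x y : ℚ} (h : US S x) (h' : US S y) : US S (x * y) :=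
  ⟨S.mul_mem h.1 h'.1, by rw [mul_inv]; exact S.mul_mem h.2.1 h'.2.1,
    mul_ne_zero h.2.2 h'.2.2⟩

end LOD_

open LOD_ in
theorem p_LOD (h : T_NUM) : T_LOD := by
  intro D _ al be ga hD p _ d ρ hρ hd hU hIL
  obtain ⟨u, v⟩ := d
  rw [norm_mk] at hU
  obtain ⟨N, hNd⟩ : ∃ N : ℚ, N = u ^ 2 - D * v ^ 2 := ⟨_, rfl⟩
  rw [← hNd] at hU
  have hN0 : N ≠ 0 := fun h0 => hU.2.2 (by rw [h0, zero_div])
  have hal : (al : ℚ) ≠ 0 := by
    intro h0
    have h1 : al = 0 := by exact_mod_cast h0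
    refine NS.nsq (D := D) ⟨be, ?_⟩
    rw [hD, h1]
    ring
  have hD0 : (D : ℚ) ≠ 0 := by
    have := NS.pos (D := D)
    exact_mod_cast this.ne'
  have hDq : (D : ℚ) = be ^ 2 - 4 * al * ga := by
    rw [hD]
    push_cast
    ring
  -- the two values
  obtain ⟨-, ⟨x₁, hx₁, y₁, hy₁, e1⟩, -⟩ := hIL.2 ⟨0, al / D⟩ ⟨1, one_mem _, 0, zero_mem _, by
    apply QuadraticAlgebra.ext
    · simp [sqD, io]
      field_simp
    · simp [sqD, io]⟩
  obtain ⟨-, ⟨x₂, hx₂, y₂, hy₂, e2⟩, -⟩ := hIL.2 ⟨1 / 2, be / (2 * D)⟩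
    ⟨0, zero_mem _, 1, one_mem _, by
      apply QuadraticAlgebra.ext
      · simp [sqD, io]
        field_simp
      · simp [sqD, io]⟩
  have m1 := mid hd hρ (⟨0, al / D⟩ : KK D)
  have m2 := mid hd hρ (⟨1 / 2, be / (2 * D)⟩ : KK D)
  rw [e1] at m1
  rw [e2] at m2
  have a1 := congrArg QuadraticAlgebra.re m1
  have a2 := congrArg QuadraticAlgebra.im m1
  have a3 := congrArg QuadraticAlgebra.re m2
  have a4 := congrArg QuadraticAlgebra.im m2
  simp [io] at a1 a2 a3 a4
  have b1 : (D : ℚ) * (al / D) = al := by field_simp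
  have b2 : (D : ℚ) * (be / (2 * D)) = be / 2 := by field_simp
  rw [b1] at a1
  rw [b2] at a3
  have c1 : N * y₁ = 4 * v ^ 2 * al := by
    rw [hNd]
    linear_combination 2 * u * a2 - 2 * v * a1
  have c2 : N * x₁ = -2 * u * v - 2 * be * v ^ 2 := by
    apply mul_left_cancel₀ hal
    have : N * (al * x₁ + be * y₁ / 2) = -2 * u * v * al := by
      rw [hNd]
      linear_combination u * a1 - D * v * a2
    linear_combination this - be / 2 * c1
  have c3 : N * y₂ = -2 * u * v + 2 * be * v ^ 2 := by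
    rw [hNd]
    linear_combination 2 * u * a4 - 2 * v * a3
  have c4 : N * x₂ = -4 * ga * v ^ 2 := by
    apply mul_left_cancel₀ hal
    have : N * (al * x₂ + be * y₂ / 2) = -u * v * be + D * v ^ 2 := by
      rw [hNd]
      linear_combination u * a3 - D * v * a4
    linear_combination this - be / 2 * c3 + v ^ 2 * hDq
  obtain ⟨T, hT⟩ : ∃ T, T = x₁ + y₂ := ⟨_, rfl⟩
  obtain ⟨n, hn⟩ : ∃ n, n = x₁ * y₂ - x₂ * y₁ := ⟨_, rfl⟩
  have hTm : T ∈ ZP p := by
    rw [hT]
    exact add_mem hx₁ hy₂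
  have hnm : n ∈ ZP p := by
    rw [hn]
    exact sub_mem (mul_mem hx₁ hy₂) (mul_mem hx₂ hy₁)
  have d1 : N * T = -4 * u * v := by
    rw [hT]
    linear_combination c2 + c3
  have d2 : N * n = 4 * v ^ 2 := by
    apply mul_left_cancel₀ hN0
    have : N * (N * n) = (N * x₁) * (N * y₂) - (N * x₂) * (N * y₁) := by
      rw [hn]
      ring
    rw [this, c1, c2, c3, c4, hNd]
    linear_combination (4 * v ^ 4) * hDq
  have d3 : T ^ 2 = n * (4 + D * n) := by
    have hNN : N ^ 2 ≠ 0 := pow_ne_zero 2 hN0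
    apply mul_left_cancel₀ hNN
    have e3 : N ^ 2 * T ^ 2 = (N * T) ^ 2 := by ring
    have e4 : N ^ 2 * (n * (4 + D * n)) = (N * n) * (4 * N + D * (N * n)) := by ring
    rw [e3, e4, d1, d2, hNd]
    ring
  rcases eq_or_ne v 0 with hv | hv
  · subst hv
    have hu : u ≠ 0 := by
      intro h0
      apply hN0
      rw [hNd, h0]
      ring
    have hl : cc D u⁻¹ * (⟨u, 0⟩ : KK D) = 1 := by
      rw [cc_mul]
      apply QuadraticAlgebra.ext
      · simp [hu, QuadraticAlgebra.re_one]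
      · simp [QuadraticAlgebra.im_one]
    have hO : OO (ZP p) be (1 : KK D) := ⟨1, one_mem _, 0, zero_mem _, by
      apply QuadraticAlgebra.ext <;> simp [QuadraticAlgebra.re_one, QuadraticAlgebra.im_one]⟩
    refine ⟨u⁻¹, inv_ne_zero hu, ?_, ?_, ?_⟩
    · rw [hl]
      exact hO
    · rw [hl, inv_one]
      exact hO
    · have : u⁻¹ ^ 2 * ρ = (N / ρ)⁻¹ := by
        rw [hNd]
        field_simp
        ring
      rw [this]
      exact us_inv hU
  · have hn0 : n ≠ 0 := by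
      intro h0
      rw [h0, mul_zero] at d2
      exact hv (by nlinarith [sq_nonneg v, sq_eq_zero_iff.1 (by linarith : v ^ 2 = 0)])
    have h4 : (4 : ℤ) ∣ D - be ^ 2 := ⟨-(al * ga), by rw [hD]; ring⟩
    obtain ⟨m, hm, k1, k2, k3⟩ := h p D be T n h4 hTm hnm hn0 d3
    have hNm : N * m ≠ 0 := mul_ne_zero hN0 hm
    have hl0 : -2 * v / (N * m) ≠ 0 := div_ne_zero (mul_ne_zero (by norm_num) hv) hNm
    have f1 : cc D (-2 * v / (N * m)) * (⟨u, v⟩ : KK D) = ⟨T / m / 2, -(n / m) / 2⟩ := by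
      rw [cc_mul]
      apply QuadraticAlgebra.ext
      · simp only [QuadraticAlgebra.re_smul, smul_eq_mul]
        field_simp
        linear_combination (-1 : ℚ) * d1
      · simp only [QuadraticAlgebra.im_smul, smul_eq_mul]
        field_simp
        linear_combination d2
    refine ⟨-2 * v / (N * m), hl0, ?_, ?_, ?_⟩
    · rw [f1]
      refine ⟨(T / m - n / m * be) / 2 + n / m * be, ?_, -(n / m), neg_mem k2, ?_⟩
      · exact add_mem k3 (mul_mem k2 (intCast_mem _ _))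
      · apply QuadraticAlgebra.ext
        · simp only
          ring
        · simp only
    · have f2 : (⟨T / m / 2, -(n / m) / 2⟩ : KK D) *
          ⟨(n / m ^ 2)⁻¹ * (T / m / 2), (n / m ^ 2)⁻¹ * (n / m / 2)⟩ = 1 := by
        apply QuadraticAlgebra.ext
        · simp only [QuadraticAlgebra.re_mul, QuadraticAlgebra.re_one]
          field_simp
          linear_combination d3
        · simp only [QuadraticAlgebra.im_mul, QuadraticAlgebra.im_one]
          ring
      rw [f1, inv_eq_of_mul_eq_one_right f2]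
      refine ⟨(n / m ^ 2)⁻¹ * ((T / m - n / m * be) / 2), mul_mem k1.2.1 k3,
        (n / m ^ 2)⁻¹ * (n / m), mul_mem k1.2.1 k2, ?_⟩
      apply QuadraticAlgebra.ext
      · simp only
        ring
      · simp only
        ring
    · have f3 : (-2 * v / (N * m)) ^ 2 * ρ = n / m ^ 2 * (N / ρ)⁻¹ := by
        field_simp
        linear_combination (-1 : ℚ) * d2
      rw [f3]
      exact us_mul k1 (us_inv hU)

end K3S
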