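import Pool.Agent.K3S.TargetsB

/-!
# K3S, target LOZ: from `ℤ` to `ℤ_(p)`
-/

set_option autoImplicit false

namespace K3S

open Matrix

namespace LOZ_

/-- an integer prime to `p` -/
def Sc (p : ℕ) [Fact p.Prime] (m : ℚ) : Prop := m ∈ Zr ∧ m ≠ 0 ∧ m⁻¹ ∈ ZP p

theorem Sc.mul {p : ℕ} [Fact p.Prime] {m m' : ℚ} (h : Sc p m) (h' : Sc p m') :
    Sc p (m * m') := by
  refine ⟨mul_mem h.1 h'.1, mul_ne_zero h.2.1 h'.2.1, ?_⟩
  rw [mul_inv]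
  exact mul_mem h.2.2 h'.2.2

theorem mem_ZP {p : ℕ} [Fact p.Prime] {x : ℚ} : x ∈ ZP p ↔ padicNorm p x ≤ 1 := Iff.rfl

theorem Zr_le (p : ℕ) [Fact p.Prime] {x : ℚ} (hx : x ∈ Zr) : x ∈ ZP p := by
  obtain ⟨n, rfl⟩ := mem_Zr.1 hx
  exact mem_ZP.2 (padicNorm.of_int n)

theorem exists_one {p : ℕ} [Fact p.Prime] {x : ℚ} (hx : x ∈ ZP p) :
    ∃ m : ℚ, Sc p m ∧ m * x ∈ Zr := by
  have hp : p.Prime := Fact.out
  have hden : (x.den : ℚ) ≠ 0 := by exact_mod_cast x.den_ne_zero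
  have hnd : ¬ p ∣ x.den := by
    intro hd
    have h1 : ¬ (p : ℤ) ∣ x.num := by
      intro hn
      have h2 : p ∣ x.num.natAbs := Int.natCast_dvd.1 hn
      have h3 := Nat.dvd_gcd h2 hd
      rw [x.reduced] at h3
      exact hp.one_lt.ne' (Nat.dvd_one.1 h3)
    have h4 : padicNorm p (x.num : ℚ) = 1 := (padicNorm.int_eq_one_iff _).2 h1
    have h5 : padicNorm p (x.den : ℚ) < 1 := (padicNorm.nat_lt_one_iff _).2 hd
    have h6 : padicNorm p x * padicNorm p (x.den : ℚ) = 1 := by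
      rw [← padicNorm.mul, Rat.mul_den_eq_num, h4]
    have h7 : 0 ≤ padicNorm p (x.den : ℚ) := padicNorm.nonneg _
    have h8 := mem_ZP.1 hx
    nlinarith [padicNorm.nonneg (p := p) x]
  refine ⟨x.den, ⟨mem_Zr.2 ⟨x.den, by push_cast; rfl⟩, hden, ?_⟩, ?_⟩
  · rw [mem_ZP]
    have h4 : padicNorm p (x.den : ℚ) = 1 := (padicNorm.nat_eq_one_iff _).2 hnd
    have h5 : padicNorm p ((x.den : ℚ)⁻¹) * padicNorm p (x.den : ℚ) = 1 := by
      rw [← padicNorm.mul, inv_mul_cancel₀ hden, padicNorm.one]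
    rw [h4, mul_one] at h5
    exact h5.le
  · rw [mul_comm, Rat.mul_den_eq_num]
    exact mem_Zr.2 ⟨_, rfl⟩

theorem io_smul (D al be : ℤ) (m x y : ℚ) : m • io D al be x y = io D al be (m * x) (m * y) := by
  apply QuadraticAlgebra.ext
  · simp only [io, QuadraticAlgebra.re_smul, smul_eq_mul]
    ring
  · simp only [io, QuadraticAlgebra.im_smul, smul_eq_mul]
    ring

theorem NN_up {D : ℤ} {al be : ℤ} {p : ℕ} [Fact p.Prime] {z : KK D}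
    (h : NN (ZP p) al be z) : ∃ m : ℚ, Sc p m ∧ NN Zr al be (m • z) := by
  obtain ⟨x, hx, y, hy, rfl⟩ := h
  obtain ⟨m, hm, hmx⟩ := exists_one hx
  obtain ⟨n, hn, hny⟩ := exists_one hy
  refine ⟨m * n, hm.mul hn, m * n * x, ?_, m * n * y, ?_, io_smul _ _ _ _ _ _⟩
  · rw [mul_right_comm]
    exact mul_mem hmx hn.1
  · rw [mul_assoc]
    exact mul_mem hm.1 hny

theorem LL_up {D : ℤ} {al be : ℤ} {p : ℕ} [Fact p.Prime] {v : VV D}
    (h : LL (ZP p) al be v) : ∃ m : ℚ, Sc p m ∧ LL Zr al be (m • v) := by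
  obtain ⟨h1, h2, s, hs, h3⟩ := h
  obtain ⟨a, ha, ha'⟩ := exists_one h1
  obtain ⟨b, hb, x, hx, y, hy, hb'⟩ := NN_up h2
  obtain ⟨c, hc, hc'⟩ := exists_one hs
  refine ⟨a * b * c, (ha.mul hb).mul hc, ?_, ⟨a * c * x, mul_mem (mul_mem ha.1 hc.1) hx,
    a * c * y, mul_mem (mul_mem ha.1 hc.1) hy, ?_⟩, a * b * c * s, ?_, ?_⟩
  · rw [Prod.smul_fst, smul_eq_mul, show a * b * c * v.1 = b * c * (a * v.1) by ring]
    exact mul_mem (mul_mem hb.1 hc.1) ha'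
  · rw [Prod.smul_snd, Prod.smul_fst, ← io_smul, ← hb', smul_smul]
    congr 1
    ring
  · rw [mul_assoc]
    exact mul_mem (mul_mem ha.1 hb.1) hc'
  · rw [Prod.smul_snd, Prod.smul_snd, h3, smul_eq_mul]
    ring

theorem LL_down {D : ℤ} {al be : ℤ} {p : ℕ} [Fact p.Prime] {m : ℚ} (hm : Sc p m) {v : VV D}
    (h : LL Zr al be (m • v)) : LL (ZP p) al be v := by
  obtain ⟨h1, ⟨x, hx, y, hy, h2⟩, s, hs, h3⟩ := h
  rw [Prod.smul_fst, smul_eq_mul] at h1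
  rw [Prod.smul_snd, Prod.smul_fst] at h2
  rw [Prod.smul_snd, Prod.smul_snd, smul_eq_mul] at h3
  have hm0 := hm.2.1
  refine ⟨?_, ⟨m⁻¹ * x, mul_mem hm.2.2 (Zr_le p hx), m⁻¹ * y, mul_mem hm.2.2 (Zr_le p hy), ?_⟩,
    m⁻¹ * s, mul_mem hm.2.2 (Zr_le p hs), ?_⟩
  · have h4 : v.1 = m⁻¹ * (m * v.1) := by rw [inv_mul_cancel_left₀ hm0]
    rw [h4]
    exact mul_mem hm.2.2 (Zr_le p h1)
  · rw [← io_smul, ← h2, smul_smul, inv_mul_cancel₀ hm0, one_smul]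
  · rw [mul_left_comm, ← h3, inv_mul_cancel_left₀ hm0]

end LOZ_

open LOZ_ in
theorem p_LOZ : T_LOZ := by
  intro D _ al be p _ φ h
  refine ⟨fun v hv => ?_, fun ν hν => ?_⟩
  · obtain ⟨m, hm, hmv⟩ := LL_up hv
    have h1 := h.1 _ hmv
    rw [map_smul] at h1
    exact LL_down hm h1
  · obtain ⟨m, hm, hmν⟩ := NN_up hν
    rw [← mul_smul_comm] at hmν
    have h1 := h.2 _ hmν
    refine LL_down hm ?_
    have h2 : ((0 : ℚ), m • ν, (0 : ℚ)) = m • (((0 : ℚ), ν, (0 : ℚ)) : VV D) := by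
      rw [Prod.smul_mk, Prod.smul_mk, smul_zero]
    rw [h2, map_smul, ← smul_sub] at h1
    exact h1

end K3S
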