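import Pool.Agent.K3S.TargetsB

/-!
# K3S, target NRM: `act` preserves the forms
-/

set_option autoImplicit false

namespace K3S

open Matrix

namespace NRM_

/-- the determinant identity -/
theorem det_id {D : ℤ} (a b c d : KK D) (v : VV D) :
    (v.1 • (a * star c) + a * v.2.1 * star d + b * star v.2.1 * star c +
      v.2.2 • (b * star d)).norm -
      (a.norm * v.1 + 2 * (a * v.2.1 * star b).re + b.norm * v.2.2) *
      (c.norm * v.1 + 2 * (c * v.2.1 * star d).re + d.norm * v.2.2) =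
    (a * d - b * c).norm * qf v := by
  obtain ⟨r, ⟨w0, w1⟩, t⟩ := v
  obtain ⟨a0, a1⟩ := a
  obtain ⟨b0, b1⟩ := b
  obtain ⟨c0, c1⟩ := c
  obtain ⟨d0, d1⟩ := d
  simp only [qf, QuadraticAlgebra.norm_def, QuadraticAlgebra.re_mul, QuadraticAlgebra.im_mul,
    QuadraticAlgebra.re_add, QuadraticAlgebra.im_add, QuadraticAlgebra.re_sub,
    QuadraticAlgebra.im_sub, QuadraticAlgebra.re_star, QuadraticAlgebra.im_star,
    QuadraticAlgebra.re_smul, QuadraticAlgebra.im_smul, smul_eq_mul]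
  ring

theorem norm_smul {D : ℤ} (s : ℚ) (z : KK D) : (s • z).norm = s ^ 2 * z.norm := by
  simp only [QuadraticAlgebra.norm_def, QuadraticAlgebra.re_smul, QuadraticAlgebra.im_smul,
    smul_eq_mul]
  ring

theorem qf_act {D : ℤ} (a b c d : KK D) (ρ : ℚ) (hρ : ρ ≠ 0) (h : a * d - b * c = cc D ρ)
    (v : VV D) : qf (act a b c d ρ v) = qf v := by
  have h1 := det_id a b c d v
  rw [h] at h1
  have h2 : (cc D ρ).norm = ρ ^ 2 := by
    simp only [cc, QuadraticAlgebra.norm_def]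
    ring
  rw [h2] at h1
  have h3 : qf (act a b c d ρ v) = ρ⁻¹ ^ 2 * ((v.1 • (a * star c) + a * v.2.1 * star d +
      b * star v.2.1 * star c + v.2.2 • (b * star d)).norm -
      (a.norm * v.1 + 2 * (a * v.2.1 * star b).re + b.norm * v.2.2) *
      (c.norm * v.1 + 2 * (c * v.2.1 * star d).re + d.norm * v.2.2)) := by
    change (ρ⁻¹ • _ : KK D).norm - _ / ρ * (_ / ρ) = _
    rw [norm_smul]
    ring
  rw [h3, h1]
  field_simp

theorem bb_eq {D : ℤ} (al : ℤ) (v v' : VV D) :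
    bb al v v' = (qf (v + v') - qf v - qf v') / al := by
  obtain ⟨r, ⟨w0, w1⟩, t⟩ := v
  obtain ⟨r', ⟨w0', w1'⟩, t'⟩ := v'
  rw [bb]
  congr 1
  simp only [qf, QuadraticAlgebra.norm_def, QuadraticAlgebra.re_mul, Prod.mk_add_mk,
    QuadraticAlgebra.re_add, QuadraticAlgebra.im_add, QuadraticAlgebra.re_star,
    QuadraticAlgebra.im_star]
  ring

end NRM_

open NRM_ in
theorem p_NRM : T_NRM := by
  intro D al a b c d ρ hρ h v v'
  refine ⟨qf_act a b c d ρ hρ h v, ?_⟩
  rw [bb_eq, bb_eq, ← map_add, qf_act a b c d ρ hρ h, qf_act a b c d ρ hρ h,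
    qf_act a b c d ρ hρ h]

end K3S
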