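import Pool.Agent.K3S.TargetsB

/-!
# MP_98be90_ag, part B: a lemma on numbers (block NUM, helper37)
-/

set_option autoImplicit false
set_option linter.unusedSectionVars false

namespace K3S

open Matrix

theorem NUM_mem {p : ℕ} [Fact p.Prime] {x : ℚ} : x ∈ ZP p ↔ padicNorm p x ≤ 1 := Iff.rfl

/-- `1 / p` is not in `ZP p` -/
theorem NUM_inv_p {p : ℕ} [Fact p.Prime] : ¬ ((p : ℚ)⁻¹ ∈ ZP p) := by
  intro h
  rw [NUM_mem] at h
  have hp := (Fact.out : p.Prime)
  have hi : padicNorm p ((p : ℚ)⁻¹) = p := by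
    have h1 : padicNorm p ((p : ℚ)⁻¹ * p) = padicNorm p ((p : ℚ)⁻¹) * padicNorm p p :=
      padicNorm.mul _ _
    have hp0 : (p : ℚ) ≠ 0 := by exact_mod_cast hp.ne_zero
    rw [inv_mul_cancel₀ hp0, padicNorm.one, padicNorm.padicNorm_p hp.one_lt] at h1
    exact (eq_inv_of_mul_eq_one_left h1.symm).trans (inv_inv _)
  rw [hi] at h
  have : (1 : ℚ) < p := by exact_mod_cast hp.one_lt
  linarith

/-- a number of `ZP p` is a unit or divisible by `p` -/
theorem NUM_tri {p : ℕ} [Fact p.Prime] {x : ℚ} (hx : x ∈ ZP p) :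
    US (ZP p) x ∨ x / p ∈ ZP p := by
  have hp := (Fact.out : p.Prime)
  have hp0 : (p : ℚ) ≠ 0 := by exact_mod_cast hp.ne_zero
  have hp1 : (1 : ℚ) < p := by exact_mod_cast hp.one_lt
  by_cases h0 : x = 0
  · right
    rw [h0, zero_div]
    exact (ZP p).zero_mem
  rw [NUM_mem, padicNorm.eq_zpow_of_nonzero h0] at hx
  have hv : 0 ≤ padicValRat p x := by
    by_contra hc
    have : (1 : ℚ) < (p : ℚ) ^ (-padicValRat p x) := one_lt_zpow₀ hp1 (by omega)
    linarith
  rcases eq_or_lt_of_le hv with hv | hv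
  · left
    refine ⟨?_, ?_, h0⟩
    · rw [NUM_mem, padicNorm.eq_zpow_of_nonzero h0, ← hv]
      simp
    · rw [NUM_mem, padicNorm.eq_zpow_of_nonzero (inv_ne_zero h0), padicValRat.inv, ← hv]
      simp
  · right
    have h1 : x / p ≠ 0 := div_ne_zero h0 hp0
    rw [NUM_mem, padicNorm.eq_zpow_of_nonzero h1, padicValRat.div h0 hp0,
      padicValRat.self hp.one_lt]
    exact zpow_le_one_of_nonpos₀ hp1.le (by omega)

/-- `1 + x` is a unit if `p` divides `x` -/
theorem NUM_one_add {p : ℕ} [Fact p.Prime] {x : ℚ} (hx : x / p ∈ ZP p) :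
    US (ZP p) (1 + x) := by
  have hp := (Fact.out : p.Prime)
  have hp0 : (p : ℚ) ≠ 0 := by exact_mod_cast hp.ne_zero
  have hx1 : x ∈ ZP p := by
    have h := (ZP p).mul_mem hx (natCast_mem (ZP p) p)
    rwa [div_mul_cancel₀ _ hp0] at h
  rcases NUM_tri ((ZP p).add_mem (ZP p).one_mem hx1) with h | h
  · exact h
  · exfalso
    apply NUM_inv_p (p := p)
    have h2 := (ZP p).sub_mem h hx
    have e : (1 + x) / p - x / p = (p : ℚ)⁻¹ := by
      field_simp
      ring
    rwa [e] at h2

theorem NUM_inv_unit {S : Subring ℚ} {x : ℚ} (hx : US S x) : US S x⁻¹ :=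
  ⟨hx.2.1, by rw [inv_inv]; exact hx.1, inv_ne_zero hx.2.2⟩

/-- `ZP p` is integrally closed -/
theorem NUM_quad {p : ℕ} [Fact p.Prime] {y b c : ℚ} (hb : b ∈ ZP p) (hc : c ∈ ZP p)
    (h : y ^ 2 + b * y = c) : y ∈ ZP p := by
  by_contra hy
  have hy0 : y ≠ 0 := by
    rintro rfl
    exact hy (ZP p).zero_mem
  have hyi : y⁻¹ ∈ ZP p := by
    rw [NUM_mem] at hy ⊢
    have h1 : padicNorm p (y⁻¹ * y) = padicNorm p y⁻¹ * padicNorm p y := padicNorm.mul _ _
    rw [inv_mul_cancel₀ hy0, padicNorm.one] at h1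
    have h2 := padicNorm.nonneg (p := p) y⁻¹
    have h3 : 1 < padicNorm p y := not_le.mp hy
    nlinarith
  apply hy
  have h2 := (ZP p).sub_mem ((ZP p).mul_mem hc hyi) hb
  have e : c * y⁻¹ - b = y := by
    rw [← h]
    field_simp
    ring
  rwa [e] at h2

/-- a number of `ZP 2` is even or odd -/
theorem NUM_odd {x : ℚ} (hx : US (ZP 2) x) : (x - 1) / 2 ∈ ZP 2 := by
  obtain ⟨h1, h2, h3⟩ := hx
  have hden : ∀ y : ℚ, y ∈ ZP 2 → ¬ 2 ∣ y.den := by
    intro y hy hd
    by_cases hy0 : y = 0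
    · rw [hy0] at hd
      simp at hd
    rw [NUM_mem] at hy
    have hn : ¬ 2 ∣ y.num.natAbs := by
      intro hn
      have := Nat.dvd_gcd hn hd
      rw [y.reduced.gcd_eq_one] at this
      omega
    have e : padicNorm 2 y * padicNorm 2 (y.den : ℚ) = padicNorm 2 (y.num : ℚ) := by
      rw [← padicNorm.mul, Rat.mul_den_eq_num]
    have e1 : padicNorm 2 (y.num : ℚ) = 1 := by
      rw [padicNorm.int_eq_one_iff]
      intro hc
      exact hn (by have := Int.natAbs_dvd_natAbs.mpr hc; simpa using this)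
    have e2 : padicNorm 2 (y.den : ℚ) < 1 := by
      rw [padicNorm.nat_lt_one_iff]
      exact hd
    have e3 := padicNorm.nonneg (p := 2) (y.den : ℚ)
    have e4 := padicNorm.nonneg (p := 2) y
    nlinarith
  have hd := hden x h1
  have hn : ¬ 2 ∣ x.num.natAbs := by
    intro hn
    have e : x⁻¹ * x = 1 := inv_mul_cancel₀ h3
    have e1 : padicNorm 2 (x⁻¹) * padicNorm 2 x = 1 := by
      rw [← padicNorm.mul, e, padicNorm.one]
    have e2 : padicNorm 2 x * padicNorm 2 (x.den : ℚ) = padicNorm 2 (x.num : ℚ) := by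
      rw [← padicNorm.mul, Rat.mul_den_eq_num]
    have e3 : padicNorm 2 (x.den : ℚ) = 1 := by
      rw [padicNorm.nat_eq_one_iff]
      exact hd
    have e4 : padicNorm 2 (x.num : ℚ) < 1 := by
      rw [padicNorm.int_lt_one_iff]
      omega
    rw [NUM_mem] at h2
    have e5 := padicNorm.nonneg (p := 2) x
    have e6 := padicNorm.nonneg (p := 2) x⁻¹
    rw [e3, mul_one] at e2
    nlinarith
  obtain ⟨k, hk⟩ : (2 : ℤ) ∣ x.num - x.den := by omega
  have hdi : ((x.den : ℚ))⁻¹ ∈ ZP 2 := by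
    rw [NUM_mem]
    have e3 : padicNorm 2 (x.den : ℚ) = 1 := by
      rw [padicNorm.nat_eq_one_iff]
      exact hd
    have hd0 : (x.den : ℚ) ≠ 0 := by exact_mod_cast x.den_nz
    have e1 : padicNorm 2 ((x.den : ℚ)⁻¹) * padicNorm 2 (x.den : ℚ) = 1 := by
      rw [← padicNorm.mul, inv_mul_cancel₀ hd0, padicNorm.one]
    rw [e3, mul_one] at e1
    exact e1.le
  have e : (x - 1) / 2 = (k : ℚ) * (x.den : ℚ)⁻¹ := by
    have hd0 : (x.den : ℚ) ≠ 0 := by exact_mod_cast x.den_nz
    have hkq : (x.num : ℚ) - x.den = 2 * k := by exact_mod_cast hk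
    have hx : x * x.den = x.num := Rat.mul_den_eq_num x
    field_simp
    linarith
  rw [e]
  exact (ZP 2).mul_mem (intCast_mem (ZP 2) k) hdi

/-- the valuation of `n` is even -/
theorem NUM_key (p : ℕ) [Fact p.Prime] (D be : ℤ) (T n : ℚ) (hD : 4 ∣ D - be ^ 2)
    (hT : T ∈ ZP p) (hn : n ∈ ZP p) (hn0 : n ≠ 0) (hE : T ^ 2 = n * (4 + D * n)) :
    ∃ m : ℚ, m ≠ 0 ∧ US (ZP p) (n / m ^ 2) := by
  rcases NUM_tri hn with h1 | h1
  · exact ⟨1, one_ne_zero, by simpa using h1⟩
  by_cases hp2 : p = 2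
  · subst hp2
    have h1' : n / 2 ∈ ZP 2 := by simpa using h1
    -- the final step
    have fin : ∀ x : ℚ, x / 2 ∈ ZP 2 → 4 + D * n = 4 * (1 + x) →
        ∃ m : ℚ, m ≠ 0 ∧ US (ZP 2) (n / m ^ 2) := by
      intro x hx he
      have hu : US (ZP 2) (1 + x) := NUM_one_add (p := 2) (by simpa using hx)
      have hu0 := hu.2.2
      have hT0 : T ≠ 0 := by
        intro h0
        rw [h0, he] at hE
        have : n * (4 * (1 + x)) ≠ 0 := mul_ne_zero hn0 (mul_ne_zero (by norm_num) hu0)
        apply this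
        rw [← hE]
        ring
      refine ⟨T / 2, div_ne_zero hT0 (by norm_num), ?_⟩
      have e : n / (T / 2) ^ 2 = (1 + x)⁻¹ := by
        rw [div_pow, hE, he]
        field_simp
        norm_num
      rw [e]
      exact NUM_inv_unit hu
    rcases Int.even_or_odd D with hev | hod
    · have h4 : (4 : ℤ) ∣ D := by
        have hb : Even be := by
          by_contra hb
          rw [Int.not_even_iff_odd] at hb
          obtain ⟨k, hk⟩ := hb
          obtain ⟨l, hl⟩ := hev
          obtain ⟨j, hj⟩ := hD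
          subst hk
          ring_nf at hj
          omega
        obtain ⟨k, hk⟩ := hb
        obtain ⟨j, hj⟩ := hD
        exact ⟨j + k ^ 2, by subst hk; linarith⟩
      obtain ⟨e', he'⟩ := h4
      apply fin (e' * n)
      · have := (ZP 2).mul_mem (intCast_mem (ZP 2) e') h1'
        rwa [← mul_div_assoc] at this
      · rw [he']
        push_cast
        ring
    · have hD4 : ∃ e' : ℤ, D = 1 + 4 * e' := by
        have hb : Odd be := by
          by_contra hb
          rw [Int.not_odd_iff_even] at hb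
          obtain ⟨k, hk⟩ := hb
          obtain ⟨l, hl⟩ := hod
          obtain ⟨j, hj⟩ := hD
          subst hk
          ring_nf at hj
          omega
        obtain ⟨k, hk⟩ := hb
        obtain ⟨j, hj⟩ := hD
        exact ⟨j + k ^ 2 + k, by subst hk; linarith⟩
      obtain ⟨e', he'⟩ := hD4
      rcases NUM_tri h1' with h2 | h2
      · exfalso
        have hn1 := NUM_odd h2
        have hTT : (T / 2) ^ 2 = n / 2 * (2 + D * (n / 2)) := by
          rw [div_pow, hE]
          ring
        have h2' := h2.1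
        have hT2 : T / 2 ∈ ZP 2 := by
          apply NUM_quad (b := 0) (c := n / 2 * (2 + D * (n / 2))) (ZP 2).zero_mem
          · exact (ZP 2).mul_mem h2' ((ZP 2).add_mem (natCast_mem (ZP 2) 2)
              ((ZP 2).mul_mem (intCast_mem (ZP 2) D) h2'))
          · rw [hTT]
            ring
        set r := (n / 2 - 1) / 2 with hr
        have hn2 : n / 2 = 1 + 2 * r := by rw [hr]; ring
        -- `T/2` is odd
        rcases NUM_tri hT2 with h3 | h3
        · have hs := NUM_odd h3
          set s := (T / 2 - 1) / 2 with hs'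
          have hT3 : T / 2 = 1 + 2 * s := by rw [hs']; ring
          rw [hn2, hT3, he'] at hTT
          push_cast at hTT
          apply NUM_inv_p (p := 2)
          have e : ((2 : ℕ) : ℚ)⁻¹ = s + s ^ 2 - r - (e' * (1 + 2 * r) ^ 2 + r + r ^ 2) := by
            push_cast
            linear_combination (-1/4 : ℚ) * hTT
          rw [e]
          refine (ZP 2).sub_mem ((ZP 2).sub_mem ((ZP 2).add_mem hs ((ZP 2).pow_mem hs 2)) hn1)
            ((ZP 2).add_mem ((ZP 2).add_mem ((ZP 2).mul_mem (intCast_mem (ZP 2) e')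
              ((ZP 2).pow_mem ?_ 2)) hn1) ((ZP 2).pow_mem hn1 2))
          rw [← hn2]
          exact h2'
        · -- `T/2` even
          rw [hn2, he'] at hTT
          push_cast at hTT h3
          set s := T / 2 / 2 with hs'
          have hT3 : T / 2 = 2 * s := by rw [hs']; ring
          rw [hT3] at hTT
          apply NUM_inv_p (p := 2)
          have e : ((2 : ℕ) : ℚ)⁻¹ = 2 * s ^ 2 - (1 + 2 * r) - (2 * e' * (1 + 2 * r) ^ 2 +
              2 * r + 2 * r ^ 2) := by
            push_cast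
            linear_combination (-1/2 : ℚ) * hTT
          rw [e]
          have t2 : (2 : ℚ) ∈ ZP 2 := by exact_mod_cast natCast_mem (ZP 2) 2
          have t1 : (1 + 2 * r : ℚ) ∈ ZP 2 := by
            rw [← hn2]
            exact h2'
          exact (ZP 2).sub_mem ((ZP 2).sub_mem ((ZP 2).mul_mem t2 ((ZP 2).pow_mem h3 2)) t1)
            ((ZP 2).add_mem ((ZP 2).add_mem ((ZP 2).mul_mem ((ZP 2).mul_mem t2
              (intCast_mem (ZP 2) e')) ((ZP 2).pow_mem t1 2)) ((ZP 2).mul_mem t2 hn1))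
              ((ZP 2).mul_mem t2 ((ZP 2).pow_mem hn1 2)))
      · push_cast at h2
        rcases NUM_tri h2 with h3 | h3
        · refine ⟨2, by norm_num, ?_⟩
          have e : n / 2 ^ 2 = n / 2 / 2 := by ring
          rw [e]
          exact h3
        · push_cast at h3
          apply fin (D * (n / 2 / 2))
          · have := (ZP 2).mul_mem (intCast_mem (ZP 2) D) h3
            rwa [← mul_div_assoc] at this
          · ring
  · -- `p` odd
    have hp := (Fact.out : p.Prime)
    have hp0 : (p : ℚ) ≠ 0 := by exact_mod_cast hp.ne_zero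
    have h2i : (2 : ℚ)⁻¹ ∈ ZP p := by
      have t2 : (2 : ℚ) ∈ ZP p := by exact_mod_cast natCast_mem (ZP p) 2
      rcases NUM_tri t2 with h | h
      · exact h.2.1
      · exfalso
        have h3 : padicNorm p ((2 : ℕ) : ℚ) = 1 := by
          rw [padicNorm.nat_eq_one_iff]
          intro hc
          exact hp2 ((Nat.prime_dvd_prime_iff_eq hp Nat.prime_two).mp hc)
        rw [NUM_mem] at h
        have h4 : padicNorm p ((2 : ℚ) / p) * padicNorm p (p : ℚ) = 1 := by
          rw [← padicNorm.mul, div_mul_cancel₀ _ hp0]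
          exact_mod_cast h3
        rw [padicNorm.padicNorm_p hp.one_lt] at h4
        have h5 : (1 : ℚ) < p := by exact_mod_cast hp.one_lt
        have h6 : (p : ℚ)⁻¹ < 1 := inv_lt_one_of_one_lt₀ h5
        have h7 := padicNorm.nonneg (p := p) ((2 : ℚ) / p)
        have h8 : (0 : ℚ) < (p : ℚ)⁻¹ := by positivity
        nlinarith
    have hu : US (ZP p) (1 + D * n / 4) := by
      apply NUM_one_add
      have e : (D : ℚ) * n / 4 / p = D * (2 : ℚ)⁻¹ * (2 : ℚ)⁻¹ * (n / p) := by
        field_simp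
        ring
      rw [e]
      exact (ZP p).mul_mem ((ZP p).mul_mem ((ZP p).mul_mem (intCast_mem (ZP p) D) h2i) h2i) h1
    have hu0 := hu.2.2
    have he : 4 + D * n = 4 * (1 + D * n / 4) := by ring
    have hT0 : T ≠ 0 := by
      intro h0
      rw [h0, he] at hE
      have : n * (4 * (1 + D * n / 4)) ≠ 0 := mul_ne_zero hn0 (mul_ne_zero (by norm_num) hu0)
      apply this
      rw [← hE]
      ring
    refine ⟨T / 2, div_ne_zero hT0 (by norm_num), ?_⟩
    have e : n / (T / 2) ^ 2 = (1 + D * n / 4)⁻¹ := by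
      rw [div_pow, hE, he]
      field_simp
      norm_num
    rw [e]
    exact NUM_inv_unit hu

/-- NUM -/
theorem p_NUM : T_NUM := by
  intro p hp D be T n hD hT hn hn0 hE
  obtain ⟨m, hm, hu⟩ := NUM_key p D be T n hD hT hn hn0 hE
  have h1 : n / m ∈ ZP p := by
    apply NUM_quad (b := 0) (c := n * (n / m ^ 2)) (ZP p).zero_mem
      ((ZP p).mul_mem hn hu.1)
    field_simp
    ring
  refine ⟨m, hm, hu, h1, ?_⟩
  obtain ⟨e, he⟩ := hD
  have heq : (D : ℚ) = be ^ 2 + 4 * e := by
    have : D = be ^ 2 + 4 * e := by linarith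
    exact_mod_cast this
  apply NUM_quad (b := n / m * be) (c := n / m ^ 2 + e * (n / m) ^ 2)
    ((ZP p).mul_mem h1 (intCast_mem (ZP p) be))
    ((ZP p).add_mem hu.1 ((ZP p).mul_mem (intCast_mem (ZP p) e) ((ZP p).pow_mem h1 2)))
  have h2 : (T / m) ^ 2 = 4 * (n / m ^ 2) + D * (n / m) ^ 2 := by
    rw [div_pow, hE]
    field_simp
  rw [heq] at h2
  linear_combination (1/4 : ℚ) * h2

end K3S
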