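import Pool.Agent.K3S.TargetsC

/-!
# K3S: the target ORF

The orientation condition is the positivity of `ρ`.
-/

set_option autoImplicit false
set_option linter.unusedSectionVars false
set_option linter.unusedSimpArgs false

namespace K3S

open Matrix

namespace ORF_

theorem al_ne {D al be ga : ℤ} [h : NS D] (hD : D = be ^ 2 - 4 * al * ga) : al ≠ 0 := by
  rintro rfl
  exact h.nsq ⟨be, by rw [hD]; ring⟩

/-- the form of `Λ` on `M` is `bb` -/
theorem crd_bb {D al be ga : ℤ} (hal : al ≠ 0) (hD : D = be ^ 2 - 4 * al * ga) {Λ : Type}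
    [AddCommGroup Λ] {B : LinearMap.BilinForm ℤ Λ} {e f F G x₀ y₀ : Λ}
    (S : Sit B e f F G x₀ y₀ al be ga) {v v' : Λ} (hv : InM B e f F G x₀ y₀ v)
    (hv' : InM B e f F G x₀ y₀ v') :
    bb al (crd D al be B e f x₀ y₀ v) (crd D al be B e f x₀ y₀ v') = ((B v v' : ℤ) : ℚ) := by
  have hal' : (al : ℚ) ≠ 0 := by exact_mod_cast hal
  have fe : B f e = -1 := by rw [S.symm, S.ef]
  have Fe : B F e = 0 := by rw [S.symm, S.eF]
  have Ge : B G e = 0 := by rw [S.symm, S.eG]
  have Ff : B F f = 0 := by rw [S.symm, S.fF]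
  have Gf : B G f = 0 := by rw [S.symm, S.fG]
  have GF : B G F = be := by rw [S.symm, S.FG]
  have h1 : B v v' = -(B f v * B e v') - B e v * B f v' + 2 * al * (B x₀ v * B x₀ v') +
      be * (B x₀ v * B y₀ v' + B y₀ v * B x₀ v') + 2 * ga * (B y₀ v * B y₀ v') := by
    calc B v v' = B ((-B f v) • e + (B x₀ v) • F + (B y₀ v) • G + (-B e v) • f)
          ((-B f v') • e + (B x₀ v') • F + (B y₀ v') • G + (-B e v') • f) := by
          rw [← hv, ← hv']
      _ = _ := by
          simp only [map_add, map_smul, LinearMap.add_apply, LinearMap.smul_apply, smul_eq_mul,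
            S.ee, S.ff, S.ef, S.eF, S.eG, S.fF, S.fG, S.FF, S.FG, S.GG, fe, Fe, Ge, Ff, Gf, GF]
          ring
  rw [h1]
  unfold bb crd io
  simp
  rw [hD]
  push_cast
  field_simp
  ring

end ORF_

open ORF_ in
/-- **ORF** -/
theorem p_ORF (hORI : T_ORI) : T_ORF := by
  intro D _ al be ga hD Λ _ B e f F G x₀ y₀ S h hh hpos g φ a b c d ρ hρ hdet hφ hRe
  have hal := al_ne hD
  have hal' : (al : ℚ) ≠ 0 := by exact_mod_cast hal
  obtain ⟨x, y, rfl⟩ := Submodule.mem_span_pair.1 hh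
  have fe : B f e = -1 := by rw [S.symm, S.ef]
  have xe : B x₀ e = 0 := by rw [S.symm, S.ex]
  have xf : B x₀ f = 0 := by rw [S.symm, S.fx]
  have xF : B x₀ F = 1 := by rw [S.symm, S.Fx]
  have xG : B x₀ G = 0 := by rw [S.symm, S.Gx]
  have ye : B y₀ e = 0 := by rw [S.symm, S.ey]
  have yf : B y₀ f = 0 := by rw [S.symm, S.fy]
  have yF : B y₀ F = 0 := by rw [S.symm, S.Fy]
  have yG : B y₀ G = 1 := by rw [S.symm, S.Gy]
  have GF : B G F = be := by rw [S.symm, S.FG]
  have m1 : InM B e f F G x₀ y₀ (e - f) := by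
    unfold InM
    simp only [map_sub, S.ee, S.ff, S.ef, fe, xe, xf, ye, yf]
    module
  have m2 : InM B e f F G x₀ y₀ (x • F + y • G) := by
    unfold InM
    simp only [map_add, map_smul, smul_eq_mul, S.eF, S.eG, S.fF, S.fG, xF, xG, yF, yG]
    module
  have c1 : crd D al be B e f x₀ y₀ (e - f) = (1, 0, -(al : ℚ)) := by
    unfold crd
    simp only [map_sub, S.ee, S.ff, S.ef, fe, xe, xf, ye, yf]
    refine Prod.ext ?_ (Prod.ext (QuadraticAlgebra.ext ?_ ?_) ?_) <;> simp [io]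
  have c2 : crd D al be B e f x₀ y₀ (x • F + y • G) = (0, io D al be x y, 0) := by
    unfold crd
    simp only [map_add, map_smul, smul_eq_mul, S.eF, S.eG, S.fF, S.fG, xF, xG, yF, yG]
    refine Prod.ext ?_ (Prod.ext ?_ ?_) <;> simp
  have hη : 0 < (io D al be x y).norm / al := by
    have h1 : ((B (x • F + y • G) (x • F + y • G) : ℤ) : ℚ) =
        2 * ((io D al be x y).norm / al) := by
      simp only [map_add, map_smul, LinearMap.add_apply, LinearMap.smul_apply, smul_eq_mul,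
        S.FF, S.FG, S.GG, GF]
      rw [QuadraticAlgebra.norm_def]
      simp only [io]
      rw [hD]
      push_cast
      field_simp
      ring
    have h2 : (0 : ℚ) < ((B (x • F + y • G) (x • F + y • G) : ℤ) : ℚ) := by exact_mod_cast hpos
    rw [h1] at h2
    linarith
  obtain ⟨hG1, hG2⟩ := hRe
  obtain ⟨n1, k1⟩ := hG2 _ m1
  obtain ⟨n2, k2⟩ := hG2 _ m2
  have hmain := hORI D al a b c d (io D al be x y) ρ hal hρ hdet hη φ hφ
  rw [← c1, ← c2, ← k1, ← k2, crd_bb hal hD S n1 m1, crd_bb hal hD S n2 m2,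
    crd_bb hal hD S n1 m2, crd_bb hal hD S n2 m1] at hmain
  rw [← hmain]
  unfold Orp
  exact_mod_cast Iff.rfl

end K3S
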