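import Pool.Agent.K3S.TargetsB

/-!
# MP_98be90_ag, part B: ORI, the orientation of the positive planes
-/

set_option autoImplicit false
set_option linter.unusedSectionVars false

namespace K3S

open Matrix

namespace ORI_

/-- the numerator -/
theorem key {D : ℤ} (al : ℤ) (a b c d η : KK D) (ρ : ℚ) (hal : al ≠ 0) (hρ : ρ ≠ 0)
    (h : a * d - b * c = cc D ρ) :
    bb al (act a b c d ρ (1, 0, -al)) (1, 0, -al) * bb al (act a b c d ρ (0, η, 0)) (0, η, 0) -
      bb al (act a b c d ρ (1, 0, -al)) (0, η, 0) * bb al (act a b c d ρ (0, η, 0)) (1, 0, -al) =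
    2 * (al * η.norm * ((a.re ^ 2 + D * a.im ^ 2) + (d.re ^ 2 + D * d.im ^ 2)) +
      al ^ 2 * ((b * star η).re ^ 2 + D * (b * star η).im ^ 2) +
      ((c * η).re ^ 2 + D * (c * η).im ^ 2)) / (al ^ 2 * ρ) := by
  have hal' : (al : ℚ) ≠ 0 := by exact_mod_cast hal
  have h1 := congrArg QuadraticAlgebra.re h
  have h2 := congrArg QuadraticAlgebra.im h
  obtain ⟨a1, a2⟩ := a
  obtain ⟨b1, b2⟩ := b
  obtain ⟨c1, c2⟩ := c
  obtain ⟨d1, d2⟩ := d
  obtain ⟨e1, e2⟩ := η
  simp [cc] at h1 h2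
  simp [bb, act, QuadraticAlgebra.norm_def]
  field_simp
  linear_combination (al * (e1 ^ 2 - D * e2 ^ 2) * (a1 ^ 2 + D * a2 ^ 2 + (d1 ^ 2 + D * d2 ^ 2)) +
    al ^ 2 * ((b1 * e1 - D * b2 * e2) ^ 2 + D * (b2 * e1 - b1 * e2) ^ 2) +
    ((c1 * e1 + D * c2 * e2) ^ 2 + D * (c1 * e2 + c2 * e1) ^ 2)) * h1 -
    D * (al * (e1 ^ 2 - D * e2 ^ 2) * (2 * a1 * a2 + 2 * d1 * d2) +
      2 * al ^ 2 * ((b1 * e1 - D * b2 * e2) * (b2 * e1 - b1 * e2)) +
      2 * ((c1 * e1 + D * c2 * e2) * (c1 * e2 + c2 * e1))) * h2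

theorem sq_pos {D : ℤ} [NS D] {z : KK D} (h : z ≠ 0) : 0 < z.re ^ 2 + D * z.im ^ 2 := by
  have hD : (0 : ℚ) < D := by exact_mod_cast NS.pos (D := D)
  by_cases h1 : z.re = 0
  · have h2 : z.im ≠ 0 := fun h2 => h (QuadraticAlgebra.ext h1 h2)
    positivity
  · positivity

theorem sq_nn {D : ℤ} [NS D] (z : KK D) : 0 ≤ z.re ^ 2 + D * z.im ^ 2 := by
  have hD : (0 : ℚ) < D := by exact_mod_cast NS.pos (D := D)
  positivity

theorem mul_ne {D : ℤ} {c η : KK D} (hc : c ≠ 0) (hη : η.norm ≠ 0) : c * η ≠ 0 := by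
  intro h
  have h1 := congrArg QuadraticAlgebra.re h
  have h2 := congrArg QuadraticAlgebra.im h
  obtain ⟨c1, c2⟩ := c
  obtain ⟨e1, e2⟩ := η
  simp [QuadraticAlgebra.norm_def] at h1 h2 hη
  apply hc
  apply QuadraticAlgebra.ext
  · have e : c1 * (e1 * e1 - D * e2 * e2) = 0 := by
      linear_combination e1 * h1 - D * e2 * h2
    rcases mul_eq_zero.1 e with e | e
    · exact e
    · exact absurd e hη
  · have e : c2 * (e1 * e1 - D * e2 * e2) = 0 := by
      linear_combination e1 * h2 - e2 * h1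
    rcases mul_eq_zero.1 e with e | e
    · exact e
    · exact absurd e hη

theorem main {D : ℤ} [NS D] (al : ℤ) (a b c d η : KK D) (ρ : ℚ) (hal : al ≠ 0) (hρ : ρ ≠ 0)
    (h : a * d - b * c = cc D ρ) (hη : 0 < η.norm / al) :
    (0 < bb al (act a b c d ρ (1, 0, -al)) (1, 0, -al) *
        bb al (act a b c d ρ (0, η, 0)) (0, η, 0) -
      bb al (act a b c d ρ (1, 0, -al)) (0, η, 0) *
        bb al (act a b c d ρ (0, η, 0)) (1, 0, -al)) ↔ 0 < ρ := by
  rw [key al a b c d η ρ hal hρ h]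
  have hal' : (al : ℚ) ≠ 0 := by exact_mod_cast hal
  have h1 : 0 < (al : ℚ) * η.norm := by
    have e : (al : ℚ) * η.norm = al ^ 2 * (η.norm / al) := by
      field_simp
    rw [e]
    positivity
  have hn : η.norm ≠ 0 := fun h2 => by
    rw [h2, mul_zero] at h1
    exact lt_irrefl _ h1
  have h2 : 0 < (al : ℚ) ^ 2 := by positivity
  have h3 : 0 < 2 * (al * η.norm * ((a.re ^ 2 + D * a.im ^ 2) + (d.re ^ 2 + D * d.im ^ 2)) +
      al ^ 2 * ((b * star η).re ^ 2 + D * (b * star η).im ^ 2) +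
      ((c * η).re ^ 2 + D * (c * η).im ^ 2)) := by
    have ha := sq_nn a
    have hd := sq_nn d
    have hb := sq_nn (b * star η)
    have hc := sq_nn (c * η)
    have hb' := mul_nonneg h2.le hb
    by_cases ha0 : a = 0
    · have hc0 : c ≠ 0 := by
        rintro rfl
        have h4 := congrArg QuadraticAlgebra.re h
        rw [ha0] at h4
        simp [cc] at h4
        exact hρ h4.symm
      have hc' := sq_pos (mul_ne hc0 hn)
      have hda := mul_nonneg h1.le (add_nonneg ha hd)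
      linarith
    · have ha' := sq_pos ha0
      have hda := mul_pos h1 (add_pos_of_pos_of_nonneg ha' hd)
      linarith
  rw [div_pos_iff_of_pos_left h3]
  exact ⟨fun h5 => (pos_iff_pos_of_mul_pos h5).1 h2, fun h5 => mul_pos h2 h5⟩

end ORI_

open ORI_ in
theorem p_ORI : T_ORI := by
  intro D _ al a b c d η ρ hal hρ h hη φ hφ
  have hal' : (al : ℚ) ≠ 0 := by exact_mod_cast hal
  rcases hφ with rfl | rfl
  · exact main al a b c d η ρ hal hρ h hη
  · have e1 : s0 al ((1, 0, -(al : ℚ)) : VV D) = (1, 0, -(al : ℚ)) := by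
      refine Prod.ext ?_ (Prod.ext ?_ ?_) <;> simp [s0, hal']
    have e2 : s0 al ((0, η, 0) : VV D) = (0, η, 0) := by
      refine Prod.ext ?_ (Prod.ext ?_ ?_) <;> simp [s0]
    rw [LinearMap.comp_apply, LinearMap.comp_apply, e1, e2]
    exact main al a b c d η ρ hal hρ h hη

end K3S
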