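import Pool.Agent.K3S.TargetsB

/-!
# MP_98be90_ag, part B: `Pos` is a group (target PGR)
-/

set_option autoImplicit false
set_option linter.unusedSectionVars false

namespace K3S

open Matrix

namespace PGR_

theorem cc_mul (D : ℤ) (x y : ℚ) : cc D x * cc D y = cc D (x * y) := by
  apply QuadraticAlgebra.ext <;> simp [cc]

theorem cc_star (D : ℤ) (x : ℚ) : star (cc D x) = cc D x := by
  apply QuadraticAlgebra.ext <;> simp [cc]

theorem cc_one (D : ℤ) : cc D 1 = 1 := rfl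

theorem act_scal {D : ℤ} (ρ : ℚ) (h : ρ ≠ 0) :
    act (cc D ρ) 0 0 (cc D ρ) (ρ * ρ) = LinearMap.id := by
  refine LinearMap.ext fun v ↦ ?_
  refine Prod.ext ?_ (Prod.ext ?_ ?_)
  · simp [act, cc, QuadraticAlgebra.norm_def]
    field_simp
  · apply QuadraticAlgebra.ext
    · simp [act, cc]
      field_simp
    · simp [act, cc]
      field_simp
  · simp [act, cc, QuadraticAlgebra.norm_def]
    field_simp

theorem act_one {D : ℤ} : act (1 : KK D) 0 0 1 1 = LinearMap.id := by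
  have := act_scal (D := D) 1 one_ne_zero
  rwa [cc_one, mul_one] at this

/-- rotation with multiplier `ρ`, or rotation times `s0` -/
def IsA {D : ℤ} (al : ℤ) (ρ : ℚ) (φ : VV D →ₗ[ℚ] VV D) : Prop :=
  ∃ a b c d : KK D, a * d - b * c = cc D ρ ∧
    (φ = act a b c d ρ ∨ φ = (act a b c d ρ).comp (s0 al))

theorem det_mul {D : ℤ} {a b c d a' b' c' d' : KK D} {ρ ρ' : ℚ} (h : a * d - b * c = cc D ρ)
    (h' : a' * d' - b' * c' = cc D ρ') :
    (a * a' + b * c') * (c * b' + d * d') - (a * b' + b * d') * (c * a' + d * c') =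
      cc D (ρ * ρ') := by
  rw [← cc_mul, ← h, ← h']
  ring

theorem s0s0 {D : ℤ} {al : ℤ} (hal : al ≠ 0) (hS : T_SO) :
    (s0 al).comp (s0 al) = (LinearMap.id : VV D →ₗ[ℚ] VV D) :=
  LinearMap.ext fun v ↦ (hS D al hal).1 v

/-- `s0` times a rotation is a rotation times `s0` -/
theorem tw {D : ℤ} {al : ℤ} (hal : al ≠ 0) (hS : T_SO) {a b c d : KK D} {ρ : ℚ}
    (h : a * d - b * c = cc D ρ) : ∃ a' b' c' d' : KK D, a' * d' - b' * c' = cc D ρ ∧
      (s0 al).comp (act a b c d ρ) = (act a' b' c' d' ρ).comp (s0 al) := by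
  refine ⟨_, _, _, _, ?_, (hS D al hal).2.2.2 a b c d ρ⟩
  have hal' : (al : ℚ) ≠ 0 := by exact_mod_cast hal
  have e1 : cc D (1 / al) * cc D al = 1 := by
    rw [cc_mul, one_div, inv_mul_cancel₀ hal', cc_one]
  have e2 : star (a * d - b * c) = cc D ρ := by rw [h, cc_star]
  rw [star_sub, star_mul, star_mul] at e2
  rw [← e2]
  linear_combination (-(star c * star b)) * e1

theorem mulA {D : ℤ} {al : ℤ} (hal : al ≠ 0) (hC : T_CMP) (hS : T_SO) {ρ ρ' : ℚ}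
    {φ ψ : VV D →ₗ[ℚ] VV D} (h : IsA al ρ φ) (h' : IsA al ρ' ψ) :
    IsA al (ρ * ρ') (φ.comp ψ) := by
  obtain ⟨a, b, c, d, hd, h⟩ := h
  obtain ⟨a', b', c', d', hd', h'⟩ := h'
  rcases h with rfl | rfl
  · refine ⟨_, _, _, _, det_mul hd hd', ?_⟩
    rcases h' with rfl | rfl
    · exact Or.inl (hC D a b c d a' b' c' d' ρ ρ')
    · refine Or.inr ?_
      rw [← LinearMap.comp_assoc, hC]
  · obtain ⟨a1, b1, c1, d1, hd1, e1⟩ := tw hal hS hd'
    refine ⟨_, _, _, _, det_mul hd hd1, ?_⟩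
    rcases h' with rfl | rfl
    · refine Or.inr ?_
      rw [LinearMap.comp_assoc, e1, ← LinearMap.comp_assoc, hC]
    · refine Or.inl ?_
      rw [LinearMap.comp_assoc, ← LinearMap.comp_assoc (s0 al) (act a' b' c' d' ρ') (s0 al), e1,
        LinearMap.comp_assoc, s0s0 hal hS, LinearMap.comp_id, hC]

theorem pos_iff {D : ℤ} {al : ℤ} {φ : VV D →ₗ[ℚ] VV D} :
    Pos al φ ↔ ∃ ρ : ℚ, 0 < ρ ∧ IsA al ρ φ := by
  constructor
  · rintro ⟨a, b, c, d, ρ, h1, h2, h3⟩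
    exact ⟨ρ, h1, a, b, c, d, h2, h3⟩
  · rintro ⟨ρ, h1, a, b, c, d, h2, h3⟩
    exact ⟨a, b, c, d, ρ, h1, h2, h3⟩

/-- the adjugate -/
theorem adj {D : ℤ} (hC : T_CMP) {a b c d : KK D} {ρ : ℚ} (hρ : ρ ≠ 0)
    (h : a * d - b * c = cc D ρ) :
    (act a b c d ρ).comp (act d (-b) (-c) a ρ) = LinearMap.id ∧
      (act d (-b) (-c) a ρ).comp (act a b c d ρ) = LinearMap.id ∧
      d * a - -b * -c = cc D ρ := by
  refine ⟨?_, ?_, ?_⟩
  · rw [hC, ← act_scal ρ hρ, ← h]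
    congr 1 <;> ring
  · rw [hC, ← act_scal ρ hρ, ← h]
    congr 1 <;> ring
  · rw [← h]
    ring

end PGR_

open PGR_ in
/-- PGR: `Pos` is a group, squares are in `Pos` -/
theorem p_PGR (hC : T_CMP) (hS : T_SO) : T_PGR := by
  intro D _ al hal
  refine ⟨?_, ?_, ?_, ?_, ?_⟩
  · intro φ ψ hφ hψ
    rw [pos_iff] at hφ hψ ⊢
    obtain ⟨ρ, h1, h2⟩ := hφ
    obtain ⟨ρ', h1', h2'⟩ := hψ
    exact ⟨ρ * ρ', mul_pos h1 h1', mulA hal hC hS h2 h2'⟩
  · rintro φ ⟨a, b, c, d, ρ, h1, h2, h3⟩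
    obtain ⟨e1, e2, e3⟩ := adj hC h1.ne' h2
    rcases h3 with rfl | rfl
    · exact ⟨act d (-b) (-c) a ρ, ⟨d, -b, -c, a, ρ, h1, e3, Or.inl rfl⟩, e2, e1⟩
    · obtain ⟨a1, b1, c1, d1, hd1, e4⟩ := tw hal hS e3
      refine ⟨(s0 al).comp (act d (-b) (-c) a ρ), ⟨a1, b1, c1, d1, ρ, h1, hd1, Or.inr e4⟩, ?_, ?_⟩
      · rw [LinearMap.comp_assoc, ← LinearMap.comp_assoc (s0 al) (act a b c d ρ), e2,
          LinearMap.id_comp, s0s0 hal hS]
      · rw [LinearMap.comp_assoc, ← LinearMap.comp_assoc (act d (-b) (-c) a ρ) (s0 al) (s0 al),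
          s0s0 hal hS, LinearMap.id_comp, e1]
  · exact ⟨1, 0, 0, 1, 1, one_pos, by rw [cc_one]; ring, Or.inl act_one.symm⟩
  · exact ⟨1, 0, 0, 1, 1, one_pos, by rw [cc_one]; ring,
      Or.inr (by rw [act_one, LinearMap.id_comp])⟩
  · intro a b c d ρ ψ hρ hd h
    have h1 : IsA al ρ ψ := ⟨a, b, c, d, hd, h⟩
    exact pos_iff.2 ⟨ρ * ρ, mul_self_pos.2 hρ, mulA hal hC hS h1 h1⟩

end K3S
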