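import Pool.Agent.K3S.TargetsC
import Pool.Agent.K3S.ELE

/-!
# MP_98be90_ag, part C, target REK: every element of `KT` is realised
-/

set_option autoImplicit false
set_option linter.unusedSectionVars false
set_option linter.unusedSimpArgs false

namespace K3S

open Matrix

namespace REK_

section

variable {Λ : Type} [AddCommGroup Λ] {B : LinearMap.BilinForm ℤ Λ} {e f F G x₀ y₀ : Λ}
  {al be ga : ℤ}

/-- a vector orthogonal to `T` is in `M` -/
theorem inM_of (S : Sit B e f F G x₀ y₀ al be ga) (z : Λ)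
    (hz : ∀ t, B e t = 0 → B f t = 0 → B F t = 0 → B G t = 0 → B z t = 0) :
    InM B e f F G x₀ y₀ z := by
  have hfe : B f e = -1 := by rw [S.symm, S.ef]
  have hFe : B F e = 0 := by rw [S.symm, S.eF]
  have hGe : B G e = 0 := by rw [S.symm, S.eG]
  have hFf : B F f = 0 := by rw [S.symm, S.fF]
  have hGf : B G f = 0 := by rw [S.symm, S.fG]
  have key : z - ((-B f z) • e + (B x₀ z) • F + (B y₀ z) • G + (-B e z) • f) = 0 := by
    apply S.nondeg
    intro v
    have ht := hz (v - (-B f v) • e - (-B e v) • f - (B F v) • x₀ - (B G v) • y₀)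
      (by simp only [map_sub, map_smul, smul_eq_mul, S.ee, S.ef, S.ex, S.ey]; ring)
      (by simp only [map_sub, map_smul, smul_eq_mul, hfe, S.ff, S.fx, S.fy]; ring)
      (by simp only [map_sub, map_smul, smul_eq_mul, hFe, hFf, S.Fx, S.Fy]; ring)
      (by simp only [map_sub, map_smul, smul_eq_mul, hGe, hGf, S.Gx, S.Gy]; ring)
    simp only [map_sub, map_smul, smul_eq_mul] at ht
    simp only [map_sub, map_add, map_smul, LinearMap.sub_apply, LinearMap.add_apply,
      LinearMap.smul_apply, smul_eq_mul]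
    rw [S.symm z e, S.symm z f, S.symm z x₀, S.symm z y₀] at ht
    linear_combination ht
  exact sub_eq_zero.mp key

/-- a vector of `M` is orthogonal to `T` -/
theorem inM_orth (v : Λ) (hv : InM B e f F G x₀ y₀ v) (t : Λ)
    (h1 : B e t = 0) (h2 : B f t = 0) (h3 : B F t = 0) (h4 : B G t = 0) : B v t = 0 := by
  rw [hv]
  simp only [map_add, map_smul, LinearMap.add_apply, LinearMap.smul_apply, smul_eq_mul, h1, h2,
    h3, h4, mul_zero, add_zero]

theorem good_inM (S : Sit B e f F G x₀ y₀ al be ga) (g : Λ ≃ₗ[ℤ] Λ) (hg : Good B e f F G g)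
    (v : Λ) (hv : InM B e f F G x₀ y₀ v) : InM B e f F G x₀ y₀ (g v) := by
  refine inM_of S _ fun t h1 h2 h3 h4 => ?_
  have ht := hg.2 t ⟨h1, h2, h3, h4⟩
  have h := hg.1 v t
  rw [ht] at h
  rw [h]
  exact inM_orth v hv t h1 h2 h3 h4

theorem good_one : Good B e f F G (1 : Λ ≃ₗ[ℤ] Λ) := ⟨fun _ _ => rfl, fun _ _ => rfl⟩

theorem good_mul (g k : Λ ≃ₗ[ℤ] Λ) (hg : Good B e f F G g) (hk : Good B e f F G k) :
    Good B e f F G (g * k) := by
  refine ⟨fun x y => ?_, fun t ht => ?_⟩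
  · rw [LinearEquiv.mul_apply, LinearEquiv.mul_apply, hg.1, hk.1]
  · rw [LinearEquiv.mul_apply, hk.2 t ht, hg.2 t ht]

theorem good_inv (g : Λ ≃ₗ[ℤ] Λ) (hg : Good B e f F G g) : Good B e f F G g⁻¹ := by
  have hi : ∀ x, g (g⁻¹ x) = x := fun x => g.apply_symm_apply x
  refine ⟨fun x y => ?_, fun t ht => ?_⟩
  · rw [← hg.1 (g⁻¹ x) (g⁻¹ y), hi, hi]
  · have h := hg.2 t ht
    have h2 : g⁻¹ (g t) = t := g.symm_apply_apply t
    rw [h] at h2
    exact h2

end

variable {D : ℤ}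

theorem actg_one [NS D] (v : VV D) : actg (1 : GG D) v = v := by
  obtain ⟨r, w, t⟩ := v
  unfold actg
  rw [one_00, one_01, one_10, one_11]
  refine Prod.ext ?_ (Prod.ext ?_ ?_)
  · simp [act]
  · simp [act]
  · simp [act]

theorem actg_mul [NS D] (hC : T_CMP) (g g' : GG D) (v : VV D) :
    actg (g * g') v = actg g (actg g' v) := by
  have h := hC D (pa g) (pb g) (pc g) (pd g) (pa g') (pb g') (pc g') (pd g') 1 1
  have h2 := congrArg (fun φ => φ v) h
  simp only [LinearMap.comp_apply, mul_one] at h2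
  unfold actg
  rw [mul_00, mul_01, mul_10, mul_11]
  exact h2.symm

theorem NN_neg {al be : ℤ} {z : KK D} (h : NN Zr al be z) : NN Zr al be (-z) := by
  obtain ⟨x, hx, y, hy, rfl⟩ := h
  refine ⟨-x, neg_mem hx, -y, neg_mem hy, ?_⟩
  apply QuadraticAlgebra.ext <;> simp [io] <;> ring

theorem NN_zero {al be : ℤ} : NN Zr al be (0 : KK D) :=
  ⟨0, zero_mem _, 0, zero_mem _, by apply QuadraticAlgebra.ext <;> simp [io]⟩

end REK_

open REK_ in
/-- **REK** -/
theorem p_REK (hRT : T_RT) (hRR : T_RR) (hC : T_CMP) : T_REK := by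
  intro D hNS al be ga hD Λ _ B e f F G x₀ y₀ S κ hκ
  have halz : al ≠ 0 := by
    intro h1
    refine hNS.nsq ⟨be, ?_⟩
    rw [hD, h1]
    ring
  have hal : (al : ℚ) ≠ 0 := by exact_mod_cast halz
  unfold KT at hκ
  induction hκ using Subgroup.closure_induction with
  | mem g hg =>
    rcases hg with (⟨x, hx, rfl⟩ | ⟨c, hc, rfl⟩) | ⟨m, s, x, y, h1, h2, h3, h4⟩
    · refine hRT D al be ga hD Λ B e f F G x₀ y₀ S ((1 : ℚ), (0 : KK D), (0 : ℚ))
        ((0 : ℚ), -((al : KK D) * x), (0 : ℚ)) ?_ ?_ ?_ ?_ _ ?_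
      · exact ⟨one_mem _, NN_zero, 0, zero_mem _, by simp⟩
      · exact ⟨zero_mem _, NN_neg hx, 0, zero_mem _, by simp⟩
      · simp [qf]
      · simp [bb]
      · intro v
        have e0 : actg (E12 x) v = act 1 x 0 1 1 v := rfl
        rw [e0, ELE_.act12]
        obtain ⟨r, w, t⟩ := v
        refine Prod.ext ?_ (Prod.ext ?_ ?_)
        · simp [bb, QuadraticAlgebra.norm_def]
          field_simp
          ring
        · apply QuadraticAlgebra.ext <;> simp [bb] <;> field_simp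
        · simp [bb]
    · refine hRT D al be ga hD Λ B e f F G x₀ y₀ S ((0 : ℚ), (0 : KK D), (al : ℚ))
        ((0 : ℚ), -(star c), (0 : ℚ)) ?_ ?_ ?_ ?_ _ ?_
      · exact ⟨zero_mem _, NN_zero, 1, one_mem _, by simp⟩
      · exact ⟨zero_mem _, NN_neg hc, 0, zero_mem _, by simp⟩
      · simp [qf]
      · simp [bb]
      · intro v
        have e0 : actg (E21 c) v = act 1 0 c 1 1 v := rfl
        rw [e0, ELE_.act21]
        obtain ⟨r, w, t⟩ := v
        refine Prod.ext ?_ (Prod.ext ?_ ?_)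
        · simp [bb]
        · apply QuadraticAlgebra.ext <;> simp [bb] <;> field_simp <;> ring
        · simp [bb]
          field_simp
          ring
    · exact (hRR D al be ga hD Λ B e f F G x₀ y₀ S).2 g m s x y h1 h2 h3 h4
  | one =>
    refine ⟨1, one_mem _, good_one, fun v hv => ⟨hv, ?_⟩⟩
    rw [actg_one]
    rfl
  | mul g g' _ _ ih ih' =>
    obtain ⟨k, hk, hgk, hrk⟩ := ih
    obtain ⟨k', hk', hgk', hrk'⟩ := ih'
    refine ⟨k * k', mul_mem hk hk', good_mul k k' hgk hgk', fun v hv => ?_⟩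
    obtain ⟨i1, i2⟩ := hrk' v hv
    obtain ⟨j1, j2⟩ := hrk (k' v) i1
    rw [LinearEquiv.mul_apply]
    exact ⟨j1, by rw [j2, i2, actg_mul hC]⟩
  | inv g _ ih =>
    obtain ⟨k, hk, hgk, hrk⟩ := ih
    have hgi := good_inv k hgk
    refine ⟨k⁻¹, inv_mem hk, hgi, fun v hv => ?_⟩
    have hu := good_inM S k⁻¹ hgi v hv
    obtain ⟨_, i2⟩ := hrk (k⁻¹ v) hu
    have hi : k (k⁻¹ v) = v := k.apply_symm_apply v
    rw [hi] at i2
    refine ⟨hu, ?_⟩
    rw [i2, ← actg_mul hC, inv_mul_cancel, actg_one]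

end K3S
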