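import Pool.Agent.K3S.TargetsB

set_option autoImplicit false
set_option linter.unusedSectionVars false

/-! # REP: binary forms modulo a prime -/

namespace K3S

open Matrix

namespace REP_

open Polynomial in
/-- `u² - D v² = e` is solvable modulo `p` -/
theorem sol (p : ℕ) [Fact p.Prime] (hp2 : p ≠ 2) (D e : ZMod p) (hD : D ≠ 0) :
    ∃ u v : ZMod p, u ^ 2 - D * v ^ 2 = e := by
  have hf : (X ^ 2 - C e : (ZMod p)[X]).degree = 2 := by
    rw [degree_X_pow_sub_C (by norm_num)]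
    rfl
  have hg : (C (-D) * X ^ 2 : (ZMod p)[X]).degree = 2 := by
    rw [degree_C_mul_X_pow 2 (neg_ne_zero.2 hD)]
    rfl
  have hc : Fintype.card (ZMod p) % 2 = 1 := by
    rw [ZMod.card]
    exact ((Fact.out : p.Prime).eq_two_or_odd).resolve_left hp2
  obtain ⟨u, v, h⟩ := FiniteField.exists_root_sum_quadratic hf hg hc
  refine ⟨u, v, ?_⟩
  simp only [eval_sub, eval_pow, eval_X, eval_C, eval_mul] at h
  linear_combination h

theorem field (p : ℕ) [Fact p.Prime] (hp2 : p ≠ 2) (al be ga c : ZMod p)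
    (hD : be ^ 2 - 4 * al * ga ≠ 0) :
    ∃ x y : ZMod p, al * x ^ 2 + be * x * y + ga * y ^ 2 = c := by
  by_cases h : al = 0
  · subst h
    have hb : be ≠ 0 := by
      rintro rfl
      apply hD
      ring
    refine ⟨(c - ga) / be, 1, ?_⟩
    field_simp
    ring
  · obtain ⟨u, v, huv⟩ := sol p hp2 (be ^ 2 - 4 * al * ga) (4 * al * c) hD
    have h2 : (2 : ZMod p) ≠ 0 := by
      intro h2
      have h3 : ((2 : ℕ) : ZMod p) = 0 := by exact_mod_cast h2
      rw [ZMod.natCast_eq_zero_iff] at h3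
      exact hp2 ((Nat.prime_dvd_prime_iff_eq Fact.out Nat.prime_two).1 h3)
    refine ⟨(u - be * v) / (2 * al), v, ?_⟩
    have h4 : (4 * al : ZMod p) ≠ 0 := by
      rw [show (4 : ZMod p) = 2 * 2 by norm_num]
      exact mul_ne_zero (mul_ne_zero h2 h2) h
    apply mul_left_cancel₀ h4
    rw [← huv]
    field_simp
    ring

end REP_

open REP_ in
theorem p_REP : T_REP := by
  intro D al be ga c p hD hp hp2 hpD
  have : Fact p.Prime := ⟨hp⟩
  have h1 : ((be : ZMod p) ^ 2 - 4 * (al : ZMod p) * (ga : ZMod p)) ≠ 0 := by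
    intro h
    apply hpD
    rw [← ZMod.intCast_zmod_eq_zero_iff_dvd, hD]
    push_cast
    exact h
  obtain ⟨x, y, hxy⟩ := field p hp2 (al : ZMod p) be ga c h1
  obtain ⟨X, rfl⟩ := ZMod.intCast_surjective x
  obtain ⟨Y, rfl⟩ := ZMod.intCast_surjective y
  refine ⟨X, Y, ?_⟩
  rw [← ZMod.intCast_zmod_eq_zero_iff_dvd]
  push_cast
  rw [hxy, sub_self]

end K3S
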