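import Pool.Agent.K3S.TargetsC

/-!
# MP_98be90_ag, part C: every element of `UU q` is realised (target REU)
-/

set_option autoImplicit false
set_option linter.unusedSectionVars false

namespace K3S

open Matrix

namespace REU_

theorem actg_one {D : ℤ} [NS D] : actg (1 : GG D) = LinearMap.id := by
  refine LinearMap.ext fun v ↦ ?_
  unfold actg
  rw [one_00, one_01, one_10, one_11]
  refine Prod.ext ?_ (Prod.ext ?_ ?_)
  · simp [act, QuadraticAlgebra.norm_def, QuadraticAlgebra.re_one, QuadraticAlgebra.im_one]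
  · simp [act]
  · simp [act, QuadraticAlgebra.norm_def, QuadraticAlgebra.re_one, QuadraticAlgebra.im_one]

theorem actg_mul (hC : T_CMP) {D : ℤ} [NS D] (g g' : GG D) :
    actg (g * g') = (actg g).comp (actg g') := by
  unfold actg
  rw [hC, mul_00, mul_01, mul_10, mul_11, one_mul]

section

variable {Λ : Type} [AddCommGroup Λ] {B : LinearMap.BilinForm ℤ Λ} {e f F G x₀ y₀ : Λ}

theorem good_mul {g k : Λ ≃ₗ[ℤ] Λ} (hg : Good B e f F G g) (hk : Good B e f F G k) :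
    Good B e f F G (g * k) := by
  refine ⟨fun x y ↦ ?_, fun t ht ↦ ?_⟩
  · rw [LinearEquiv.mul_apply, LinearEquiv.mul_apply, hg.1, hk.1]
  · rw [LinearEquiv.mul_apply, hk.2 t ht, hg.2 t ht]

theorem re_mul {D al be : ℤ} {g k : Λ ≃ₗ[ℤ] Λ} {φ ψ : VV D →ₗ[ℚ] VV D}
    (hg : Re D al be B e f F G x₀ y₀ g φ) (hk : Re D al be B e f F G x₀ y₀ k ψ) :
    Re D al be B e f F G x₀ y₀ (g * k) (φ.comp ψ) := by
  refine ⟨good_mul hg.1 hk.1, fun v hv ↦ ?_⟩
  obtain ⟨h1, h2⟩ := hk.2 v hv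
  obtain ⟨h3, h4⟩ := hg.2 _ h1
  rw [LinearEquiv.mul_apply]
  refine ⟨h3, ?_⟩
  rw [h4, h2]
  rfl

theorem re_one {D al be : ℤ} :
    Re D al be B e f F G x₀ y₀ (1 : Λ ≃ₗ[ℤ] Λ) (LinearMap.id : VV D →ₗ[ℚ] VV D) :=
  ⟨⟨fun _ _ ↦ rfl, fun _ _ ↦ rfl⟩, fun _ hv ↦ ⟨hv, rfl⟩⟩

end

end REU_

open REU_ in
/-- every element of `UU q` is realised -/
theorem p_REU (hU : T_UNI) (hR : T_RT) (hC : T_CMP) : T_REU := by
  intro D _ al be ga hD Λ _ B e f F G x₀ y₀ hS q hq hdvd u hu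
  have key : ∀ u : GG D, u ∈ (Gam q : Subgroup (GG D)) → pa u + pd u = 2 →
      ∃ k ∈ KL B e f F G, Re D al be B e f F G x₀ y₀ k (actg u) := by
    intro u hu htr
    obtain ⟨z, w, hz, hw, hqz, hzw, hform⟩ := hU D al be ga hD q hq hdvd u hu htr
    exact hR D al be ga hD Λ B e f F G x₀ y₀ hS z w hz hw hqz hzw (actg u) hform
  unfold UU at hu
  refine Subgroup.closure_induction''
    (p := fun g _ ↦ ∃ k ∈ KL B e f F G, Re D al be B e f F G x₀ y₀ k (actg g))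
    (fun x hx ↦ key x hx.1 hx.2) (fun x hx ↦ ?_) ?_ (fun x y _ _ hx hy ↦ ?_) hu
  · refine key x⁻¹ (inv_mem hx.1) ?_
    rw [inv_00, inv_11, add_comm]
    exact hx.2
  · refine ⟨1, one_mem _, ?_⟩
    rw [actg_one]
    exact re_one
  · obtain ⟨k, hk, hk'⟩ := hx
    obtain ⟨l, hl, hl'⟩ := hy
    refine ⟨k * l, mul_mem hk hl, ?_⟩
    rw [actg_mul hC]
    exact re_mul hk' hl'

end K3S
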