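import Pool.Agent.K3S.TargetsC

/-!
# MP_98be90_ag, part C: rotations with positive spinor norm
-/

set_option autoImplicit false
set_option linter.unusedSectionVars false

namespace K3S

open Matrix

namespace ROT_

theorem actg_mul (hC : T_CMP) {D : ℤ} [NS D] (g g' : GG D) :
    (actg g).comp (actg g') = actg (g * g') := by
  unfold actg
  rw [hC, mul_00, mul_01, mul_10, mul_11, one_mul]

theorem good_mul {Λ : Type} [AddCommGroup Λ] {B : LinearMap.BilinForm ℤ Λ} {e f F G : Λ}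
    {k k' : Λ ≃ₗ[ℤ] Λ} (h : Good B e f F G k) (h' : Good B e f F G k') :
    Good B e f F G (k * k') := by
  refine ⟨fun x y => ?_, fun t ht => ?_⟩
  · rw [LinearEquiv.mul_apply, LinearEquiv.mul_apply, h.1, h'.1]
  · rw [LinearEquiv.mul_apply, h'.2 t ht, h.2 t ht]

theorem re_mul {D al be : ℤ} {Λ : Type} [AddCommGroup Λ] {B : LinearMap.BilinForm ℤ Λ}
    {e f F G x₀ y₀ : Λ} {k k' : Λ ≃ₗ[ℤ] Λ} {φ φ' : VV D →ₗ[ℚ] VV D}
    (h : Re D al be B e f F G x₀ y₀ k φ) (h' : Re D al be B e f F G x₀ y₀ k' φ') :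
    Re D al be B e f F G x₀ y₀ (k * k') (φ.comp φ') := by
  refine ⟨good_mul h.1 h'.1, fun v hv => ?_⟩
  obtain ⟨h1, h2⟩ := h'.2 v hv
  obtain ⟨h3, h4⟩ := h.2 (k' v) h1
  rw [LinearEquiv.mul_apply]
  refine ⟨h3, ?_⟩
  rw [h4, h2]
  rfl

end ROT_

open ROT_ in
theorem p_ROT (hGLO : T_GLO) (hDEC : T_DEC) (hTHM : T_THM) (hREK : T_REK) (hREU : T_REU)
    (hCMP : T_CMP) (hUNQ : T_UNQ) : T_ROT := by
  intro D hD al be ga hal Λ _ B e f F G x₀ y₀ hS g a b c d ρ hρ hdet hIL hRe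
  obtain ⟨h, hh, hRG⟩ := hGLO D al be ga hal a b c d ρ hρ hdet hIL
  have hal0 : al ≠ 0 := by
    rintro rfl
    apply hD.nsq
    exact ⟨be, by rw [hal]; ring⟩
  have hq0 : 0 < 4 * |al| * D := by
    have h1 := abs_pos.mpr hal0
    have h2 := hD.pos
    positivity
  have hq1 : 4 * al * D ∣ 4 * |al| * D :=
    mul_dvd_mul (mul_dvd_mul_left 4 ((dvd_abs al al).mpr dvd_rfl)) dvd_rfl
  have hq2 : 4 * D ∣ 4 * |al| * D := ⟨|al|, by ring⟩
  obtain ⟨κ, hκ, hu⟩ := hDEC D al be ga hal _ hq0 h hRG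
  have hu' : κ * h ∈ (UU (4 * |al| * D) : Subgroup (GG D)) := hTHM D _ hq0 hq2 hu
  obtain ⟨k₁, hk₁, hr₁⟩ := hREK D al be ga hal Λ B e f F G x₀ y₀ hS κ⁻¹ (inv_mem hκ)
  obtain ⟨k₂, hk₂, hr₂⟩ := hREU D al be ga hal Λ B e f F G x₀ y₀ hS _ hq0 hq1 _ hu'
  have h3 := re_mul hr₁ hr₂
  rw [actg_mul hCMP, inv_mul_cancel_left, ← hh] at h3
  rw [hUNQ D al be ga hal Λ B e f F G x₀ y₀ hS g (k₁ * k₂) _ hRe h3]
  exact mul_mem hk₁ hk₂

end K3S
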