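import Pool.Agent.K3S.TargetsC

/-!
# RR: symmetric matrices are products of two reflections
-/

set_option autoImplicit false
set_option linter.unusedSectionVars false
set_option linter.unusedSimpArgs false

namespace K3S

open Matrix

namespace RR_

/-! ### matrices -/

section mat

variable {D al be ga : ℤ}

theorem cent {b c : KK D} {x y : ℚ} (hal : (al : ℚ) ≠ 0)
    (hb : (al : KK D) * b = io D al be x y) (hc : star c = io D al be x y) :
    b.re = (al * x + be * y / 2) / al ∧ b.im = y / 2 / al ∧ c.re = al * x + be * y / 2 ∧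
      c.im = -(y / 2) := by
  have h1 := congrArg QuadraticAlgebra.re hb
  have h2 := congrArg QuadraticAlgebra.im hb
  have h3 := congrArg QuadraticAlgebra.re hc
  have h4 := congrArg QuadraticAlgebra.im hc
  simp only [QuadraticAlgebra.re_mul, QuadraticAlgebra.im_mul, QuadraticAlgebra.re_intCast,
    QuadraticAlgebra.im_intCast, QuadraticAlgebra.re_star, QuadraticAlgebra.im_star,
    io] at h1 h2 h3 h4
  refine ⟨?_, ?_, ?_, ?_⟩
  · rw [eq_div_iff hal]; linarith
  · rw [eq_div_iff hal]; linarith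
  · linarith
  · linarith

theorem key (hD : (D : ℚ) = be ^ 2 - 4 * al * ga) (hal : (al : ℚ) ≠ 0) (m s x y r X Y T : ℚ)
    {a b c d : KK D} (ha : a = ⟨m, 0⟩) (hd : d = ⟨s, 0⟩)
    (hb : (al : KK D) * b = io D al be x y) (hc : star c = io D al be x y)
    (hdet : m * s - (al * x ^ 2 + be * x * y + ga * y ^ 2) = 1) (β : ℚ)
    (hβ : β = m * r + s * T + x * (2 * al * X + be * Y) + y * (be * X + 2 * ga * Y)) :
    act a b c d 1 (r, io D al be X Y, al * T) =
      (-T + β * m, io D al be (X + β * x) (Y + β * y), al * (-r + β * s)) := by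
  obtain ⟨b1, b2, c1, c2⟩ := cent hal hb hc
  have e1 : (b.re * b.re - D * b.im * b.im) * al = al * x ^ 2 + be * x * y + ga * y ^ 2 := by
    rw [b1, b2, hD]
    field_simp
    ring
  have e2 : (al * X + be * Y / 2) * b.re - D * (Y / 2) * b.im =
      (x * (2 * al * X + be * Y) + y * (be * X + 2 * ga * Y)) / 2 := by
    rw [b1, b2, hD]
    field_simp
    ring
  have e3 : c.re * c.re - D * c.im * c.im = al * (al * x ^ 2 + be * x * y + ga * y ^ 2) := by
    rw [c1, c2, hD]
    ring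
  have e4 : c.re * (al * X + be * Y / 2) + D * c.im * (Y / 2) =
      al * (x * (2 * al * X + be * Y) + y * (be * X + 2 * ga * Y)) / 2 := by
    rw [c1, c2, hD]
    ring
  have ms : m * s = 1 + (al * x ^ 2 + be * x * y + ga * y ^ 2) := by linarith
  subst ha hd
  refine Prod.ext ?_ (Prod.ext (QuadraticAlgebra.ext ?_ ?_) ?_)
  · change ((⟨m, 0⟩ : KK D).norm * r + 2 * ((⟨m, 0⟩ : KK D) * io D al be X Y * star b).re +
      b.norm * (al * T)) / 1 = _
    simp only [QuadraticAlgebra.norm_def, QuadraticAlgebra.re_mul, QuadraticAlgebra.im_mul,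
      QuadraticAlgebra.re_star, QuadraticAlgebra.im_star, io]
    rw [hβ]
    linear_combination (m * 2) * e2 + T * e1 - T * hdet
  · change (((1 : ℚ)⁻¹ • (r • ((⟨m, 0⟩ : KK D) * star c) + (⟨m, 0⟩ : KK D) * io D al be X Y *
      star (⟨s, 0⟩ : KK D) + b * star (io D al be X Y) * star c +
      (al * T) • (b * star (⟨s, 0⟩ : KK D))))).re = _
    simp only [QuadraticAlgebra.re_mul, QuadraticAlgebra.im_mul,
      QuadraticAlgebra.re_add, QuadraticAlgebra.im_add, QuadraticAlgebra.re_smul,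
      QuadraticAlgebra.im_smul, QuadraticAlgebra.re_star, QuadraticAlgebra.im_star, smul_eq_mul,
      io]
    rw [hβ, c1, c2, b1, b2, hD]
    field_simp
    linear_combination (4 * al * be * Y + 8 * al ^ 2 * X) * hdet
  · change (((1 : ℚ)⁻¹ • (r • ((⟨m, 0⟩ : KK D) * star c) + (⟨m, 0⟩ : KK D) * io D al be X Y *
      star (⟨s, 0⟩ : KK D) + b * star (io D al be X Y) * star c +
      (al * T) • (b * star (⟨s, 0⟩ : KK D))))).im = _
    simp only [QuadraticAlgebra.re_mul, QuadraticAlgebra.im_mul,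
      QuadraticAlgebra.re_add, QuadraticAlgebra.im_add, QuadraticAlgebra.re_smul,
      QuadraticAlgebra.im_smul, QuadraticAlgebra.re_star, QuadraticAlgebra.im_star, smul_eq_mul,
      io]
    rw [hβ, c1, c2, b1, b2, hD]
    field_simp
    linear_combination (4 * al * Y) * hdet
  · change (c.norm * r + 2 * (c * io D al be X Y * star (⟨s, 0⟩ : KK D)).re +
      (⟨s, 0⟩ : KK D).norm * (al * T)) / 1 = _
    simp only [QuadraticAlgebra.norm_def, QuadraticAlgebra.re_mul, QuadraticAlgebra.im_mul,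
      QuadraticAlgebra.re_star, QuadraticAlgebra.im_star, io]
    rw [hβ]
    linear_combination r * e3 + (2 * s) * e4 - (al * r) * hdet

end mat

/-! ### the lattice -/

section lat

variable {D al be ga : ℤ} {Λ : Type} [AddCommGroup Λ] {B : LinearMap.BilinForm ℤ Λ}
  {e f F G x₀ y₀ : Λ}

/-- the element of `M` with the coordinates `r, X, Y, T` -/
def cmb (e f F G : Λ) (r X Y T : ℤ) : Λ := r • e + X • F + Y • G + T • f

theorem cmb_add (r X Y T r' X' Y' T' β : ℤ) : cmb e f F G r X Y T + β • cmb e f F G r' X' Y' T' =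
    cmb e f F G (r + β * r') (X + β * X') (Y + β * Y') (T + β * T') := by
  simp only [cmb]
  module

theorem cmb_mem (r X Y T : ℤ) : cmb e f F G r X Y T ∈ Submodule.span ℤ {e, f, F, G} := by
  have h : ∀ z ∈ ({e, f, F, G} : Set Λ), z ∈ Submodule.span ℤ {e, f, F, G} :=
    fun z hz => Submodule.subset_span hz
  unfold cmb
  refine add_mem (add_mem (add_mem ?_ ?_) ?_) ?_
  · exact Submodule.smul_mem _ _ (h _ (by simp))
  · exact Submodule.smul_mem _ _ (h _ (by simp))
  · exact Submodule.smul_mem _ _ (h _ (by simp))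
  · exact Submodule.smul_mem _ _ (h _ (by simp))

theorem B_cmb (v : Λ) (r X Y T : ℤ) : B v (cmb e f F G r X Y T) =
    r * B v e + X * B v F + Y * B v G + T * B v f := by
  simp [cmb, map_add, map_smul]

theorem val (S : Sit B e f F G x₀ y₀ al be ga) (r X Y T : ℤ) :
    B e (cmb e f F G r X Y T) = -T ∧ B f (cmb e f F G r X Y T) = -r ∧
    B F (cmb e f F G r X Y T) = 2 * al * X + be * Y ∧
    B G (cmb e f F G r X Y T) = be * X + 2 * ga * Y ∧
    B x₀ (cmb e f F G r X Y T) = X ∧ B y₀ (cmb e f F G r X Y T) = Y := by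
  have h1 : B f e = -1 := by rw [S.symm, S.ef]
  have h2 : B F e = 0 := by rw [S.symm, S.eF]
  have h3 : B F f = 0 := by rw [S.symm, S.fF]
  have h4 : B G e = 0 := by rw [S.symm, S.eG]
  have h5 : B G f = 0 := by rw [S.symm, S.fG]
  have h6 : B G F = be := by rw [S.symm, S.FG]
  have h7 : B x₀ e = 0 := by rw [S.symm, S.ex]
  have h8 : B x₀ f = 0 := by rw [S.symm, S.fx]
  have h9 : B x₀ F = 1 := by rw [S.symm, S.Fx]
  have h10 : B x₀ G = 0 := by rw [S.symm, S.Gx]
  have h11 : B y₀ e = 0 := by rw [S.symm, S.ey]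
  have h12 : B y₀ f = 0 := by rw [S.symm, S.fy]
  have h13 : B y₀ F = 0 := by rw [S.symm, S.Fy]
  have h14 : B y₀ G = 1 := by rw [S.symm, S.Gy]
  refine ⟨?_, ?_, ?_, ?_, ?_, ?_⟩ <;> rw [B_cmb]
  · rw [S.ee, S.eF, S.eG, S.ef]; ring
  · rw [h1, S.fF, S.fG, S.ff]; ring
  · rw [h2, S.FF, S.FG, h3]; ring
  · rw [h4, h6, S.GG, h5]; ring
  · rw [h7, h9, h10, h8]; ring
  · rw [h11, h13, h14, h12]; ring

theorem inM_cmb (S : Sit B e f F G x₀ y₀ al be ga) (r X Y T : ℤ) :
    InM B e f F G x₀ y₀ (cmb e f F G r X Y T) := by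
  obtain ⟨h1, h2, -, -, h3, h4⟩ := val S r X Y T
  unfold InM
  rw [h1, h2, h3, h4]
  simp [cmb]

theorem exists_cmb {v : Λ} (h : InM B e f F G x₀ y₀ v) : ∃ r X Y T, v = cmb e f F G r X Y T :=
  ⟨_, _, _, _, h⟩

theorem crd_cmb (S : Sit B e f F G x₀ y₀ al be ga) (r X Y T : ℤ) :
    crd D al be B e f x₀ y₀ (cmb e f F G r X Y T) =
      ((r : ℚ), io D al be X Y, (al : ℚ) * T) := by
  obtain ⟨h1, h2, -, -, h3, h4⟩ := val S r X Y T
  unfold crd
  rw [h1, h2, h3, h4]
  simp

/-- the product of two elements of `M` -/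
theorem B_cc (S : Sit B e f F G x₀ y₀ al be ga) (r X Y T m x y s : ℤ) :
    B (cmb e f F G r X Y T) (cmb e f F G m x y s) =
      -(m * T) - s * r + x * (2 * al * X + be * Y) + y * (be * X + 2 * ga * Y) := by
  obtain ⟨h1, h2, h3, h4, -, -⟩ := val S r X Y T
  rw [B_cmb, S.symm _ e, S.symm _ F, S.symm _ G, S.symm _ f, h1, h2, h3, h4]
  ring

/-- the reflection in `δ` -/
def rfl' (B : LinearMap.BilinForm ℤ Λ) (δ : Λ) (h : B δ δ = -2) : Λ ≃ₗ[ℤ] Λ :=
  LinearEquiv.ofInvolutive (LinearMap.id + ((LinearMap.flip B) δ).smulRight δ) (by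
    intro x
    simp only [LinearMap.add_apply, LinearMap.id_apply, LinearMap.smulRight_apply,
      LinearMap.flip_apply, map_add, map_smul, LinearMap.smul_apply, smul_eq_mul, h]
    module)

theorem rfl'_apply (δ : Λ) (h : B δ δ = -2) (x : Λ) : rfl' B δ h x = x + B x δ • δ := rfl

theorem good_rfl (S : Sit B e f F G x₀ y₀ al be ga) (m x y s : ℤ)
    (h : B (cmb e f F G m x y s) (cmb e f F G m x y s) = -2) :
    Good B e f F G (rfl' B (cmb e f F G m x y s) h) := by
  constructor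
  · intro a b
    rw [rfl'_apply, rfl'_apply]
    simp only [map_add, map_smul, LinearMap.add_apply, LinearMap.smul_apply, smul_eq_mul, h]
    rw [S.symm (cmb e f F G m x y s) b]
    ring
  · rintro t ⟨h1, h2, h3, h4⟩
    rw [rfl'_apply, B_cmb, S.symm t e, S.symm t F, S.symm t G, S.symm t f, h1, h2, h3, h4]
    simp

theorem mem_rfl (m x y s : ℤ)
    (h : B (cmb e f F G m x y s) (cmb e f F G m x y s) = -2) :
    rfl' B (cmb e f F G m x y s) h ∈ KL B e f F G :=
  Subgroup.subset_closure (Or.inl ⟨_, cmb_mem m x y s, h, fun _ => rfl⟩)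

theorem rfl_cmb (S : Sit B e f F G x₀ y₀ al be ga) (m x y s : ℤ)
    (h : B (cmb e f F G m x y s) (cmb e f F G m x y s) = -2) (r X Y T β : ℤ)
    (hβ : β = -(m * T) - s * r + x * (2 * al * X + be * Y) + y * (be * X + 2 * ga * Y)) :
    rfl' B (cmb e f F G m x y s) h (cmb e f F G r X Y T) =
      cmb e f F G (r + β * m) (X + β * x) (Y + β * y) (T + β * s) := by
  rw [rfl'_apply, B_cc S, ← hβ, cmb_add]

theorem al_ne [NS D] (hD : D = be ^ 2 - 4 * al * ga) : al ≠ 0 := by
  intro h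
  apply NS.nsq (D := D)
  exact ⟨be, by rw [hD, h]; ring⟩

end lat

end RR_

open RR_

theorem p_RR : T_RR := by
  intro D _ al be ga hD Λ _ B e f F G x₀ y₀ S
  have hal : al ≠ 0 := al_ne hD
  have halq : (al : ℚ) ≠ 0 := by exact_mod_cast hal
  have hDq : (D : ℚ) = (be : ℚ) ^ 2 - 4 * al * ga := by exact_mod_cast hD
  have h0 : B (cmb e f F G 1 0 0 1) (cmb e f F G 1 0 0 1) = -2 := by
    rw [B_cc S]; ring
  have hs0 : ∀ r X Y T : ℤ, rfl' B (cmb e f F G 1 0 0 1) h0 (cmb e f F G r X Y T) =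
      cmb e f F G (-T) X Y (-r) := by
    intro r X Y T
    rw [rfl_cmb S 1 0 0 1 h0 r X Y T (-T - r) (by ring)]
    congr 1 <;> ring
  have hg0 := good_rfl S 1 0 0 1 h0
  refine ⟨⟨rfl' B (cmb e f F G 1 0 0 1) h0, mem_rfl 1 0 0 1 h0, hg0, ?_⟩, ?_⟩
  · intro v hv
    obtain ⟨r, X, Y, T, rfl⟩ := exists_cmb hv
    rw [hs0]
    refine ⟨inM_cmb S _ _ _ _, ?_⟩
    rw [crd_cmb S, crd_cmb S]
    change _ = (-((al : ℚ) * T) / al, io D al be X Y, -(al : ℚ) * r)
    refine Prod.ext ?_ (Prod.ext rfl ?_)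
    · push_cast
      field_simp
    · push_cast
      ring
  · intro H m s x y ha hb hc hd
    have hdet : (m : ℚ) * s - (al * (x : ℚ) ^ 2 + be * x * y + ga * (y : ℚ) ^ 2) = 1 := by
      have h1 := congrArg QuadraticAlgebra.re (gg_det H)
      obtain ⟨b1, b2, c1, c2⟩ := cent halq hb hc
      rw [ha, hd] at h1
      simp only [QuadraticAlgebra.re_sub, QuadraticAlgebra.re_mul, QuadraticAlgebra.re_intCast,
        QuadraticAlgebra.im_intCast, QuadraticAlgebra.re_one, b1, b2, c1, c2, hDq] at h1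
      rw [← h1]
      field_simp
      ring
    have hdet' : m * s - (al * x ^ 2 + be * x * y + ga * y ^ 2) = 1 := by exact_mod_cast hdet
    have h1 : B (cmb e f F G m x y s) (cmb e f F G m x y s) = -2 := by
      rw [B_cc S]
      linear_combination (-2) * hdet'
    have hg1 := good_rfl S m x y s h1
    refine ⟨rfl' B (cmb e f F G m x y s) h1 * rfl' B (cmb e f F G 1 0 0 1) h0,
      Subgroup.mul_mem _ (mem_rfl m x y s h1) (mem_rfl 1 0 0 1 h0), ⟨?_, ?_⟩, ?_⟩
    · intro a b
      rw [LinearEquiv.mul_apply, LinearEquiv.mul_apply, hg1.1, hg0.1]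
    · intro t ht
      rw [LinearEquiv.mul_apply, hg0.2 t ht, hg1.2 t ht]
    · intro v hv
      obtain ⟨r, X, Y, T, rfl⟩ := exists_cmb hv
      rw [LinearEquiv.mul_apply, hs0]
      have hβ : m * r + s * T + x * (2 * al * X + be * Y) + y * (be * X + 2 * ga * Y) =
          -(m * -r) - s * -T + x * (2 * al * X + be * Y) + y * (be * X + 2 * ga * Y) := by ring
      rw [rfl_cmb S m x y s h1 (-T) X Y (-r) _ hβ]
      refine ⟨inM_cmb S _ _ _ _, ?_⟩
      rw [crd_cmb S, crd_cmb S]
      have := key hDq halq m s x y r X Y T (a := pa H) (b := pb H) (c := pc H) (d := pd H)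
        ha hd hb hc hdet _ rfl
      rw [actg, this]
      push_cast
      rfl

end K3S
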