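import Pool.Agent.K3S.TargetsC

/-!
# RT: integral Eichler transvections are realised
-/

set_option autoImplicit false
set_option linter.unusedSectionVars false

namespace K3S

open Matrix

namespace RT_

section

variable {D : ℤ} {al be ga : ℤ}

theorem al_ne [h : NS D] (hD : D = be ^ 2 - 4 * al * ga) : (al : ℚ) ≠ 0 := by
  intro h0
  have h1 : al = 0 := by exact_mod_cast h0
  apply h.nsq
  rw [hD, h1]
  exact ⟨be, by ring⟩

/-! ### the form `bb` -/

theorem bb_add_right (u v v' : VV D) : bb al u (v + v') = bb al u v + bb al u v' := by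
  simp [bb]
  ring

theorem bb_smul_right (s : ℚ) (u v : VV D) : bb al u (s • v) = s * bb al u v := by
  simp [bb]
  ring

theorem bb_symm (u v : VV D) : bb al u v = bb al v u := by
  simp [bb]
  ring

theorem bb_add_left (u v v' : VV D) : bb al (v + v') u = bb al v u + bb al v' u := by
  rw [bb_symm, bb_add_right, bb_symm u v, bb_symm u v']

theorem bb_smul_left (s : ℚ) (u v : VV D) : bb al (s • v) u = s * bb al v u := by
  rw [bb_symm, bb_smul_right, bb_symm u v]

theorem bb_sub_right (u v v' : VV D) : bb al u (v - v') = bb al u v - bb al u v' := by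
  have h : v - v' = v + (-1 : ℚ) • v' := by rw [neg_one_smul, sub_eq_add_neg]
  rw [h, bb_add_right, bb_smul_right]
  ring

theorem bb_sub_left (u v v' : VV D) : bb al (v - v') u = bb al v u - bb al v' u := by
  rw [bb_symm, bb_sub_right, bb_symm u v, bb_symm u v']

theorem bb_self (hal : (al : ℚ) ≠ 0) (v : VV D) : al * bb al v v = 2 * qf v := by
  simp only [bb, qf, QuadraticAlgebra.norm_def]
  rw [mul_div_cancel₀ _ hal]
  simp
  ring

/-- the transvection as a linear map -/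
def tv (al : ℤ) (z w : VV D) : VV D →ₗ[ℚ] VV D where
  toFun v := v + bb al z v • w - bb al w v • z - (bb al w w / 2 * bb al z v) • z
  map_add' v v' := by
    simp only [bb_add_right]
    module
  map_smul' s v := by
    simp only [bb_smul_right, RingHom.id_apply]
    module

theorem tv_apply (z w v : VV D) : tv al z w v =
    v + bb al z v • w - bb al w v • z - (bb al w w / 2 * bb al z v) • z := rfl

end

section

variable {Λ : Type} [AddCommGroup Λ] {B : LinearMap.BilinForm ℤ Λ} {e f F G x₀ y₀ : Λ}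
  {al be ga : ℤ}

/-- the element with given coordinates -/
def mk (e f F G : Λ) (a x y b : ℤ) : Λ := a • e + x • F + y • G + b • f

theorem mk_span (a x y b : ℤ) : mk e f F G a x y b ∈ Submodule.span ℤ {e, f, F, G} := by
  have he : e ∈ Submodule.span ℤ ({e, f, F, G} : Set Λ) := Submodule.subset_span (by simp)
  have hf : f ∈ Submodule.span ℤ ({e, f, F, G} : Set Λ) := Submodule.subset_span (by simp)
  have hF : F ∈ Submodule.span ℤ ({e, f, F, G} : Set Λ) := Submodule.subset_span (by simp)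
  have hG : G ∈ Submodule.span ℤ ({e, f, F, G} : Set Λ) := Submodule.subset_span (by simp)
  exact Submodule.add_mem _ (Submodule.add_mem _ (Submodule.add_mem _ (Submodule.smul_mem _ _ he)
    (Submodule.smul_mem _ _ hF)) (Submodule.smul_mem _ _ hG)) (Submodule.smul_mem _ _ hf)

theorem span_mk {v : Λ} (hv : v ∈ Submodule.span ℤ ({e, f, F, G} : Set Λ)) :
    ∃ a x y b : ℤ, v = mk e f F G a x y b := by
  induction hv using Submodule.span_induction with
  | mem v hv =>
    simp only [Set.mem_insert_iff, Set.mem_singleton_iff] at hv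
    rcases hv with rfl | rfl | rfl | rfl
    · exact ⟨1, 0, 0, 0, by simp [mk]⟩
    · exact ⟨0, 0, 0, 1, by simp [mk]⟩
    · exact ⟨0, 1, 0, 0, by simp [mk]⟩
    · exact ⟨0, 0, 1, 0, by simp [mk]⟩
  | zero => exact ⟨0, 0, 0, 0, by simp [mk]⟩
  | add u v _ _ hu hv =>
    obtain ⟨a, x, y, b, rfl⟩ := hu
    obtain ⟨a', x', y', b', rfl⟩ := hv
    refine ⟨a + a', x + x', y + y', b + b', ?_⟩
    simp only [mk]
    module
  | smul n v _ hv =>
    obtain ⟨a, x, y, b, rfl⟩ := hv
    refine ⟨n * a, n * x, n * y, n * b, ?_⟩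
    simp only [mk]
    module

theorem B_left (v : Λ) (a x y b : ℤ) :
    B (mk e f F G a x y b) v = a * B e v + x * B F v + y * B G v + b * B f v := by
  simp [mk]

variable (S : Sit B e f F G x₀ y₀ al be ga)

include S

theorem Be_mk (a x y b : ℤ) : B e (mk e f F G a x y b) = -b := by
  simp [mk, S.ee, S.ef, S.eF, S.eG]

theorem Bf_mk (a x y b : ℤ) : B f (mk e f F G a x y b) = -a := by
  simp [mk, S.ff, S.symm f e, S.ef, S.fF, S.fG]

theorem BF_mk (a x y b : ℤ) : B F (mk e f F G a x y b) = 2 * al * x + be * y := by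
  simp [mk, S.symm F e, S.symm F f, S.eF, S.fF, S.FF, S.FG]
  ring

theorem BG_mk (a x y b : ℤ) : B G (mk e f F G a x y b) = be * x + 2 * ga * y := by
  simp [mk, S.symm G e, S.symm G f, S.eG, S.fG, S.GG, S.symm G F, S.FG]
  ring

theorem Bx_mk (a x y b : ℤ) : B x₀ (mk e f F G a x y b) = x := by
  simp [mk, S.symm x₀ e, S.symm x₀ f, S.symm x₀ F, S.symm x₀ G, S.ex, S.fx, S.Fx, S.Gx]

theorem By_mk (a x y b : ℤ) : B y₀ (mk e f F G a x y b) = y := by
  simp [mk, S.symm y₀ e, S.symm y₀ f, S.symm y₀ F, S.symm y₀ G, S.ey, S.fy, S.Fy, S.Gy]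

theorem inM_mk (a x y b : ℤ) : InM B e f F G x₀ y₀ (mk e f F G a x y b) := by
  unfold InM
  rw [Be_mk S, Bf_mk S, Bx_mk S, By_mk S, neg_neg, neg_neg]
  rfl

omit S in
theorem inM_iff {v : Λ} (h : InM B e f F G x₀ y₀ v) : ∃ a x y b : ℤ, v = mk e f F G a x y b :=
  ⟨_, _, _, _, h⟩

theorem crd_mk (D : ℤ) (a x y b : ℤ) : crd D al be B e f x₀ y₀ (mk e f F G a x y b) =
    ((a : ℚ), io D al be x y, (al : ℚ) * b) := by
  unfold crd
  rw [Be_mk S, Bf_mk S, Bx_mk S, By_mk S]
  simp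

theorem B_mk_mk (a x y b a' x' y' b' : ℤ) :
    B (mk e f F G a x y b) (mk e f F G a' x' y' b') =
      2 * al * x * x' + be * (x * y' + y * x') + 2 * ga * y * y' - a * b' - b * a' := by
  rw [B_left, Be_mk S, BF_mk S, BG_mk S, Bf_mk S]
  ring

theorem bb_crd {D : ℤ} [NS D] (hD : D = be ^ 2 - 4 * al * ga) {v v' : Λ}
    (hv : InM B e f F G x₀ y₀ v) (hv' : InM B e f F G x₀ y₀ v') :
    bb al (crd D al be B e f x₀ y₀ v) (crd D al be B e f x₀ y₀ v') = (B v v' : ℚ) := by
  obtain ⟨a, x, y, b, rfl⟩ := inM_iff hv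
  obtain ⟨a', x', y', b', rfl⟩ := inM_iff hv'
  have hal : (al : ℚ) ≠ 0 := al_ne hD
  have hDq : (D : ℚ) = be ^ 2 - 4 * al * ga := by rw [hD]; push_cast; ring
  rw [crd_mk S, crd_mk S, B_mk_mk S]
  simp only [bb, io]
  rw [div_eq_iff hal]
  push_cast
  simp
  rw [hDq]
  ring

omit S in
theorem crd_add (D : ℤ) (v v' : Λ) : crd D al be B e f x₀ y₀ (v + v') =
    crd D al be B e f x₀ y₀ v + crd D al be B e f x₀ y₀ v' := by
  unfold crd
  refine Prod.ext ?_ (Prod.ext ?_ ?_)
  · simp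
    ring
  · apply QuadraticAlgebra.ext <;> simp [io] <;> ring
  · simp
    ring

omit S in
theorem crd_smul (D : ℤ) (n : ℤ) (v : Λ) : crd D al be B e f x₀ y₀ (n • v) =
    (n : ℚ) • crd D al be B e f x₀ y₀ v := by
  unfold crd
  refine Prod.ext ?_ (Prod.ext ?_ ?_)
  · simp
  · apply QuadraticAlgebra.ext <;> simp [io] <;> ring
  · simp
    ring

omit S in
theorem crd_sub (D : ℤ) (v v' : Λ) : crd D al be B e f x₀ y₀ (v - v') =
    crd D al be B e f x₀ y₀ v - crd D al be B e f x₀ y₀ v' := by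
  have h : v - v' = v + (-1 : ℤ) • v' := by rw [neg_one_smul, sub_eq_add_neg]
  rw [h, crd_add, crd_smul]
  push_cast
  rw [neg_one_smul, sub_eq_add_neg]

omit S in
theorem inM_add {v v' : Λ} (hv : InM B e f F G x₀ y₀ v) (hv' : InM B e f F G x₀ y₀ v') :
    InM B e f F G x₀ y₀ (v + v') := by
  unfold InM at *
  simp only [map_add]
  conv_lhs => rw [hv, hv']
  module

omit S in
theorem inM_smul {v : Λ} (n : ℤ) (hv : InM B e f F G x₀ y₀ v) :
    InM B e f F G x₀ y₀ (n • v) := by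
  unfold InM at *
  simp only [map_smul, smul_eq_mul]
  conv_lhs => rw [hv]
  module

omit S in
theorem inM_sub {v v' : Λ} (hv : InM B e f F G x₀ y₀ v) (hv' : InM B e f F G x₀ y₀ v') :
    InM B e f F G x₀ y₀ (v - v') := by
  have h : v - v' = v + (-1 : ℤ) • v' := by rw [neg_one_smul, sub_eq_add_neg]
  rw [h]
  exact inM_add hv (inM_smul _ hv')

/-- a vector of the lattice over the integers has a preimage -/
theorem exists_mk {D : ℤ} {z : VV D} (hz : LL Zr al be z) :
    ∃ a x y b : ℤ, crd D al be B e f x₀ y₀ (mk e f F G a x y b) = z := by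
  obtain ⟨h1, ⟨x, hx, y, hy, h2⟩, s, hs, h3⟩ := hz
  obtain ⟨a, ha⟩ := mem_Zr.1 h1
  obtain ⟨x', rfl⟩ := mem_Zr.1 hx
  obtain ⟨y', rfl⟩ := mem_Zr.1 hy
  obtain ⟨s', rfl⟩ := mem_Zr.1 hs
  refine ⟨a, x', y', s', ?_⟩
  rw [crd_mk S, ← ha, ← h2, ← h3]

/-- a transvection of `Λ` acts on `M` as a transvection -/
theorem re_tv {D : ℤ} [NS D] (hD : D = be ^ 2 - 4 * al * ga) {z w : Λ}
    (hz : InM B e f F G x₀ y₀ z) (hw : InM B e f F G x₀ y₀ w) {m : ℤ}
    (hzz : B z z = 0) (hzw : B z w = 0) (hww : B w w = 2 * m) (g : Λ ≃ₗ[ℤ] Λ)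
    (hg : ∀ x, g x = x + B z x • w - B w x • z - (m * B z x) • z) (φ : VV D →ₗ[ℚ] VV D)
    (hφ : ∀ v, φ v = tv al (crd D al be B e f x₀ y₀ z) (crd D al be B e f x₀ y₀ w) v) :
    Re D al be B e f F G x₀ y₀ g φ := by
  have hwz : B w z = 0 := by rw [S.symm, hzw]
  refine ⟨⟨fun x y => ?_, fun t ht => ?_⟩, fun v hv => ⟨?_, ?_⟩⟩
  · rw [hg, hg]
    simp only [map_add, map_sub, map_smul, LinearMap.add_apply, LinearMap.sub_apply,
      LinearMap.smul_apply, smul_eq_mul, hzz, hzw, hww, hwz, S.symm x z, S.symm x w]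
    ring
  · obtain ⟨h1, h2, h3, h4⟩ := ht
    obtain ⟨a, x, y, b, rfl⟩ := inM_iff hz
    obtain ⟨a', x', y', b', rfl⟩ := inM_iff hw
    have e1 : B (mk e f F G a x y b) t = 0 := by rw [B_left, h1, h2, h3, h4]; ring
    have e2 : B (mk e f F G a' x' y' b') t = 0 := by rw [B_left, h1, h2, h3, h4]; ring
    rw [hg, e1, e2]
    simp
  · rw [hg]
    exact inM_sub (inM_sub (inM_add hv (inM_smul _ hw)) (inM_smul _ hz)) (inM_smul _ hz)
  · rw [hg, hφ, tv_apply, bb_crd S hD hz hv, bb_crd S hD hw hv, bb_crd S hD hw hw, hww]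
    rw [crd_sub, crd_sub, crd_add, crd_smul, crd_smul, crd_smul]
    push_cast
    have h2 : (2 * (m : ℚ)) / 2 * (B z v : ℚ) = (m : ℚ) * (B z v : ℚ) := by ring
    rw [h2]

end

section

variable {Λ : Type} [AddCommGroup Λ] (B : LinearMap.BilinForm ℤ Λ)

/-- the transvection of `Λ` as a linear map -/
def tl (z w : Λ) (m : ℤ) : Λ →ₗ[ℤ] Λ where
  toFun x := x + B z x • w - B w x • z - (m * B z x) • z
  map_add' v v' := by
    simp only [map_add]
    module
  map_smul' s v := by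
    simp only [map_smul, smul_eq_mul, RingHom.id_apply]
    module

theorem tl_apply (z w : Λ) (m : ℤ) (x : Λ) :
    tl B z w m x = x + B z x • w - B w x • z - (m * B z x) • z := rfl

theorem tl_inv (hs : ∀ x y, B x y = B y x) {z w : Λ} {m : ℤ} (hzz : B z z = 0)
    (hzw : B z w = 0) (hww : B w w = 2 * m) (x : Λ) : tl B z w m (tl B z (-w) m x) = x := by
  have hwz : B w z = 0 := by rw [hs, hzw]
  rw [tl_apply B z w, tl_apply B z (-w)]
  simp only [map_add, map_sub, map_smul, map_neg, smul_eq_mul, hzz, hzw, hww, hwz,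
    LinearMap.neg_apply]
  module

/-- the transvection as an equivalence -/
def te (hs : ∀ x y, B x y = B y x) (z w : Λ) (m : ℤ) (hzz : B z z = 0)
    (hzw : B z w = 0) (hww : B w w = 2 * m) : Λ ≃ₗ[ℤ] Λ :=
  LinearEquiv.ofLinearMap (tl B z w m) (tl B z (-w) m)
    (LinearMap.ext fun x => tl_inv B hs hzz hzw hww x)
    (LinearMap.ext fun x => by
      have h := tl_inv B hs (z := z) (w := -w) (m := m) hzz (by simp [hzw]) (by simp [hww]) x
      rwa [neg_neg] at h)

end

end RT_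

open RT_ in
theorem p_RT : T_RT := by
  intro D _ al be ga hD Λ _ B e f F G x₀ y₀ S z w hz hw hqz hzw φ hφ
  obtain ⟨a, x, y, b, rfl⟩ := exists_mk S hz
  obtain ⟨a', x', y', b', rfl⟩ := exists_mk S hw
  have hal : (al : ℚ) ≠ 0 := al_ne hD
  have hMz := inM_mk S a x y b
  have hMw := inM_mk S a' x' y' b'
  have hzz' : B (mk e f F G a x y b) (mk e f F G a x y b) = 0 := by
    have h1 := bb_self hal (crd D al be B e f x₀ y₀ (mk e f F G a x y b))
    rw [hqz, bb_crd S hD hMz hMz, mul_zero] at h1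
    have h2 := (mul_eq_zero.1 h1).resolve_left hal
    exact_mod_cast h2
  have hzw' : B (mk e f F G a x y b) (mk e f F G a' x' y' b') = 0 := by
    rw [bb_crd S hD hMz hMw] at hzw
    exact_mod_cast hzw
  obtain ⟨m, hm⟩ : ∃ m : ℤ, B (mk e f F G a' x' y' b') (mk e f F G a' x' y' b') = 2 * m := by
    refine ⟨al * x' ^ 2 + be * x' * y' + ga * y' ^ 2 - a' * b', ?_⟩
    rw [B_mk_mk S]
    ring
  refine ⟨te B S.symm _ _ m hzz' hzw' hm, ?_, ?_⟩
  · apply Subgroup.subset_closure
    right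
    exact ⟨_, mk_span a x y b, _, mk_span a' x' y' b', m, hzz', hzw', hm, fun x => rfl⟩
  · exact re_tv S hD hMz hMw hzz' hzw' hm _ (fun x => rfl) φ hφ

end K3S
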