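import Pool.Agent.K3S.TargetsB

/-!
# MP_98be90_ag, part B: the reflection `s0` (block SO, helper37)
-/

set_option autoImplicit false
set_option linter.unusedSectionVars false

namespace K3S

open Matrix

theorem SO_s0_apply {D : ℤ} (al : ℤ) (v : VV D) :
    s0 al v = (-v.2.2 / al, v.2.1, -al * v.1) := rfl

theorem SO_act_apply {D : ℤ} (a b c d : KK D) (ρ : ℚ) (v : VV D) :
    act a b c d ρ v = ((a.norm * v.1 + 2 * (a * v.2.1 * star b).re + b.norm * v.2.2) / ρ,
    ρ⁻¹ • (v.1 • (a * star c) + a * v.2.1 * star d + b * star v.2.1 * star c +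
      v.2.2 • (b * star d)),
    (c.norm * v.1 + 2 * (c * v.2.1 * star d).re + d.norm * v.2.2) / ρ) := rfl

/-- SO -/
theorem p_SO : T_SO := by
  intro D al hal
  have hq : (al : ℚ) ≠ 0 := by exact_mod_cast hal
  refine ⟨fun v => ?_, fun v => ?_, fun v v' => ?_, fun a b c d ρ => ?_⟩
  · rw [SO_s0_apply, SO_s0_apply]
    refine Prod.ext ?_ (Prod.ext rfl ?_)
    · simp only
      field_simp
    · simp only
      field_simp
  · rw [SO_s0_apply]
    unfold qf
    simp only
    field_simp
  · rw [SO_s0_apply, SO_s0_apply]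
    unfold bb
    simp only
    field_simp
    ring
  · apply LinearMap.ext
    intro v
    obtain ⟨r, w, t⟩ := v
    rw [LinearMap.comp_apply, LinearMap.comp_apply, SO_s0_apply, SO_s0_apply, SO_act_apply,
      SO_act_apply]
    obtain ⟨w1, w2⟩ := w
    obtain ⟨a1, a2⟩ := a
    obtain ⟨b1, b2⟩ := b
    obtain ⟨c1, c2⟩ := c
    obtain ⟨d1, d2⟩ := d
    refine Prod.ext ?_ (Prod.ext ?_ ?_)
    · simp [QuadraticAlgebra.norm_def, cc]
      field_simp
      ring
    · apply QuadraticAlgebra.ext
      · simp [cc]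
        field_simp
        ring
      · simp [cc]
        field_simp
        ring
    · simp [QuadraticAlgebra.norm_def, cc]
      field_simp
      ring

end K3S
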