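import Pool.Agent.K3S.TargetsB

/-!
# K3S: the target UNI

A unipotent element of a congruence group is an integral Eichler transvection. The bivector
`z ∧ w` depends linearly on `u - 1`, so its coordinates are integers, and a bivector with
integral coordinates which is decomposable over `ℚ` with `z` primitive has an integral `w`.
-/

set_option autoImplicit false
set_option linter.unusedSectionVars false
set_option linter.unusedSimpArgs false

namespace K3S

open Matrix

namespace UNI_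

/-- the relations between the bivector `z ∧ w` and the matrix `(p₁, p₂; p₃, -p₁)` -/
structure Rel {D : ℤ} (al : ℤ) (p₁ p₂ p₃ : KK D) (z w : VV D) : Prop where
  iso : z.2.1.re ^ 2 - D * z.2.1.im ^ 2 = z.1 * z.2.2
  perp : 2 * (z.2.1.re * w.2.1.re - D * (z.2.1.im * w.2.1.im)) = z.1 * w.2.2 + z.2.2 * w.1
  m12 : z.1 * w.2.1.re - z.2.1.re * w.1 = -al * p₂.re
  m13 : z.1 * w.2.1.im - z.2.1.im * w.1 = -al * p₂.im
  m14 : z.1 * w.2.2 - z.2.2 * w.1 = 2 * al * p₁.re
  m23 : z.2.1.re * w.2.1.im - z.2.1.im * w.2.1.re = al * p₁.im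
  m24 : z.2.1.re * w.2.2 - z.2.2 * w.2.1.re = al * p₃.re
  m34 : z.2.1.im * w.2.2 - z.2.2 * w.2.1.im = -al * p₃.im

/-- the derivative of the action -/
def TP {D : ℤ} (p₁ p₂ p₃ : KK D) (v : VV D) : VV D :=
  (2 * p₁.re * v.1 + 2 * p₂.re * v.2.1.re - 2 * D * p₂.im * v.2.1.im,
    ⟨2 * D * p₁.im * v.2.1.im + p₂.re * v.2.2 + p₃.re * v.1,
      2 * p₁.im * v.2.1.re + p₂.im * v.2.2 - p₃.im * v.1⟩,
    2 * p₃.re * v.2.1.re + 2 * D * p₃.im * v.2.1.im - 2 * p₁.re * v.2.2)

theorem bb_eq {D : ℤ} (al : ℤ) (v v' : VV D) : bb al v v' =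
    (2 * (v.2.1.re * v'.2.1.re - D * (v.2.1.im * v'.2.1.im)) - v.1 * v'.2.2 - v.2.2 * v'.1) /
      al := by
  unfold bb
  simp
  ring

theorem T_eq {D : ℤ} {al : ℤ} (hal : al ≠ 0) {p₁ p₂ p₃ : KK D} {z w : VV D}
    (h : Rel al p₁ p₂ p₃ z w) (v : VV D) :
    bb al z v • w - bb al w v • z = TP p₁ p₂ p₃ v := by
  have hal' : (al : ℚ) ≠ 0 := by exact_mod_cast hal
  obtain ⟨_, _, m12, m13, m14, m23, m24, m34⟩ := h
  rw [bb_eq, bb_eq]
  unfold TP
  refine Prod.ext ?_ (Prod.ext (QuadraticAlgebra.ext ?_ ?_) ?_)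
  · simp only [Prod.fst_sub, Prod.smul_fst, smul_eq_mul]
    field_simp
    linear_combination -2 * v.2.1.re * m12 + 2 * D * v.2.1.im * m13 + v.1 * m14
  · simp only [Prod.snd_sub, Prod.fst_sub, Prod.smul_snd, Prod.smul_fst, smul_eq_mul,
      QuadraticAlgebra.re_sub, QuadraticAlgebra.re_smul]
    field_simp
    linear_combination 2 * D * v.2.1.im * m23 - v.2.2 * m12 + v.1 * m24
  · simp only [Prod.snd_sub, Prod.fst_sub, Prod.smul_snd, Prod.smul_fst, smul_eq_mul,
      QuadraticAlgebra.im_sub, QuadraticAlgebra.im_smul]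
    field_simp
    linear_combination 2 * v.2.1.re * m23 - v.2.2 * m13 + v.1 * m34
  · simp only [Prod.snd_sub, Prod.smul_snd, smul_eq_mul]
    field_simp
    linear_combination 2 * v.2.1.re * m24 - 2 * D * v.2.1.im * m34 - v.2.2 * m14

theorem act_eq {D : ℤ} {p₁ p₂ p₃ : KK D} (h : p₁ * p₁ + p₂ * p₃ = 0) (v : VV D) :
    act (1 + p₁) p₂ p₃ (1 - p₁) 1 v =
      v + TP p₁ p₂ p₃ v + (1 / 2 : ℚ) • TP p₁ p₂ p₃ (TP p₁ p₂ p₃ v) := by
  have hre : p₁.re ^ 2 + D * p₁.im ^ 2 + p₂.re * p₃.re + D * p₂.im * p₃.im = 0 := by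
    have := congrArg QuadraticAlgebra.re h
    simp at this
    linarith
  unfold act TP
  refine Prod.ext ?_ (Prod.ext (QuadraticAlgebra.ext ?_ ?_) ?_)
  · simp [QuadraticAlgebra.norm_def, QuadraticAlgebra.re_one, QuadraticAlgebra.im_one]
    linear_combination -v.1 * hre
  · simp [QuadraticAlgebra.re_one, QuadraticAlgebra.im_one]
    linear_combination -v.2.1.re * hre
  · simp [QuadraticAlgebra.re_one, QuadraticAlgebra.im_one]
    linear_combination -v.2.1.im * hre
  · simp [QuadraticAlgebra.norm_def, QuadraticAlgebra.re_one, QuadraticAlgebra.im_one]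
    linear_combination -v.2.2 * hre

theorem bb_lin {D : ℤ} (al : ℤ) (z w z' : VV D) (c d : ℚ) :
    bb al z (c • w - d • z') = c * bb al z w - d * bb al z z' := by
  rw [bb_eq, bb_eq, bb_eq]
  simp
  ring

theorem bb_symm {D : ℤ} (al : ℤ) (z w : VV D) : bb al z w = bb al w z := by
  rw [bb_eq, bb_eq]
  ring

/-- the transvection formula -/
theorem formula {D : ℤ} {al : ℤ} (hal : al ≠ 0) {p₁ p₂ p₃ : KK D}
    (h0 : p₁ * p₁ + p₂ * p₃ = 0) {z w : VV D} (h : Rel al p₁ p₂ p₃ z w) (v : VV D) :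
    act (1 + p₁) p₂ p₃ (1 - p₁) 1 v =
      v + bb al z v • w - bb al w v • z - (bb al w w / 2 * bb al z v) • z := by
  have hzz : bb al z z = 0 := by
    rw [bb_eq]
    have : 2 * (z.2.1.re * z.2.1.re - D * (z.2.1.im * z.2.1.im)) - z.1 * z.2.2 - z.2.2 * z.1
        = 0 := by
      linear_combination 2 * h.iso
    rw [this, zero_div]
  have hzw : bb al z w = 0 := by
    rw [bb_eq]
    have : 2 * (z.2.1.re * w.2.1.re - D * (z.2.1.im * w.2.1.im)) - z.1 * w.2.2 - z.2.2 * w.1
        = 0 := by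
      linear_combination h.perp
    rw [this, zero_div]
  have hwz : bb al w z = 0 := by rw [bb_symm, hzw]
  rw [act_eq h0, ← T_eq hal h (TP p₁ p₂ p₃ v), ← T_eq hal h v, bb_lin, bb_lin, hzz, hzw, hwz]
  module

/-- rational solutions of the relations -/
theorem exists_rel {D : ℤ} [NS D] {al : ℤ} (hal : al ≠ 0) {p₁ p₂ p₃ : KK D}
    (h0 : p₁ * p₁ + p₂ * p₃ = 0) : ∃ z w : VV D, z ≠ 0 ∧ Rel al p₁ p₂ p₃ z w := by
  by_cases hp : p₂ = 0
  · have hp1 : p₁ = 0 := by
      rw [hp, zero_mul, add_zero] at h0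
      exact mul_self_eq_zero.1 h0
    subst hp
    subst hp1
    refine ⟨(0, 0, al), (0, ⟨-p₃.re, p₃.im⟩, 0), ?_, ?_, ?_, ?_, ?_, ?_, ?_, ?_, ?_⟩
    · intro h
      have := congrArg (fun v : VV D => v.2.2) h
      simp at this
      exact hal this
    all_goals simp
  · set ζ : KK D := -star (p₁ / p₂) with hζ
    have hs : star ζ = -(p₁ / p₂) := by
      rw [hζ, star_neg, star_star]
    have e1 : p₁ = -(star ζ * p₂) := by
      rw [hs]
      field_simp
    have e3 : p₃ = -(star ζ * star ζ * p₂) := by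
      rw [hs]
      field_simp
      linear_combination h0
    have a1 := congrArg QuadraticAlgebra.re e1
    have b1 := congrArg QuadraticAlgebra.im e1
    have a3 := congrArg QuadraticAlgebra.re e3
    have b3 := congrArg QuadraticAlgebra.im e3
    simp at a1 b1 a3 b3
    refine ⟨(1, ζ, ζ.re ^ 2 - D * ζ.im ^ 2), (0, ⟨-al * p₂.re, -al * p₂.im⟩, 2 * al * p₁.re),
      ?_, ?_, ?_, ?_, ?_, ?_, ?_, ?_, ?_⟩
    · intro h
      have := congrArg (fun v : VV D => v.1) h
      simp at this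
    · simp
    · simp
      linear_combination -2 * (al : ℚ) * a1
    · simp
    · simp
    · simp
    · simp
      linear_combination -(al : ℚ) * b1
    · simp
      linear_combination 2 * (al : ℚ) * ζ.re * a1 - (al : ℚ) * a3
    · simp
      linear_combination 2 * (al : ℚ) * ζ.im * a1 + (al : ℚ) * b3

/-- the relations do not change if the basis of the plane changes -/
theorem Rel.change {D : ℤ} {al : ℤ} {p₁ p₂ p₃ : KK D} {z w : VV D}
    (h : Rel al p₁ p₂ p₃ z w) {c : ℚ} (hc : c ≠ 0) (μ : ℚ) :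
    Rel al p₁ p₂ p₃ (c • z) (c⁻¹ • w + μ • z) := by
  obtain ⟨iso, perp, m12, m13, m14, m23, m24, m34⟩ := h
  constructor <;>
    simp only [Prod.snd_add, Prod.fst_add, Prod.smul_snd, Prod.smul_fst, smul_eq_mul,
      QuadraticAlgebra.re_add, QuadraticAlgebra.im_add, QuadraticAlgebra.re_smul,
      QuadraticAlgebra.im_smul] <;> field_simp
  · linear_combination iso
  · linear_combination perp + 2 * c * μ * iso
  · linear_combination m12
  · linear_combination m13
  · linear_combination m14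
  · linear_combination m23
  · linear_combination m24
  · linear_combination m34

/-- a multiple of a rational vector is primitive -/
theorem prim (Z : Fin 4 → ℚ) (hZ : Z ≠ 0) : ∃ (c : ℚ) (n e : Fin 4 → ℤ), c ≠ 0 ∧
    (∀ i, c * Z i = n i) ∧ ∑ i, e i * n i = 1 := by
  obtain ⟨b, hb⟩ := IsLocalization.exist_integer_multiples_of_finite (nonZeroDivisors ℤ) Z
  choose m hm using hb
  have hb0 : ((b : ℤ) : ℚ) ≠ 0 := by
    exact_mod_cast nonZeroDivisors.coe_ne_zero b
  have hm' : ∀ i, ((b : ℤ) : ℚ) * Z i = m i := by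
    intro i
    have := hm i
    rw [zsmul_eq_mul] at this
    rw [← this]
    rfl
  obtain ⟨g, hg⟩ := (IsPrincipalIdealRing.principal (Ideal.span (Set.range m))).principal
  have h1 : ∀ i, ∃ k, m i = g * k := by
    intro i
    have h : m i ∈ Ideal.span (Set.range m) := Ideal.subset_span ⟨i, rfl⟩
    rw [hg] at h
    obtain ⟨k, hk⟩ := Submodule.mem_span_singleton.1 h
    exact ⟨k, by rw [← hk, smul_eq_mul, mul_comm]⟩
  choose n hn using h1
  have h2 : g ∈ Ideal.span (Set.range m) := by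
    rw [hg]
    exact Submodule.mem_span_singleton_self g
  obtain ⟨e, he⟩ := Ideal.mem_span_range_iff_exists_fun.1 h2
  have hg0 : g ≠ 0 := by
    rintro rfl
    apply hZ
    funext i
    have h3 := hm' i
    rw [hn i, zero_mul, Int.cast_zero] at h3
    exact (mul_eq_zero.1 h3).resolve_left hb0
  have hg0' : (g : ℚ) ≠ 0 := by exact_mod_cast hg0
  refine ⟨b / g, n, e, div_ne_zero hb0 hg0', fun i => ?_, ?_⟩
  · rw [div_mul_eq_mul_div, hm', hn i, Int.cast_mul, mul_div_cancel_left₀ _ hg0']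
  · have h3 : g * ∑ i, e i * n i = g * 1 := by
      rw [mul_one, Finset.mul_sum]
      conv_rhs => rw [← he]
      apply Finset.sum_congr rfl
      intro i _
      rw [hn i]
      ring
    exact mul_left_cancel₀ hg0 h3

/-- a bivector with integral coordinates -/
theorem integral (Z W : Fin 4 → ℚ) (hZ : Z ≠ 0)
    (hm : ∀ i j, ∃ n : ℤ, Z i * W j - Z j * W i = n) : ∃ c μ : ℚ, c ≠ 0 ∧
    (∀ i, ∃ n : ℤ, c * Z i = n) ∧ ∀ i, ∃ n : ℤ, c⁻¹ * W i + μ * Z i = n := by
  obtain ⟨c, n, e, hc, hn, he⟩ := prim Z hZ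
  choose m hm using hm
  refine ⟨c, -∑ i, e i * W i, hc, fun i => ⟨n i, hn i⟩, fun j => ⟨∑ i, e i * m i j, ?_⟩⟩
  have he' : ∑ i, (e i : ℚ) * (c * Z i) = 1 := by
    have : ((∑ i, e i * n i : ℤ) : ℚ) = 1 := by
      rw [he, Int.cast_one]
    rw [← this]
    push_cast
    exact Finset.sum_congr rfl fun i _ => by rw [hn i]
  push_cast
  have h1 : ∑ i, (e i : ℚ) * (m i j : ℚ) =
      c⁻¹ * (∑ i, (e i : ℚ) * (c * Z i)) * W j - (∑ i, (e i : ℚ) * W i) * Z j := by
    rw [Finset.mul_sum, Finset.sum_mul, Finset.sum_mul, ← Finset.sum_sub_distrib]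
    apply Finset.sum_congr rfl
    intro i _
    rw [← hm i j]
    field_simp
  rw [h1, he']
  ring

/-- the coordinates of a vector in the basis of the lattice -/
def co {D : ℤ} (al be : ℤ) (v : VV D) : Fin 4 → ℚ :=
  ![v.1, (v.2.1.re - be * v.2.1.im) / al, 2 * v.2.1.im, v.2.2 / al]

theorem co_add {D : ℤ} (al be : ℤ) (c d : ℚ) (v v' : VV D) (i : Fin 4) :
    co al be (c • v + d • v') i = c * co al be v i + d * co al be v' i := by
  fin_cases i <;> simp [co] <;> ring

theorem co_smul {D : ℤ} (al be : ℤ) (c : ℚ) (v : VV D) (i : Fin 4) :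
    co al be (c • v) i = c * co al be v i := by
  fin_cases i <;> simp [co] <;> ring

theorem LL_of_co {D : ℤ} {al be : ℤ} (hal : al ≠ 0) {v : VV D}
    (h : ∀ i, ∃ n : ℤ, co al be v i = n) : LL Zr al be v := by
  have hal' : (al : ℚ) ≠ 0 := by exact_mod_cast hal
  obtain ⟨n0, h0⟩ := h 0
  obtain ⟨n1, h1⟩ := h 1
  obtain ⟨n2, h2⟩ := h 2
  obtain ⟨n3, h3⟩ := h 3
  simp only [co, Matrix.cons_val] at h0 h1 h2 h3
  refine ⟨mem_Zr.2 ⟨n0, h0⟩, ⟨n1, mem_Zr.2 ⟨n1, rfl⟩, n2, mem_Zr.2 ⟨n2, rfl⟩, ?_⟩,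
    n3, mem_Zr.2 ⟨n3, rfl⟩, ?_⟩
  · rw [div_eq_iff hal'] at h1
    apply QuadraticAlgebra.ext
    · simp only [io]
      linear_combination h1 + be * h2 / 2
    · simp only [io]
      linear_combination h2 / 2
  · rw [div_eq_iff hal'] at h3
    linear_combination h3

end UNI_

open UNI_ in
/-- **UNI** -/
theorem p_UNI : T_UNI := by
  intro D _ al be ga hD q hq hdvd u hu htr
  have hal : al ≠ 0 := by
    rintro rfl
    rw [mul_zero, zero_mul, zero_dvd_iff] at hdvd
    omega
  have hal' : (al : ℚ) ≠ 0 := by exact_mod_cast hal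
  obtain ⟨q', hq'⟩ : al ∣ q := (show al ∣ 4 * al * D from ⟨4 * D, by ring⟩).trans hdvd
  obtain ⟨⟨y₁, h1⟩, ⟨y₂, h2⟩, ⟨y₃, h3⟩, -⟩ := hu
  set p₁ : KK D := ii D ((q : AA D) * y₁) with hp1
  set p₂ : KK D := ii D ((q : AA D) * y₂) with hp2
  set p₃ : KK D := ii D ((q : AA D) * y₃) with hp3
  have ha : pa u = 1 + p₁ := by
    rw [← h1]
    ring
  have hd : pd u = 1 - p₁ := by
    rw [← h1]
    linear_combination htr
  have hdet := gg_det u
  have h0 : p₁ * p₁ + p₂ * p₃ = 0 := by
    rw [ha, hd, h2, h3] at hdet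
    linear_combination -hdet
  obtain ⟨z, w, hz, hR⟩ := exists_rel hal h0
  have hZ : co al be z ≠ 0 := by
    intro h
    apply hz
    have e0 := congrFun h 0
    have e1 := congrFun h 1
    have e2 := congrFun h 2
    have e3 := congrFun h 3
    simp only [co, Matrix.cons_val, Pi.zero_apply] at e0 e1 e2 e3
    rw [div_eq_zero_iff, or_iff_left hal'] at e1 e3
    refine Prod.ext e0 (Prod.ext (QuadraticAlgebra.ext ?_ ?_) e3)
    · show z.2.1.re = 0
      linear_combination e1 + be * e2 / 2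
    · show z.2.1.im = 0
      linear_combination e2 / 2
  have i1 : p₁.re = (q * y₁.re : ℤ) ∧ p₁.im = (q * y₁.im : ℤ) := by
    rw [hp1]
    constructor
    · rw [ii_re]
      simp
    · rw [ii_im]
      simp
  have i2 : p₂.re = (q * y₂.re : ℤ) ∧ p₂.im = (q * y₂.im : ℤ) := by
    rw [hp2]
    constructor
    · rw [ii_re]
      simp
    · rw [ii_im]
      simp
  have i3 : p₃.re = (q * y₃.re : ℤ) ∧ p₃.im = (q * y₃.im : ℤ) := by
    rw [hp3]
    constructor
    · rw [ii_re]
      simp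
    · rw [ii_im]
      simp
  have hminor : ∀ i j, ∃ n : ℤ, co al be z i * co al be w j - co al be z j * co al be w i = n := by
    obtain ⟨-, -, m12, m13, m14, m23, m24, m34⟩ := hR
    rw [i1.1] at m14
    rw [i1.2] at m23
    rw [i2.1] at m12
    rw [i2.2] at m13
    rw [i3.1] at m24
    rw [i3.2] at m34
    have k01 : co al be z 0 * co al be w 1 - co al be z 1 * co al be w 0 =
        (-(q * y₂.re) + be * (q * y₂.im) : ℤ) := by
      simp only [co, Matrix.cons_val]
      push_cast at m12 m13 ⊢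
      field_simp
      linear_combination m12 - be * m13
    have k02 : co al be z 0 * co al be w 2 - co al be z 2 * co al be w 0 =
        (-(2 * al * (q * y₂.im)) : ℤ) := by
      simp only [co, Matrix.cons_val]
      push_cast at m13 ⊢
      linear_combination 2 * m13
    have k03 : co al be z 0 * co al be w 3 - co al be z 3 * co al be w 0 =
        (2 * (q * y₁.re) : ℤ) := by
      simp only [co, Matrix.cons_val]
      push_cast at m14 ⊢
      field_simp
      linear_combination m14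
    have k12 : co al be z 1 * co al be w 2 - co al be z 2 * co al be w 1 =
        (2 * (q * y₁.im) : ℤ) := by
      simp only [co, Matrix.cons_val]
      push_cast at m23 ⊢
      field_simp
      linear_combination m23
    have k13 : co al be z 1 * co al be w 3 - co al be z 3 * co al be w 1 =
        (q' * y₃.re + be * (q' * y₃.im) : ℤ) := by
      simp only [co, Matrix.cons_val]
      rw [hq'] at m24 m34
      push_cast at m24 m34 ⊢
      field_simp
      linear_combination m24 - be * m34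
    have k23 : co al be z 2 * co al be w 3 - co al be z 3 * co al be w 2 =
        (-(2 * (q * y₃.im)) : ℤ) := by
      simp only [co, Matrix.cons_val]
      push_cast at m34 ⊢
      field_simp
      linear_combination m34
    have neg : ∀ i j : Fin 4, (∃ n : ℤ, co al be z i * co al be w j - co al be z j * co al be w i
        = n) → ∃ n : ℤ, co al be z j * co al be w i - co al be z i * co al be w j = n := by
      rintro i j ⟨n, hn⟩
      exact ⟨-n, by rw [Int.cast_neg, ← hn]; ring⟩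
    have self : ∀ i : Fin 4, ∃ n : ℤ, co al be z i * co al be w i - co al be z i * co al be w i
        = n := fun i => ⟨0, by rw [Int.cast_zero]; ring⟩
    intro i j
    fin_cases i <;> fin_cases j
    · exact self 0
    · exact ⟨_, k01⟩
    · exact ⟨_, k02⟩
    · exact ⟨_, k03⟩
    · exact neg 0 1 ⟨_, k01⟩
    · exact self 1
    · exact ⟨_, k12⟩
    · exact ⟨_, k13⟩
    · exact neg 0 2 ⟨_, k02⟩
    · exact neg 1 2 ⟨_, k12⟩
    · exact self 2
    · exact ⟨_, k23⟩
    · exact neg 0 3 ⟨_, k03⟩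
    · exact neg 1 3 ⟨_, k13⟩
    · exact neg 2 3 ⟨_, k23⟩
    · exact self 3
  obtain ⟨c, μ, hc, hcZ, hcW⟩ := integral _ _ hZ hminor
  have hR' := hR.change hc μ
  refine ⟨c • z, c⁻¹ • w + μ • z, LL_of_co hal fun i => ?_, LL_of_co hal fun i => ?_, ?_, ?_,
    fun v => ?_⟩
  · rw [co_smul]
    exact hcZ i
  · rw [co_add]
    exact hcW i
  · have := hR'.iso
    unfold qf
    rw [QuadraticAlgebra.norm_def]
    linear_combination this
  · have := hR'.perp
    rw [bb_eq, div_eq_zero_iff]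
    left
    linear_combination this
  · have := formula hal h0 hR' v
    unfold actg
    rw [ha, h2, h3, hd]
    exact this

end K3S
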