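import Pool.Agent.K3S.TargetsC

/-!
# MP_98be90_ag, part C: a `Good` isometry is determined by its action on `M` (target UNQ)
-/

set_option autoImplicit false
set_option linter.unusedSectionVars false

namespace K3S

open Matrix

namespace UNQ_

theorem al_ne {D : ℤ} [h : NS D] {al be ga : ℤ} (hD : D = be ^ 2 - 4 * al * ga) : al ≠ 0 := by
  rintro rfl
  exact h.nsq ⟨be, by rw [hD]; ring⟩

theorem io_inj {D al be : ℤ} (hal : al ≠ 0) {x y x' y' : ℚ}
    (h : io D al be x y = io D al be x' y') :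
    x = x' ∧ y = y' := by
  have hal' : (al : ℚ) ≠ 0 := by exact_mod_cast hal
  have h1 : (al : ℚ) * x + be * y / 2 = al * x' + be * y' / 2 := congrArg QuadraticAlgebra.re h
  have h2 : y / 2 = y' / 2 := congrArg QuadraticAlgebra.im h
  have h3 : y = y' := by linarith
  subst h3
  refine ⟨?_, rfl⟩
  have h4 : (al : ℚ) * x = al * x' := by linarith
  exact mul_left_cancel₀ hal' h4

variable {Λ : Type} [AddCommGroup Λ]

theorem crd_inj {D : ℤ} {al be : ℤ} (hal : al ≠ 0) {B : LinearMap.BilinForm ℤ Λ}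
    {e f F G x₀ y₀ : Λ} {v v' : Λ} (hv : InM B e f F G x₀ y₀ v) (hv' : InM B e f F G x₀ y₀ v')
    (h : crd D al be B e f x₀ y₀ v = crd D al be B e f x₀ y₀ v') : v = v' := by
  have h1 := congrArg Prod.fst h
  have h2 := congrArg (fun z ↦ z.2.1) h
  have h3 := congrArg (fun z ↦ z.2.2) h
  simp only [crd] at h1 h2 h3
  obtain ⟨h4, h5⟩ := io_inj hal h2
  have h1' : -B f v = -B f v' := by exact_mod_cast h1
  have h3' : -al * B e v = -al * B e v' := by exact_mod_cast h3
  have h3'' : B e v = B e v' := mul_left_cancel₀ (neg_ne_zero.2 hal) h3'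
  have h4' : B x₀ v = B x₀ v' := by exact_mod_cast h4
  have h5' : B y₀ v = B y₀ v' := by exact_mod_cast h5
  rw [InM] at hv hv'
  rw [hv, hv', h1', h3'', h4', h5']

/-- for every `z` there is `m ∈ M` with `D z - m` orthogonal to `e, f, F, G` -/
theorem ex_m {D : ℤ} {al be ga : ℤ} (hD : D = be ^ 2 - 4 * al * ga)
    {B : LinearMap.BilinForm ℤ Λ} {e f F G x₀ y₀ : Λ} (S : Sit B e f F G x₀ y₀ al be ga) (z : Λ) :
    ∃ m : Λ, InM B e f F G x₀ y₀ m ∧ B e (D • z - m) = 0 ∧ B f (D • z - m) = 0 ∧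
      B F (D • z - m) = 0 ∧ B G (D • z - m) = 0 := by
  have fe : B f e = -1 := by rw [S.symm, S.ef]
  have Fe : B F e = 0 := by rw [S.symm, S.eF]
  have Ge : B G e = 0 := by rw [S.symm, S.eG]
  have Ff : B F f = 0 := by rw [S.symm, S.fF]
  have Gf : B G f = 0 := by rw [S.symm, S.fG]
  have GF : B G F = be := by rw [S.symm, S.FG]
  have xe : B x₀ e = 0 := by rw [S.symm, S.ex]
  have xf : B x₀ f = 0 := by rw [S.symm, S.fx]
  have xF : B x₀ F = 1 := by rw [S.symm, S.Fx]
  have xG : B x₀ G = 0 := by rw [S.symm, S.Gx]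
  have ye : B y₀ e = 0 := by rw [S.symm, S.ey]
  have yf : B y₀ f = 0 := by rw [S.symm, S.fy]
  have yF : B y₀ F = 0 := by rw [S.symm, S.Fy]
  have yG : B y₀ G = 1 := by rw [S.symm, S.Gy]
  refine ⟨(D * -B f z) • e + (be * B G z - 2 * ga * B F z) • F +
    (be * B F z - 2 * al * B G z) • G + (D * -B e z) • f, ?_, ?_, ?_, ?_, ?_⟩
  · rw [InM]
    simp only [map_add, map_smul, smul_eq_mul, S.ee, S.ff, S.ef, S.eF, S.eG, S.fF, S.fG, fe,
      xe, xf, xF, xG, ye, yf, yF, yG]
    congr 1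
    · congr 1
      · congr 1
        · congr 1
          ring
        · congr 1
          ring
      · congr 1
        ring
    · congr 1
      ring
  · simp only [map_sub, map_add, map_smul, smul_eq_mul, S.ee, S.ef, S.eF, S.eG]
    ring
  · simp only [map_sub, map_add, map_smul, smul_eq_mul, S.ff, S.fF, S.fG, fe]
    ring
  · simp only [map_sub, map_add, map_smul, smul_eq_mul, S.FF, S.FG, Fe, Ff]
    rw [hD]
    ring
  · simp only [map_sub, map_add, map_smul, smul_eq_mul, S.GG, GF, Ge, Gf]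
    rw [hD]
    ring

end UNQ_

open UNQ_ in
/-- UNQ: a `Good` isometry is determined by its action on `M`. -/
theorem p_UNQ : T_UNQ := by
  intro D hNS al be ga hD Λ _ B e f F G x₀ y₀ S g k φ hg hk
  have hal : al ≠ 0 := al_ne hD
  have hD0 : D ≠ 0 := hNS.pos.ne'
  have key : ∀ v, InM B e f F G x₀ y₀ v → g v = k v := by
    intro v hv
    obtain ⟨a1, a2⟩ := hg.2 v hv
    obtain ⟨b1, b2⟩ := hk.2 v hv
    exact crd_inj hal a1 b1 (a2.trans b2.symm)
  refine LinearEquiv.ext fun z ↦ ?_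
  obtain ⟨m, hm, t1, t2, t3, t4⟩ := ex_m hD S z
  have e1 := hg.1.2 _ ⟨t1, t2, t3, t4⟩
  have e2 := hk.1.2 _ ⟨t1, t2, t3, t4⟩
  have e3 : D • (g z - k z) = 0 := by
    have e4 : g (D • z - m) = k (D • z - m) := e1.trans e2.symm
    rw [map_sub, map_sub, map_smul, map_smul, key m hm] at e4
    rw [smul_sub]
    exact sub_eq_zero.2 (sub_left_injective e4)
  refine sub_eq_zero.1 (S.nondeg _ fun y ↦ ?_)
  have e5 : D * B (g z - k z) y = 0 := by
    have e6 : B (D • (g z - k z)) y = 0 := by rw [e3]; simp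
    rwa [map_smul, LinearMap.smul_apply, smul_eq_mul] at e6
  exact (mul_eq_zero.1 e5).resolve_left hD0

end K3S
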