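import Pool.Agent.K3S.AllA
import Pool.Agent.K3S.BWD
import Pool.Agent.K3S.CDI
import Pool.Agent.K3S.CIN
import Pool.Agent.K3S.CMP
import Pool.Agent.K3S.CONA
import Pool.Agent.K3S.CPR
import Pool.Agent.K3S.DEC
import Pool.Agent.K3S.ELE
import Pool.Agent.K3S.FWD
import Pool.Agent.K3S.GD
import Pool.Agent.K3S.GEN
import Pool.Agent.K3S.GLO
import Pool.Agent.K3S.LIF
import Pool.Agent.K3S.LOA
import Pool.Agent.K3S.LOB
import Pool.Agent.K3S.LOC
import Pool.Agent.K3S.LOD
import Pool.Agent.K3S.LOK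
import Pool.Agent.K3S.LOZ
import Pool.Agent.K3S.NRM
import Pool.Agent.K3S.NUM
import Pool.Agent.K3S.ORF
import Pool.Agent.K3S.ORI
import Pool.Agent.K3S.PGR
import Pool.Agent.K3S.REK
import Pool.Agent.K3S.REP
import Pool.Agent.K3S.REU
import Pool.Agent.K3S.ROT
import Pool.Agent.K3S.RR
import Pool.Agent.K3S.RT
import Pool.Agent.K3S.SO
import Pool.Agent.K3S.UNI
import Pool.Agent.K3S.UNQ

/-!
# Assembly: the two inclusions of the main theorem
-/

set_option autoImplicit false

namespace K3S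

theorem prove_PGR : T_PGR := p_PGR p_CMP p_SO
theorem prove_LOK : T_LOK := p_LOK p_NRM
theorem prove_LOA : T_LOA := p_LOA prove_LOK
theorem prove_LOD : T_LOD := p_LOD p_NUM
theorem prove_LOB : T_LOB := p_LOB p_CMP p_ELE prove_LOD
theorem prove_LOC : T_LOC := p_LOC prove_LOA prove_LOB p_CMP p_ELE
theorem prove_GLO : T_GLO := p_GLO prove_LOC p_LOZ
theorem prove_CIN : T_CIN := p_CIN p_REP
theorem prove_DEC : T_DEC := p_DEC p_CPR p_CDI prove_CIN p_CON
theorem prove_LIF : T_LIF := p_LIF p_CMP p_NRM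
theorem prove_REK : T_REK := p_REK p_RT p_RR p_CMP
theorem prove_REU : T_REU := p_REU p_UNI p_RT p_CMP
theorem prove_ROT : T_ROT := p_ROT prove_GLO prove_DEC prove_THM prove_REK prove_REU p_CMP p_UNQ
theorem prove_ORF : T_ORF := p_ORF p_ORI
theorem prove_GEN : T_GEN := p_GEN prove_LIF prove_PGR

/-- Orientation preserving isometries trivial on `M^⊥` are products of generators. -/
theorem prove_FWD : T_FWD := p_FWD p_GD prove_LIF prove_ORF prove_ROT p_RR p_SO

/-- Products of generators preserve the orientation and are trivial on `M^⊥`. -/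
theorem prove_BWD : T_BWD := p_BWD prove_GEN prove_PGR prove_ORF

end K3S
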