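import Pool.Agent.K3S.TargetsA

/-!
# COM: `Gam 1` acts trivially on the quotient `Gam q / UU q`
-/

set_option autoImplicit false

namespace K3S

open Matrix

theorem p_COM (hPG : T_PG) (hSA : T_SA) : T_COM := by
  intro D _ q hq h4 g hg γ hγ
  obtain ⟨q₁, hq₁, hdvd, h⟩ := hPG D g q hq h4
  obtain ⟨u, hu, hmem⟩ := hSA D q q₁ hq hq₁ hdvd γ hγ
  have h1 := (h (u * γ) hmem).2
  have h2 : g * u⁻¹ * g⁻¹ ∈ (UU q : Subgroup (GG D)) := UU_conj_one hg (inv_mem hu)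
  have h3 : g * γ * g⁻¹ * γ⁻¹ =
      (g * u⁻¹ * g⁻¹) * (g * (u * γ) * g⁻¹ * (u * γ)⁻¹) * u := by
    group
  rw [h3]
  exact mul_mem (mul_mem h2 h1) hu

end K3S
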