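import Pool.Agent.K3S.TargetsA

/-!
# MP_98be90_ag, K3S, target `T_DIR`: Dirichlet's theorem with a condition modulo `ℓ`
-/

set_option autoImplicit false

namespace K3S

open Matrix

namespace DIR_

/-- Dirichlet's theorem for integers -/
theorem dirichlet (M : ℕ) (a : ℤ) (hM : 0 < M) (h : IsCoprime (M : ℤ) a) :
    ∃ p : ℕ, p.Prime ∧ 2 < p ∧ (M : ℤ) ∣ (p : ℤ) - a := by
  have : NeZero M := ⟨hM.ne'⟩
  obtain ⟨p, hp2, hp, hpa⟩ := Nat.forall_exists_prime_gt_and_eq_mod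
    (q := M) (a := (a : ZMod M)) ((ZMod.coe_int_isUnit_iff_isCoprime a M).2 h) 2
  refine ⟨p, hp, hp2, ?_⟩
  rw [← ZMod.intCast_zmod_eq_zero_iff_dvd]
  push_cast
  rw [hpa, sub_self]

/-- the two cases for `ℓ` -/
theorem half {p ℓ : ℕ} (hp : p.Prime) (hp2 : 2 < p) (hℓ : ℓ.Prime)
    (h : (ℓ = 2 ∧ (4 : ℤ) ∣ (p : ℤ) + 1) ∨ (ℓ ≠ 2 ∧ (ℓ : ℤ) ∣ (p : ℤ) + 1)) :
    ¬ ℓ ∣ (p - 1) / 2 := by
  intro hd
  have hodd : p % 2 = 1 := by
    rcases hp.eq_two_or_odd with h2 | h2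
    · omega
    · exact h2
  rcases h with ⟨rfl, h4⟩ | ⟨h2, h1⟩
  · obtain ⟨k, hk⟩ := hd
    obtain ⟨j, hj⟩ := h4
    omega
  · have h3 : ℓ ∣ p + 1 := by exact_mod_cast h1
    have h5 : ℓ ∣ 2 * ((p - 1) / 2) := hd.mul_left 2
    have h6 : 2 * ((p - 1) / 2) = p - 1 := by omega
    rw [h6] at h5
    have h7 : ℓ ∣ (p + 1) - (p - 1) := Nat.dvd_sub h3 h5
    have h8 : (p + 1) - (p - 1) = 2 := by omega
    rw [h8] at h7
    exact h2 ((Nat.prime_dvd_prime_iff_eq hℓ Nat.prime_two).1 h7)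

end DIR_

theorem p_DIR : T_DIR := by
  intro q m n ℓ hq h4 hm hmn hn hℓ hcase
  -- `m` is coprime to `q ^ 3 * n`
  have hmq : IsCoprime m (q ^ 3) := by
    obtain ⟨c, hc⟩ := hm
    exact ⟨1, -c, by linarith⟩
  have hmN : IsCoprime m (q ^ 3 * n) := hmq.mul_right hmn
  have hN0 : q ^ 3 * n ≠ 0 := mul_ne_zero (pow_ne_zero _ hq.ne') hn
  set N : ℕ := (q ^ 3 * n).natAbs with hN
  have hNpos : 0 < N := Int.natAbs_pos.2 hN0
  have hNd : q ^ 3 * n ∣ (N : ℤ) := by rw [hN]; exact Int.dvd_natAbs.2 dvd_rfl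
  have hNd' : (N : ℤ) ∣ q ^ 3 * n := by rw [hN]; exact Int.natAbs_dvd.2 dvd_rfl
  have hcop : IsCoprime (N : ℤ) (-m) := by
    have h1 : IsCoprime (N : ℤ) m := (hmN.symm.of_isCoprime_of_dvd_left hNd')
    exact h1.neg_right
  have hq3 : ∀ p : ℕ, q ^ 3 * n ∣ (p : ℤ) + m → q ^ 3 ∣ (p : ℤ) + 1 := by
    intro p hp
    have h1 : q ^ 3 ∣ (p : ℤ) + m := (dvd_mul_right _ _).trans hp
    have h2 : (p : ℤ) + 1 = ((p : ℤ) + m) - (m - 1) := by ring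
    rw [h2]
    exact dvd_sub h1 hm
  by_cases hℓq : (ℓ : ℤ) ∣ q
  · obtain ⟨p, hp, hp2, hpa⟩ := DIR_.dirichlet N (-m) hNpos hcop
    have h1 : q ^ 3 * n ∣ (p : ℤ) + m := by
      have := hNd.trans hpa
      rwa [sub_neg_eq_add] at this
    have h2 := hq3 p h1
    refine ⟨p, hp, h1, DIR_.half hp hp2 hℓ ?_⟩
    by_cases hℓ2 : ℓ = 2
    · exact Or.inl ⟨hℓ2, (h4.trans (dvd_pow_self q (by norm_num))).trans h2⟩
    · exact Or.inr ⟨hℓ2, (hℓq.trans (dvd_pow_self q (by norm_num))).trans h2⟩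
  · have hℓn : ¬ (ℓ : ℤ) ∣ n := hcase.resolve_left hℓq
    have hℓp : Prime (ℓ : ℤ) := Nat.prime_iff_prime_int.1 hℓ
    have hℓ2 : ℓ ≠ 2 := by
      rintro rfl
      exact hℓq (dvd_trans (by norm_num) h4)
    have hℓN : IsCoprime (N : ℤ) (ℓ : ℤ) := by
      refine IsCoprime.symm ((Prime.coprime_iff_not_dvd hℓp).2 fun h => ?_)
      rcases hℓp.dvd_or_dvd (h.trans hNd') with h1 | h1
      · exact hℓq (hℓp.dvd_of_dvd_pow h1)
      · exact hℓn h1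
    obtain ⟨u, v, huv⟩ := hℓN
    -- `a = -m mod N`, `a = -1 mod ℓ`
    set a : ℤ := -m + N * (u * (m - 1)) with ha
    have haN : IsCoprime (N : ℤ) a := by
      rw [ha]
      exact IsCoprime.add_mul_left_right hcop _
    have haℓ : IsCoprime (ℓ : ℤ) a := by
      have h1 : a = -1 + ℓ * (-(v * (m - 1))) := by
        rw [ha]
        linear_combination (m - 1) * huv
      rw [h1]
      exact IsCoprime.add_mul_left_right (isCoprime_one_right.neg_right) _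
    have hcop2 : IsCoprime ((N * ℓ : ℕ) : ℤ) a := by
      push_cast
      exact haN.mul_left haℓ
    obtain ⟨p, hp, hp2, hpa⟩ := DIR_.dirichlet (N * ℓ) a (Nat.mul_pos hNpos hℓ.pos) hcop2
    push_cast at hpa
    have h1 : q ^ 3 * n ∣ (p : ℤ) + m := by
      have h2 : (N : ℤ) ∣ (p : ℤ) - a := (dvd_mul_right _ _).trans hpa
      have h3 : (p : ℤ) + m = ((p : ℤ) - a) + N * (u * (m - 1)) := by
        rw [ha]; ring
      rw [h3]
      exact hNd.trans (dvd_add h2 (dvd_mul_right _ _))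
    have h2 : (ℓ : ℤ) ∣ (p : ℤ) + 1 := by
      have h2 : (ℓ : ℤ) ∣ (p : ℤ) - a := (dvd_mul_left _ _).trans hpa
      have h3 : (p : ℤ) + 1 = ((p : ℤ) - a) + ℓ * (-(v * (m - 1))) := by
        rw [ha]
        linear_combination (m - 1) * huv
      rw [h3]
      exact dvd_add h2 (dvd_mul_right _ _)
    exact ⟨p, hp, h1, DIR_.half hp hp2 hℓ (Or.inr ⟨hℓ2, h2⟩)⟩

end K3S
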