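import Pool.Agent.K3S.TargetsA

/-!
# MP_98be90_ag, part A: EPS, a unit of infinite order (Pell)
-/

set_option autoImplicit false

namespace K3S

open Matrix

namespace EPS_

theorem mul_star {D x y : ℤ} (h : x ^ 2 - D * y ^ 2 = 1) :
    (⟨x, y⟩ : AA D) * ⟨x, -y⟩ = 1 := by
  ext
  · simp only [Zsqrtd.re_mul, Zsqrtd.re_one]
    linear_combination h
  · simp only [Zsqrtd.im_mul, Zsqrtd.im_one]
    ring

end EPS_

theorem p_EPS : T_EPS := by
  intro D hD
  obtain ⟨x, y, h, hy⟩ := Pell.exists_of_not_isSquare hD.pos hD.nsq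
  have h1 := EPS_.mul_star h
  refine ⟨⟨⟨x, y⟩, ⟨x, -y⟩, h1, by rw [mul_comm]; exact h1⟩, fun h2 ↦ ?_⟩
  have h3 := congrArg Zsqrtd.im h2
  rw [sq] at h3
  simp only [Zsqrtd.im_mul, Zsqrtd.im_one] at h3
  have h4 : x * y = 0 := by linarith
  rcases mul_eq_zero.1 h4 with h5 | h5
  · rw [h5] at h
    have h6 : 0 ≤ D * y ^ 2 := mul_nonneg hD.pos.le (sq_nonneg y)
    linarith
  · exact hy h5

end K3S
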