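import Pool.Agent.K3S.TargetsA

/-!
# MP_98be90_ag, part A, target EXG: matrices with a given first row
-/

set_option autoImplicit false
set_option linter.unusedSectionVars false

namespace K3S

open Matrix

namespace EXG_

theorem main (D : ℤ) [NS D] (q : ℤ) (a b g u v : AA D) (ha : (q : AA D) ∣ a - 1)
    (hb : (q : AA D) ∣ b) (huv : u * a + v * (b * ((q : AA D) * g ^ 2)) = 1) :
    ∃ γ ∈ (Gam q : Subgroup (GG D)), pa γ = ii D a ∧
      pb γ = ii D b ∧ ∃ c : AA D, pc γ = ii D ((q : AA D) * g ^ 2 * c) := by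
  have hdet : ii D a * ii D u - ii D b * ii D ((q : AA D) * g ^ 2 * (-v)) = 1 := by
    rw [← map_mul, ← map_mul, ← map_sub, ← map_one (ii D)]
    congr 1
    rw [← huv]
    ring
  refine ⟨mk4 (ii D a) (ii D b) (ii D ((q : AA D) * g ^ 2 * (-v))) (ii D u) hdet,
    ⟨?_, ?_, ?_, ?_⟩, rfl, rfl, -v, rfl⟩
  · rw [mk4_00, ← map_one (ii D), ← map_sub, jd_iff]
    exact ha
  · rw [mk4_01, jd_iff]
    exact hb
  · rw [mk4_10, jd_iff]
    exact ⟨g ^ 2 * (-v), by ring⟩
  · rw [mk4_11, ← map_one (ii D), ← map_sub, jd_iff]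
    obtain ⟨w, hw⟩ := ha
    refine ⟨-(u * w) - v * (b * g ^ 2), ?_⟩
    have h1 : a = 1 + (q : AA D) * w := by rw [← hw]; ring
    rw [h1] at huv
    linear_combination huv

end EXG_

theorem p_EXG : T_EXG := by
  intro D _ q a b g ha hb hab hag
  have haq : IsCoprime a (q : AA D) := by
    obtain ⟨w, hw⟩ := ha
    exact ⟨1, -w, by linear_combination hw⟩
  obtain ⟨u, v, huv⟩ := hab.mul_right (haq.mul_right (hag.pow_right (n := 2)))
  exact EXG_.main D q a b g u v ha hb huv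

end K3S
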