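import Pool.Agent.K3S.TargetsA

/-!
# The Frobenius of `A/pA` is trivial for `p = -1` modulo `4D`
-/

set_option autoImplicit false

namespace K3S

open Matrix

namespace FROB_

open NumberTheorySymbols

lemma jac_aux (n : ℕ) (hn : 0 < n) : J((n : ℤ) | 4 * n - 1) = 1 := by
  set m : ℕ := 4 * n - 1 with hm
  have hodd : Odd m := ⟨2 * n - 1, by omega⟩
  have h4 : J((4 : ℤ) | m) = 1 := by
    have h2 : (4 : ℤ) = 2 ^ 2 := by norm_num
    rw [h2]
    apply jacobiSym.sq_one'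
    rw [Int.gcd_eq_natAbs]
    have h5 : Nat.Coprime 2 m := Nat.coprime_two_left.mpr hodd
    simpa using h5
  have h1 : J((4 * n : ℤ) | m) = 1 := by
    rw [jacobiSym.mod_left]
    have h3 : ((4 * n : ℤ)) % (m : ℤ) = 1 % (m : ℤ) := by
      have h5 : (4 * n : ℤ) = 1 + (m : ℤ) * 1 := by
        have : (m : ℤ) = 4 * n - 1 := by omega
        rw [this]; ring
      rw [h5, Int.add_mul_emod_self_left]
    rw [h3, ← jacobiSym.mod_left, jacobiSym.one_left]
  rw [jacobiSym.mul_left, h4, one_mul] at h1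
  exact h1

lemma jac (D : ℤ) (p : ℕ) (hD : 0 < D) (h : 4 * D ∣ (p : ℤ) + 1) :
    J(D | p) = 1 := by
  obtain ⟨n, rfl⟩ := Int.eq_ofNat_of_zero_le hD.le
  have hn : 0 < n := by exact_mod_cast hD
  obtain ⟨k, hk⟩ := h
  have hk0 : 0 < k := by
    by_contra hcon
    have h1 : k ≤ 0 := not_lt.mp hcon
    have h2 : (4 * (n : ℤ)) * k ≤ 0 := by nlinarith
    have h3 : (0 : ℤ) ≤ (p : ℤ) := by positivity
    linarith
  obtain ⟨j, rfl⟩ := Int.eq_ofNat_of_zero_le hk0.le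
  have hj : 0 < j := by exact_mod_cast hk0
  have h1 : p + 1 = 4 * n * j := by exact_mod_cast hk
  have hodd : Odd p := by
    have h2 : 4 * n * j = 2 * (2 * n * j) := by ring
    have h3 : 0 < 2 * n * j := by positivity
    exact ⟨2 * n * j - 1, by omega⟩
  rw [jacobiSym.mod_right (n : ℤ) hodd, Int.natAbs_natCast]
  have h4 : p % (4 * n) = 4 * n - 1 := by
    obtain ⟨i, rfl⟩ : ∃ i, j = i + 1 := ⟨j - 1, by omega⟩
    have h5 : p = (4 * n - 1) + 4 * n * i := by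
      have h6 : 4 * n * (i + 1) = 4 * n * i + 4 * n := by ring
      omega
    rw [h5, Nat.add_mul_mod_self_left, Nat.mod_eq_of_lt (by omega)]
  rw [h4]
  exact jac_aux n hn

lemma pow_half (D : ℤ) (p : ℕ) (hD : 0 < D) (hp : p.Prime) (h : 4 * D ∣ (p : ℤ) + 1) :
    ((D : ZMod p)) ^ (p / 2) = 1 := by
  have : Fact p.Prime := ⟨hp⟩
  rw [← legendreSym.eq_pow, jacobiSym.legendreSym.to_jacobiSym, jac D p hD h]
  simp

lemma odd_p (D : ℤ) (p : ℕ) (h : 4 * D ∣ (p : ℤ) + 1) : p % 2 = 1 := by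
  obtain ⟨k, hk⟩ := h
  have h1 : (p : ℤ) = 2 * (2 * D * k) - 1 := by linarith
  omega

end FROB_

theorem p_FROB : T_FROB := by
  intro D p hD hp h x
  have : Fact p.Prime := ⟨hp⟩
  obtain ⟨a, b⟩ := x
  have hodd := FROB_.odd_p D p h
  have hx : (⟨a, b⟩ : AA D) = (a : AA D) + (b : AA D) * Zsqrtd.sqrtd := by
    rw [Zsqrtd.decompose]; ring
  obtain ⟨r, hr⟩ := exists_add_pow_prime_eq hp (a : AA D) ((b : AA D) * Zsqrtd.sqrtd)
  have hs : (Zsqrtd.sqrtd : AA D) ^ p = ((D ^ (p / 2) : ℤ) : AA D) * Zsqrtd.sqrtd := by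
    have h1 : p = 2 * (p / 2) + 1 := by omega
    conv_lhs => rw [h1]
    rw [pow_succ, pow_mul, sq, Zsqrtd.dmuld]
    push_cast
    rfl
  have ha : (p : ℤ) ∣ a ^ p - a := by
    rw [← ZMod.intCast_zmod_eq_zero_iff_dvd]
    push_cast
    rw [ZMod.pow_card, sub_self]
  have hb : (p : ℤ) ∣ b ^ p * D ^ (p / 2) - b := by
    rw [← ZMod.intCast_zmod_eq_zero_iff_dvd]
    push_cast
    rw [ZMod.pow_card, FROB_.pow_half D p hD hp h, mul_one, sub_self]
  obtain ⟨u, hu⟩ := ha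
  obtain ⟨w, hw⟩ := hb
  have hu' : ((a : AA D)) ^ p - (a : AA D) = (p : AA D) * (u : AA D) := by
    have := congrArg (fun z : ℤ => (z : AA D)) hu
    push_cast at this
    exact this
  have hw' : ((b : AA D)) ^ p * ((D ^ (p / 2) : ℤ) : AA D) - (b : AA D) =
      (p : AA D) * (w : AA D) := by
    have := congrArg (fun z : ℤ => (z : AA D)) hw
    push_cast at this
    push_cast
    exact this
  refine ⟨(u : AA D) + (a : AA D) * ((b : AA D) * Zsqrtd.sqrtd) * r +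
    (w : AA D) * Zsqrtd.sqrtd, ?_⟩
  rw [hx, hr, mul_pow, hs]
  linear_combination hu' + Zsqrtd.sqrtd * hw'

end K3S
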