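import Pool.Agent.K3S.TargetsA

/-!
# MP_98be90_ag, part A: JA (Jacobi symbol and sign)
-/

set_option autoImplicit false

namespace K3S

open Matrix

namespace JA_

theorem chi_neg : ∀ x : ZMod 4, ZMod.χ₄ (-x) = -ZMod.χ₄ x := by decide

theorem chi_abs {m m' : ℤ} (h4 : 4 ∣ m - m') (hs : m * m' < 0) :
    ZMod.χ₄ (m'.natAbs : ZMod 4) = -ZMod.χ₄ (m.natAbs : ZMod 4) := by
  have h : 4 ∣ m.natAbs + m'.natAbs := by
    rcases mul_neg_iff.1 hs with ⟨h1, h2⟩ | ⟨h1, h2⟩ <;> omega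
  have h2 : ((m.natAbs + m'.natAbs : ℕ) : ZMod 4) = 0 := (ZMod.natCast_eq_zero_iff _ _).2 h
  rw [Nat.cast_add] at h2
  rw [eq_neg_of_add_eq_zero_right h2, chi_neg]

theorem split_neg {n : ℤ} {b : ℕ} (hb : Odd b) :
    jacobiSym n b = ZMod.χ₄ (b : ZMod 4) * jacobiSym (-n) b := by
  rw [← jacobiSym.at_neg_one hb, ← jacobiSym.mul_left]
  congr 1
  ring

end JA_

open JA_ in
theorem p_JA (h : T_JB) : T_JA := by
  intro m m' n hn hm hc h4 hs
  have h44 : 4 ∣ m - m' := (Dvd.intro n rfl).trans h4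
  have hm' : Odd m' := by
    obtain ⟨k, hk⟩ := hm
    obtain ⟨j, hj⟩ := h44
    exact ⟨k - 2 * j, by omega⟩
  have hJ : jacobiSym (-n) m'.natAbs = jacobiSym (-n) m.natAbs := by
    refine h m m' (-n) (by omega) hm hc.neg_right (Or.inl ?_)
    rw [mul_neg]
    exact (neg_dvd).2 h4
  rw [split_neg (Int.natAbs_odd.2 hm'), split_neg (Int.natAbs_odd.2 hm), hJ, chi_abs h44 hs]
  ring

end K3S
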