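import Pool.Agent.K3S.TargetsA

/-! K3S-JB: the Jacobi symbol of a positive number is an even function modulo `4 n`. -/

set_option autoImplicit false

namespace K3S

open Matrix

namespace JB_

theorem opp {n b b' : ℕ} (hn : 0 < n) (hb : Odd b) (hc : Nat.Coprime b n)
    (h : 4 * n ∣ b + b') : jacobiSym (n : ℤ) b' = jacobiSym (n : ℤ) b := by
  have hb' : Odd b' := by
    have h2 : Even (b + b') := by
      obtain ⟨k, hk⟩ := h
      exact ⟨2 * n * k, by rw [hk]; ring⟩
    by_contra hne
    rw [Nat.not_odd_iff_even] at hne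
    exact (Nat.not_even_iff_odd.2 (hb.add_even hne)) h2
  have hb0 : b ≠ 0 := by rintro rfl; simp at hb
  have hb0' : b' ≠ 0 := by rintro rfl; simp at hb'
  have hle : b ^ 2 ≤ 4 * n * (b + 1) ^ 2 :=
    calc b ^ 2 ≤ (b + 1) ^ 2 := Nat.pow_le_pow_left (by omega) 2
      _ = 1 * (b + 1) ^ 2 := (one_mul _).symm
      _ ≤ 4 * n * (b + 1) ^ 2 := Nat.mul_le_mul_right _ (by omega)
  obtain ⟨B, hB'⟩ := Nat.exists_eq_add_of_le hle
  have hB : b ^ 2 + B = 4 * n * (b + 1) ^ 2 := hB'.symm
  have hBodd : Odd B := by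
    have h2 : Even (b ^ 2 + B) := by rw [hB]; exact ⟨2 * n * (b + 1) ^ 2, by ring⟩
    by_contra hne
    rw [Nat.not_odd_iff_even] at hne
    exact (Nat.not_even_iff_odd.2 ((hb.pow).add_even hne)) h2
  have hmod : b * b' % (4 * n) = B % (4 * n) := by
    have e1 : b ^ 2 + b * b' ≡ b ^ 2 + B [MOD 4 * n] := by
      have e2 : b ^ 2 + b * b' = b * (b + b') := by ring
      rw [e2, hB]
      have e3 : 4 * n ∣ b * (b + b') := Dvd.dvd.mul_left h b
      have e4 : 4 * n ∣ 4 * n * (b + 1) ^ 2 := Dvd.intro _ rfl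
      exact ((Nat.modEq_zero_iff_dvd).2 e3).trans ((Nat.modEq_zero_iff_dvd).2 e4).symm
    exact Nat.ModEq.add_left_cancel' _ e1
  have hbb : jacobiSym (n : ℤ) (b * b') = jacobiSym (n : ℤ) B := by
    rw [jacobiSym.mod_right (n : ℤ) (hb.mul hb'), jacobiSym.mod_right (n : ℤ) hBodd]
    simp only [Int.natAbs_natCast]
    rw [hmod]
  -- coprimality
  have hcb : Nat.Coprime b B := by
    have e1 : Nat.Coprime b (4 * n * (b + 1) ^ 2) := by
      have f1 : Nat.Coprime b 4 := by
        have : Nat.Coprime b (2 ^ 2) := Nat.Coprime.pow_right 2 (Nat.coprime_two_right.2 hb)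
        simpa using this
      have f2 : Nat.Coprime b (b + 1) := by simp
      exact (f1.mul_right hc).mul_right (f2.pow_right 2)
    rw [← hB] at e1
    have e2 : b ^ 2 + B = B + b * b := by ring
    rw [e2] at e1
    exact (Nat.coprime_add_mul_left_right b B b).1 e1
  have hc2 : Nat.Coprime 2 B := Nat.coprime_two_left.2 hBodd
  have hcj : Nat.Coprime (b + 1) B := by
    have e1 : Nat.Coprime (b + 1) (b ^ 2) := by
      have : Nat.Coprime (b + 1) b := by simp
      exact this.pow_right 2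
    have e2 : Nat.gcd (b + 1) B ∣ b ^ 2 := by
      have f1 : Nat.gcd (b + 1) B ∣ b ^ 2 + B := by
        rw [hB]
        exact Dvd.dvd.mul_left (dvd_pow (Nat.gcd_dvd_left _ _) (by norm_num)) _
      exact (Nat.dvd_add_left (Nat.gcd_dvd_right _ _)).1 f1
    have e3 : Nat.gcd (b + 1) B ∣ Nat.gcd (b + 1) (b ^ 2) :=
      Nat.dvd_gcd (Nat.gcd_dvd_left _ _) e2
    rw [e1] at e3
    exact Nat.dvd_one.1 e3
  have g1 : (b : ℤ).gcd B = 1 := by rw [Int.gcd_natCast_natCast]; exact hcb
  have g2 : (2 : ℤ).gcd B = 1 := by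
    have := Int.gcd_natCast_natCast 2 B
    rw [hc2] at this
    exact_mod_cast this
  have g3 : ((b : ℤ) + 1).gcd B = 1 := by
    have := Int.gcd_natCast_natCast (b + 1) B
    rw [hcj] at this
    exact_mod_cast this
  have hB1 : jacobiSym (n : ℤ) B = 1 := by
    have e1 : jacobiSym ((b : ℤ) ^ 2) B = 1 := jacobiSym.sq_one' g1
    have e2 : jacobiSym ((b : ℤ) ^ 2) B = jacobiSym (2 ^ 2 * n * ((b : ℤ) + 1) ^ 2) B := by
      apply jacobiSym.mod_left'
      have f1 : (2 ^ 2 * n * ((b : ℤ) + 1) ^ 2) = (b : ℤ) ^ 2 + B := by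
        have := congrArg (fun t : ℕ => (t : ℤ)) hB
        push_cast at this
        rw [this]
        ring
      rw [f1]
      simp
    rw [jacobiSym.mul_left, jacobiSym.mul_left, jacobiSym.sq_one' g2, jacobiSym.sq_one' g3,
      one_mul, mul_one] at e2
    rw [← e2, e1]
  have hprod : jacobiSym (n : ℤ) b * jacobiSym (n : ℤ) b' = 1 := by
    rw [← jacobiSym.mul_right' (n : ℤ) hb0 hb0', hbb, hB1]
  have hsq : jacobiSym (n : ℤ) b ^ 2 = 1 := by
    apply jacobiSym.sq_one
    rw [Int.gcd_natCast_natCast]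
    exact hc.symm
  calc jacobiSym (n : ℤ) b' = jacobiSym (n : ℤ) b ^ 2 * jacobiSym (n : ℤ) b' := by
        rw [hsq, one_mul]
    _ = jacobiSym (n : ℤ) b * (jacobiSym (n : ℤ) b * jacobiSym (n : ℤ) b') := by ring
    _ = jacobiSym (n : ℤ) b := by rw [hprod, mul_one]

theorem same {n b b' : ℕ} (hb : Odd b) (hb' : Odd b') (h : b ≡ b' [MOD 4 * n]) :
    jacobiSym (n : ℤ) b' = jacobiSym (n : ℤ) b := by
  rw [jacobiSym.mod_right (n : ℤ) hb', jacobiSym.mod_right (n : ℤ) hb]
  simp only [Int.natAbs_natCast]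
  rw [h]

end JB_

open JB_ in
theorem p_JB : T_JB := by
  intro m m' n hn hm hc h
  obtain ⟨N, rfl⟩ : ∃ N : ℕ, n = N := ⟨n.toNat, (Int.toNat_of_nonneg hn.le).symm⟩
  have hN : 0 < N := by exact_mod_cast hn
  have hm' : Odd m' := by
    rcases h with ⟨k, hk⟩ | ⟨k, hk⟩
    · have : m' = m + 2 * (-(2 * N * k)) := by linear_combination -hk
      rw [this]
      exact hm.add_even (even_two_mul _)
    · have : m' = 2 * (2 * N * k) - m := by linear_combination hk
      rw [this]
      exact (even_two_mul _).sub_odd hm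
  have hb : Odd m.natAbs := Int.natAbs_odd.2 hm
  have hb' : Odd m'.natAbs := Int.natAbs_odd.2 hm'
  have hcop : Nat.Coprime m.natAbs N := by
    have := Int.isCoprime_iff_gcd_eq_one.1 hc
    simpa [Int.gcd] using this
  -- the two absolute values agree up to sign modulo 4 N
  have key : (4 * (N : ℤ)) ∣ |m| - |m'| ∨ (4 * (N : ℤ)) ∣ |m| + |m'| := by
    rcases abs_choice m with e1 | e1 <;> rcases abs_choice m' with e2 | e2 <;>
      rw [e1, e2] <;> rcases h with h | h
    · exact Or.inl h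
    · exact Or.inr h
    · right; simpa [sub_eq_add_neg] using h
    · left; simpa using h
    · right
      have : -m + m' = -(m - m') := by ring
      rw [this]
      exact (dvd_neg).2 h
    · left
      have : -m - m' = -(m + m') := by ring
      rw [this]
      exact (dvd_neg).2 h
    · left
      have : -m - -m' = -(m - m') := by ring
      rw [this]
      exact (dvd_neg).2 h
    · right
      have : -m + -m' = -(m + m') := by ring
      rw [this]
      exact (dvd_neg).2 h
  rcases key with h1 | h1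
  · apply same hb hb'
    have h2 : (m'.natAbs : ℤ) ≡ (m.natAbs : ℤ) [ZMOD ((4 * N : ℕ) : ℤ)] := by
      apply Int.modEq_iff_dvd.2
      push_cast
      exact h1
    exact (Int.natCast_modEq_iff.1 h2).symm
  · apply opp hN hb hcop
    have h2 : ((4 * N : ℕ) : ℤ) ∣ ((m.natAbs + m'.natAbs : ℕ) : ℤ) := by
      push_cast
      exact h1
    exact Int.natCast_dvd_natCast.1 h2

end K3S
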