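import Pool.Agent.K3S.TargetsA

/-!
# PE: elementary matrices over `K` act trivially on the limit
-/

set_option autoImplicit false
set_option linter.unusedSectionVars false
set_option linter.unusedSimpArgs false

namespace K3S

open Matrix

namespace PE_

variable {D : ℤ} [NS D]

/-- `k` acts trivially on every class -/
def TV (k : GG D) : Prop := ∀ q : ℤ, 0 < q → 4 * D ∣ q →
  ∀ γ ∈ (Gam q : Subgroup (GG D)), k * γ * k⁻¹ * γ⁻¹ ∈ (UU q : Subgroup (GG D))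

lemma core {k t : GG D} (hk : k ∈ (Gam 1 : Subgroup (GG D))) (h1 : TV k)
    (h2 : TV k⁻¹) {N : ℤ} (hN : 0 < N)
    (h3 : ∀ q : ℤ, ∀ γ ∈ (Gam (N * q) : Subgroup (GG D)),
      t * γ * t⁻¹ ∈ (Gam q : Subgroup (GG D)))
    (h4 : ∀ q : ℤ, ∀ γ ∈ (Gam (N * q) : Subgroup (GG D)),
      t⁻¹ * γ * t ∈ (Gam q : Subgroup (GG D))) :
    PP (k * t * k⁻¹ * t⁻¹) := by
  intro q hq hDq
  refine ⟨N * (N * q), by positivity, ⟨N * N, by ring⟩, fun γ hγ => ?_⟩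
  have hγq : γ ∈ (Gam q : Subgroup (GG D)) := Gam_mono ⟨N * N, by ring⟩ hγ
  have e1 : t⁻¹ * γ * t ∈ (Gam (N * q) : Subgroup (GG D)) := h4 _ γ hγ
  have e2 : k⁻¹ * (t⁻¹ * γ * t) * k⁻¹⁻¹ * (t⁻¹ * γ * t)⁻¹ ∈ (UU (N * q) : Subgroup (GG D)) :=
    h2 (N * q) (by positivity) (hDq.mul_left N) _ e1
  have e3 := UU_conj t (h3 q) e2
  have e4 := UU_conj_one hk e3
  have e5 := h1 q hq hDq γ hγq
  have e6 : k * t * k⁻¹ * t⁻¹ * γ * (k * t * k⁻¹ * t⁻¹)⁻¹ * γ⁻¹ =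
      k * (t * (k⁻¹ * (t⁻¹ * γ * t) * k⁻¹⁻¹ * (t⁻¹ * γ * t)⁻¹) * t⁻¹) * k⁻¹ *
        (k * γ * k⁻¹ * γ⁻¹) := by
    group
  have e7 : k * t * k⁻¹ * t⁻¹ * γ * (k * t * k⁻¹ * t⁻¹)⁻¹ * γ⁻¹ ∈
      (UU q : Subgroup (GG D)) := by
    rw [e6]
    exact mul_mem e4 e5
  refine ⟨?_, e7⟩
  have e8 := mul_mem (UU_le q e7) hγq
  rwa [inv_mul_cancel_right] at e8

/-- a common denominator -/
lemma denom (y : KK D) : ∃ n : ℤ, 0 < n ∧ ∃ a : AA D, (n : KK D) * y = ii D a := by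
  refine ⟨(y.re.den * y.im.den : ℕ), ?_, ?_⟩
  · have := y.re.den_pos
    have := y.im.den_pos
    positivity
  · refine ⟨⟨y.re.num * y.im.den, y.re.den * y.im.num⟩, ?_⟩
    have h1 : (y.re.den : ℚ) * y.re = y.re.num := by
      rw [mul_comm]
      exact Rat.mul_den_eq_num _
    have h2 : (y.im.den : ℚ) * y.im = y.im.num := by
      rw [mul_comm]
      exact Rat.mul_den_eq_num _
    have h3 : (((y.re.den * y.im.den : ℕ) : ℤ) : KK D) =
        ((((y.re.den * y.im.den : ℕ) : ℤ) : ℚ) : KK D) := by push_cast; rfl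
    ext
    · simp only [QuadraticAlgebra.re_mul, QuadraticAlgebra.re_intCast,
        QuadraticAlgebra.im_intCast, ii_re]
      push_cast
      rw [← h1]
      ring
    · simp only [QuadraticAlgebra.im_mul, QuadraticAlgebra.re_intCast,
        QuadraticAlgebra.im_intCast, ii_im]
      push_cast
      rw [← h2]
      ring

lemma jd1 {n q : ℤ} {y c : KK D} {a : AA D} (hy : (n : KK D) * y = ii D a)
    (hc : Jd (n ^ 2 * q) c) : Jd q (y * c) := by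
  obtain ⟨z, rfl⟩ := hc
  refine ⟨a * n * z, ?_⟩
  simp only [map_mul, map_intCast, Int.cast_mul, Int.cast_pow, map_pow]
  rw [← hy]
  ring

lemma jd2 {n q : ℤ} {y c : KK D} {a : AA D} (hy : (n : KK D) * y = ii D a)
    (hc : Jd (n ^ 2 * q) c) : Jd q (y ^ 2 * c) := by
  obtain ⟨z, rfl⟩ := hc
  refine ⟨a ^ 2 * z, ?_⟩
  simp only [map_mul, map_intCast, Int.cast_mul, Int.cast_pow, map_pow]
  rw [← hy]
  ring

lemma E12_inv (y : KK D) : (E12 y)⁻¹ = E12 (-y) := by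
  apply gg_ext
  · rw [inv_00]; rfl
  · rw [inv_01]; rfl
  · rw [inv_10]; simp [E12]
  · rw [inv_11]; rfl

lemma E21_inv (y : KK D) : (E21 y)⁻¹ = E21 (-y) := by
  apply gg_ext
  · rw [inv_00]; rfl
  · rw [inv_01]; simp [E21]
  · rw [inv_10]; rfl
  · rw [inv_11]; rfl

lemma conj12 {n q : ℤ} {y : KK D} {a : AA D} (hy : (n : KK D) * y = ii D a) {γ : GG D}
    (hγ : γ ∈ (Gam (n ^ 2 * q) : Subgroup (GG D))) :
    E12 y * γ * (E12 y)⁻¹ ∈ (Gam q : Subgroup (GG D)) := by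
  obtain ⟨h1, h2, h3, h4⟩ := hγ
  have hq : q ∣ n ^ 2 * q := dvd_mul_left _ _
  have k1 := h1.dvd hq
  have k2 := h2.dvd hq
  have k3 := h3.dvd hq
  have k4 := h4.dvd hq
  rw [E12_inv]
  refine ⟨?_, ?_, ?_, ?_⟩
  · have := k1.add (jd1 hy h3)
    convert this using 1
    simp only [mul_00, mul_01, E12, mk4_00, mk4_01, mk4_10, mk4_11]
    ring
  · have := (k2.add (jd1 hy (h4.sub h1))).sub (jd2 hy h3)
    convert this using 1
    simp only [mul_00, mul_01, E12, mk4_00, mk4_01, mk4_10, mk4_11]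
    ring
  · convert k3 using 1
    simp only [mul_10, mul_11, E12, mk4_00, mk4_01, mk4_10, mk4_11]
    ring
  · have := k4.sub (jd1 hy h3)
    convert this using 1
    simp only [mul_10, mul_11, E12, mk4_00, mk4_01, mk4_10, mk4_11]
    ring

lemma conj21 {n q : ℤ} {y : KK D} {a : AA D} (hy : (n : KK D) * y = ii D a) {γ : GG D}
    (hγ : γ ∈ (Gam (n ^ 2 * q) : Subgroup (GG D))) :
    E21 y * γ * (E21 y)⁻¹ ∈ (Gam q : Subgroup (GG D)) := by
  obtain ⟨h1, h2, h3, h4⟩ := hγ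
  have hq : q ∣ n ^ 2 * q := dvd_mul_left _ _
  have k1 := h1.dvd hq
  have k2 := h2.dvd hq
  have k3 := h3.dvd hq
  have k4 := h4.dvd hq
  rw [E21_inv]
  refine ⟨?_, ?_, ?_, ?_⟩
  · have := k1.sub (jd1 hy h2)
    convert this using 1
    simp only [mul_00, mul_01, E21, mk4_00, mk4_01, mk4_10, mk4_11]
    ring
  · convert k2 using 1
    simp only [mul_00, mul_01, E21, mk4_00, mk4_01, mk4_10, mk4_11]
    ring
  · have := (k3.add (jd1 hy (h1.sub h4))).sub (jd2 hy h2)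
    convert this using 1
    simp only [mul_10, mul_11, mul_00, mul_01, E21, mk4_00, mk4_01, mk4_10, mk4_11]
    ring
  · have := k4.add (jd1 hy h2)
    convert this using 1
    simp only [mul_10, mul_11, E21, mk4_00, mk4_01, mk4_10, mk4_11]
    ring

lemma HA_00 (ε : (AA D)ˣ) : pa (HA ε) = ii D (ε : AA D) := rfl
lemma HA_01 (ε : (AA D)ˣ) : pb (HA ε) = 0 := rfl
lemma HA_10 (ε : (AA D)ˣ) : pc (HA ε) = 0 := rfl
lemma HA_11 (ε : (AA D)ˣ) : pd (HA ε) = ii D ((ε⁻¹ : (AA D)ˣ) : AA D) := rfl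

lemma HA_inv (ε : (AA D)ˣ) : (HA ε)⁻¹ = HA ε⁻¹ := by
  apply gg_ext
  · rw [inv_00, HA_11, HA_00]
  · rw [inv_01, HA_01, HA_01, neg_zero]
  · rw [inv_10, HA_10, HA_10, neg_zero]
  · rw [inv_11, HA_11, HA_00, inv_inv]

lemma HA_mem (ε : (AA D)ˣ) : HA ε ∈ (Gam 1 : Subgroup (GG D)) := by
  refine ⟨⟨(ε : AA D) - 1, ?_⟩, ⟨0, ?_⟩, ⟨0, ?_⟩, ⟨((ε⁻¹ : (AA D)ˣ) : AA D) - 1, ?_⟩⟩
  · rw [HA_00]; simp
  · rw [HA_01]; simp
  · rw [HA_10]; simp
  · rw [HA_11]; simp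

lemma ii_inv (ε : (AA D)ˣ) : ii D (ε : AA D) * ii D ((ε⁻¹ : (AA D)ˣ) : AA D) = 1 := by
  rw [← map_mul, Units.mul_inv, map_one]

lemma comm12 (ε : (AA D)ˣ) (x y : KK D) (h : (ii D (ε : AA D) ^ 2 - 1) * y = x) :
    E12 x = HA ε * E12 y * (HA ε)⁻¹ * (E12 y)⁻¹ := by
  have hi := ii_inv ε
  rw [E12_inv, HA_inv]
  apply gg_ext
  · simp only [mul_00, mul_01, HA_00, HA_01, HA_10, HA_11, E12, mk4_00, mk4_01, mk4_10, mk4_11]
    linear_combination -hi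
  · simp only [mul_00, mul_01, HA_00, HA_01, HA_10, HA_11, E12, mk4_00, mk4_01, mk4_10, mk4_11,
      inv_inv]
    linear_combination -h + y * hi
  · simp only [mul_10, mul_11, HA_00, HA_01, HA_10, HA_11, E12, mk4_00, mk4_01, mk4_10, mk4_11]
    ring
  · simp only [mul_10, mul_11, HA_00, HA_01, HA_10, HA_11, E12, mk4_00, mk4_01, mk4_10, mk4_11,
      inv_inv]
    linear_combination -hi

lemma comm21 (ε : (AA D)ˣ) (x y : KK D) (h : (ii D (ε : AA D) ^ 2 - 1) * y = x) :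
    E21 x = (HA ε)⁻¹ * E21 y * (HA ε)⁻¹⁻¹ * (E21 y)⁻¹ := by
  have hi := ii_inv ε
  rw [E21_inv, HA_inv, HA_inv, inv_inv]
  apply gg_ext
  · simp only [mul_00, mul_01, HA_00, HA_01, HA_10, HA_11, E21, mk4_00, mk4_01, mk4_10, mk4_11]
    linear_combination -hi
  · simp only [mul_00, mul_01, HA_00, HA_01, HA_10, HA_11, E21, mk4_00, mk4_01, mk4_10, mk4_11]
    ring
  · simp only [mul_10, mul_11, HA_00, HA_01, HA_10, HA_11, E21, mk4_00, mk4_01, mk4_10, mk4_11,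
      inv_inv]
    linear_combination -h + y * hi
  · simp only [mul_10, mul_11, HA_00, HA_01, HA_10, HA_11, E21, mk4_00, mk4_01, mk4_10, mk4_11,
      inv_inv]
    linear_combination -hi

end PE_

open PE_

theorem p_PE (h0 : T_U0) (he : T_EPS) : T_PE := by
  intro D _ x
  obtain ⟨ε, hε⟩ := he D
  have hne : ii D (ε : AA D) ^ 2 - 1 ≠ 0 := by
    intro h
    apply hε
    apply ii_inj D
    rw [map_pow, map_one]
    exact sub_eq_zero.mp h
  obtain ⟨y, hy⟩ : ∃ y : KK D, (ii D (ε : AA D) ^ 2 - 1) * y = x :=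
    ⟨x / (ii D (ε : AA D) ^ 2 - 1), mul_div_cancel₀ x hne⟩
  obtain ⟨n, hn, a, ha⟩ := denom y
  have hn2 : 0 < n ^ 2 := by positivity
  have ha' : (n : KK D) * (-y) = ii D (-a) := by rw [map_neg, ← ha]; ring
  have t1 : TV (HA ε) := fun q hq hDq γ hγ => h0 D q hq hDq ε γ hγ
  have t2 : TV (HA ε)⁻¹ := fun q hq hDq γ hγ => by
    rw [HA_inv]
    exact h0 D q hq hDq ε⁻¹ γ hγ
  refine ⟨?_, ?_⟩
  · rw [comm12 ε x y hy]
    refine core (HA_mem ε) t1 t2 hn2 (fun q γ hγ => conj12 ha hγ) fun q γ hγ => ?_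
    have := conj12 ha' hγ
    rwa [← E12_inv, inv_inv] at this
  · rw [comm21 ε x y hy]
    refine core (inv_mem (HA_mem ε)) t2 (by rwa [inv_inv]) hn2 (fun q γ hγ => conj21 ha hγ)
      fun q γ hγ => ?_
    have := conj21 ha' hγ
    rwa [← E21_inv, inv_inv] at this

end K3S
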