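import Pool.Agent.K3S.TargetsA

/-!
# K3S: the target PG

All of `SL₂(K)` acts trivially on the limit of the groups `Gam q / UU q`.
-/

set_option autoImplicit false
set_option linter.unusedSectionVars false
set_option linter.unusedSimpArgs false

namespace K3S

open Matrix

namespace PG_

theorem PP_mul {D : ℤ} [NS D] {g g' : GG D} (h : PP g) (h' : PP g') : PP (g * g') := by
  intro q hq hD
  obtain ⟨q₁, hq1, hqq, H⟩ := h q hq hD
  obtain ⟨q₂, hq2, hqq2, H'⟩ := h' q₁ hq1 (hD.trans hqq)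
  refine ⟨q₂, hq2, hqq.trans hqq2, ?_⟩
  intro γ hγ
  obtain ⟨k1, k2⟩ := H' γ hγ
  have hγ1 : γ ∈ (Gam q₁ : Subgroup (GG D)) := Gam_mono hqq2 hγ
  obtain ⟨l1, l2⟩ := H γ hγ1
  have m1 : g * (g' * γ * g'⁻¹) * g⁻¹ ∈ (Gam q : Subgroup (GG D)) := (H _ k1).1
  have m2 : g * (g' * γ * g'⁻¹ * γ⁻¹) * g⁻¹ ∈ (UU q : Subgroup (GG D)) :=
    UU_conj g (fun δ hδ ↦ (H δ hδ).1) k2
  constructor
  · have e : g * g' * γ * (g * g')⁻¹ = g * (g' * γ * g'⁻¹) * g⁻¹ := by group
    rw [e]
    exact m1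
  · have e : g * g' * γ * (g * g')⁻¹ * γ⁻¹
        = (g * (g' * γ * g'⁻¹ * γ⁻¹) * g⁻¹) * (g * γ * g⁻¹ * γ⁻¹) := by group
    rw [e]
    exact mul_mem m2 l2

theorem decomp {D : ℤ} [NS D] (g : GG D) (hc : pc g ≠ 0) :
    g = E12 ((pa g - 1) / pc g) * E21 (pc g) * E12 ((pd g - 1) / pc g) := by
  have hdet := gg_det g
  apply gg_ext
  · simp only [E12, E21, mul_00, mul_01, mul_10, mul_11, mk4_00, mk4_01, mk4_10, mk4_11]
    field_simp
    ring
  · simp only [E12, E21, mul_00, mul_01, mul_10, mul_11, mk4_00, mk4_01, mk4_10, mk4_11]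
    field_simp
    linear_combination -hdet
  · simp only [E12, E21, mul_00, mul_01, mul_10, mul_11, mk4_00, mk4_01, mk4_10, mk4_11]
    ring
  · simp only [E12, E21, mul_00, mul_01, mul_10, mul_11, mk4_00, mk4_01, mk4_10, mk4_11]
    field_simp
    ring

theorem PP_of_ne (hPE : T_PE) {D : ℤ} [NS D] (g : GG D) (hc : pc g ≠ 0) : PP g := by
  rw [decomp g hc]
  exact PP_mul (PP_mul (hPE D _).1 (hPE D _).2) (hPE D _).1

end PG_

open PG_ in
/-- **PG** -/
theorem p_PG (hPE : T_PE) : T_PG := by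
  intro D _ g
  by_cases hc : pc g = 0
  · have hdet := gg_det g
    rw [hc, mul_zero, sub_zero] at hdet
    have hd : pd g ≠ 0 := by
      intro h0
      rw [h0, mul_zero] at hdet
      exact zero_ne_one hdet
    have h1 : pc (g * E21 1) ≠ 0 := by
      rw [mul_10, hc]
      simpa [E21] using hd
    have h2 : g = (g * E21 1) * E21 (-1) := by
      apply gg_ext
      · simp only [E21, mul_00, mul_01, mul_10, mul_11, mk4_00, mk4_01, mk4_10, mk4_11]
        ring
      · simp only [E21, mul_00, mul_01, mul_10, mul_11, mk4_00, mk4_01, mk4_10, mk4_11]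
        ring
      · simp only [E21, mul_00, mul_01, mul_10, mul_11, mk4_00, mk4_01, mk4_10, mk4_11]
        ring
      · simp only [E21, mul_00, mul_01, mul_10, mul_11, mk4_00, mk4_01, mk4_10, mk4_11]
        ring
    rw [h2]
    exact PP_mul (PP_of_ne hPE _ h1) (hPE D _).2
  · exact PP_of_ne hPE g hc

end K3S
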