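import Pool.Agent.K3S.TargetsA

/-!
# K3S.POW: the power of a square class (helper53)
-/

set_option autoImplicit false
set_option linter.unusedSectionVars false

namespace K3S

open Matrix

namespace POW_

variable {D : ℤ} [NS D]

/-- conjugation by `diag(1, -1)` -/
def sg : GG D →* GG D where
  toFun g := mk4 (pa g) (-pb g) (-pc g) (pd g) (by have := gg_det g; linear_combination this)
  map_one' := by apply gg_ext <;> simp [one_00, one_01, one_10, one_11]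
  map_mul' x y := by
    apply gg_ext <;>
      simp only [mk4_00, mk4_01, mk4_10, mk4_11, mul_00, mul_01, mul_10, mul_11] <;> ring

theorem sg_00 (g : GG D) : pa (sg g) = pa g := rfl
theorem sg_01 (g : GG D) : pb (sg g) = -pb g := rfl
theorem sg_10 (g : GG D) : pc (sg g) = -pc g := rfl
theorem sg_11 (g : GG D) : pd (sg g) = pd g := rfl

theorem sg_gam {q : ℤ} {g : GG D} (h : g ∈ (Gam q : Subgroup (GG D))) :
    sg g ∈ (Gam q : Subgroup (GG D)) := by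
  obtain ⟨h1, h2, h3, h4⟩ := h
  exact ⟨h1, h2.neg, h3.neg, h4⟩

theorem sg_uu {q : ℤ} {g : GG D} (h : g ∈ (UU q : Subgroup (GG D))) :
    sg g ∈ (UU q : Subgroup (GG D)) := by
  have h1 : (UU q : Subgroup (GG D)) ≤ (UU q).comap sg := by
    rw [UU, Subgroup.closure_le]
    rintro v ⟨hv, hv'⟩
    exact Subgroup.subset_closure ⟨sg_gam hv, hv'⟩
  exact h1 h

theorem sg_sg (g : GG D) : sg (sg g) = g := by
  apply gg_ext <;> simp [sg_00, sg_01, sg_10, sg_11]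

theorem mulR {q : ℤ} {x y x' y' : GG D} (hx : x ∈ (Gam 1 : Subgroup (GG D)))
    (h : x * y⁻¹ ∈ (UU q : Subgroup (GG D))) (h' : x' * y'⁻¹ ∈ (UU q : Subgroup (GG D))) :
    (x * x') * (y * y')⁻¹ ∈ (UU q : Subgroup (GG D)) := by
  have e : (x * x') * (y * y')⁻¹ = (x * (x' * y'⁻¹) * x⁻¹) * (x * y⁻¹) := by group
  rw [e]
  exact mul_mem (UU_conj_one hx h') h

theorem powR {q : ℤ} {x y : GG D} (hx : x ∈ (Gam 1 : Subgroup (GG D)))
    (h : x * y⁻¹ ∈ (UU q : Subgroup (GG D))) (n : ℕ) :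
    x ^ n * (y ^ n)⁻¹ ∈ (UU q : Subgroup (GG D)) := by
  induction n with
  | zero => simp
  | succ n ih =>
    rw [pow_succ, pow_succ]
    exact mulR (pow_mem hx n) ih h

/-- the class of the row `(a, q)` -/
theorem rowq (hC : T_COM) {q : ℤ} (hq : 0 < q) (h4 : 4 * D ∣ q) (x : AA D) (γ : GG D)
    (hγ : γ ∈ (Gam q : Subgroup (GG D))) (ha : pa γ = ii D (1 + (q : AA D) * x))
    (hb : pb γ = ii D (q : AA D)) : γ ∈ (UU q : Subgroup (GG D)) := by
  obtain ⟨g, hgd⟩ : ∃ g : GG D, g = E21 (ii D x) := ⟨_, rfl⟩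
  have hg : g ∈ (Gam 1 : Subgroup (GG D)) := by
    rw [hgd]
    exact UU_le 1 (E21_mem ⟨x, by simp⟩)
  have h1 : g * γ * g⁻¹ * γ⁻¹ ∈ (UU q : Subgroup (GG D)) := hC D q hq h4 g hg γ hγ
  have hE : E12 (ii D (q : AA D)) ∈ (UU q : Subgroup (GG D)) := E12_mem ⟨1, by simp⟩
  have h2 : g * γ * g⁻¹ ∈ (Gam q : Subgroup (GG D)) := Gam_conj hg hγ
  have h3 : E12 (ii D (q : AA D)) * (g * γ * g⁻¹)⁻¹ ∈ (UU q : Subgroup (GG D)) := by
    refine row h2 (UU_le q hE) ?_ ?_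
    · rw [hgd]
      simp only [mul_00, mul_01, inv_00, inv_10, E21, E12, mk4_00, mk4_01, mk4_10, mk4_11, ha, hb,
        map_add, map_mul, map_one]
      ring
    · rw [hgd]
      simp only [mul_00, mul_01, inv_01, inv_11, E21, E12, mk4_00, mk4_01, hb]
      ring
  have h5 : g * γ * g⁻¹ ∈ (UU q : Subgroup (GG D)) := by
    have e : g * γ * g⁻¹ = (E12 (ii D (q : AA D)) * (g * γ * g⁻¹)⁻¹)⁻¹ *
      E12 (ii D (q : AA D)) := by group
    rw [e]
    exact mul_mem (inv_mem h3) hE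
  have e : γ = (g * γ * g⁻¹ * γ⁻¹)⁻¹ * (g * γ * g⁻¹) := by group
  rw [e]
  exact mul_mem (inv_mem h1) h5

theorem pos (hS : T_SM) (hC : T_COM) (hE : T_EXG) (hF : T_FROB) (q : ℤ) (hq : 0 < q)
    (h4 : 4 * D ∣ q) (p : ℕ) (g : AA D) (hp : p.Prime) (hqp : q ∣ (p : ℤ) + 1)
    (hc : IsCoprime (p : AA D) g) (γ : GG D) (hγ : γ ∈ (Gam q : Subgroup (GG D)))
    (ha : pa γ = -(p : KK D)) (hb : pb γ = ii D ((q : AA D) * g ^ 2)) :
    γ ^ ((p - 1) / 2) ∈ (UU q : Subgroup (GG D)) := by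
  have hD : 0 < D := NS.pos
  have h4p : 4 * D ∣ (p : ℤ) + 1 := h4.trans hqp
  obtain ⟨m, hm⟩ := hqp
  have hmA : (p : AA D) + 1 = (q : AA D) * (m : AA D) := by
    have := congrArg (Int.cast : ℤ → AA D) hm
    push_cast at this
    exact this
  have hgq : IsCoprime (p : AA D) (q : AA D) := ⟨-1, m, by linear_combination -hmA⟩
  have hodd : 2 * ((p - 1) / 2) = p - 1 := by
    have h5 : (4 : ℤ) ∣ (p : ℤ) + 1 := (dvd_mul_right 4 D).trans h4p
    omega
  have hg0 : g ≠ 0 := by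
    rintro rfl
    rw [isCoprime_zero_right] at hc
    have h5 : ((p : ℤ) : AA D) ∣ 1 := by
      rw [Int.cast_natCast]
      exact hc.dvd
    rw [Zsqrtd.intCast_dvd] at h5
    have h6 : (p : ℤ) ∣ 1 := by simpa using h5.1
    have h7 : p ∣ 1 := by exact_mod_cast h6
    exact hp.one_lt.ne' (Nat.dvd_one.1 h7)
  obtain ⟨a, had⟩ : ∃ a : AA D, a = -(p : AA D) := ⟨_, rfl⟩
  have hax : a = 1 + (q : AA D) * (-(m : AA D)) := by
    rw [had]; linear_combination -hmA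
  have hda : (q : AA D) ∣ a - 1 := ⟨-(m : AA D), by rw [hax]; ring⟩
  have hcg : IsCoprime a g := by rw [had]; exact hc.neg_left
  have hcq : IsCoprime a (q : AA D) := by rw [had]; exact hgq.neg_left
  have hcj : ∀ j : ℕ, IsCoprime a ((q : AA D) * g ^ (2 * j)) := fun j =>
    hcq.mul_right hcg.pow_right
  have hex : ∀ j : ℕ, ∃ δ ∈ (Gam q : Subgroup (GG D)), pa δ = ii D a ∧
      pb δ = ii D ((q : AA D) * g ^ (2 * j)) := by
    intro j
    obtain ⟨δ, h1, h2, h3, _⟩ := hE D q a ((q : AA D) * g ^ (2 * j)) 1 hda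
      (dvd_mul_right _ _) (hcj j) isCoprime_one_right
    exact ⟨δ, h1, h2, h3⟩
  choose δ hδ hδa hδb using hex
  have hstep : ∀ j, δ (j + 1) * (δ j * δ 1)⁻¹ ∈ (UU q : Subgroup (GG D)) := fun j =>
    hS D q hq h4 a ((q : AA D) * g ^ (2 * j)) g hda (dvd_mul_right _ _) (hcj j) hcg hg0
      (δ j) (hδ j) (δ 1) (hδ 1) (δ (j + 1)) (hδ (j + 1)) (hδa j) (hδa 1) (hδa (j + 1)) (hδb j)
      (by rw [hδb 1, mul_one]) (by rw [hδb (j + 1)]; congr 1; ring)
  have h0 : δ 0 ∈ (UU q : Subgroup (GG D)) := by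
    refine rowq hC hq h4 (-(m : AA D)) (δ 0) (hδ 0) ?_ ?_
    · rw [hδa 0, hax]
    · rw [hδb 0]; simp
  have hj : ∀ j, δ j * (δ 1 ^ j)⁻¹ ∈ (UU q : Subgroup (GG D)) := by
    intro j
    induction j with
    | zero => simpa using h0
    | succ j ih =>
      have e : δ (j + 1) * (δ 1 ^ (j + 1))⁻¹ =
          (δ (j + 1) * (δ j * δ 1)⁻¹) * (δ j * (δ 1 ^ j)⁻¹) := by
        rw [pow_succ]; group
      rw [e]
      exact mul_mem (hstep j) ih
  obtain ⟨k, hk⟩ : ∃ k, k = (p - 1) / 2 := ⟨_, rfl⟩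
  rw [← hk] at hodd ⊢
  obtain ⟨w, hw⟩ : (p : AA D) ∣ g ^ (p - 1) - 1 := by
    refine hc.dvd_of_dvd_mul_left ?_
    have h5 := hF D p hD hp h4p g
    have h6 : g * (g ^ (p - 1) - 1) = g ^ p - g := by
      have h7 : g ^ p = g * g ^ (p - 1) := by
        rw [← pow_succ', Nat.sub_add_cancel hp.one_lt.le]
      rw [h7]; ring
    rw [h6]
    exact h5
  have hdk : δ k ∈ (UU q : Subgroup (GG D)) := by
    have hE' : E12 (ii D ((q : AA D) * w)) ∈ (UU q : Subgroup (GG D)) := E12_mem ⟨w, rfl⟩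
    have h5 : δ k * E12 (ii D ((q : AA D) * w)) ∈ (UU q : Subgroup (GG D)) := by
      refine rowq hC hq h4 (-(m : AA D)) _ (mul_mem (hδ k) (UU_le q hE')) ?_ ?_
      · rw [← hax, mul_00, hδa k]
        simp [E12]
      · rw [mul_01, hδa k, hδb k]
        simp only [E12, mk4_01, mk4_11]
        rw [mul_one, ← map_mul, ← map_add]
        congr 1
        rw [hodd, had]
        linear_combination (q : AA D) * hw
    have e : δ k = δ k * E12 (ii D ((q : AA D) * w)) * (E12 (ii D ((q : AA D) * w)))⁻¹ := by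
      group
    rw [e]
    exact mul_mem h5 (inv_mem hE')
  have h1k : δ 1 ^ k ∈ (UU q : Subgroup (GG D)) := by
    have e : δ 1 ^ k = (δ k * (δ 1 ^ k)⁻¹)⁻¹ * δ k := by group
    rw [e]
    exact mul_mem (inv_mem (hj k)) hdk
  have hr : γ * (δ 1)⁻¹ ∈ (UU q : Subgroup (GG D)) := by
    refine row (hδ 1) hγ ?_ ?_
    · rw [hδa 1, ha, had]; simp
    · rw [hδb 1, hb, mul_one]
  have hpw := powR (Gam_mono (one_dvd q) hγ) hr k
  have e : γ ^ k = γ ^ k * (δ 1 ^ k)⁻¹ * δ 1 ^ k := by group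
  rw [e]
  exact mul_mem hpw h1k

end POW_

open POW_ in
theorem p_POW (h1 : T_SM) (h2 : T_COM) (h3 : T_EXG) (h4 : T_FROB) : T_POW := by
  intro D _ q hq h4q p g hp hqp hc γ hγ ha hb
  rcases hb with hb | hb
  · exact pos h1 h2 h3 h4 q hq h4q p g hp hqp hc γ hγ ha hb
  · have h5 := sg_uu (pos h1 h2 h3 h4 q hq h4q p g hp hqp hc (sg γ) (sg_gam hγ)
      (by rw [sg_00, ha]) (by rw [sg_01, hb, neg_neg]))
    rwa [map_pow, sg_sg] at h5

end K3S
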