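import Pool.Agent.K3S.TargetsA

set_option autoImplicit false
set_option linter.unusedSectionVars false

namespace K3S

open Matrix

namespace PR_

/-- an integer prime is not a unit of `A` -/
theorem not_unit {D : ℤ} {p : ℕ} (hp : p.Prime) : ¬ IsUnit (((p : ℤ)) : AA D) := by
  intro h
  obtain ⟨c, hc⟩ := h.exists_right_inv
  have h1 := congrArg Zsqrtd.re hc
  rw [Zsqrtd.re_mul, Zsqrtd.re_intCast, Zsqrtd.im_intCast, Zsqrtd.re_one] at h1
  have h2 : ((p : ℕ) : ℤ) ∣ 1 := ⟨c.re, by linarith⟩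
  have h3 : p ∣ 1 := by exact_mod_cast h2
  exact hp.one_lt.ne' (Nat.dvd_one.mp h3)

/-- the case `N₀ ≠ 0` -/
theorem main {D : ℤ} (a b : AA D) (hab : IsCoprime a b)
    (hN : b.re * a.im - b.im * a.re ≠ 0) :
    ∃ j : ℤ, IsCoprime (b + (j : AA D) * a).re (b + (j : AA D) * a).im := by
  classical
  set N := b.re * a.im - b.im * a.re with hNd
  let F := N.natAbs.primeFactors.filter (fun p : ℕ => ¬ ((p : ℤ) ∣ b.re ∧ (p : ℤ) ∣ b.im))
  let j : ℕ := ∏ p ∈ F, p
  refine ⟨(j : ℤ), ?_⟩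
  have hre : (b + ((j : ℤ) : AA D) * a).re = b.re + j * a.re := by
    rw [Zsqrtd.re_add, Zsqrtd.re_mul, Zsqrtd.re_intCast, Zsqrtd.im_intCast]
    ring
  have him : (b + ((j : ℤ) : AA D) * a).im = b.im + j * a.im := by
    rw [Zsqrtd.im_add, Zsqrtd.im_mul, Zsqrtd.re_intCast, Zsqrtd.im_intCast]
    ring
  rw [hre, him, Int.isCoprime_iff_gcd_eq_one]
  by_contra hg
  obtain ⟨p, hp, hpg⟩ := Nat.exists_prime_and_dvd hg
  have h1 : (p : ℤ) ∣ b.re + j * a.re :=
    (Int.natCast_dvd_natCast.mpr hpg).trans (Int.gcd_dvd_left _ _)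
  have h2 : (p : ℤ) ∣ b.im + j * a.im :=
    (Int.natCast_dvd_natCast.mpr hpg).trans (Int.gcd_dvd_right _ _)
  have h3 : (p : ℤ) ∣ N := by
    have : N = (b.re + j * a.re) * a.im - (b.im + j * a.im) * a.re := by
      rw [hNd]; ring
    rw [this]
    exact dvd_sub (h1.mul_right _) (h2.mul_right _)
  have h4 : p ∈ N.natAbs.primeFactors := by
    rw [Nat.mem_primeFactors]
    exact ⟨hp, Int.natCast_dvd.mp h3, Int.natAbs_ne_zero.mpr hN⟩
  by_cases hb : (p : ℤ) ∣ b.re ∧ (p : ℤ) ∣ b.im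
  · have hj : ¬ p ∣ j := by
      intro hj
      obtain ⟨q, hq, hpq⟩ := (Nat.Prime.prime hp).exists_mem_finset_dvd hj
      have hq' := Finset.mem_filter.mp hq
      have hqp := (Nat.mem_primeFactors.mp hq'.1).1
      have : p = q := (Nat.prime_dvd_prime_iff_eq hp hqp).mp hpq
      subst this
      exact hq'.2 hb
    have hpz : Prime (p : ℤ) := Nat.prime_iff_prime_int.mp hp
    have hjz : ¬ (p : ℤ) ∣ (j : ℤ) := fun h => hj (Int.natCast_dvd_natCast.mp h)
    have h5 : (p : ℤ) ∣ a.re := by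
      have : (p : ℤ) ∣ (j : ℤ) * a.re := by
        have := dvd_sub h1 hb.1
        rwa [add_sub_cancel_left] at this
      exact (hpz.dvd_or_dvd this).resolve_left hjz
    have h6 : (p : ℤ) ∣ a.im := by
      have : (p : ℤ) ∣ (j : ℤ) * a.im := by
        have := dvd_sub h2 hb.2
        rwa [add_sub_cancel_left] at this
      exact (hpz.dvd_or_dvd this).resolve_left hjz
    have h7 : (((p : ℤ)) : AA D) ∣ a := (Zsqrtd.intCast_dvd _ _).mpr ⟨h5, h6⟩
    have h8 : (((p : ℤ)) : AA D) ∣ b := (Zsqrtd.intCast_dvd _ _).mpr hb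
    exact not_unit hp (hab.isUnit_of_dvd' h7 h8)
  · have hF : p ∈ F := Finset.mem_filter.mpr ⟨h4, hb⟩
    have hj : (p : ℤ) ∣ (j : ℤ) := Int.natCast_dvd_natCast.mpr (Finset.dvd_prod_of_mem _ hF)
    apply hb
    constructor
    · have := dvd_sub h1 (hj.mul_right a.re)
      rwa [add_sub_cancel_right] at this
    · have := dvd_sub h2 (hj.mul_right a.im)
      rwa [add_sub_cancel_right] at this

/-- the norm of a nonzero element -/
theorem norm_ne {D : ℤ} [h : NS D] (a : AA D) (ha : a ≠ 0) : D * a.im ^ 2 - a.re ^ 2 ≠ 0 := by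
  intro h0
  apply ha
  have h1 : a.re ^ 2 = D * a.im ^ 2 := by linarith
  have him : a.im = 0 := by
    by_contra him
    apply h.nsq
    have h2 : a.im ^ 2 ∣ a.re ^ 2 := ⟨D, by rw [h1]; ring⟩
    have h3 : a.im ∣ a.re := (Int.pow_dvd_pow_iff two_ne_zero).mp h2
    obtain ⟨c, hc⟩ := h3
    refine ⟨c, ?_⟩
    rw [hc] at h1
    have h4 : a.im ^ 2 * (c * c) = a.im ^ 2 * D := by linear_combination h1
    exact (mul_left_cancel₀ (pow_ne_zero 2 him) h4).symm
  have hre : a.re = 0 := by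
    rw [him] at h1
    simpa using h1
  exact Zsqrtd.ext hre him

end PR_

theorem p_PR : T_PR := by
  intro D _ a b hab
  by_cases ha : a = 0
  · subst ha
    refine ⟨0, ?_⟩
    obtain ⟨c, hc⟩ := (isCoprime_zero_left.mp hab).exists_right_inv
    have h1 := congrArg Zsqrtd.re hc
    rw [Zsqrtd.re_mul, Zsqrtd.re_one] at h1
    rw [mul_zero, add_zero]
    exact ⟨c.re, D * c.im, by linear_combination h1⟩
  · by_cases hN : b.re * a.im - b.im * a.re = 0
    · have h1 : IsCoprime a (b + Zsqrtd.sqrtd * a) := hab.add_mul_right_right _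
      have h2 : (b + Zsqrtd.sqrtd * a).re * a.im - (b + Zsqrtd.sqrtd * a).im * a.re ≠ 0 := by
        have h3 := PR_.norm_ne a ha
        intro h4
        apply h3
        rw [Zsqrtd.re_add, Zsqrtd.im_add, Zsqrtd.re_mul, Zsqrtd.im_mul, Zsqrtd.re_sqrtd,
          Zsqrtd.im_sqrtd] at h4
        linear_combination h4 - hN
      obtain ⟨j, hj⟩ := PR_.main a _ h1 h2
      refine ⟨Zsqrtd.sqrtd + (j : AA D), ?_⟩
      rw [add_mul, ← add_assoc]
      exact hj
    · obtain ⟨j, hj⟩ := PR_.main a b hab hN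
      exact ⟨_, hj⟩

end K3S
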