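import Pool.Agent.K3S.TargetsA

/-!
# MP_98be90_ag, part A, target RAT: a representative with an integral corner
-/

set_option autoImplicit false

namespace K3S

open Matrix

namespace RAT_

variable {D : ℤ} [NS D]

/-- the determinant of a matrix with entries in `A` gives coprime entries of the first row -/
theorem coprime_row {g : GG D} (hg : g ∈ (Gam 1 : Subgroup (GG D))) {a b : AA D}
    (ha : pa g = ii D a) (hb : pb g = ii D b) : IsCoprime a b := by
  obtain ⟨_, _, c, d, _, _, hc, hd⟩ := Gam_one_entries hg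
  have h := gg_det g
  rw [ha, hb, hc, hd, ← map_mul, ← map_mul, ← map_sub, ← map_one (ii D)] at h
  have h1 := ii_inj D h
  exact ⟨d, -c, by linear_combination h1⟩

end RAT_

theorem p_RAT (hSA : T_SA) (hPR : T_PR) : T_RAT := by
  intro D _ q hq γ hγ
  have hq5 : (0 : ℤ) < q ^ 5 := by positivity
  obtain ⟨u, hu, hγ1⟩ := hSA D q (q ^ 5) hq hq5 (Dvd.intro_left (q ^ 4) (by ring)) γ hγ
  obtain ⟨γ₁, hγ₁⟩ : ∃ g : GG D, g = u * γ := ⟨_, rfl⟩
  rw [← hγ₁] at hγ1
  obtain ⟨⟨x, hx⟩, ⟨y, hy⟩, -, -⟩ := id hγ1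
  have hone1 : γ₁ ∈ (Gam 1 : Subgroup (GG D)) := Gam_mono (one_dvd _) hγ1
  -- the first row
  have ha : pa γ₁ = ii D (1 + (q : AA D) ^ 5 * x) := by
    rw [map_add, map_one]
    push_cast at hx
    rw [← hx]
    ring
  set a : AA D := 1 + (q : AA D) ^ 5 * x with ha_def
  have hb : pb γ₁ = ii D ((q : AA D) ^ 5 * y) := by
    push_cast at hy
    exact hy
  have hcop := RAT_.coprime_row hone1 ha hb
  have hcop1 : IsCoprime a ((q : AA D) ^ 3 * y) := by
    refine IsCoprime.of_mul_right_right (y := (q : AA D) ^ 2) ?_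
    rw [show (q : AA D) ^ 2 * ((q : AA D) ^ 3 * y) = (q : AA D) ^ 5 * y by ring]
    exact hcop
  have hcop2 : IsCoprime a ((q : AA D) ^ 3 * y + a) := by
    have := hcop1.add_mul_left_right 1
    rwa [mul_one] at this
  obtain ⟨t, ht⟩ := hPR D a ((q : AA D) ^ 3 * y + a) hcop2
  set b₀ : AA D := (q : AA D) ^ 3 * y + a + t * a with hb₀
  obtain ⟨r, s, hrs⟩ := ht
  -- the moves
  set t₀ : AA D := ⟨-q ^ 2 * x.im * s, -q ^ 2 * x.im * r⟩ with ht₀
  set E : GG D := E12 (ii D ((q : AA D) ^ 2 * (1 + t))) * E21 (ii D ((q : AA D) * t₀)) with hE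
  have hEU : E ∈ (UU q : Subgroup (GG D)) := by
    refine mul_mem (E12_mem ?_) (E21_mem ?_)
    · rw [jd_iff]
      exact ⟨(q : AA D) * (1 + t), by ring⟩
    · rw [jd_iff]
      exact ⟨t₀, rfl⟩
  have hγq1 : γ₁ ∈ (Gam q : Subgroup (GG D)) := Gam_mono (Dvd.intro_left (q ^ 4) (by ring)) hγ1
  have hγ3 : γ₁ * E ∈ (Gam q : Subgroup (GG D)) := mul_mem hγq1 (UU_le q hEU)
  refine ⟨γ₁ * E, hγ3, ?_, ?_⟩
  · have e : γ₁ * E * γ⁻¹ = u * (γ * E * γ⁻¹) := by
      rw [hγ₁]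
      group
    rw [e]
    exact mul_mem hu (UU_conj_one (Gam_mono (one_dvd _) hγ) hEU)
  · have hpb : pb (γ₁ * E) = ii D ((q : AA D) ^ 2 * b₀) := by
      rw [hE, ← mul_assoc, mul_01, mul_01, ha, hb]
      simp only [E12, E21, mk4_01, mk4_11, mul_zero, zero_add, mul_one]
      rw [← map_mul, ← map_add]
      congr 1
      rw [hb₀]
      ring
    have hpa : pa (γ₁ * E) = ii D (a + (q : AA D) ^ 3 * (t₀ * b₀)) := by
      rw [hE, ← mul_assoc, mul_00, mul_00, mul_01, ha, hb]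
      simp only [E12, E21, mk4_00, mk4_01, mk4_10, mk4_11, mul_zero, add_zero, mul_one]
      rw [← map_mul, ← map_add, ← map_mul, ← map_add]
      congr 1
      rw [hb₀]
      ring
    have him : (a + (q : AA D) ^ 3 * (t₀ * b₀)).im = 0 := by
      have e5 : (q : AA D) ^ 5 = ((q ^ 5 : ℤ) : AA D) := by push_cast; rfl
      have e3 : (q : AA D) ^ 3 = ((q ^ 3 : ℤ) : AA D) := by push_cast; rfl
      rw [ha_def, e5, e3]
      simp only [Zsqrtd.im_add, Zsqrtd.im_one, Zsqrtd.im_mul, Zsqrtd.im_intCast,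
        Zsqrtd.re_intCast, zero_mul, add_zero, zero_add, ht₀]
      linear_combination (-q ^ 5 * x.im) * hrs
    have hre : q ^ 3 ∣ (a + (q : AA D) ^ 3 * (t₀ * b₀)).re - 1 := by
      have e5 : (q : AA D) ^ 5 = ((q ^ 5 : ℤ) : AA D) := by push_cast; rfl
      have e3 : (q : AA D) ^ 3 = ((q ^ 3 : ℤ) : AA D) := by push_cast; rfl
      rw [ha_def, e5, e3]
      refine ⟨q ^ 2 * x.re + (t₀ * b₀).re, ?_⟩
      simp only [Zsqrtd.re_add, Zsqrtd.re_one, Zsqrtd.re_mul, Zsqrtd.im_intCast,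
        Zsqrtd.re_intCast, zero_mul, mul_zero, add_zero]
      ring
    set m : ℤ := (a + (q : AA D) ^ 3 * (t₀ * b₀)).re with hm
    have hmA : a + (q : AA D) ^ 3 * (t₀ * b₀) = (m : AA D) := by
      apply Zsqrtd.ext
      · rw [Zsqrtd.re_intCast, hm]
      · rw [Zsqrtd.im_intCast, him]
    have hpa' : pa (γ₁ * E) = ii D (m : AA D) := by rw [hpa, hmA]
    refine ⟨m, b₀, by rw [hpa', ii_intCast], hpb, hre, ?_⟩
    exact IsCoprime.of_mul_right_right
      (RAT_.coprime_row (Gam_mono (one_dvd _) hγ3) hpa' hpb)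

end K3S
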