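import Pool.Agent.K3S.TargetsA

/-!
# K3S, target SA: strong approximation, `Gam q = UU q * Gam q'`
-/

set_option autoImplicit false

namespace K3S

open Matrix

namespace SA_

/-- it is enough to move `γ` into `Gam q'` by multiplications from both sides -/
theorem two_sided {D : ℤ} [NS D] {q q' : ℤ} {γ u₁ u₂ : GG D}
    (hγ : γ ∈ (Gam q : Subgroup (GG D)))
    (h₁ : u₁ ∈ (UU q : Subgroup (GG D))) (h₂ : u₂ ∈ (UU q : Subgroup (GG D)))
    (h : u₁ * γ * u₂ ∈ (Gam q' : Subgroup (GG D))) :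
    ∃ u ∈ (UU q : Subgroup (GG D)), u * γ ∈ (Gam q' : Subgroup (GG D)) := by
  refine ⟨u₁ * (γ * u₂ * γ⁻¹), mul_mem h₁ (UU_conj_one (Gam_mono (one_dvd q) hγ) h₂), ?_⟩
  have h3 : u₁ * (γ * u₂ * γ⁻¹) * γ = u₁ * γ * u₂ := by group
  rwa [h3]

/-- the matrix `(x, 1 - x; x - 1, 2 - x)` -/
def kap {D : ℤ} [NS D] (x : KK D) : GG D := mk4 x (1 - x) (x - 1) (2 - x) (by ring)

theorem kap_mem {D : ℤ} [NS D] {q : ℤ} {x : KK D} (hx : Jd q (x - 1)) :
    kap x ∈ (UU q : Subgroup (GG D)) := by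
  refine Subgroup.subset_closure ⟨⟨hx, ?_, hx, ?_⟩, ?_⟩
  · simp only [kap, mk4_01]
    rw [← neg_sub]
    exact hx.neg
  · simp only [kap, mk4_11]
    rw [show (2 - x - 1 : KK D) = -(x - 1) by ring]
    exact hx.neg
  · simp only [kap, mk4_00, mk4_11]
    ring

/-- the case of an upper left entry which is a unit modulo `q'` -/
theorem unit_case {D : ℤ} [NS D] {q q' : ℤ} {γ : GG D}
    (hγ : γ ∈ (Gam q : Subgroup (GG D))) {a : AA D} (ha : pa γ = ii D a)
    (hco : IsCoprime a (q' : AA D)) :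
    ∃ u ∈ (UU q : Subgroup (GG D)), u * γ ∈ (Gam q' : Subgroup (GG D)) := by
  obtain ⟨_, b, c, d, -, hb, hc, hd⟩ := Gam_one_entries (Gam_mono (one_dvd q) hγ)
  obtain ⟨e, r, hr⟩ := hco
  have hr' : ii D e * ii D a + ii D r * ii D (q' : AA D) = 1 := by
    rw [← map_mul, ← map_mul, ← map_add, hr, map_one]
  have hdet := gg_det γ
  rw [ha, hb, hc, hd] at hdet
  obtain ⟨k1, k2, k3, k4⟩ := hγ
  rw [ha] at k1
  rw [hb] at k2
  rw [hc] at k3
  have hγ' : γ ∈ (Gam q : Subgroup (GG D)) := ⟨by rwa [ha], by rwa [hb], by rwa [hc], k4⟩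
  have m1 : E12 ((ii D a - 1) * ii D e) ∈ (UU q : Subgroup (GG D)) := E12_mem (k1.mul_ii e)
  have m2 : E12 (-(ii D b * ii D e)) ∈ (UU q : Subgroup (GG D)) := E12_mem (k2.mul_ii e).neg
  have m3 : E21 (-((ii D c - (ii D a - 1)) * ii D a)) ∈ (UU q : Subgroup (GG D)) :=
    E21_mem ((k3.sub k1).mul_ii a).neg
  refine two_sided hγ' (mul_mem m3 (inv_mem (mul_mem (kap_mem k1) m1))) m2 ?_
  refine ⟨⟨-(r * (a - 1) * (a - 1 - c)), ?_⟩,
    ⟨r * (((a - 1) ^ 2 * e + 2 - a) * b + (a - 1) * (d - c * b * e)), ?_⟩,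
    ⟨(c - (a - 1)) * a * r * (a - 1) * (a - 1 - c), ?_⟩,
    ⟨r * (b * (c - a + 1) - (c - (a - 1)) * a *
      (((a - 1) ^ 2 * e + 2 - a) * b + (a - 1) * (d - c * b * e))), ?_⟩⟩
  all_goals
    simp only [kap, E12, E21, mk4_00, mk4_01, mk4_10, mk4_11, mul_00, mul_01, mul_10, mul_11,
      inv_00, inv_01, inv_10, inv_11, ha, hb, hc, hd, map_mul, map_add, map_sub, map_neg, map_pow,
      map_one, map_ofNat]
  · linear_combination (ii D a - 1) * (ii D a - 1 - ii D c) * hr'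
  · linear_combination (-(((ii D a - 1) ^ 2 * ii D e + 2 - ii D a) * ii D b +
      (ii D a - 1) * (ii D d - ii D c * ii D b * ii D e))) * hr'
  · linear_combination (-((ii D c - (ii D a - 1)) * ii D a * (ii D a - 1) *
      (ii D a - 1 - ii D c))) * hr'
  · linear_combination hdet - (ii D b * (ii D c - ii D a + 1) - (ii D c - (ii D a - 1)) * ii D a *
      (((ii D a - 1) ^ 2 * ii D e + 2 - ii D a) * ii D b +
      (ii D a - 1) * (ii D d - ii D c * ii D b * ii D e))) * hr'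

end SA_

open SA_ in
theorem p_SA (hSR : T_SR) : T_SA := by
  intro D _ q q' hq hq' hqq γ hγ
  obtain ⟨a, b, c, d, ha, hb, hc, hd⟩ := Gam_one_entries (Gam_mono (one_dvd q) hγ)
  have hdet := gg_det γ
  rw [ha, hb, hc, hd, ← map_mul, ← map_mul, ← map_sub, ← map_one (ii D)] at hdet
  have hdet' := ii_inj D hdet
  have hab : IsCoprime a b := ⟨d, -c, by linear_combination hdet'⟩
  have hqa : (q : AA D) ∣ a - 1 := by
    have h1 := hγ.1
    rw [ha, ← map_one (ii D), ← map_sub] at h1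
    exact (jd_iff _).1 h1
  obtain ⟨t, ht⟩ := hSR D a b (q : AA D) q' hq'.ne' hab hqa
  have hE : E21 (ii D ((q : AA D) * t)) ∈ (UU q : Subgroup (GG D)) := E21_mem ⟨t, rfl⟩
  have hγ1 : γ * E21 (ii D ((q : AA D) * t)) ∈ (Gam q : Subgroup (GG D)) :=
    mul_mem hγ (UU_le q hE)
  have h00 : pa (γ * E21 (ii D ((q : AA D) * t))) = ii D (a + (q : AA D) * t * b) := by
    simp only [E21, mul_00, mk4_00, mk4_10, ha, hb, map_mul, map_add]
    ring
  obtain ⟨u, hu, hu'⟩ := unit_case hγ1 h00 ht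
  rw [← mul_assoc] at hu'
  exact two_sided hγ hu hE hu'

end K3S
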