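import Pool.Agent.K3S.TargetsA

/-! Target SGN: representatives with a given sign. -/

set_option autoImplicit false

namespace K3S

open Matrix

namespace SGN_

/-- the class of `γ` has a representative with first row `(m, q² b)` -/
def St {D : ℤ} [NS D] (q : ℤ) (γ : GG D) (m : ℤ) (b : AA D) : Prop :=
  ∃ γ' ∈ (Gam q : Subgroup (GG D)), γ' * γ⁻¹ ∈ (UU q : Subgroup (GG D)) ∧
    pa γ' = (m : KK D) ∧ pb γ' = ii D ((q : AA D) ^ 2 * b)

theorem step {D : ℤ} [NS D] {q : ℤ} {γ γ₁ u : GG D} (h1 : γ₁ ∈ (Gam q : Subgroup (GG D)))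
    (h2 : γ₁ * γ⁻¹ ∈ (UU q : Subgroup (GG D))) (hu : u ∈ (UU q : Subgroup (GG D))) :
    γ₁ * u ∈ (Gam q : Subgroup (GG D)) ∧ γ₁ * u * γ⁻¹ ∈ (UU q : Subgroup (GG D)) := by
  refine ⟨mul_mem h1 (UU_le q hu), ?_⟩
  have h3 : γ₁ * u * γ⁻¹ = (γ₁ * u * γ₁⁻¹) * (γ₁ * γ⁻¹) := by group
  rw [h3]
  exact mul_mem (UU_conj_one (Gam_mono (one_dvd q) h1) hu) h2

theorem mv12 {D : ℤ} [NS D] {q : ℤ} {γ : GG D} {m : ℤ} {b : AA D} (h : St q γ m b) (t : AA D) :
    St q γ m (b + t * (m : AA D)) := by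
  obtain ⟨γ₁, h1, h2, ha, hb⟩ := h
  have hu : E12 (ii D ((q : AA D) * ((q : AA D) * t))) ∈ (UU q : Subgroup (GG D)) :=
    E12_mem ⟨_, rfl⟩
  obtain ⟨h3, h4⟩ := step h1 h2 hu
  refine ⟨_, h3, h4, ?_, ?_⟩
  · rw [mul_00, ha]
    simp [E12]
  · rw [mul_01, ha, hb]
    simp only [E12, mk4_01, mk4_11, map_mul, map_add, map_pow, map_intCast]
    ring

theorem norm_cast {D : ℤ} (b : AA D) : ((b.norm : ℤ) : AA D) = b * star b :=
  Zsqrtd.norm_eq_mul_conj b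

theorem mv21 {D : ℤ} [NS D] {q : ℤ} {γ : GG D} {m : ℤ} {b : AA D} (h : St q γ m b) (j : ℤ) :
    St q γ (m + q ^ 3 * b.norm * j) b := by
  obtain ⟨γ₁, h1, h2, ha, hb⟩ := h
  have hu : E21 (ii D ((q : AA D) * (star b * (j : AA D)))) ∈ (UU q : Subgroup (GG D)) :=
    E21_mem ⟨_, rfl⟩
  obtain ⟨h3, h4⟩ := step h1 h2 hu
  refine ⟨_, h3, h4, ?_, ?_⟩
  · rw [mul_00, ha, hb]
    have h5 : ((b.norm : ℤ) : KK D) = ii D b * ii D (star b) := by
      rw [← map_mul, ← norm_cast, ii_intCast]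
    push_cast
    rw [h5]
    simp only [E21, mk4_00, mk4_10, map_mul, map_pow, map_intCast]
    ring
  · rw [mul_01, hb]
    simp [E21]

theorem cop_norm {D : ℤ} {m : ℤ} {b : AA D} (h : IsCoprime (m : AA D) b) :
    IsCoprime m b.norm := by
  obtain ⟨u, v, h⟩ := h
  have h1 : (v * b).norm = (1 - u * (m : AA D)).norm := by
    rw [← h]
    congr 1
    ring
  rw [Zsqrtd.norm_mul] at h1
  refine ⟨2 * u.re - m * u.norm, v.norm, ?_⟩
  rw [h1]
  simp only [Zsqrtd.norm_def, Zsqrtd.re_sub, Zsqrtd.im_sub, Zsqrtd.re_mul, Zsqrtd.im_mul,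
    Zsqrtd.re_one, Zsqrtd.im_one, Zsqrtd.re_intCast, Zsqrtd.im_intCast]
  ring

theorem cop_of_norm {D : ℤ} {m : ℤ} {b : AA D} (h : IsCoprime m b.norm) :
    IsCoprime (m : AA D) b := by
  obtain ⟨u, v, h⟩ := h
  refine ⟨(u : AA D), (v : AA D) * star b, ?_⟩
  have h1 : ((u * m + v * b.norm : ℤ) : AA D) = 1 := by rw [h]; simp
  push_cast at h1
  rw [norm_cast] at h1
  rw [← h1]
  ring

theorem norm_move {D : ℤ} (m : ℤ) (b t : AA D) :
    ∃ k : ℤ, (b + t * (m : AA D)).norm = b.norm + m * k := by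
  refine ⟨2 * (b.re * t.re - D * b.im * t.im) + m * t.norm, ?_⟩
  simp only [Zsqrtd.norm_def, Zsqrtd.re_add, Zsqrtd.im_add, Zsqrtd.re_mul, Zsqrtd.im_mul,
    Zsqrtd.re_intCast, Zsqrtd.im_intCast]
  ring

theorem jac_move {D : ℤ} (m : ℤ) (b t : AA D) :
    jacobiSym (b + t * (m : AA D)).norm m.natAbs = jacobiSym b.norm m.natAbs := by
  obtain ⟨k, hk⟩ := norm_move m b t
  rw [hk]
  apply jacobiSym.mod_left'
  obtain ⟨c, hc⟩ : ((m.natAbs : ℕ) : ℤ) ∣ m * k :=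
    Dvd.dvd.mul_right (Int.natAbs_dvd.mpr dvd_rfl) k
  rw [hc]
  exact Int.add_mul_emod_self_left _ _ _

end SGN_

open SGN_ in
theorem p_SGN (hRAT : T_RAT) (hADJ : T_ADJ) (hDIR : T_DIR) (hJA : T_JA) (hJB : T_JB) :
    T_SGN := by
  intro D _ q hq hDq γ hγ ℓ hℓ
  have h4q : 4 ∣ q := (Dvd.intro D rfl).trans hDq
  have hq4 : 4 ≤ q := Int.le_of_dvd hq h4q
  have hq3 : (64 : ℤ) ≤ q ^ 3 := by
    have := pow_le_pow_left₀ (by norm_num) hq4 3
    norm_num at this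
    exact this
  have h2q : (2 : ℤ) ∣ q ^ 3 := Dvd.dvd.trans (by decide) (h4q.trans (dvd_pow_self q (by norm_num)))
  have hodd : ∀ m : ℤ, q ^ 3 ∣ m - 1 → Odd m := by
    intro m hm
    obtain ⟨k, hk⟩ := h2q.trans hm
    exact ⟨k, by linarith⟩
  have hne : ∀ m : ℤ, q ^ 3 ∣ m - 1 → m ≠ 0 := by
    intro m hm h0
    have h1 := hodd m hm
    rw [h0] at h1
    exact absurd h1 (by decide)
  -- part two
  have key : ∀ (m : ℤ) (b : AA D), St q γ m b → q ^ 3 ∣ m - 1 → IsCoprime (m : AA D) b →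
      jacobiSym b.norm m.natAbs = 1 →
      ∃ γ' ∈ (Gam q : Subgroup (GG D)), γ' * γ⁻¹ ∈ (UU q : Subgroup (GG D)) ∧
    ∃ (p : ℕ) (b : AA D), p.Prime ∧ q ^ 3 ∣ (p : ℤ) + 1 ∧ ¬ ℓ ∣ (p - 1) / 2 ∧
      pa γ' = -(p : KK D) ∧ pb γ' = ii D ((q : AA D) ^ 2 * b) ∧ IsCoprime (p : AA D) b ∧
      jacobiSym b.norm p = 1 := by
    intro m b hst hm hcop hjac
    obtain ⟨t, ht1, ht2⟩ := hADJ D m b ℓ 1 (hne m hm) hcop hℓ (Or.inl rfl)
    have hst1 := mv12 hst t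
    have hjac1 := jac_move m b t
    rw [hjac] at hjac1
    have hcop1 : IsCoprime (m : AA D) (b + t * (m : AA D)) := by
      rw [add_comm]
      exact hcop.mul_add_right_right t
    set b' := b + t * (m : AA D) with hb'
    rw [one_mul] at ht2
    have hcn := cop_norm hcop1
    obtain ⟨p, hp, ⟨j, hj⟩, hlp⟩ := hDIR q m b'.norm ℓ hq h4q hm hcn ht2.ne' hℓ (Or.inr ht1)
    have hpj : m + q ^ 3 * b'.norm * (-j) = -(p : ℤ) := by linarith
    obtain ⟨γ', g1, g2, g3, g4⟩ := mv21 hst1 (-j)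
    rw [hpj] at g3
    refine ⟨γ', g1, g2, p, b', hp, ?_, hlp, ?_, g4, ?_, ?_⟩
    · have h1 : q ^ 3 ∣ (p : ℤ) + m := ⟨b'.norm * j, by rw [hj]; ring⟩
      have h2 := dvd_sub h1 hm
      have h3 : (p : ℤ) + m - (m - 1) = p + 1 := by ring
      rwa [h3] at h2
    · rw [g3]
      push_cast
      rfl
    · have h1 : IsCoprime (p : ℤ) b'.norm := by
        obtain ⟨u, v, huv⟩ := hcn
        refine ⟨-u, v + u * q ^ 3 * j, ?_⟩
        have h2 : (p : ℤ) = q ^ 3 * b'.norm * j - m := by linarith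
        rw [h2, ← huv]
        ring
      have h2 := cop_of_norm h1
      exact_mod_cast h2
    · have h1 := hJB m p b'.norm ht2 (hodd m hm) hcn (Or.inr ?_)
      · rw [Int.natAbs_natCast] at h1
        rw [h1, hjac1]
      · obtain ⟨c, hc⟩ : (4 : ℤ) ∣ q ^ 3 := h4q.trans (dvd_pow_self q (by norm_num))
        refine ⟨c * j, ?_⟩
        rw [add_comm, hj, hc]
        ring
  obtain ⟨γ₁, h1, h2, m, b, ha, hb, hm, hcop⟩ := hRAT D q hq γ hγ
  have hst : St q γ m b := ⟨γ₁, h1, h2, ha, hb⟩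
  have hcn := cop_norm hcop
  have hchi : jacobiSym b.norm m.natAbs = 1 ∨ jacobiSym b.norm m.natAbs = -1 := by
    apply jacobiSym.eq_one_or_neg_one
    have h3 := Int.isCoprime_iff_gcd_eq_one.mp hcn.symm
    rw [← h3, Int.gcd, Int.gcd, Int.natAbs_natCast]
  rcases hchi with hchi | hchi
  · exact key m b hst hm hcop hchi
  · obtain ⟨t, -, ht2⟩ := hADJ D m b ℓ (-1) (hne m hm) hcop hℓ (Or.inr rfl)
    have hst1 := mv12 hst t
    have hjac1 := jac_move m b t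
    rw [hchi] at hjac1
    have hcop1 : IsCoprime (m : AA D) (b + t * (m : AA D)) := by
      rw [add_comm]
      exact hcop.mul_add_right_right t
    set b' := b + t * (m : AA D) with hb'
    have hn : b'.norm < 0 := by linarith
    have hcn1 := cop_norm hcop1
    have hst2 := mv21 hst1 m
    have hm' : q ^ 3 ∣ m + q ^ 3 * b'.norm * m - 1 := by
      have h3 : m + q ^ 3 * b'.norm * m - 1 = (m - 1) + q ^ 3 * (b'.norm * m) := by ring
      rw [h3]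
      exact dvd_add hm (Dvd.intro _ rfl)
    have hneg : m * (m + q ^ 3 * b'.norm * m) < 0 := by
      have h3 : m * (m + q ^ 3 * b'.norm * m) = m ^ 2 * (1 + q ^ 3 * b'.norm) := by ring
      rw [h3]
      have h4 : 0 < m ^ 2 := by
        have := hne m hm
        positivity
      have h5 : 1 + q ^ 3 * b'.norm < 0 := by nlinarith
      exact mul_neg_of_pos_of_neg h4 h5
    have hcop2 : IsCoprime (m + q ^ 3 * b'.norm * m) b'.norm := by
      obtain ⟨u, v, huv⟩ := hcn1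
      refine ⟨u, v - u * q ^ 3 * m, ?_⟩
      rw [← huv]
      ring
    have h4 := hJA m (m + q ^ 3 * b'.norm * m) b'.norm hn (hodd m hm) hcn1 (by
      obtain ⟨c, hc⟩ : (4 : ℤ) ∣ q ^ 3 := h4q.trans (dvd_pow_self q (by norm_num))
      refine ⟨-(c * m), ?_⟩
      rw [hc]
      ring) hneg
    rw [hjac1, neg_neg] at h4
    exact key _ b' hst2 hm' (cop_of_norm hcop2) h4

end K3S
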