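import Pool.Agent.K3S.TargetsA

/-!
# MP_98be90_ag, part A, target SM: semi-multiplicativity
-/

set_option autoImplicit false

namespace K3S

open Matrix

namespace SM_

theorem hconj {D : ℤ} [NS D] (u : (KK D)ˣ) (γ : GG D) :
    pa (HH u * γ * (HH u)⁻¹) = pa γ ∧ pb (HH u * γ * (HH u)⁻¹) = (u : KK D) ^ 2 * pb γ ∧
    pc (HH u * γ * (HH u)⁻¹) = ((u⁻¹ : (KK D)ˣ) : KK D) ^ 2 * pc γ ∧
    pd (HH u * γ * (HH u)⁻¹) = pd γ := by
  have h := Units.mul_inv u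
  have e0 : pa (HH u) = (u : KK D) := rfl
  have e1 : pb (HH u) = 0 := rfl
  have e2 : pc (HH u) = 0 := rfl
  have e3 : pd (HH u) = ((u⁻¹ : (KK D)ˣ) : KK D) := rfl
  refine ⟨?_, ?_, ?_, ?_⟩
  · simp only [mul_00, mul_01, inv_00, inv_10, e0, e1, e2, e3]
    linear_combination pa γ * h
  · simp only [mul_00, mul_01, inv_01, inv_11, e0, e1]
    ring
  · simp only [mul_10, mul_11, inv_00, inv_10, e2, e3]
    ring
  · simp only [mul_10, mul_11, inv_01, inv_11, e0, e1, e2, e3]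
    linear_combination pd γ * h

theorem hconj_mem {D : ℤ} [NS D] {q : ℤ} {g c : AA D} {u : (KK D)ˣ} (hu : (u : KK D) = ii D g)
    {γ : GG D} (hγ : γ ∈ (Gam q : Subgroup (GG D))) (hc : pc γ = ii D ((q : AA D) * g ^ 2 * c)) :
    HH u * γ * (HH u)⁻¹ ∈ (Gam q : Subgroup (GG D)) := by
  obtain ⟨k0, k1, k2, k3⟩ := hconj u γ
  obtain ⟨h1, h2, h3, h4⟩ := hγ
  refine ⟨by rw [k0]; exact h1, ?_, ?_, by rw [k3]; exact h4⟩
  · rw [k1, hu, mul_comm, ← map_pow]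
    exact h2.mul_ii _
  · refine ⟨c, ?_⟩
    have h := Units.inv_mul u
    rw [hu] at h
    rw [k2, hc]
    simp only [map_mul, map_pow]
    linear_combination ii D (q : AA D) * ii D c *
      (((u⁻¹ : (KK D)ˣ) : KK D) * ii D g + 1) * h

/-- a matrix with the first row `(1 + q x, q)` is in `UU q` -/
theorem triv {D : ℤ} [NS D] {q : ℤ} {γ : GG D} (hγ : γ ∈ (Gam q : Subgroup (GG D))) {a : AA D}
    (ha : pa γ = ii D a) (hb : pb γ = ii D (q : AA D)) (hqa : (q : AA D) ∣ a - 1) :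
    γ ∈ (UU q : Subgroup (GG D)) := by
  obtain ⟨x, hx⟩ := hqa
  have hax : ii D a = 1 + ii D (q : AA D) * ii D x := by
    rw [← map_one (ii D), ← map_mul, ← map_add]
    congr 1
    linear_combination hx
  have hE : E21 (ii D x) ∈ (Gam 1 : Subgroup (GG D)) := by
    refine UU_le 1 (E21_mem ?_)
    exact ⟨x, by rw [Int.cast_one, one_mul]⟩
  have hm := Gam_conj hE hγ
  have hq : Jd q (ii D (q : AA D)) := ⟨1, by rw [mul_one]⟩
  have h12 : E12 (ii D (q : AA D)) ∈ (UU q : Subgroup (GG D)) := E12_mem hq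
  have e0 : pa (E21 (ii D x)) = 1 := rfl
  have e1 : pb (E21 (ii D x)) = 0 := rfl
  have e2 : pc (E21 (ii D x)) = ii D x := rfl
  have e3 : pd (E21 (ii D x)) = 1 := rfl
  have r0 : pa (E12 (ii D (q : AA D))) = pa (E21 (ii D x) * γ * (E21 (ii D x))⁻¹) := by
    simp only [mul_00, mul_01, inv_00, inv_10, e0, e1, e2, e3, ha, hb, hax]
    change (1 : KK D) = _
    ring
  have r1 : pb (E12 (ii D (q : AA D))) = pb (E21 (ii D x) * γ * (E21 (ii D x))⁻¹) := by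
    simp only [mul_00, mul_01, inv_01, inv_11, e0, e1, hb]
    change ii D (q : AA D) = _
    ring
  have h3 := row (UU_le q h12) hm r0 r1
  have h4 : E21 (ii D x) * γ * (E21 (ii D x))⁻¹ ∈ (UU q : Subgroup (GG D)) := by
    have := mul_mem h3 h12
    rwa [inv_mul_cancel_right] at this
  have h5 := UU_conj_one (inv_mem hE) h4
  rw [inv_inv] at h5
  have e : (E21 (ii D x))⁻¹ * (E21 (ii D x) * γ * (E21 (ii D x))⁻¹) * E21 (ii D x) = γ := by
    group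
  rwa [e] at h5

end SM_

open SM_ in
/-- **SM** -/
theorem p_SM (hT : T_THE) (hE : T_EXG) : T_SM := by
  intro D _ q hq hD a b g hqa hqb hab hag hg γ₁ h₁ γ₂ h₂ γ₃ h₃ a1 a2 a3 b1 b2 b3
  have haq : IsCoprime a (q : AA D) := by
    obtain ⟨x, hx⟩ := hqa
    exact ⟨1, -x, by linear_combination hx⟩
  obtain ⟨γ, hγ, ga, gb, c, gc⟩ := hE D q a b g hqa hqb hab hag
  obtain ⟨γ', hγ', ga', gb', c', gc'⟩ := hE D q a (q : AA D) g hqa (dvd_refl _) haq hag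
  obtain ⟨-, -, -, d, -, -, -, hd⟩ := Gam_one_entries (Gam_mono (one_dvd q) hγ)
  obtain ⟨-, -, -, d', -, -, -, hd'⟩ := Gam_one_entries (Gam_mono (one_dvd q) hγ')
  have hu0 : ii D g ≠ 0 := by
    intro h
    exact hg (ii_inj D (by rw [h, map_zero]))
  obtain ⟨u, hu⟩ : ∃ u : (KK D)ˣ, (u : KK D) = ii D g := ⟨Units.mk0 _ hu0, rfl⟩
  obtain ⟨b0, hb0⟩ := hqb
  have hdet : a * d' - (q : AA D) * ((q : AA D) * g ^ 2 * c') = 1 := by
    have h := gg_det γ'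
    rw [ga', gb', gc', hd', ← map_mul, ← map_mul, ← map_sub] at h
    exact ii_inj D (by rw [h, map_one])
  have hTH := hT D q hq hD g hg u hu (γ * γ'⁻¹) (mul_mem hγ (inv_mem hγ'))
    (a * d' - b * ((q : AA D) * g ^ 2 * c')) (c * d' - d * c')
    (by
      simp only [mul_00, inv_00, inv_10, ga, gb, hd', gc', map_sub, map_mul]
      ring)
    (by
      simp only [mul_10, inv_00, inv_10, gc, hd, hd', gc', map_sub, map_mul]
      ring)
    ⟨c' - b0 * c', by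
      rw [hb0]
      linear_combination hdet⟩
  have m1 := hconj_mem hu hγ gc
  have m2 := hconj_mem hu hγ' gc'
  obtain ⟨k0, k1, -, -⟩ := hconj u γ
  obtain ⟨l0, l1, -, -⟩ := hconj u γ'
  have w3 := row m1 h₃ (by rw [k0, ga, a3]) (by rw [k1, gb, hu, b3, map_mul, map_pow])
  have w2 := row m2 h₂ (by rw [l0, ga', a2]) (by
    rw [l1, gb', hu, b2, map_mul, map_pow, mul_comm])
  have w1 := row hγ h₁ (by rw [ga, a1]) (by rw [gb, b1])
  have w0 : γ' ∈ (UU q : Subgroup (GG D)) := triv hγ' ga' gb' hqa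
  have n0 := UU_conj_one (Gam_mono (one_dvd q) hγ) w0
  have n2 := UU_conj_one (Gam_mono (one_dvd q) h₁) (inv_mem w2)
  have e : γ₃ * (γ₁ * γ₂)⁻¹ =
      (γ₃ * (HH u * γ * (HH u)⁻¹)⁻¹) *
      (HH u * (γ * γ'⁻¹) * (HH u)⁻¹ * (γ * γ'⁻¹)⁻¹ * (γ * γ' * γ⁻¹)⁻¹) *
      (γ₁ * γ⁻¹)⁻¹ * (γ₁ * (γ₂ * (HH u * γ' * (HH u)⁻¹)⁻¹)⁻¹ * γ₁⁻¹) := by
    group
  rw [e]
  exact mul_mem (mul_mem (mul_mem w3 (mul_mem hTH (inv_mem n0))) (inv_mem w1)) n2

end K3S
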