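import Pool.Agent.K3S.TargetsA

/-!
# MP_98be90_ag, part A, target `T_SQR` (helper85)
-/

set_option autoImplicit false
set_option linter.unusedSectionVars false

namespace K3S

open Matrix

namespace SQR_

theorem dvd_iff {D : ℤ} (p : ℕ) (x : AA D) :
    (p : AA D) ∣ x ↔ (p : ℤ) ∣ x.re ∧ (p : ℤ) ∣ x.im := by
  have h := Zsqrtd.intCast_dvd (p : ℤ) x
  rwa [Int.cast_natCast] at h

/-- Euler's criterion in the ring -/
theorem euler {D : ℤ} {p k : ℕ} (hp : p.Prime) (hk : p = 4 * k + 3) {b : AA D}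
    (hj : jacobiSym b.norm p = 1) :
    (p : AA D) ∣ b ^ (2 * k + 1) * star (b ^ (2 * k + 1)) - 1 := by
  have : Fact p.Prime := ⟨hp⟩
  have h1 : legendreSym p b.norm = 1 := by
    rw [jacobiSym.legendreSym.to_jacobiSym]
    exact hj
  have h2 := legendreSym.eq_pow p b.norm
  rw [h1] at h2
  have h3 : p / 2 = 2 * k + 1 := by omega
  rw [h3] at h2
  have h4 : (((b.norm ^ (2 * k + 1) - 1 : ℤ)) : ZMod p) = 0 := by
    push_cast
    rw [← h2]
    simp
  have h5 : (p : ℤ) ∣ b.norm ^ (2 * k + 1) - 1 := (ZMod.intCast_zmod_eq_zero_iff_dvd _ _).1 h4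
  have h6 : ((p : ℤ) : AA D) ∣ ((b.norm ^ (2 * k + 1) - 1 : ℤ) : AA D) :=
    map_dvd (Int.castRingHom (AA D)) h5
  rw [Int.cast_natCast] at h6
  have h7 : ((b.norm ^ (2 * k + 1) - 1 : ℤ) : AA D) =
      b ^ (2 * k + 1) * star (b ^ (2 * k + 1)) - 1 := by
    push_cast
    rw [Zsqrtd.norm_eq_mul_conj, mul_pow, star_pow]
  rwa [h7] at h6

end SQR_

open SQR_ in
theorem p_SQR (hF : T_FROB) : T_SQR := by
  intro D _ p b hp hD hb hj
  have hD0 : 0 < D := NS.pos
  have h4 : (4 : ℤ) ∣ (p : ℤ) + 1 := (Dvd.intro D rfl).trans hD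
  obtain ⟨k, hk⟩ : ∃ k : ℕ, p = 4 * k + 3 := ⟨(p - 3) / 4, by omega⟩
  set s : AA D := b ^ (2 * k + 1) with hs
  have hps : IsCoprime (p : AA D) s := hb.pow_right
  -- the square of `s`
  have h1 : (p : AA D) ∣ s ^ 2 - 1 := by
    have h2 := hF D p hD0 hp hD b
    have h3 : b ^ p - b = b * (s ^ 2 - 1) := by
      rw [hs, hk]
      ring
    rw [h3] at h2
    exact hb.dvd_of_dvd_mul_left h2
  have h2 : (p : AA D) ∣ s * star s - 1 := euler hp hk hj
  have h3 : (p : AA D) ∣ s - star s := by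
    have h5 : (p : AA D) ∣ s * (s - star s) := by
      have : s * (s - star s) = (s ^ 2 - 1) - (s * star s - 1) := by ring
      rw [this]
      exact dvd_sub h1 h2
    exact hps.dvd_of_dvd_mul_left h5
  have hpp : Prime (p : ℤ) := Nat.prime_iff_prime_int.1 hp
  have h6 : (p : ℤ) ∣ s.im := by
    have h7 := ((dvd_iff p _).1 h3).2
    have h8 : (s - star s).im = 2 * s.im := by
      simp
      ring
    rw [h8] at h7
    rcases hpp.dvd_or_dvd h7 with h9 | h9
    · exfalso
      have h10 := Int.le_of_dvd (by norm_num) h9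
      omega
    · exact h9
  have h7 : (p : ℤ) ∣ s.re * s.re - 1 := by
    have h8 := ((dvd_iff p _).1 h1).1
    have h9 : (s ^ 2 - 1).re = (s.re * s.re - 1) + D * s.im * s.im := by
      rw [sq]
      simp
      ring
    rw [h9] at h8
    have h10 : (p : ℤ) ∣ D * s.im * s.im := Dvd.dvd.mul_left h6 _
    exact (dvd_add_left h10).1 h8
  have h8 : (p : ℤ) ∣ (s.re - 1) * (s.re + 1) := by
    have : (s.re - 1) * (s.re + 1) = s.re * s.re - 1 := by ring
    rwa [this]
  refine ⟨b ^ (k + 1), hb.pow_right, ?_⟩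
  have h9 : (b ^ (k + 1)) ^ 2 = b * s := by
    rw [hs]
    ring
  rw [h9]
  rcases hpp.dvd_or_dvd h8 with h10 | h10
  · left
    have h11 : (p : AA D) ∣ s - 1 := (dvd_iff p _).2 ⟨by simpa using h10, by simpa using h6⟩
    have : b - b * s = -(b * (s - 1)) := by ring
    rw [this]
    exact (Dvd.dvd.mul_left h11 _).neg_right
  · right
    have h11 : (p : AA D) ∣ s + 1 := (dvd_iff p _).2 ⟨by simpa using h10, by simpa using h6⟩
    have : b + b * s = b * (s + 1) := by ring
    rw [this]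
    exact Dvd.dvd.mul_left h11 _

end K3S
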