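import Pool.Agent.K3S.TargetsA

/-!
# K3S, target SR: stable rank one of finite rings, relative form
-/

set_option autoImplicit false

namespace K3S

open Matrix

namespace SR_

theorem exists_pow {D : ℤ} (a : AA D) {N : ℤ} (hN : N ≠ 0) :
    ∃ n : ℕ, n ≠ 0 ∧ (N : AA D) ∣ a ^ n * (1 - a ^ n) := by
  have : NeZero N.natAbs := ⟨Int.natAbs_ne_zero.2 hN⟩
  obtain ⟨i, j, hij, he⟩ := Finite.exists_ne_map_eq_of_infinite
    (fun k : ℕ => (((a ^ k).re : ZMod N.natAbs), ((a ^ k).im : ZMod N.natAbs)))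
  wlog hlt : i < j generalizing i j
  · exact this j i hij.symm he.symm (lt_of_le_of_ne (not_lt.1 hlt) hij.symm)
  have h1 : (N : AA D) ∣ a ^ i - a ^ j := by
    rw [Zsqrtd.intCast_dvd, Zsqrtd.re_sub, Zsqrtd.im_sub]
    have h2 := (Prod.mk.injEq _ _ _ _ ▸ he)
    constructor
    · rw [← Int.natAbs_dvd]
      have h3 := (ZMod.intCast_eq_intCast_iff_dvd_sub _ _ _).1 h2.1.symm
      exact h3
    · rw [← Int.natAbs_dvd]
      have h3 := (ZMod.intCast_eq_intCast_iff_dvd_sub _ _ _).1 h2.2.symm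
      exact h3
  obtain ⟨d, rfl⟩ := Nat.exists_eq_add_of_lt hlt
  refine ⟨(d + 1) * (i + 1), by positivity, ?_⟩
  have h4 : a ^ i - a ^ (i + d + 1) = a ^ i * (1 - a ^ (d + 1)) := by ring
  rw [h4] at h1
  refine h1.trans (mul_dvd_mul ?_ ?_)
  · refine pow_dvd_pow a ?_
    nlinarith
  · rw [pow_mul]
    have h5 := sub_one_dvd_pow_sub_one (a ^ (d + 1)) (i + 1)
    rw [← neg_sub, ← neg_sub ((a ^ (d + 1)) ^ (i + 1)) 1]
    exact neg_dvd.2 (dvd_neg.2 h5)

end SR_

open SR_ in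
theorem p_SR : T_SR := by
  intro D a b g N hN hab hg
  obtain ⟨n, hn, hdvd⟩ := exists_pow a hN
  have h1 : g ∣ 1 - a ^ n := by
    have h2 := hg.trans (sub_one_dvd_pow_sub_one a n)
    rw [← neg_sub]
    exact (dvd_neg).2 h2
  obtain ⟨t, ht⟩ := h1
  refine ⟨t, ?_⟩
  rw [← ht]
  by_contra hcon
  have h3 : Ideal.span {a + (1 - a ^ n) * b} ⊔ Ideal.span {(N : AA D)} ≠ ⊤ := by
    intro h
    exact hcon ((Ideal.isCoprime_span_singleton_iff _ _).1 (Ideal.isCoprime_iff_sup_eq.2 h))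
  obtain ⟨m, hm, hle⟩ := Ideal.exists_le_maximal _ h3
  have hx : a + (1 - a ^ n) * b ∈ m :=
    hle (Ideal.mem_sup_left (Ideal.mem_span_singleton_self _))
  have hNm : (N : AA D) ∈ m := hle (Ideal.mem_sup_right (Ideal.mem_span_singleton_self _))
  have hp : a ^ n * (1 - a ^ n) ∈ m := by
    obtain ⟨c, hc⟩ := hdvd
    rw [hc]
    exact m.mul_mem_right c hNm
  have hone : (1 : AA D) ∉ m := fun h => hm.ne_top ((Ideal.eq_top_iff_one m).2 h)
  have hama : a ∈ m → a ^ n ∈ m := fun h => Ideal.pow_mem_of_mem m h n (Nat.pos_of_ne_zero hn)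
  rcases hm.isPrime.mem_or_mem hp with h | h
  · have ha := hm.isPrime.mem_of_pow_mem n h
    have hb1 : (1 - a ^ n) * b ∈ m := by
      have := m.sub_mem hx ha
      rwa [add_sub_cancel_left] at this
    rcases hm.isPrime.mem_or_mem hb1 with h' | h'
    · exact hone (by simpa using m.add_mem h' h)
    · obtain ⟨u, v, huv⟩ := hab
      refine hone ?_
      rw [← huv]
      exact m.add_mem (m.mul_mem_left u ha) (m.mul_mem_left v h')
  · have ha : a ∈ m := by
      have := m.sub_mem hx (m.mul_mem_right b h)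
      rwa [add_sub_cancel_right] at this
    exact hone (by simpa using m.add_mem h (hama ha))

end K3S
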