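import Pool.Agent.K3S.TargetsA

set_option autoImplicit false
set_option linter.unusedSectionVars false

/-!
# MP_98be90_ag, part A, target THE: `diag(g, g⁻¹)` acts trivially on certain classes

The elements `γ` of `Gam q` with `H γ H⁻¹ γ⁻¹ ∈ UU q` form a subgroup `SS q H`; it contains the
elementary matrices `E12 (q t)`, `E21 (q g² t)` and `Gam q₁` (`q₁` from `PP H`).
-/

namespace K3S

open Matrix

namespace THE_

variable {D : ℤ} [NS D]

/-- the elements of `Gam q` whose class is fixed by `H` -/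
def SS (q : ℤ) (H : GG D) : Subgroup (GG D) where
  carrier := {γ | γ ∈ (Gam q : Subgroup (GG D)) ∧
    H * γ * H⁻¹ * γ⁻¹ ∈ (UU q : Subgroup (GG D))}
  one_mem' := by
    refine ⟨one_mem _, ?_⟩
    have : H * 1 * H⁻¹ * 1⁻¹ = 1 := by group
    rw [this]
    exact one_mem _
  mul_mem' := by
    rintro γ γ' ⟨h1, h2⟩ ⟨h3, h4⟩
    refine ⟨mul_mem h1 h3, ?_⟩
    have e : H * (γ * γ') * H⁻¹ * (γ * γ')⁻¹ =
        (H * γ * H⁻¹ * γ⁻¹) * (γ * (H * γ' * H⁻¹ * γ'⁻¹) * γ⁻¹) := by group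
    rw [e]
    exact mul_mem h2 (UU_conj_one (Gam_mono (one_dvd q) h1) h4)
  inv_mem' := by
    rintro γ ⟨h1, h2⟩
    refine ⟨inv_mem h1, ?_⟩
    have e : H * γ⁻¹ * H⁻¹ * γ⁻¹⁻¹ = γ⁻¹ * (H * γ * H⁻¹ * γ⁻¹)⁻¹ * (γ⁻¹)⁻¹ := by group
    rw [e]
    exact UU_conj_one (Gam_mono (one_dvd q) (inv_mem h1)) (inv_mem h2)

theorem e12_mem {q : ℤ} {g : AA D} {u : (KK D)ˣ} (hu : (u : KK D) = ii D g) (t : AA D) :
    E12 (ii D ((q : AA D) * t)) ∈ SS q (HH u) := by
  have h1 : E12 (ii D ((q : AA D) * t)) ∈ (UU q : Subgroup (GG D)) := E12_mem ⟨t, rfl⟩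
  refine ⟨UU_le q h1, mul_mem ?_ (inv_mem h1)⟩
  have e : HH u * E12 (ii D ((q : AA D) * t)) * (HH u)⁻¹ =
      E12 (ii D ((q : AA D) * (g ^ 2 * t))) := by
    have hm : (u : KK D) * ((u⁻¹ : (KK D)ˣ) : KK D) = 1 := Units.mul_inv u
    apply gg_ext
    · simp only [HH, E12, mk4_00, mk4_01, mk4_10, mk4_11, mul_00, mul_01, inv_00, inv_10]
      linear_combination hm
    · simp only [HH, E12, mk4_00, mk4_01, mk4_10, mk4_11, mul_00, mul_01, inv_01, inv_11, hu,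
        map_mul, map_pow]
      ring
    · simp only [HH, E12, mk4_00, mk4_01, mk4_10, mk4_11, mul_10, mul_11, inv_00, inv_10]
      ring
    · simp only [HH, E12, mk4_00, mk4_01, mk4_10, mk4_11, mul_10, mul_11, inv_01, inv_11]
      linear_combination hm
  rw [e]
  exact E12_mem ⟨_, rfl⟩

theorem e21_mem {q : ℤ} {g : AA D} {u : (KK D)ˣ} (hu : (u : KK D) = ii D g) (t : AA D) :
    E21 (ii D ((q : AA D) * (g ^ 2 * t))) ∈ SS q (HH u) := by
  have h1 : E21 (ii D ((q : AA D) * (g ^ 2 * t))) ∈ (UU q : Subgroup (GG D)) :=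
    E21_mem ⟨_, rfl⟩
  refine ⟨UU_le q h1, mul_mem ?_ (inv_mem h1)⟩
  have e : HH u * E21 (ii D ((q : AA D) * (g ^ 2 * t))) * (HH u)⁻¹ =
      E21 (ii D ((q : AA D) * t)) := by
    have hm : (u : KK D) * ((u⁻¹ : (KK D)ˣ) : KK D) = 1 := Units.mul_inv u
    apply gg_ext
    · simp only [HH, E21, mk4_00, mk4_01, mk4_10, mk4_11, mul_00, mul_01, inv_00, inv_10]
      linear_combination hm
    · simp only [HH, E21, mk4_00, mk4_01, mk4_10, mk4_11, mul_00, mul_01, inv_01, inv_11]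
      ring
    · simp only [HH, E21, mk4_00, mk4_01, mk4_10, mk4_11, mul_10, mul_11, inv_00, inv_10,
        map_mul, map_pow, ← hu]
      linear_combination (ii D (q : AA D) * ii D t) *
        ((u : KK D) * ((u⁻¹ : (KK D)ˣ) : KK D) + 1) * hm
    · simp only [HH, E21, mk4_00, mk4_01, mk4_10, mk4_11, mul_10, mul_11, inv_01, inv_11]
      linear_combination hm
  rw [e]
  exact E21_mem ⟨_, rfl⟩

/-- the entries of `γ` -/
def Ent (γ : GG D) (a b c d : AA D) : Prop :=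
  pa γ = ii D a ∧ pb γ = ii D b ∧ pc γ = ii D c ∧ pd γ = ii D d

theorem r21 {γ : GG D} {a b c d : AA D} (h : Ent γ a b c d) (x : AA D) :
    Ent (γ * E21 (ii D x)) (a + b * x) b (c + d * x) d := by
  obtain ⟨h1, h2, h3, h4⟩ := h
  refine ⟨?_, ?_, ?_, ?_⟩
  · simp only [E21, mk4_00, mk4_10, mul_00, h1, h2, map_add, map_mul]
    ring
  · simp only [E21, mk4_01, mk4_11, mul_01, h1, h2]
    ring
  · simp only [E21, mk4_00, mk4_10, mul_10, h3, h4, map_add, map_mul]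
    ring
  · simp only [E21, mk4_01, mk4_11, mul_11, h3, h4]
    ring

theorem r12 {γ : GG D} {a b c d : AA D} (h : Ent γ a b c d) (x : AA D) :
    Ent (γ * E12 (ii D x)) a (a * x + b) c (c * x + d) := by
  obtain ⟨h1, h2, h3, h4⟩ := h
  refine ⟨?_, ?_, ?_, ?_⟩
  · simp only [E12, mk4_00, mk4_10, mul_00, h1, h2]
    ring
  · simp only [E12, mk4_01, mk4_11, mul_01, h1, h2, map_add, map_mul]
    ring
  · simp only [E12, mk4_00, mk4_10, mul_10, h3, h4]
    ring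
  · simp only [E12, mk4_01, mk4_11, mul_11, h3, h4, map_add, map_mul]
    ring

theorem l21 {γ : GG D} {a b c d : AA D} (h : Ent γ a b c d) (x : AA D) :
    Ent (E21 (ii D x) * γ) a b (x * a + c) (x * b + d) := by
  obtain ⟨h1, h2, h3, h4⟩ := h
  refine ⟨?_, ?_, ?_, ?_⟩
  · simp only [E21, mk4_00, mk4_01, mul_00, h1, h3]
    ring
  · simp only [E21, mk4_00, mk4_01, mul_01, h2, h4]
    ring
  · simp only [E21, mk4_10, mk4_11, mul_10, h1, h3, map_add, map_mul]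
    ring
  · simp only [E21, mk4_10, mk4_11, mul_11, h2, h4, map_add, map_mul]
    ring

theorem quo {γ κ : GG D} {a b c d a' b' c' d' : AA D} (h : Ent γ a b c d)
    (h' : Ent κ a' b' c' d') :
    Ent (γ * κ⁻¹) (a * d' - b * c') (b * a' - a * b') (c * d' - d * c') (d * a' - c * b') := by
  obtain ⟨h1, h2, h3, h4⟩ := h
  obtain ⟨k1, k2, k3, k4⟩ := h'
  refine ⟨?_, ?_, ?_, ?_⟩
  · simp only [mul_00, inv_00, inv_10, h1, h2, k3, k4, map_sub, map_mul]
    ring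
  · simp only [mul_01, inv_01, inv_11, h1, h2, k1, k2, map_sub, map_mul]
    ring
  · simp only [mul_10, inv_00, inv_10, h3, h4, k3, k4, map_sub, map_mul]
    ring
  · simp only [mul_11, inv_01, inv_11, h3, h4, k1, k2, map_sub, map_mul]
    ring

theorem e12_ent (x : AA D) : Ent (E12 (ii D x) : GG D) 1 x 0 1 :=
  ⟨(map_one _).symm, rfl, (map_zero _).symm, (map_one _).symm⟩

theorem gam_of {γ : GG D} {a b c d N w1 w2 w3 w4 : AA D} {q₁ : ℤ} (h : Ent γ a b c d)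
    (hN : N = (q₁ : AA D)) (e1 : a - 1 = N * w1) (e2 : b = N * w2) (e3 : c = N * w3)
    (e4 : d - 1 = N * w4) : γ ∈ (Gam q₁ : Subgroup (GG D)) := by
  obtain ⟨h1, h2, h3, h4⟩ := h
  subst hN
  refine ⟨⟨w1, ?_⟩, ⟨w2, ?_⟩, ⟨w3, ?_⟩, ⟨w4, ?_⟩⟩
  · rw [h1, ← e1, map_sub, map_one]
  · rw [h2, e2]
  · rw [h3, e3]
  · rw [h4, ← e4, map_sub, map_one]

end THE_

open THE_ in
/-- THE. -/
theorem p_THE (h1 : T_PG) (h2 : T_SR) : T_THE := by
  intro D _ q hq hD g _ u hu γ hγ a c ha hc hdiv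
  obtain ⟨q₁, hq₁, hqq, hPP⟩ := h1 D (HH u) q hq hD
  suffices h : γ ∈ SS q (HH u) from h.2
  have hG1 : ∀ γ' ∈ (Gam q₁ : Subgroup (GG D)), γ' ∈ SS q (HH u) := fun γ' h' ↦
    ⟨Gam_mono hqq h', (hPP γ' h').2⟩
  obtain ⟨-, ⟨b, hb⟩, -, ⟨d', hd'⟩⟩ := hγ
  have hd : pd γ = ii D (1 + (q : AA D) * d') := by
    rw [map_add, map_one, ← hd']
    ring
  have hE : Ent γ a ((q : AA D) * b) ((q : AA D) * g ^ 2 * c) (1 + (q : AA D) * d') :=
    ⟨ha, hb, hc, hd⟩
  have hdet : a * (1 + (q : AA D) * d') - ((q : AA D) * b) * ((q : AA D) * g ^ 2 * c) = 1 := by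
    have h := gg_det γ
    rw [ha, hb, hc, hd, ← map_mul, ← map_mul, ← map_sub, ← map_one (ii D)] at h
    exact ii_inj D h
  have hcop : IsCoprime a ((q : AA D) * b) :=
    ⟨1 + (q : AA D) * d', -((q : AA D) * g ^ 2 * c), by linear_combination hdet⟩
  obtain ⟨k, hk⟩ := hdiv
  obtain ⟨t, e, y, hey⟩ := h2 D a ((q : AA D) * b) ((q : AA D) * g ^ 2) q₁ hq₁.ne' hcop
    ⟨(q : AA D) * k, by rw [hk]; ring⟩
  have hE2 := r12 (r21 hE ((q : AA D) * (g ^ 2 * t))) ((q : AA D) * -(e * b))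
  have hK2 := r12 (r21 (e12_ent (D := D) ((q : AA D) * 1))
    ((q : AA D) * (g ^ 2 * (k + t * b)))) ((q : AA D) * -e)
  have hfin := l21 (quo hE2 hK2) ((q : AA D) * (g ^ 2 *
    -(e * (c + (1 + (q : AA D) * d') * t - (k + t * b)))))
  -- the abstract letters
  have hs : ∃ s A B C d N : AA D, s = (q : AA D) * (g ^ 2 * (k + t * b)) ∧
      A = a + (q : AA D) * b * ((q : AA D) * (g ^ 2 * t)) ∧ B = (q : AA D) * b ∧
      C = (q : AA D) * g ^ 2 * c + (1 + (q : AA D) * d') * ((q : AA D) * (g ^ 2 * t)) ∧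
      d = 1 + (q : AA D) * d' ∧ N = (q₁ : AA D) := ⟨_, _, _, _, _, _, rfl, rfl, rfl, rfl, rfl, rfl⟩
  obtain ⟨s, A, B, C, d, N, es, eA, eB, eC, ed, eN⟩ := hs
  have R1 : A = 1 + (q : AA D) * s := by
    rw [eA, es]
    linear_combination hk
  have R2 : e * A + y * N = 1 := by
    rw [eA, eN]
    linear_combination hey
  have R3 : A * d - B * C = 1 := by
    rw [eA, eB, eC, ed]
    linear_combination hdet
  have ez : (q : AA D) * (g ^ 2 * -(e * (c + (1 + (q : AA D) * d') * t - (k + t * b)))) =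
      -(e * (C - s)) := by
    rw [eC, es]
    ring
  rw [ez, ← es, ← eA, ← eB, ← eC, ← ed, show (q : AA D) * -(e * b) = -(e * B) by
    rw [eB]; ring] at hfin
  have hmem := gam_of (N := N) (q₁ := q₁) (w1 := y * (A - 1 - B * s)) (w2 := y * (A * (B - q)))
    (w3 := y * ((C - d * s) - e * (C - s) * (A - 1 - B * s)))
    (w4 := y * (A * d - C * q - 1 - e * (C - s) * (A * (B - q)))) hfin eN
    (by
      rw [R1] at R2 ⊢
      linear_combination -(1 + (q : AA D) * s - 1 - B * s) * R2)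
    (by
      rw [R1] at R2 ⊢
      linear_combination -((1 + (q : AA D) * s) * (B - q)) * R2)
    (by
      rw [R1] at R2 R3 ⊢
      linear_combination -((C - d * s) - e * (C - s) * (1 + (q : AA D) * s - 1 - B * s)) * R2 -
        e * s * R3)
    (by
      rw [R1] at R2 R3 ⊢
      linear_combination -((1 + (q : AA D) * s) * d - C * q - 1 -
        e * (C - s) * ((1 + (q : AA D) * s) * (B - q))) * R2 + (1 + (q : AA D) * s) * e * R3)
  have hz : E21 (ii D (-(e * (C - s)))) ∈ SS q (HH u) := by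
    rw [← ez]
    exact e21_mem hu _
  have hρ := (Subgroup.mul_mem_cancel_left _ hz).1 (hG1 _ hmem)
  have hs' : E21 (ii D s) ∈ SS q (HH u) := by
    rw [es]
    exact e21_mem hu _
  have hκ : E12 (ii D ((q : AA D) * 1)) * E21 (ii D s) * E12 (ii D ((q : AA D) * -e)) ∈
      SS q (HH u) := mul_mem (mul_mem (e12_mem hu _) hs') (e12_mem hu _)
  have hγ2 := (Subgroup.mul_mem_cancel_right _ (inv_mem hκ)).1 hρ
  have hx2 : E12 (ii D (-(e * B))) ∈ SS q (HH u) := by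
    rw [show -(e * B) = (q : AA D) * -(e * b) by rw [eB]; ring]
    exact e12_mem hu _
  have hγ1 := (Subgroup.mul_mem_cancel_right _ hx2).1 hγ2
  exact (Subgroup.mul_mem_cancel_right _ (e21_mem hu _)).1 hγ1

end K3S
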