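import Pool.Agent.K3S.TargetsA

/-!
# U0: diagonal matrices of units act trivially
-/

set_option autoImplicit false

namespace K3S

open Matrix

namespace U0_

variable {D : ℤ} [NS D]

lemma HA_mem (ε : (AA D)ˣ) : HA ε ∈ (Gam 1 : Subgroup (GG D)) := by
  refine ⟨⟨(ε : AA D) - 1, ?_⟩, Jd.zero 1, Jd.zero 1, ⟨((ε⁻¹ : (AA D)ˣ) : AA D) - 1, ?_⟩⟩
  · rw [Int.cast_one, one_mul, map_sub, map_one]
    rfl
  · rw [Int.cast_one, one_mul, map_sub, map_one]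
    rfl

/-- the exponents which act trivially -/
def S (q : ℤ) (h γ : GG D) (hh : h ∈ (Gam 1 : Subgroup (GG D))) : AddSubgroup ℤ where
  carrier := {n | h ^ n * γ * (h ^ n)⁻¹ * γ⁻¹ ∈ (UU q : Subgroup (GG D))}
  zero_mem' := by
    have h1 : h ^ (0 : ℤ) * γ * (h ^ (0 : ℤ))⁻¹ * γ⁻¹ = 1 := by group
    change h ^ (0 : ℤ) * γ * (h ^ (0 : ℤ))⁻¹ * γ⁻¹ ∈ (UU q : Subgroup (GG D))
    rw [h1]
    exact one_mem _
  add_mem' := by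
    intro m n hm hn
    have h1 : h ^ (m + n) * γ * (h ^ (m + n))⁻¹ * γ⁻¹ =
        (h ^ m * (h ^ n * γ * (h ^ n)⁻¹ * γ⁻¹) * (h ^ m)⁻¹) *
          (h ^ m * γ * (h ^ m)⁻¹ * γ⁻¹) := by group
    change h ^ (m + n) * γ * (h ^ (m + n))⁻¹ * γ⁻¹ ∈ (UU q : Subgroup (GG D))
    rw [h1]
    exact mul_mem (UU_conj_one (zpow_mem hh m) hn) hm
  neg_mem' := by
    intro n hn
    have h1 : h ^ (-n) * γ * (h ^ (-n))⁻¹ * γ⁻¹ =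
        h ^ (-n) * (h ^ n * γ * (h ^ n)⁻¹ * γ⁻¹)⁻¹ * (h ^ (-n))⁻¹ := by group
    change h ^ (-n) * γ * (h ^ (-n))⁻¹ * γ⁻¹ ∈ (UU q : Subgroup (GG D))
    rw [h1]
    exact UU_conj_one (zpow_mem hh (-n)) (inv_mem hn)

lemma mem_S {q : ℤ} {h γ : GG D} (hh : h ∈ (Gam 1 : Subgroup (GG D))) (n : ℤ) :
    n ∈ S q h γ hh ↔ h ^ n * γ * (h ^ n)⁻¹ * γ⁻¹ ∈ (UU q : Subgroup (GG D)) := Iff.rfl

/-- a subgroup of `ℤ` contained in no `ℓ ℤ` -/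
lemma one_mem_of (H : AddSubgroup ℤ) (h : ∀ ℓ : ℕ, ℓ.Prime → ∃ n : ℕ, ¬ ℓ ∣ n ∧ (n : ℤ) ∈ H) :
    (1 : ℤ) ∈ H := by
  obtain ⟨a, ha⟩ := Int.subgroup_cyclic H
  have hmem : ∀ n : ℤ, n ∈ H ↔ a ∣ n := by
    intro n
    rw [ha, AddSubgroup.mem_closure_singleton]
    constructor
    · rintro ⟨k, rfl⟩
      exact ⟨k, by simp [mul_comm]⟩
    · rintro ⟨k, rfl⟩
      exact ⟨k, by simp [mul_comm]⟩
  rw [hmem]
  by_contra h1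
  have h2 : a.natAbs ≠ 1 := by
    intro h3
    exact h1 (Int.isUnit_iff_natAbs_eq.mpr h3).dvd
  obtain ⟨ℓ, hℓ, hd⟩ := Nat.exists_prime_and_dvd h2
  obtain ⟨n, hn, hnH⟩ := h ℓ hℓ
  apply hn
  have h3 := (hmem n).mp hnH
  exact Int.natCast_dvd_natCast.mp ((Int.natCast_dvd.mpr hd).trans h3)

end U0_

/-- The target `T_U0`. -/
theorem p_U0 (hA : T_U0A) : T_U0 := by
  intro D _ q hq hD ε γ hγ
  have hh := U0_.HA_mem ε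
  have h1 : (1 : ℤ) ∈ U0_.S q (HA ε) γ hh := by
    apply U0_.one_mem_of
    intro ℓ hℓ
    obtain ⟨n, hn, hm⟩ := hA D q hq hD ε γ hγ ℓ hℓ
    refine ⟨n, hn, ?_⟩
    rw [U0_.mem_S, zpow_natCast]
    exact hm
  rw [U0_.mem_S, zpow_one] at h1
  exact h1

end K3S
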