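import Pool.Agent.K3S.TargetsA

set_option autoImplicit false
set_option linter.unusedSectionVars false

/-!
# K3S, part A: target U0A (helper32)
-/

namespace K3S

open Matrix

namespace U0A_

variable {D : ℤ} [NS D]

theorem HA_mul (a b : (AA D)ˣ) : HA (a * b) = HA a * HA b := by
  apply gg_ext
  · simp [HA, HH, mul_00]
  · simp [HA, HH, mul_01]
  · simp [HA, HH, mul_10]
  · simp [HA, HH, mul_11, mul_comm]

theorem HA_one : HA (1 : (AA D)ˣ) = 1 := by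
  apply gg_ext
  · simp [HA, HH, one_00]
  · simp [HA, HH, one_01]
  · simp [HA, HH, one_10]
  · simp [HA, HH, one_11]

theorem HA_pow (a : (AA D)ˣ) (n : ℕ) : HA (a ^ n) = HA a ^ n := by
  induction n with
  | zero => rw [pow_zero, pow_zero, HA_one]
  | succ n ih => rw [pow_succ, pow_succ, HA_mul, ih]

theorem jd_one (x : AA D) : Jd 1 (ii D x) := ⟨x, by simp⟩

theorem pa_HA (a : (AA D)ˣ) : pa (HA a) = ii D (a : AA D) := rfl
theorem pb_HA (a : (AA D)ˣ) : pb (HA a) = 0 := rfl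
theorem pc_HA (a : (AA D)ˣ) : pc (HA a) = 0 := rfl
theorem pd_HA (a : (AA D)ˣ) : pd (HA a) = ii D ((a⁻¹ : (AA D)ˣ) : AA D) := by
  simp only [HA, HH, mk4_11]
  rw [← map_inv]
  rfl

theorem HA_mem (a : (AA D)ˣ) : HA a ∈ (Gam 1 : Subgroup (GG D)) := by
  refine ⟨?_, ?_, ?_, ?_⟩
  · rw [pa_HA, ← map_one (ii D), ← map_sub]
    exact jd_one _
  · rw [pb_HA]; exact Jd.zero 1
  · rw [pc_HA]; exact Jd.zero 1
  · rw [pd_HA, ← map_one (ii D), ← map_sub]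
    exact jd_one _

theorem transfer {q : ℤ} {h γ γ' : GG D} (hh : h ∈ (Gam 1 : Subgroup (GG D)))
    (h1 : γ' * γ⁻¹ ∈ (UU q : Subgroup (GG D)))
    (h2 : h * γ' * h⁻¹ * γ'⁻¹ ∈ (UU q : Subgroup (GG D))) :
    h * γ * h⁻¹ * γ⁻¹ ∈ (UU q : Subgroup (GG D)) := by
  have h3 := UU_conj_one hh h1
  have : h * γ * h⁻¹ * γ⁻¹ =
      (h * (γ' * γ⁻¹) * h⁻¹)⁻¹ * (h * γ' * h⁻¹ * γ'⁻¹) * (γ' * γ⁻¹) := by
    group
  rw [this]
  exact mul_mem (mul_mem (inv_mem h3) h2) h1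

theorem move {q : ℤ} {γ e : GG D} (hγ : γ ∈ (Gam q : Subgroup (GG D)))
    (he : e ∈ (UU q : Subgroup (GG D))) :
    γ * e ∈ (Gam q : Subgroup (GG D)) ∧ (γ * e) * γ⁻¹ ∈ (UU q : Subgroup (GG D)) :=
  ⟨mul_mem hγ (UU_le q he), UU_conj_one (Gam_mono (one_dvd q) hγ) he⟩

theorem jd_q (q : ℤ) (x : AA D) : Jd q (ii D ((q : AA D) * x)) := ⟨x, rfl⟩

theorem cop {m : ℤ} {b : AA D} (h : IsCoprime (m : AA D) b) : IsCoprime m b.norm := by
  have h1 : IsCoprime (m : AA D) (star b) := by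
    obtain ⟨x, y, hxy⟩ := h
    refine ⟨star x, star y, ?_⟩
    have := congrArg star hxy
    rw [star_add, star_mul', star_mul', star_one] at this
    rw [← this]
    congr 2
  have h2 : IsCoprime (m : AA D) (b * star b) := h.mul_right h1
  rw [← Zsqrtd.norm_eq_mul_conj] at h2
  obtain ⟨x, y, hxy⟩ := h2
  refine ⟨x.re, y.re, ?_⟩
  have := congrArg Zsqrtd.re hxy
  simpa using this

end U0A_

open U0A_ in
theorem p_U0A (hRAT : T_RAT) (hADJ : T_ADJ) (hDIR : T_DIR) (hFROB : T_FROB) : T_U0A := by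
  intro D _ q hq h4 ε γ hγ ℓ hℓ
  obtain ⟨γ', hγ', hu, m, b, ha, hb, hm, hc⟩ := hRAT D q hq γ hγ
  have h4q : 4 ∣ q := (Dvd.intro D rfl).trans h4
  have hm0 : m ≠ 0 := by
    rintro rfl
    have h1 : (4 : ℤ) ∣ 0 - 1 := (h4q.trans (Dvd.intro_left (q ^ 2) (by ring))).trans hm
    omega
  obtain ⟨t, ht1, ht2⟩ := hADJ D m b ℓ 1 hm0 hc hℓ (Or.inl rfl)
  set b' : AA D := b + t * (m : AA D) with hb'
  have hc' : IsCoprime (m : AA D) b' := by
    exact hc.add_mul_right_right t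
  have hn0 : b'.norm ≠ 0 := by
    intro h0
    rw [h0] at ht2
    simp at ht2
  obtain ⟨p, hp, hpd, hpl⟩ := hDIR q m b'.norm ℓ hq h4q hm (cop hc') hn0 hℓ (Or.inr ht1)
  have hq3 : q ^ 3 ∣ (p : ℤ) + 1 := by
    have h1 : q ^ 3 ∣ (p : ℤ) + m := (Dvd.intro _ rfl).trans hpd
    have h2 := dvd_sub h1 hm
    rwa [show (p : ℤ) + m - (m - 1) = p + 1 by ring] at h2
  have h4p : 4 * D ∣ (p : ℤ) + 1 := (h4.trans (Dvd.intro_left (q ^ 2) (by ring))).trans hq3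
  obtain ⟨j, hj⟩ := hpd
  refine ⟨(p - 1) / 2, hpl, ?_⟩
  set n := (p - 1) / 2 with hn
  have hn2 : p = 2 * n + 1 := by
    have h1 : (4 : ℤ) ∣ (p : ℤ) + 1 := (Dvd.intro D rfl).trans h4p
    have := hp.one_lt
    omega
  rw [← HA_pow]
  refine transfer (HA_mem _) hu ?_
  -- first move
  obtain ⟨g1, g2⟩ := move hγ' (E12_mem (jd_q q ((q : AA D) * t)))
  refine transfer (HA_mem _) g2 ?_
  set γ2 := γ' * E12 (ii D ((q : AA D) * ((q : AA D) * t))) with hγ2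
  have a2 : pa γ2 = (m : KK D) := by
    rw [hγ2, mul_00]; simp [E12, ha]
  have b2 : pb γ2 = ii D ((q : AA D) ^ 2 * b') := by
    rw [hγ2, mul_01, ha, hb, ← ii_intCast]
    simp only [E12, mk4_01, mk4_11, hb', map_mul, map_add, map_pow]
    ring
  -- second move
  obtain ⟨g3, g4⟩ := move g1 (E21_mem (jd_q q (-(star b' * (j : AA D)))))
  refine transfer (HA_mem _) g4 ?_
  set γ3 := γ2 * E21 (ii D ((q : AA D) * (-(star b' * (j : AA D))))) with hγ3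
  have a3 : pa γ3 = -(p : KK D) := by
    have h1 : (p : AA D) + m = (q : AA D) ^ 3 * (b' * star b') * j := by
      rw [← Zsqrtd.norm_eq_mul_conj]
      exact_mod_cast congrArg (Int.cast : ℤ → AA D) hj
    have h2 := congrArg (ii D) h1
    rw [hγ3, mul_00, a2, b2]
    simp only [E21, mk4_00, mk4_10, map_mul, map_add, map_pow, map_natCast, map_intCast,
      map_neg] at h2 ⊢
    linear_combination h2
  have b3 : pb γ3 = ii D ((q : AA D) ^ 2 * b') := by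
    rw [hγ3, mul_01, b2]; simp [E21]
  -- Frobenius
  obtain ⟨w, hw⟩ : (p : AA D) ∣ (ε : AA D) ^ (2 * n) - 1 := by
    obtain ⟨w, hw⟩ := hFROB D p NS.pos hp h4p (ε : AA D)
    refine ⟨w * ((ε⁻¹ : (AA D)ˣ) : AA D), ?_⟩
    have h1 : (ε : AA D) * ((ε⁻¹ : (AA D)ˣ) : AA D) = 1 := Units.mul_inv ε
    rw [← mul_assoc, ← hw]
    conv_rhs => rw [hn2]
    rw [pow_succ]
    linear_combination (-(ε : AA D) ^ (2 * n) + 1) * h1
  set u : (AA D)ˣ := ε ^ n with hu'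
  have hu2 : ((u : AA D)) ^ 2 - 1 = (p : AA D) * w := by
    rw [← hw, hu', Units.val_pow_eq_pow_val, ← pow_mul, mul_comm n 2]
  obtain ⟨g5, g6⟩ := move g3 (E12_mem (jd_q q (-(w * (q : AA D) * b'))))
  set γ4 := γ3 * E12 (ii D ((q : AA D) * (-(w * (q : AA D) * b')))) with hγ4
  have g7 : HA u * γ3 * (HA u)⁻¹ ∈ (Gam q : Subgroup (GG D)) := Gam_conj (HA_mem _) g3
  have hiu : ii D (u : AA D) * ii D ((u⁻¹ : (AA D)ˣ) : AA D) = 1 := by
    rw [← map_mul, Units.mul_inv, map_one]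
  have e1 : pa γ4 = pa (HA u * γ3 * (HA u)⁻¹) := by
    rw [hγ4]
    simp only [mul_00, mul_01, inv_00, inv_10, pa_HA, pb_HA, pc_HA, pd_HA, E12, mk4_00, mk4_10]
    linear_combination -(pa γ3) * hiu
  have e2 : pb γ4 = pb (HA u * γ3 * (HA u)⁻¹) := by
    have h2 := congrArg (ii D) hu2
    rw [hγ4]
    simp only [mul_00, mul_01, inv_01, inv_11, pa_HA, pb_HA, E12, mk4_01, mk4_11,
      a3, b3, map_mul, map_neg, map_pow, map_sub, map_one, map_natCast] at h2 ⊢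
    linear_combination -(ii D (q : AA D) ^ 2 * ii D b') * h2
  have e3 := row g5 g7 e1 e2
  have e4 := mul_mem e3 g6
  have e5 : HA u * γ3 * (HA u)⁻¹ * γ4⁻¹ * (γ4 * γ3⁻¹) = HA u * γ3 * (HA u)⁻¹ * γ3⁻¹ := by
    group
  rwa [e5] at e4

end K3S
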