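import Pool.Agent.K3S.ADJ
import Pool.Agent.K3S.COM
import Pool.Agent.K3S.DIR
import Pool.Agent.K3S.EPS
import Pool.Agent.K3S.EXG
import Pool.Agent.K3S.FROB
import Pool.Agent.K3S.JA
import Pool.Agent.K3S.JB
import Pool.Agent.K3S.PE
import Pool.Agent.K3S.PG
import Pool.Agent.K3S.POW
import Pool.Agent.K3S.PR
import Pool.Agent.K3S.RAT
import Pool.Agent.K3S.SA
import Pool.Agent.K3S.SGN
import Pool.Agent.K3S.SM
import Pool.Agent.K3S.SQR
import Pool.Agent.K3S.SR
import Pool.Agent.K3S.THE
import Pool.Agent.K3S.THM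
import Pool.Agent.K3S.U0
import Pool.Agent.K3S.U0A

/-!
# Theorem S: principal congruence groups of `SL₂(ℤ√D)` are generated by unipotent matrices
-/

set_option autoImplicit false

namespace K3S

theorem prove_SA : T_SA := p_SA p_SR
theorem prove_RAT : T_RAT := p_RAT prove_SA p_PR
theorem prove_U0 : T_U0 := p_U0 (p_U0A prove_RAT p_ADJ p_DIR p_FROB)
theorem prove_PG : T_PG := p_PG (p_PE prove_U0 p_EPS)
theorem prove_COM : T_COM := p_COM prove_PG prove_SA
theorem prove_THE : T_THE := p_THE prove_PG p_SR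
theorem prove_SM : T_SM := p_SM prove_THE p_EXG
theorem prove_POW : T_POW := p_POW prove_SM prove_COM p_EXG p_FROB
theorem prove_SGN : T_SGN := p_SGN prove_RAT p_ADJ p_DIR (p_JA p_JB) p_JB

/-- Theorem S. -/
theorem prove_THM : T_THM := p_THM prove_SGN (p_SQR p_FROB) prove_POW

end K3S
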