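import Mathlib

/-!
# MP_98be90_ag, anisotropic Neron-Severi lattices of rank two: matrices over `ℤ√D` (helper19)

`A = AA D = ℤ√D`, `K = KK D = ℚ(√D)` (`QuadraticAlgebra ℚ D 0`), `ii : A → K` the inclusion,
`GG D = SL₂(K)`.  `Gam q` = the matrices with entries in `A` which are `1` modulo `q`,
`UU q` = the subgroup generated by the matrices of trace `2` (unipotent) in `Gam q`.
-/

set_option autoImplicit false
set_option linter.unusedSectionVars false
set_option linter.unusedSimpArgs false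

namespace K3S

open Matrix

/-- `D > 0` is not a square -/
class NS (D : ℤ) : Prop where
  pos : 0 < D
  nsq : ¬ IsSquare D

/-- the order `ℤ√D` -/
abbrev AA (D : ℤ) : Type := Zsqrtd D

/-- the field `ℚ(√D)` -/
abbrev KK (D : ℤ) : Type := QuadraticAlgebra ℚ (D : ℚ) 0

instance instFact (D : ℤ) [h : NS D] : Fact (∀ r : ℚ, r ^ 2 ≠ (D : ℚ) + 0 * r) := by
  refine ⟨fun r hr ↦ h.nsq ?_⟩
  have h1 : r * r = (D : ℚ) := by rw [← sq, hr]; ring
  have h2 : IsSquare (D : ℚ) := ⟨r, h1.symm⟩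
  exact_mod_cast Rat.isSquare_intCast_iff.mp h2

/-- `SL₂(K)` -/
abbrev GG (D : ℤ) [NS D] : Type := SpecialLinearGroup (Fin 2) (KK D)

/-- the inclusion `A → K` -/
def ii (D : ℤ) : AA D →+* KK D where
  toFun x := ⟨x.re, x.im⟩
  map_one' := by ext <;> simp [QuadraticAlgebra.re_one, QuadraticAlgebra.im_one]
  map_mul' x y := by
    ext
    · simp [Zsqrtd.re_mul]
    · simp [Zsqrtd.im_mul]
  map_zero' := by ext <;> simp
  map_add' x y := by ext <;> simp

@[simp] theorem ii_re (D : ℤ) (x : AA D) : (ii D x).re = x.re := rfl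
@[simp] theorem ii_im (D : ℤ) (x : AA D) : (ii D x).im = x.im := rfl

theorem ii_inj (D : ℤ) : Function.Injective (ii D) := by
  intro x y h
  have h1 := congrArg QuadraticAlgebra.re h
  have h2 := congrArg QuadraticAlgebra.im h
  simp only [ii_re, ii_im, Int.cast_inj] at h1 h2
  exact Zsqrtd.ext h1 h2

theorem ii_intCast (D : ℤ) (n : ℤ) : ii D (n : AA D) = (n : KK D) := map_intCast _ _

variable {D : ℤ} [NS D]

/-- the matrix with entries `a b c d` -/
def mk4 (a b c d : KK D) (h : a * d - b * c = 1) : GG D :=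
  ⟨!![a, b; c, d], by rw [Matrix.det_fin_two_of]; exact h⟩

/-- the four entries of a matrix `(pa, pb; pc, pd)` -/
def pa (g : GG D) : KK D := g.1 0 0
/-- entry `0 1` -/
def pb (g : GG D) : KK D := g.1 0 1
/-- entry `1 0` -/
def pc (g : GG D) : KK D := g.1 1 0
/-- entry `1 1` -/
def pd (g : GG D) : KK D := g.1 1 1

@[simp] theorem mk4_00 (a b c d : KK D) (h : a * d - b * c = 1) : pa (mk4 a b c d h) = a := rfl
@[simp] theorem mk4_01 (a b c d : KK D) (h : a * d - b * c = 1) : pb (mk4 a b c d h) = b := rfl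
@[simp] theorem mk4_10 (a b c d : KK D) (h : a * d - b * c = 1) : pc (mk4 a b c d h) = c := rfl
@[simp] theorem mk4_11 (a b c d : KK D) (h : a * d - b * c = 1) : pd (mk4 a b c d h) = d := rfl

theorem gg_ext {g g' : GG D} (h00 : pa g = pa g') (h01 : pb g = pb g') (h10 : pc g = pc g')
    (h11 : pd g = pd g') : g = g' := by
  apply Subtype.ext
  refine Matrix.ext fun i j ↦ ?_
  fin_cases i <;> fin_cases j
  · exact h00
  · exact h01
  · exact h10
  · exact h11

theorem gg_det (g : GG D) : pa g * pd g - pb g * pc g = 1 := by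
  have := g.2
  rwa [Matrix.det_fin_two] at this

theorem mul_00 (g g' : GG D) : pa (g * g') = pa g * pa g' + pb g * pc g' := by
  change (g.1 * g'.1) 0 0 = _
  rw [Matrix.mul_apply, Fin.sum_univ_two]; rfl
theorem mul_01 (g g' : GG D) : pb (g * g') = pa g * pb g' + pb g * pd g' := by
  change (g.1 * g'.1) 0 1 = _
  rw [Matrix.mul_apply, Fin.sum_univ_two]; rfl
theorem mul_10 (g g' : GG D) : pc (g * g') = pc g * pa g' + pd g * pc g' := by
  change (g.1 * g'.1) 1 0 = _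
  rw [Matrix.mul_apply, Fin.sum_univ_two]; rfl
theorem mul_11 (g g' : GG D) : pd (g * g') = pc g * pb g' + pd g * pd g' := by
  change (g.1 * g'.1) 1 1 = _
  rw [Matrix.mul_apply, Fin.sum_univ_two]; rfl

theorem inv_00 (g : GG D) : pa g⁻¹ = pd g := by
  change (Matrix.adjugate g.1) 0 0 = _
  rw [Matrix.adjugate_fin_two]; rfl
theorem inv_01 (g : GG D) : pb g⁻¹ = -pb g := by
  change (Matrix.adjugate g.1) 0 1 = _
  rw [Matrix.adjugate_fin_two]; rfl
theorem inv_10 (g : GG D) : pc g⁻¹ = -pc g := by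
  change (Matrix.adjugate g.1) 1 0 = _
  rw [Matrix.adjugate_fin_two]; rfl
theorem inv_11 (g : GG D) : pd g⁻¹ = pa g := by
  change (Matrix.adjugate g.1) 1 1 = _
  rw [Matrix.adjugate_fin_two]; rfl

theorem one_00 : pa (1 : GG D) = 1 := rfl
theorem one_01 : pb (1 : GG D) = 0 := rfl
theorem one_10 : pc (1 : GG D) = 0 := rfl
theorem one_11 : pd (1 : GG D) = 1 := rfl

/-- upper elementary matrix -/
def E12 (x : KK D) : GG D := mk4 1 x 0 1 (by ring)
/-- lower elementary matrix -/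
def E21 (x : KK D) : GG D := mk4 1 0 x 1 (by ring)
/-- diagonal matrix `diag(u, u⁻¹)` -/
def HH (u : (KK D)ˣ) : GG D :=
  mk4 (u : KK D) 0 0 ((u⁻¹ : (KK D)ˣ) : KK D) (by rw [Units.mul_inv]; ring)

/-- `x ∈ q A` -/
def Jd (q : ℤ) (x : KK D) : Prop := ∃ y : AA D, x = ii D ((q : AA D) * y)

theorem Jd.zero (q : ℤ) : Jd q (0 : KK D) := ⟨0, by simp⟩
theorem Jd.add {q : ℤ} {x y : KK D} (hx : Jd q x) (hy : Jd q y) : Jd q (x + y) := by
  obtain ⟨a, rfl⟩ := hx
  obtain ⟨b, rfl⟩ := hy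
  exact ⟨a + b, by rw [mul_add, map_add]⟩
theorem Jd.neg {q : ℤ} {x : KK D} (hx : Jd q x) : Jd q (-x) := by
  obtain ⟨a, rfl⟩ := hx
  exact ⟨-a, by rw [mul_neg, map_neg]⟩
theorem Jd.sub {q : ℤ} {x y : KK D} (hx : Jd q x) (hy : Jd q y) : Jd q (x - y) := by
  rw [sub_eq_add_neg]; exact hx.add hy.neg
theorem Jd.mul_ii {q : ℤ} {x : KK D} (hx : Jd q x) (y : AA D) : Jd q (x * ii D y) := by
  obtain ⟨a, rfl⟩ := hx
  exact ⟨a * y, by rw [← mul_assoc, map_mul _ _ y]⟩
theorem Jd.exists_ii {q : ℤ} {x : KK D} (hx : Jd q x) : ∃ a : AA D, x = ii D a := by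
  obtain ⟨a, rfl⟩ := hx
  exact ⟨_, rfl⟩
theorem Jd.mul {q : ℤ} {x y : KK D} (hx : Jd q x) (hy : Jd q y) : Jd q (x * y) := by
  obtain ⟨b, rfl⟩ := hy.exists_ii
  exact hx.mul_ii b
theorem Jd.dvd {q q' : ℤ} (h : q ∣ q') {x : KK D} (hx : Jd q' x) : Jd q x := by
  obtain ⟨a, rfl⟩ := hx
  obtain ⟨c, rfl⟩ := h
  exact ⟨c * a, by push_cast; rw [mul_assoc]⟩
theorem jd_iff {q : ℤ} (a : AA D) : Jd q (ii D a) ↔ (q : AA D) ∣ a := by
  constructor
  · rintro ⟨y, hy⟩
    exact ⟨y, ii_inj D hy⟩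
  · rintro ⟨y, rfl⟩
    exact ⟨y, rfl⟩

/-- membership in the principal congruence group -/
def InG (q : ℤ) (g : GG D) : Prop :=
  Jd q (pa g - 1) ∧ Jd q (pb g) ∧ Jd q (pc g) ∧ Jd q (pd g - 1)

/-- the principal congruence group of `SL₂(A)`, as a subgroup of `SL₂(K)` -/
def Gam (q : ℤ) : Subgroup (GG D) where
  carrier := {g | InG q g}
  one_mem' := by
    refine ⟨?_, ?_, ?_, ?_⟩
    · rw [one_00, sub_self]; exact Jd.zero q
    · rw [one_01]; exact Jd.zero q
    · rw [one_10]; exact Jd.zero q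
    · rw [one_11, sub_self]; exact Jd.zero q
  mul_mem' := by
    rintro g g' ⟨h1, h2, h3, h4⟩ ⟨k1, k2, k3, k4⟩
    refine ⟨?_, ?_, ?_, ?_⟩
    · rw [mul_00, show pa g * pa g' + pb g * pc g' - 1 =
        (pa g - 1) * (pa g' - 1) + (pa g - 1) + (pa g' - 1) + pb g * pc g' by ring]
      exact (((h1.mul k1).add h1).add k1).add (h2.mul k3)
    · rw [mul_01, show pa g * pb g' + pb g * pd g' =
        (pa g - 1) * pb g' + pb g' + (pb g * (pd g' - 1) + pb g) by ring]
      exact ((h1.mul k2).add k2).add ((h2.mul k4).add h2)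
    · rw [mul_10, show pc g * pa g' + pd g * pc g' =
        pc g * (pa g' - 1) + pc g + ((pd g - 1) * pc g' + pc g') by ring]
      exact ((h3.mul k1).add h3).add ((h4.mul k3).add k3)
    · rw [mul_11, show pc g * pb g' + pd g * pd g' - 1 =
        pc g * pb g' + ((pd g - 1) * (pd g' - 1) + (pd g - 1) + (pd g' - 1)) by ring]
      exact (h3.mul k2).add (((h4.mul k4).add h4).add k4)
  inv_mem' := by
    rintro g ⟨h1, h2, h3, h4⟩
    refine ⟨?_, ?_, ?_, ?_⟩
    · rw [inv_00]; exact h4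
    · rw [inv_01]; exact h2.neg
    · rw [inv_10]; exact h3.neg
    · rw [inv_11]; exact h1

theorem mem_Gam {q : ℤ} {g : GG D} : g ∈ Gam q ↔ InG q g := Iff.rfl

theorem Gam_mono {q q' : ℤ} (h : q ∣ q') : (Gam q' : Subgroup (GG D)) ≤ Gam q := by
  rintro g ⟨h1, h2, h3, h4⟩
  exact ⟨h1.dvd h, h2.dvd h, h3.dvd h, h4.dvd h⟩

/-- the subgroup generated by the unipotent elements of `Gam q` -/
def UU (q : ℤ) : Subgroup (GG D) :=
  Subgroup.closure {u : GG D | u ∈ (Gam q : Subgroup (GG D)) ∧ pa u + pd u = 2}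

theorem UU_le (q : ℤ) : (UU q : Subgroup (GG D)) ≤ Gam q := by
  rw [UU, Subgroup.closure_le]
  rintro u ⟨hu, _⟩
  exact hu

theorem UU_mono {q q' : ℤ} (h : q ∣ q') : (UU q' : Subgroup (GG D)) ≤ UU q := by
  rw [UU, Subgroup.closure_le]
  rintro u ⟨hu, hu'⟩
  exact Subgroup.subset_closure ⟨Gam_mono h hu, hu'⟩

theorem E12_mem {q : ℤ} {x : KK D} (hx : Jd q x) : E12 x ∈ (UU q : Subgroup (GG D)) := by
  refine Subgroup.subset_closure ⟨⟨?_, hx, Jd.zero q, ?_⟩, ?_⟩
  · simpa [E12] using Jd.zero q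
  · simpa [E12] using Jd.zero q
  · simp only [E12, mk4_00, mk4_11]; norm_num

theorem E21_mem {q : ℤ} {x : KK D} (hx : Jd q x) : E21 x ∈ (UU q : Subgroup (GG D)) := by
  refine Subgroup.subset_closure ⟨⟨?_, Jd.zero q, hx, ?_⟩, ?_⟩
  · simpa [E21] using Jd.zero q
  · simpa [E21] using Jd.zero q
  · simp only [E21, mk4_00, mk4_11]; norm_num

/-- conjugation does not change the trace -/
theorem trace_conj (g u : GG D) :
    pa (g * u * g⁻¹) + pd (g * u * g⁻¹) = pa u + pd u := by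
  simp only [mul_00, mul_01, mul_10, mul_11, inv_00, inv_01, inv_10, inv_11]
  linear_combination (pa u + pd u) * gg_det g

/-- if `g` conjugates `Gam q₁` into `Gam q`, then it conjugates `UU q₁` into `UU q` -/
theorem UU_conj {q q₁ : ℤ} (g : GG D)
    (hg : ∀ γ ∈ (Gam q₁ : Subgroup (GG D)), g * γ * g⁻¹ ∈ (Gam q : Subgroup (GG D)))
    {u : GG D} (hu : u ∈ (UU q₁ : Subgroup (GG D))) : g * u * g⁻¹ ∈ (UU q : Subgroup (GG D)) := by
  have h : (UU q₁ : Subgroup (GG D)) ≤ (UU q).comap (MulAut.conj g).toMonoidHom := by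
    rw [UU, Subgroup.closure_le]
    rintro v ⟨hv, hv'⟩
    refine Subgroup.subset_closure ⟨hg v hv, ?_⟩
    have := trace_conj g v
    simp only [MulEquiv.toMonoidHom_eq_coe, MonoidHom.coe_coe, MulAut.conj_apply]
    rw [this, hv']
  exact h hu

/-- the entries of an element of `Gam 1` are in `A` -/
theorem Gam_one_entries {g : GG D} (hg : g ∈ (Gam 1 : Subgroup (GG D))) :
    ∃ a b c d : AA D, pa g = ii D a ∧ pb g = ii D b ∧ pc g = ii D c ∧ pd g = ii D d := by
  obtain ⟨h1, h2, h3, h4⟩ := hg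
  obtain ⟨a, ha⟩ := h1.exists_ii
  obtain ⟨b, hb⟩ := h2.exists_ii
  obtain ⟨c, hc⟩ := h3.exists_ii
  obtain ⟨d, hd⟩ := h4.exists_ii
  refine ⟨a + 1, b, c, d + 1, ?_, hb, hc, ?_⟩
  · rw [map_add, map_one, ← ha]; ring
  · rw [map_add, map_one, ← hd]; ring

/-- `Gam q` is normalised by `Gam 1` -/
theorem Gam_conj {q : ℤ} {g : GG D} (hg : g ∈ (Gam 1 : Subgroup (GG D))) {γ : GG D}
    (hγ : γ ∈ (Gam q : Subgroup (GG D))) : g * γ * g⁻¹ ∈ (Gam q : Subgroup (GG D)) := by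
  obtain ⟨a, b, c, d, ha, hb, hc, hd⟩ := Gam_one_entries hg
  obtain ⟨⟨x, hx⟩, ⟨y, hy⟩, ⟨z, hz⟩, ⟨w, hw⟩⟩ := hγ
  have hdet := gg_det g
  rw [ha, hb, hc, hd] at hdet
  have hx' : pa γ = 1 + ii D ((q : AA D) * x) := by rw [← hx]; ring
  have hw' : pd γ = 1 + ii D ((q : AA D) * w) := by rw [← hw]; ring
  refine ⟨⟨(a * x + b * z) * d - (a * y + b * w) * c, ?_⟩,
    ⟨-(a * x + b * z) * b + (a * y + b * w) * a, ?_⟩,
    ⟨(c * x + d * z) * d - (c * y + d * w) * c, ?_⟩,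
    ⟨-(c * x + d * z) * b + (c * y + d * w) * a, ?_⟩⟩
  · simp only [mul_00, mul_01, inv_00, inv_10, ha, hb, hc, hd, hx', hy, hz, hw', map_mul, map_add,
      map_sub]
    linear_combination hdet
  · simp only [mul_00, mul_01, inv_01, inv_11, ha, hb, hd, hx', hy, hz, hw', map_mul, map_add,
      map_neg]
    ring
  · simp only [mul_10, mul_11, inv_00, inv_10, ha, hc, hd, hx', hy, hz, hw', map_mul, map_add,
      map_sub]
    ring
  · simp only [mul_10, mul_11, inv_01, inv_11, ha, hb, hc, hd, hx', hy, hz, hw', map_mul, map_add,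
      map_neg]
    linear_combination hdet

/-- `UU q` is normalised by `Gam 1` -/
theorem UU_conj_one {q : ℤ} {g : GG D} (hg : g ∈ (Gam 1 : Subgroup (GG D))) {u : GG D}
    (hu : u ∈ (UU q : Subgroup (GG D))) : g * u * g⁻¹ ∈ (UU q : Subgroup (GG D)) :=
  UU_conj g (fun _ hγ ↦ Gam_conj hg hγ) hu

/-- two elements of `Gam q` with the same first row are equal modulo `UU q` -/
theorem row {q : ℤ} {γ γ' : GG D} (h : γ ∈ (Gam q : Subgroup (GG D)))
    (h' : γ' ∈ (Gam q : Subgroup (GG D))) (h0 : pa γ = pa γ') (h1 : pb γ = pb γ') :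
    γ' * γ⁻¹ ∈ (UU q : Subgroup (GG D)) := by
  have hm : γ' * γ⁻¹ ∈ (Gam q : Subgroup (GG D)) := mul_mem h' (inv_mem h)
  have he : γ' * γ⁻¹ = E21 (pc (γ' * γ⁻¹)) := by
    have hd := gg_det γ
    have hd' := gg_det γ'
    apply gg_ext
    · simp only [E21, mk4_00, mul_00, inv_00, inv_10, ← h0, ← h1]
      linear_combination hd
    · simp only [E21, mk4_01, mul_01, inv_01, inv_11, ← h0, ← h1]
      ring
    · rfl
    · simp only [E21, mk4_11, mul_11, inv_01, inv_11, h0, h1]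
      linear_combination hd'
  rw [he]
  exact E21_mem hm.2.2.1

end K3S
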