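import Pool.Agent.K3S.TargetsA

/-!
# MP_98be90_ag, part B: the quadratic space and the lattice (definitions, helper19)

`N` has the quadratic form `al x² + be x y + ga y²`, `D = be² - 4 al ga`.  `M = U ⊕ N` is embedded
in the space `VV D = ℚ × K × ℚ` of Hermitian matrices `(r, w; star w, t)`:
`e = (1, 0, 0)`, `f = (0, 0, al)`, `(x, y) ↦ (0, io x y, 0)`, `io x y = al x + y (be + √D)/2`
(`norm (io x y) = al (al x² + be x y + ga y²)`).  The form of `M` is `bb`; `qf = al * (form)/2`.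
`act a b c d ρ` is `X ↦ h X h* / ρ`, `h = (a, b; c, d)`.
-/

set_option autoImplicit false
set_option linter.unusedSectionVars false

namespace K3S

open Matrix

/-- the quadratic space -/
abbrev VV (D : ℤ) : Type := ℚ × KK D × ℚ

/-- the element `al x + y (be + √D)/2` of the module `𝔫` -/
def io (D al be : ℤ) (x y : ℚ) : KK D := ⟨al * x + be * y / 2, y / 2⟩

/-- `√D` -/
def sqD (D : ℤ) : KK D := ⟨0, 1⟩

/-- a rational number as an element of `K` -/
def cc (D : ℤ) (ρ : ℚ) : KK D := ⟨ρ, 0⟩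

/-- the quadratic form `norm w - r t` -/
def qf {D : ℤ} (v : VV D) : ℚ := v.2.1.norm - v.1 * v.2.2

/-- the bilinear form of `M` -/
def bb {D : ℤ} (al : ℤ) (v v' : VV D) : ℚ :=
  (2 * (v.2.1 * star v'.2.1).re - v.1 * v'.2.2 - v.2.2 * v'.1) / al

/-- the map `X ↦ h X h* / ρ` -/
def act {D : ℤ} (a b c d : KK D) (ρ : ℚ) : VV D →ₗ[ℚ] VV D where
  toFun v := ((a.norm * v.1 + 2 * (a * v.2.1 * star b).re + b.norm * v.2.2) / ρ,
    ρ⁻¹ • (v.1 • (a * star c) + a * v.2.1 * star d + b * star v.2.1 * star c +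
      v.2.2 • (b * star d)),
    (c.norm * v.1 + 2 * (c * v.2.1 * star d).re + d.norm * v.2.2) / ρ)
  map_add' v v' := by
    refine Prod.ext ?_ (Prod.ext ?_ ?_)
    · simp [mul_add, add_mul]; ring
    · simp only [Prod.fst_add, Prod.snd_add, star_add, mul_add, add_mul, add_smul, smul_add]
      abel
    · simp [mul_add, add_mul]; ring
  map_smul' s v := by
    refine Prod.ext ?_ (Prod.ext ?_ ?_)
    · simp; ring
    · apply QuadraticAlgebra.ext <;> simp <;> ring
    · simp; ring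

/-- the action of `SL₂(K)` -/
def actg {D : ℤ} [NS D] (g : GG D) : VV D →ₗ[ℚ] VV D := act (pa g) (pb g) (pc g) (pd g) 1

/-- the reflection in `e + f` -/
def s0 {D : ℤ} (al : ℤ) : VV D →ₗ[ℚ] VV D where
  toFun v := (-v.2.2 / al, v.2.1, -al * v.1)
  map_add' v v' := by
    refine Prod.ext ?_ (Prod.ext ?_ ?_)
    · simp; ring
    · simp
    · simp; ring
  map_smul' s v := by
    refine Prod.ext ?_ (Prod.ext ?_ ?_)
    · simp; ring
    · simp
    · simp; ring

/-- `ℤ` as a subring of `ℚ` -/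
def Zr : Subring ℚ := (Int.castRingHom ℚ).range

theorem mem_Zr {x : ℚ} : x ∈ Zr ↔ ∃ n : ℤ, x = n := by
  constructor
  · rintro ⟨n, rfl⟩
    exact ⟨n, rfl⟩
  · rintro ⟨n, rfl⟩
    exact ⟨n, rfl⟩

/-- the localisation of `ℤ` at `p` as a subring of `ℚ` -/
def ZP (p : ℕ) [Fact p.Prime] : Subring ℚ where
  carrier := {x | padicNorm p x ≤ 1}
  one_mem' := by simp
  zero_mem' := by simp
  mul_mem' := by
    intro a b ha hb
    simp only [Set.mem_ofPred_eq] at *
    rw [padicNorm.mul]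
    exact mul_le_one₀ ha (padicNorm.nonneg b) hb
  add_mem' := by
    intro a b ha hb
    simp only [Set.mem_ofPred_eq] at *
    exact le_trans padicNorm.nonarchimedean (max_le ha hb)
  neg_mem' := by
    intro a ha
    simp only [Set.mem_ofPred_eq] at *
    rwa [padicNorm.neg]

/-- `z` is in the module `𝔫` over `S` -/
def NN {D : ℤ} (S : Subring ℚ) (al be : ℤ) (z : KK D) : Prop :=
  ∃ x ∈ S, ∃ y ∈ S, z = io D al be x y

/-- `z` is in the order `ℤ + ℤ (be + √D)/2` of discriminant `D`, over `S` -/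
def OO {D : ℤ} (S : Subring ℚ) (be : ℤ) (z : KK D) : Prop :=
  ∃ u ∈ S, ∃ v ∈ S, z = ⟨u + v * be / 2, v / 2⟩

/-- `v` is in the lattice `M` over `S` -/
def LL {D : ℤ} (S : Subring ℚ) (al be : ℤ) (v : VV D) : Prop :=
  v.1 ∈ S ∧ NN S al be v.2.1 ∧ ∃ s ∈ S, v.2.2 = al * s

/-- `φ` preserves the lattice `M` over `S` and acts trivially on `N*/N`
(`N* = (√D)⁻¹ 𝔫`) -/
def IL {D : ℤ} (S : Subring ℚ) (al be : ℤ) (φ : VV D →ₗ[ℚ] VV D) : Prop :=
  (∀ v, LL S al be v → LL S al be (φ v)) ∧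
    ∀ ν : KK D, NN S al be (sqD D * ν) → LL S al be (φ (0, ν, 0) - (0, ν, 0))

/-- the matrix `(a, b; c, d)` is in the even Clifford algebra of `M` over `S` -/
def RS {D : ℤ} (S : Subring ℚ) (al be : ℤ) (a b c d : KK D) : Prop :=
  OO S be a ∧ OO S be d ∧ NN S al be ((al : KK D) * b) ∧ NN S al be (star c)

/-- the same for an element of `SL₂(K)` -/
def RG {D : ℤ} [NS D] (S : Subring ℚ) (al be : ℤ) (g : GG D) : Prop :=
  RS S al be (pa g) (pb g) (pc g) (pd g)

/-- `s` is a unit of `S` -/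
def US (S : Subring ℚ) (s : ℚ) : Prop := s ∈ S ∧ s⁻¹ ∈ S ∧ s ≠ 0

/-- the group generated by the elementary matrices and the symmetric matrices in `R` -/
def KT (D : ℤ) [NS D] (al be : ℤ) : Subgroup (GG D) := Subgroup.closure
  ({g | ∃ x : KK D, NN Zr al be ((al : KK D) * x) ∧ g = E12 x} ∪
    {g | ∃ c : KK D, NN Zr al be (star c) ∧ g = E21 c} ∪
    {g | ∃ m s x y : ℤ, pa g = (m : KK D) ∧ (al : KK D) * pb g = io D al be x y ∧
      star (pc g) = io D al be x y ∧ pd g = (s : KK D)})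

/-- `h` is diagonal modulo `Q` -/
def DG {D : ℤ} [NS D] (al be Q : ℤ) (g : GG D) : Prop :=
  (∃ x y : ℤ, (al : KK D) * pb g = io D al be (Q * x) (Q * y)) ∧
    ∃ x y : ℤ, star (pc g) = io D al be (Q * x) (Q * y)

/-- `φ` is an isometry with positive spinor norm (rotation or rotation times `s0`) -/
def Pos {D : ℤ} (al : ℤ) (φ : VV D →ₗ[ℚ] VV D) : Prop :=
  ∃ (a b c d : KK D) (ρ : ℚ), 0 < ρ ∧ a * d - b * c = cc D ρ ∧
    (φ = act a b c d ρ ∨ φ = (act a b c d ρ).comp (s0 al))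

end K3S
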