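import Pool.Agent.K3S.TargetsB

/-!
# MP_98be90_ag, part C: the lattice `Λ` (definitions, helper19)

`Λ` is the Mukai lattice, `e = [X]`, `f = [pt]`, `F, G` a basis of `NS(X)` with
`F² = 2 al`, `(F, G) = be`, `G² = 2 ga`; `x₀, y₀` are dual vectors of `F, G` orthogonal to `e, f`;
`M = ⟨e, F, G, f⟩`.  `crd` maps `M` to the quadratic space `VV D`.
-/

set_option autoImplicit false
set_option linter.unusedSectionVars false

namespace K3S

open Matrix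

section

variable {Λ : Type} [AddCommGroup Λ]

/-- the situation -/
structure Sit (B : LinearMap.BilinForm ℤ Λ) (e f F G x₀ y₀ : Λ) (al be ga : ℤ) : Prop where
  symm : ∀ x y, B x y = B y x
  nondeg : ∀ x, (∀ y, B x y = 0) → x = 0
  ee : B e e = 0
  ff : B f f = 0
  ef : B e f = -1
  eF : B e F = 0
  eG : B e G = 0
  fF : B f F = 0
  fG : B f G = 0
  FF : B F F = 2 * al
  FG : B F G = be
  GG : B G G = 2 * ga
  ex : B e x₀ = 0
  fx : B f x₀ = 0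
  Fx : B F x₀ = 1
  Gx : B G x₀ = 0
  ey : B e y₀ = 0
  fy : B f y₀ = 0
  Fy : B F y₀ = 0
  Gy : B G y₀ = 1

/-- `v ∈ M = ⟨e, f, F, G⟩` -/
def InM (B : LinearMap.BilinForm ℤ Λ) (e f F G x₀ y₀ v : Λ) : Prop :=
  v = (-B f v) • e + (B x₀ v) • F + (B y₀ v) • G + (-B e v) • f

/-- `g` is an isometry which is the identity on `T = M^⊥` -/
def Good (B : LinearMap.BilinForm ℤ Λ) (e f F G : Λ) (g : Λ ≃ₗ[ℤ] Λ) : Prop :=
  (∀ x y, B (g x) (g y) = B x y) ∧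
    ∀ t, B e t = 0 ∧ B f t = 0 ∧ B F t = 0 ∧ B G t = 0 → g t = t

/-- a reflection in a `(-2)`-vector of `M` -/
def IsRf (B : LinearMap.BilinForm ℤ Λ) (e f F G : Λ) (g : Λ ≃ₗ[ℤ] Λ) : Prop :=
  ∃ δ ∈ Submodule.span ℤ {e, f, F, G}, B δ δ = -2 ∧ ∀ x, g x = x + B x δ • δ

/-- an Eichler transvection of `M` -/
def IsTv (B : LinearMap.BilinForm ℤ Λ) (e f F G : Λ) (g : Λ ≃ₗ[ℤ] Λ) : Prop :=
  ∃ z ∈ Submodule.span ℤ {e, f, F, G}, ∃ w ∈ Submodule.span ℤ {e, f, F, G}, ∃ m : ℤ,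
    B z z = 0 ∧ B z w = 0 ∧ B w w = 2 * m ∧
      ∀ x, g x = x + B z x • w - B w x • z - (m * B z x) • z

/-- the group generated by reflections and transvections -/
def KL (B : LinearMap.BilinForm ℤ Λ) (e f F G : Λ) : Subgroup (Λ ≃ₗ[ℤ] Λ) :=
  Subgroup.closure {g | IsRf B e f F G g ∨ IsTv B e f F G g}

/-- the coordinates of `v` (meaningful for `v ∈ M`) -/
def crd (D al be : ℤ) (B : LinearMap.BilinForm ℤ Λ) (e f x₀ y₀ : Λ) (v : Λ) : VV D :=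
  (((-B f v : ℤ) : ℚ), io D al be (B x₀ v : ℤ) (B y₀ v : ℤ), ((-al * B e v : ℤ) : ℚ))

/-- `g` acts on `M` as `φ` -/
def Re (D al be : ℤ) (B : LinearMap.BilinForm ℤ Λ) (e f F G x₀ y₀ : Λ) (g : Λ ≃ₗ[ℤ] Λ)
    (φ : VV D →ₗ[ℚ] VV D) : Prop :=
  Good B e f F G g ∧ ∀ v, InM B e f F G x₀ y₀ v → InM B e f F G x₀ y₀ (g v) ∧
    crd D al be B e f x₀ y₀ (g v) = φ (crd D al be B e f x₀ y₀ v)

/-- the orientation of the positive plane `⟨e - f, h⟩` is preserved -/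
def Orp (B : LinearMap.BilinForm ℤ Λ) (e f h : Λ) (g : Λ ≃ₗ[ℤ] Λ) : Prop :=
  0 < B (g (e - f)) (e - f) * B (g h) h - B (g (e - f)) h * B (g h) (e - f)

end

end K3S
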