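import Pool.Agent.K3S.All

/-!
# Final theorem for the situation `Sit`
-/

set_option autoImplicit false

namespace K3S

/-- The orientation preserving isometries of `Λ` trivial on `M^⊥` are exactly the products of
reflections and transvections of `M`. -/
theorem main_iff (D : ℤ) [NS D] (al be ga : ℤ) (hD : D = be ^ 2 - 4 * al * ga)
    (Λ : Type) [AddCommGroup Λ] (B : LinearMap.BilinForm ℤ Λ) (e f F G x₀ y₀ : Λ)
    (S : Sit B e f F G x₀ y₀ al be ga) (h : Λ) (hh : h ∈ Submodule.span ℤ {F, G})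
    (hpos : 0 < B h h) (g : Λ ≃ₗ[ℤ] Λ) :
    (Good B e f F G g ∧ Orp B e f h g) ↔ g ∈ KL B e f F G := by
  constructor
  · rintro ⟨h1, h2⟩
    exact prove_FWD D al be ga hD Λ B e f F G x₀ y₀ S h hh hpos g h1 h2
  · intro h1
    exact prove_BWD D al be ga hD Λ B e f F G x₀ y₀ S h hh hpos g h1

end K3S
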