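import Pool.Agent.K3S.TargetsB

set_option autoImplicit false

/-!
# LOK: if `p` divides the form then `norm d / ρ` is a unit at `p`
-/

namespace K3S

open Matrix

namespace LOK_

theorem small_of_dvd {p : ℕ} [Fact p.Prime] {n : ℤ} (h : (p : ℤ) ∣ n) {x : ℚ}
    (hx : x ∈ ZP p) : padicNorm p (n * x) < 1 := by
  have hx' : padicNorm p x ≤ 1 := hx
  rw [padicNorm.mul]
  have h1 : padicNorm p n < 1 := (padicNorm.int_lt_one_iff n).2 h
  exact mul_lt_one_of_nonneg_of_lt_one_left (padicNorm.nonneg _) h1 hx'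

theorem small_add {p : ℕ} [Fact p.Prime] {x y : ℚ} (hx : padicNorm p x < 1)
    (hy : padicNorm p y < 1) : padicNorm p (x + y) < 1 :=
  lt_of_le_of_lt padicNorm.nonarchimedean (max_lt hx hy)

theorem small_neg {p : ℕ} [Fact p.Prime] {x : ℚ} (hx : padicNorm p x < 1) :
    padicNorm p (-x) < 1 := by rwa [padicNorm.neg]

theorem act_f {D al : ℤ} (a b c d : KK D) (ρ : ℚ) : act a b c d ρ (0, 0, (al : ℚ)) =
    (al * b.norm / ρ, ((al : ℚ) / ρ) • (b * star d), al * (d.norm / ρ)) := by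
  refine Prod.ext ?_ (Prod.ext ?_ ?_)
  · simp [act]; ring
  · apply QuadraticAlgebra.ext <;> simp [act] <;> ring
  · simp [act]; ring

theorem act_e {D : ℤ} (a b c d : KK D) (ρ : ℚ) : act a b c d ρ (1, 0, 0) =
    (a.norm / ρ, ρ⁻¹ • (a * star c), c.norm / ρ) := by
  refine Prod.ext ?_ (Prod.ext ?_ ?_)
  · simp [act]
  · apply QuadraticAlgebra.ext <;> simp [act]
  · simp [act]

theorem act_n {D : ℤ} (a b c d : KK D) (ρ : ℚ) (ν : KK D) : act a b c d ρ (0, ν, 0) =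
    (2 * (a * ν * star b).re / ρ, ρ⁻¹ • (a * ν * star d + b * star ν * star c),
      2 * (c * ν * star d).re / ρ) := by
  refine Prod.ext ?_ (Prod.ext ?_ ?_)
  · simp [act]
  · apply QuadraticAlgebra.ext <;> simp [act]
  · simp [act]

/-- `norm b` times the reduced middle component -/
theorem key {D : ℤ} (a b c d ν : KK D) (ρ : ℚ) (hρ : ρ ≠ 0) (hdet : a * d - b * c = cc D ρ) :
    b.norm • (ρ⁻¹ • (a * ν * star d + b * star ν * star c)) -
      (2 * (a * ν * star b).re / ρ) • (b * star d) = -(b * b * star ν) := by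
  have h1 := congrArg QuadraticAlgebra.re hdet
  have h2 := congrArg QuadraticAlgebra.im hdet
  obtain ⟨a1, a2⟩ := a
  obtain ⟨b1, b2⟩ := b
  obtain ⟨c1, c2⟩ := c
  obtain ⟨d1, d2⟩ := d
  obtain ⟨n1, n2⟩ := ν
  simp [cc] at h1 h2
  apply QuadraticAlgebra.ext
  · simp [QuadraticAlgebra.norm_def]
    field_simp
    linear_combination (-((b1 ^ 2 + D * b2 ^ 2) * n1 - D * (2 * b1 * b2) * n2)) * h1 +
      (D * (2 * b1 * b2 * n1 - (b1 ^ 2 + D * b2 ^ 2) * n2)) * h2
  · simp [QuadraticAlgebra.norm_def]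
    field_simp
    linear_combination (-(2 * b1 * b2 * n1 - (b1 ^ 2 + D * b2 ^ 2) * n2)) * h1 +
      ((b1 ^ 2 + D * b2 ^ 2) * n1 - D * (2 * b1 * b2) * n2) * h2

theorem inv_mem {p : ℕ} [Fact p.Prime] {x : ℚ} (h : padicNorm p x = 1) : x⁻¹ ∈ ZP p := by
  have h1 : padicNorm p (1 / x) = 1 := by rw [padicNorm.div, h]; simp
  rw [inv_eq_one_div]
  exact h1.le

theorem ne_of_one {p : ℕ} [Fact p.Prime] {x : ℚ} (h : padicNorm p x = 1) : x ≠ 0 := by
  rintro rfl
  simp at h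

theorem small_mul {p : ℕ} [Fact p.Prime] {x y : ℚ} (hx : padicNorm p x < 1)
    (hy : y ∈ ZP p) : padicNorm p (x * y) < 1 := by
  have hy' : padicNorm p y ≤ 1 := hy
  rw [padicNorm.mul]
  exact mul_lt_one_of_nonneg_of_lt_one_left (padicNorm.nonneg _) hx hy'

theorem not_small_one {p : ℕ} [Fact p.Prime] : ¬ padicNorm p (1 : ℚ) < 1 := by simp

end LOK_

/-- LOK -/
theorem p_LOK (hN : T_NRM) : T_LOK := by
  intro D hns al be ga hD p hp hal hbe hga a b c d ρ hρ hdet hIL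
  obtain ⟨hL, hT⟩ := hIL
  have hal0' : al ≠ 0 := by
    rintro rfl
    exact hns.nsq ⟨be, by rw [hD]; ring⟩
  have hal0 : (al : ℚ) ≠ 0 := by exact_mod_cast hal0'
  have hD0 : (D : ℚ) ≠ 0 := by exact_mod_cast hns.pos.ne'
  have hDQ : (D : ℚ) = be ^ 2 - 4 * al * ga := by exact_mod_cast hD
  have z0 : (0 : ℚ) ∈ ZP p := zero_mem _
  have z1 : (1 : ℚ) ∈ ZP p := one_mem _
  have hn0 : NN (ZP p) al be (0 : KK D) := ⟨0, z0, 0, z0, by
    apply QuadraticAlgebra.ext <;> simp [io]⟩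
  have hf := hL (0, 0, (al : ℚ)) ⟨z0, hn0, 1, z1, by ring⟩
  have he := hL (1, 0, 0) ⟨z1, hn0, 0, z0, by ring⟩
  have hbb := (hN D al a b c d ρ hρ hdet (0, 0, (al : ℚ)) (1, 0, 0)).2
  rw [LOK_.act_f] at hf hbb
  rw [LOK_.act_e] at he hbb
  obtain ⟨hr, ⟨x, hx, y, hy, hw⟩, s, hs, hs'⟩ := hf
  obtain ⟨hr', ⟨x', hx', y', hy', hw'⟩, s', hs2, hs2'⟩ := he
  simp only at hr hw hs' hr' hw' hs2'
  rw [hw, hw', hs2'] at hbb
  have hS : d.norm / ρ ∈ ZP p := by
    have : s = d.norm / ρ := (mul_left_cancel₀ hal0 hs').symm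
    rwa [← this]
  set R : ℚ := al * b.norm / ρ with hR
  have E1 : R * s' = 1 + (al * (2 * (x * x')) + be * (x * y' + x' * y) + ga * (2 * (y * y'))) -
      (d.norm / ρ) * (a.norm / ρ) := by
    simp [bb, io] at hbb
    have hX := (div_left_inj' hal0).1 hbb
    refine mul_left_cancel₀ hal0 ?_
    linear_combination (-1) * hX - (y * y' / 2) * hDQ
  by_contra hUS
  have hSs : padicNorm p (d.norm / ρ) < 1 := by
    refine lt_of_le_of_ne hS (fun h => hUS ⟨hS, LOK_.inv_mem h, LOK_.ne_of_one h⟩)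
  have hR1 : padicNorm p R = 1 := by
    by_contra hne
    have hRs : padicNorm p R < 1 := lt_of_le_of_ne hr hne
    have h1 := LOK_.small_mul hRs hs2
    have h2 := LOK_.small_mul hSs hr'
    have m1 : (2 * (x * x')) ∈ ZP p := by
      rw [two_mul]; exact add_mem (mul_mem hx hx') (mul_mem hx hx')
    have m2 : (x * y' + x' * y) ∈ ZP p := add_mem (mul_mem hx hy') (mul_mem hx' hy)
    have m3 : (2 * (y * y')) ∈ ZP p := by
      rw [two_mul]; exact add_mem (mul_mem hy hy') (mul_mem hy hy')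
    have h3 := LOK_.small_add (LOK_.small_add (LOK_.small_of_dvd hal m1)
      (LOK_.small_of_dvd hbe m2)) (LOK_.small_of_dvd hga m3)
    have h4 : (1 : ℚ) = (R * s' + (d.norm / ρ) * (a.norm / ρ)) + -(al * (2 * (x * x')) +
        be * (x * y' + x' * y) + ga * (2 * (y * y'))) := by rw [E1]; ring
    have h5 := LOK_.small_add (LOK_.small_add h1 h2) (LOK_.small_neg h3)
    rw [← h4] at h5
    exact LOK_.not_small_one h5
  have hR0 : R ≠ 0 := LOK_.ne_of_one hR1
  have hRi : R⁻¹ ∈ ZP p := LOK_.inv_mem hR1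
  have hb0 : b.norm ≠ 0 := by
    intro h
    apply hR0
    rw [hR, h]
    simp
  set e : KK D := (-(b.norm)⁻¹) • (b * b) with he
  have hmu : ∀ ν : KK D, NN (ZP p) al be (sqD D * ν) →
      ∃ u ∈ ZP p, ∃ v ∈ ZP p, e * star ν - ν = io D al be u v := by
    intro ν hν
    have h1 := hT ν hν
    rw [LOK_.act_n] at h1
    obtain ⟨h2, ⟨u, hu, v, hv, h3⟩, -⟩ := h1
    simp only [Prod.fst_sub, Prod.snd_sub, sub_zero] at h2 h3
    set r₀ : ℚ := 2 * (a * ν * star b).re / ρ with hr₀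
    have h4 := LOK_.key a b c d ν ρ hρ hdet
    rw [← hr₀] at h4
    refine ⟨u - r₀ * R⁻¹ * x, sub_mem hu (mul_mem (mul_mem h2 hRi) hx),
      v - r₀ * R⁻¹ * y, sub_mem hv (mul_mem (mul_mem h2 hRi) hy), ?_⟩
    have h5 : io D al be (u - r₀ * R⁻¹ * x) (v - r₀ * R⁻¹ * y) =
        io D al be u v - (r₀ * R⁻¹) • io D al be x y := by
      apply QuadraticAlgebra.ext <;> simp [io] <;> ring
    rw [h5, ← h3, ← hw, smul_smul]
    have h6 : r₀ * R⁻¹ * (al / ρ) = (b.norm)⁻¹ * r₀ := by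
      rw [hR]
      field_simp
    rw [h6, ← smul_smul]
    have h7 : (b.norm)⁻¹ • (r₀ • (b * star d)) =
        ρ⁻¹ • (a * ν * star d + b * star ν * star c) - e * star ν := by
      have h8 : r₀ • (b * star d) = b.norm • (ρ⁻¹ • (a * ν * star d + b * star ν * star c)) +
          b * b * star ν := by
        rw [sub_eq_iff_eq_add] at h4
        rw [h4]
        abel
      rw [h8, smul_add, smul_smul, inv_mul_cancel₀ hb0, one_smul, he, neg_smul, neg_mul,
        sub_neg_eq_add, smul_mul_assoc]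
    rw [h7]
    abel
  obtain ⟨x₁, hx₁, y₁, hy₁, g1⟩ := hmu ⟨0, al / D⟩ ⟨1, z1, 0, z0, by
    apply QuadraticAlgebra.ext
    · simp [io, sqD]; field_simp
    · simp [io, sqD]⟩
  obtain ⟨x₂, hx₂, y₂, hy₂, g2⟩ := hmu ⟨1 / 2, be / (2 * D)⟩ ⟨0, z0, 1, z1, by
    apply QuadraticAlgebra.ext
    · simp [io, sqD]; field_simp
    · simp [io, sqD]⟩
  have q1 := congrArg QuadraticAlgebra.re g1
  have q2 := congrArg QuadraticAlgebra.im g1
  have q3 := congrArg QuadraticAlgebra.re g2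
  have q4 := congrArg QuadraticAlgebra.im g2
  simp [io] at q1 q2 q3 q4
  have k1 : -(al * e.im) = al * x₁ + be * y₁ / 2 := by
    rw [← q1]; field_simp
  have k2 : -(al * (e.re + 1)) = D * y₁ / 2 := by
    have h : (D : ℚ) * (-(e.re * (al / D)) - al / D) = D * (y₁ / 2) := by rw [q2]
    rw [mul_div_assoc, ← h]; field_simp; ring
  have k3 : (e.re - 1) / 2 - e.im * be / 2 = al * x₂ + be * y₂ / 2 := by
    rw [← q3]; field_simp; ring
  have k4 : -(e.re + 1) * be + D * e.im = D * y₂ := by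
    have h : (2 * D : ℚ) * (-(e.re * (be / (2 * D))) + e.im * 2⁻¹ - be / (2 * D)) =
        2 * D * (y₂ / 2) := by rw [q4]
    have h' : (2 * D : ℚ) * (y₂ / 2) = D * y₂ := by ring
    rw [← h', ← h]; field_simp; ring
  have k5 : (al : ℚ) * D * (y₂ + x₁) = 0 := by
    linear_combination (-al) * k4 + be * k2 - D * k1
  have k6 : y₂ + x₁ = 0 := by
    rcases mul_eq_zero.1 k5 with h | h
    · exact absurd h (mul_ne_zero hal0 hD0)
    · exact h
  have k7 : (al : ℚ) * (be * x₁ + ga * y₁ - al * x₂ - 1) = 0 := by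
    linear_combination al * k3 - be / 2 * k1 + 1 / 2 * k2 + al * be / 2 * k6 + y₁ / 4 * hDQ
  have k8 : (1 : ℚ) = be * x₁ + ga * y₁ + -(al * x₂) := by
    rcases mul_eq_zero.1 k7 with h | h
    · exact absurd h hal0
    · linarith
  have k9 := LOK_.small_add (LOK_.small_add (LOK_.small_of_dvd hbe hx₁)
    (LOK_.small_of_dvd hga hy₁)) (LOK_.small_neg (LOK_.small_of_dvd hal hx₂))
  rw [← k8] at k9
  exact LOK_.not_small_one k9

end K3S
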