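import Pool.Agent.K3S.TargetsA

/-!
# MP_98be90_ag, part A: Theorem S (THM)
-/

set_option autoImplicit false
set_option linter.unusedSectionVars false

namespace K3S

open Matrix

namespace THM_

variable {D : ℤ} [NS D]

theorem pow_eq {q : ℤ} {γ u e : GG D} (hγ : γ ∈ (Gam q : Subgroup (GG D)))
    (hu : u ∈ (UU q : Subgroup (GG D))) (he : e ∈ (UU q : Subgroup (GG D))) (k : ℕ) :
    ∃ v ∈ (UU q : Subgroup (GG D)), (u * γ * e) ^ k = v * γ ^ k := by
  have hγ1 : γ ∈ (Gam 1 : Subgroup (GG D)) := Gam_mono (one_dvd q) hγ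
  induction k with
  | zero => exact ⟨1, one_mem _, by simp⟩
  | succ k ih =>
    obtain ⟨v, hv, h⟩ := ih
    refine ⟨v * (γ ^ k * u * (γ ^ k)⁻¹) * (γ ^ (k + 1) * e * (γ ^ (k + 1))⁻¹),
      mul_mem (mul_mem hv (UU_conj_one (pow_mem hγ1 k) hu))
        (UU_conj_one (pow_mem hγ1 (k + 1)) he), ?_⟩
    rw [pow_succ, h, pow_succ γ k]
    group

theorem exists_pow (hSGN : T_SGN) (hSQR : T_SQR) (hPOW : T_POW) {q : ℤ} (hq : 0 < q)
    (hD : 4 * D ∣ q) {γ : GG D} (hγ : γ ∈ (Gam q : Subgroup (GG D))) {ℓ : ℕ} (hℓ : ℓ.Prime) :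
    ∃ k : ℕ, ¬ ℓ ∣ k ∧ γ ^ k ∈ (UU q : Subgroup (GG D)) := by
  obtain ⟨γ', hγ', hu, p, b, hp, hqp, hℓp, hpa, hpb, hcop, hj⟩ := hSGN D q hq hD γ hγ ℓ hℓ
  have hqp1 : q ∣ (p : ℤ) + 1 := (dvd_pow_self q (by norm_num)).trans hqp
  have hcq : IsCoprime (p : ℤ) q := by
    obtain ⟨w, hw⟩ := hqp1
    exact ⟨-1, w, by linear_combination -hw⟩
  have hcqA : IsCoprime (p : AA D) (q : AA D) := by
    have h := hcq.map (Int.castRingHom (AA D))
    simpa using h
  have hnorm : jacobiSym ((q : AA D) * b).norm p = 1 := by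
    rw [Zsqrtd.norm_mul, jacobiSym.mul_left, hj, mul_one, Zsqrtd.norm_intCast, ← sq]
    refine jacobiSym.sq_one' ?_
    rw [Int.gcd_comm]
    exact Int.isCoprime_iff_gcd_eq_one.1 hcq
  obtain ⟨g, hg, hor⟩ := hSQR D p ((q : AA D) * b) hp (hD.trans hqp1)
    (IsCoprime.mul_right hcqA hcop) hnorm
  have hex : ∃ z : AA D, (q : AA D) * b - (p : AA D) * z = g ^ 2 ∨
      (q : AA D) * b - (p : AA D) * z = -g ^ 2 := by
    rcases hor with ⟨z, hz⟩ | ⟨z, hz⟩
    · exact ⟨z, Or.inl (by linear_combination hz)⟩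
    · exact ⟨z, Or.inr (by linear_combination hz)⟩
  obtain ⟨z, hz⟩ := hex
  have hJ : Jd q (ii D ((q : AA D) * z)) := ⟨z, rfl⟩
  have he : E12 (ii D ((q : AA D) * z)) ∈ (UU q : Subgroup (GG D)) := E12_mem hJ
  have hγ'' : γ' * E12 (ii D ((q : AA D) * z)) ∈ (Gam q : Subgroup (GG D)) :=
    mul_mem hγ' (UU_le q he)
  have h0 : pa (γ' * E12 (ii D ((q : AA D) * z))) = -(p : KK D) := by
    rw [mul_00]
    simp only [E12, mk4_00, mk4_10]
    rw [hpa]
    ring
  have h1 : pb (γ' * E12 (ii D ((q : AA D) * z))) =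
      ii D ((q : AA D) * ((q : AA D) * b - (p : AA D) * z)) := by
    rw [mul_01]
    simp only [E12, mk4_01, mk4_11]
    rw [hpa, hpb]
    simp only [map_mul, map_sub, map_pow, map_natCast]
    ring
  have h2 : (γ' * E12 (ii D ((q : AA D) * z))) ^ ((p - 1) / 2) ∈
      (UU q : Subgroup (GG D)) := by
    refine hPOW D q hq hD p g hp hqp1 hg _ hγ'' h0 ?_
    rcases hz with hz | hz
    · left
      rw [h1, hz]
    · right
      rw [h1, hz, mul_neg, map_neg]
  have h3 : γ' * E12 (ii D ((q : AA D) * z)) =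
      (γ' * γ⁻¹) * γ * E12 (ii D ((q : AA D) * z)) := by group
  obtain ⟨v, hv, h4⟩ := pow_eq hγ hu he ((p - 1) / 2)
  rw [h3, h4] at h2
  refine ⟨(p - 1) / 2, hℓp, ?_⟩
  have h5 := mul_mem (inv_mem hv) h2
  rwa [inv_mul_cancel_left] at h5

end THM_

open THM_ in
theorem p_THM (hSGN : T_SGN) (hSQR : T_SQR) (hPOW : T_POW) : T_THM := by
  intro D _ q hq hD γ hγ
  let S : AddSubgroup ℤ :=
    { carrier := {k | γ ^ k ∈ (UU q : Subgroup (GG D))}
      zero_mem' := by
        change γ ^ (0 : ℤ) ∈ (UU q : Subgroup (GG D))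
        rw [_root_.zpow_zero]
        exact one_mem _
      add_mem' := by
        intro a b ha hb
        change γ ^ (a + b) ∈ (UU q : Subgroup (GG D))
        rw [_root_.zpow_add]
        exact mul_mem ha hb
      neg_mem' := by
        intro a ha
        change γ ^ (-a) ∈ (UU q : Subgroup (GG D))
        rw [_root_.zpow_neg]
        exact inv_mem ha }
  have hS : ∀ k : ℤ, k ∈ S ↔ γ ^ k ∈ (UU q : Subgroup (GG D)) := fun _ => Iff.rfl
  obtain ⟨a, ha⟩ := Int.subgroup_cyclic S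
  have haS : a ∈ S := by
    rw [ha]
    exact AddSubgroup.subset_closure rfl
  have hdvd : ∀ k : ℤ, k ∈ S → a ∣ k := by
    intro k hk
    rw [ha, AddSubgroup.mem_closure_singleton] at hk
    obtain ⟨n, hn⟩ := hk
    exact ⟨n, by rw [← hn, smul_eq_mul, mul_comm]⟩
  have hone : a.natAbs = 1 := by
    by_contra hne
    have hℓ := Nat.minFac_prime hne
    obtain ⟨k, hk, hk2⟩ := exists_pow hSGN hSQR hPOW hq hD hγ hℓ
    have h1 : (k : ℤ) ∈ S := by
      rw [hS, _root_.zpow_natCast]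
      exact hk2
    have h2 := hdvd _ h1
    have h3 : a.natAbs ∣ k := by
      have := Int.natAbs_dvd_natAbs.2 h2
      simpa using this
    exact hk ((Nat.minFac_dvd _).trans h3)
  have h1 : (1 : ℤ) ∈ S := by
    rcases Int.natAbs_eq_iff.1 hone with h | h
    · have h2 := haS
      rw [h] at h2
      exact_mod_cast h2
    · have h2 := S.neg_mem haS
      rw [h] at h2
      simpa using h2
  rw [hS, _root_.zpow_one] at h1
  exact h1

end K3S
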