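import Pool.Agent.K3S.Basic

/-!
# MP_98be90_ag, part A: `Gam q = UU q` in `SL₂(ℤ√D)` for `4D ∣ q` (targets, helper19)

THEOREM S (`T_THM`).  `D > 0` not a square, `0 < q`, `4D ∣ q`.  Every matrix of `SL₂(ℤ√D)` which
is `1` modulo `q` is a product of unipotent matrices which are `1` modulo `q`.
(Serre's congruence subgroup theorem for the order `ℤ√D`; the proof here uses only Dirichlet's
theorem over `ℤ` and the Jacobi symbol.)

CONVENTIONS.  `A = AA D = ℤ√D`, `K = KK D`, `ii D : A → K`, `GG D = SL₂(K)`; the entries of `g :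
GG D`
are `pa g, pb g, pc g, pd g`; lemmas `mul_00 .. mul_11`, `inv_00 .. inv_11`, `one_00 ..`, `gg_ext`,
`gg_det`; `E12 x`, `E21 x` elementary matrices, `HH u = diag(u, u⁻¹)`, `mk4 a b c d h`.
`Gam q`, `UU q` are subgroups of `GG D`; `C_q = Gam q / UU q`; the CLASS of `γ` depends only on its
first row `(a, b)` (lemma `row`).  MOVES: right multiplication by `E12 (ii (q t))` changes the row
`(a, b)` to `(a, b + q t a)`, by `E21 (ii (q t))` to `(a + q t b, b)`, `t ∈ A`; the class does not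
change.  Other lemmas of Basic: `Jd.*`, `jd_iff`, `UU_conj`, `UU_conj_one`, `Gam_conj`, `Gam_mono`,
`UU_mono`, `UU_le`, `E12_mem`, `E21_mem`, `Gam_one_entries`, `trace_conj`.

One job = one target `T_X`, proved as `theorem p_X (hypotheses = other targets of THIS file) : T_X`
in the NEW file `Pool/Agent/K3S/X.lean` (import this file), helper lemmas in the namespace `X_`.
-/

set_option autoImplicit false
set_option linter.unusedSectionVars false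

namespace K3S

open Matrix

/-- `diag(ε, ε⁻¹)` for a unit of `A` -/
def HA {D : ℤ} [NS D] (ε : (AA D)ˣ) : GG D := HH (Units.map (ii D).toMonoidHom ε)

/-- conjugation by `g` acts trivially on the limit of the groups `Gam q / UU q` -/
def PP {D : ℤ} [NS D] (g : GG D) : Prop := ∀ q : ℤ, 0 < q → 4 * D ∣ q →
  ∃ q₁ : ℤ, 0 < q₁ ∧ q ∣ q₁ ∧ ∀ γ ∈ (Gam q₁ : Subgroup (GG D)),
    g * γ * g⁻¹ ∈ (Gam q : Subgroup (GG D)) ∧ g * γ * g⁻¹ * γ⁻¹ ∈ (UU q : Subgroup (GG D))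

/-- SR: stable rank one of finite rings, relative form.

PROOF.  In the finite ring `B = A/NA` some power `e = a^n`, `n ≥ 1`, is idempotent.  `g w = a - 1`
gives `e = a^n = 1 + g w'`; `(1 - e) e = 0`, so `(1 - e) = -(1 - e) g w' = g t` with
`t = -(1 - e) w'`.  Claim: `x = a + (1 - e) b` is a unit of `B`.  If `x ∈ 𝔪` maximal: if
`1 - e ∈ 𝔪`, then `a ∈ 𝔪`, `e ∈ 𝔪`, contradiction; if `e ∈ 𝔪`, then `a ∈ 𝔪`, so `(1 - e) b ∈ 𝔪`,
`b ∈ 𝔪`, contradiction to `IsCoprime a b`.  Lift `t` to `A`. -/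
def T_SR : Prop := ∀ (D : ℤ) (a b g : AA D) (N : ℤ), N ≠ 0 → IsCoprime a b → g ∣ a - 1 →
  ∃ t : AA D, IsCoprime (a + g * t * b) (N : AA D)

/-- SA (from SR): strong approximation.

PROOF.  Row `(a, b)` of `γ`, `a = 1 mod q`, `b = 0 mod q`.  By SR (`g = q`, `N = q'`) and the move
`E21 (q t)` we may suppose that `a` is a unit modulo `q'`: `a ā = 1 mod q'`, `a = 1 + q x`.  Let
`κ = E21 1 * E12 (-q x) * E21 (-1) = (1 + q x, -q x; q x, 1 - q x)`, which is in `UU q` (trace 2).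
`γ E12(-ā b)` and `κ E12(ā q x)` have the first row `(a, 0)` modulo `q'` and so lower right entry
`ā` modulo `q'`; their quotient is `(1, 0; z, 1)` modulo `q'` with `q ∣ z`, so
`E21(-z) * quotient ∈ Gam q'`.  So `γ = u₁ γ' u₂`, `u₁, u₂ ∈ UU q`, `γ' ∈ Gam q'`; `UU q` is
normal in `Gam q` (`UU_conj_one`), hence `γ = u γ'`. -/
def T_SA : Prop := ∀ (D : ℤ) [NS D] (q q' : ℤ), 0 < q → 0 < q' → q ∣ q' →
  ∀ γ ∈ (Gam q : Subgroup (GG D)), ∃ u ∈ (UU q : Subgroup (GG D)),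
    u * γ ∈ (Gam q' : Subgroup (GG D))

/-- EXG: matrices with a given first row.

PROOF.  `a` is coprime to `q` (as `q ∣ a - 1`), to `b` and to `g`, so to `q g² b`:
`a d - b (q g² c) = 1`; `d = 1 mod q` because `a = 1`, `b = 0 mod q`. -/
def T_EXG : Prop := ∀ (D : ℤ) [NS D] (q : ℤ) (a b g : AA D), (q : AA D) ∣ a - 1 → (q : AA D) ∣ b →
  IsCoprime a b → IsCoprime a g → ∃ γ ∈ (Gam q : Subgroup (GG D)), pa γ = ii D a ∧
    pb γ = ii D b ∧ ∃ c : AA D, pc γ = ii D ((q : AA D) * g ^ 2 * c)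

/-- PR: a primitive element `b + t a`.

PROOF.  If `a = 0`, `b` is a unit and `t = 0` works (a common divisor `π` of `b.re, b.im` divides
`b` in `A`, so it is a unit).  Let `a ≠ 0` and `N₀ = b.re * a.im - b.im * a.re`.  If `N₀ = 0`
replace
`b` by `b + √D a`: then `N₀` becomes `D (a.im)² - (a.re)² = -norm a ≠ 0`.  So let `N₀ ≠ 0`; let `j`
be the product of the primes `π ∣ N₀` which do not divide both `b.re` and `b.im`.  Claim:
`b + j a` is primitive: let a prime `π` divide `(b + j a).re` and `.im`; then `π ∣ N₀`.  If `π ∤ b`,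
then `π ∣ j`, so `π ∣ b`, contradiction.  If `π ∣ b`, then `π ∤ j`, so `π ∣ a`, and `π ∣ b`,
contradiction to `IsCoprime a b` (`π` is not a unit of `A`: norm `π²`). -/
def T_PR : Prop := ∀ (D : ℤ) [NS D] (a b : AA D), IsCoprime a b →
  ∃ t : AA D, IsCoprime (b + t * a).re (b + t * a).im

/-- RAT (from SA, PR): every class has a representative whose upper left entry is an integer.

PROOF.  By SA suppose `γ ∈ Gam (q^5)`.  Row `(a, b)`, `b = q² b'` with `q³ ∣ b'`.  Move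
`E12 (q² (1 + t))`: the second entry becomes `q² (b' + a + t a) = q² b₀`; `(a, b' + a)` is coprime
(`b' + a` and `a` generate: `(a, b)` coprime), choose `t` by PR such that `b₀` is primitive.  Write
`a = 1 + q^5 (x + y √D)`.  Because `b₀ = β₁ + β₂ √D` with `β₁, β₂` coprime there is
`t₀ = τ₁ + τ₂ √D` with `(t₀ b₀).im = τ₁ β₂ + τ₂ β₁ = - q² y`.  Move `E21 (q t₀)`: the first entry
becomes `a + q t₀ q² b₀ = a + q³ t₀ b₀`, its `im` is `q^5 y - q^5 y = 0`: an integer `m`, and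
`q³ ∣ m - 1`.  `IsCoprime m b₀` from the determinant. -/
def T_RAT : Prop := ∀ (D : ℤ) [NS D] (q : ℤ), 0 < q → ∀ γ ∈ (Gam q : Subgroup (GG D)),
  ∃ γ' ∈ (Gam q : Subgroup (GG D)), γ' * γ⁻¹ ∈ (UU q : Subgroup (GG D)) ∧
    ∃ (m : ℤ) (b : AA D), pa γ' = (m : KK D) ∧ pb γ' = ii D ((q : AA D) ^ 2 * b) ∧
      q ^ 3 ∣ m - 1 ∧ IsCoprime (m : AA D) b

/-- ADJ: change `b` modulo `m`.

PROOF.  If `ℓ ∣ m`, take `t₀ = 0`: `norm (b + t m) = norm b mod m`, and `norm b` is coprime to `m`.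
If `ℓ ∤ m` take an integer `k` with `k m = 1 mod ℓ`, `t₀ = k (1 - b)`: `b + t₀ m = 1 mod ℓ`.  In
both
cases `norm (b + (t₀ + ℓ T) m)` is not divisible by `ℓ`, for all `T ∈ A`.  Take `T` a large integer
if `s = 1` (the norm is `(..+ℓ T m)² - D (..)² > 0`), and `T = T' √D` with `T'` large if `s = -1`.
-/
def T_ADJ : Prop := ∀ (D : ℤ) [NS D] (m : ℤ) (b : AA D) (ℓ : ℕ) (s : ℤ), m ≠ 0 →
  IsCoprime (m : AA D) b → ℓ.Prime → (s = 1 ∨ s = -1) →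
  ∃ t : AA D, ¬ (ℓ : ℤ) ∣ (b + t * (m : AA D)).norm ∧ 0 < s * (b + t * (m : AA D)).norm

/-- DIR: Dirichlet's theorem.

PROOF.  `m` is coprime to `q` and `n`.  If `ℓ ∣ q`: take a prime `p = -m mod q³ |n|`; `p = -1 mod
q³`;
if `ℓ = 2`, `4 ∣ q` gives `p = 3 mod 4`, `(p-1)/2` odd; if `ℓ` is odd, `p - 1 = -2 mod ℓ`.  If
`ℓ ∤ q` then `ℓ ≥ 3`, `ℓ ∤ n`: take a prime `p = -m mod q³ |n|` and `p = -1 mod ℓ`
(`Nat.chineseRemainder`, `Nat.forall_exists_prime_gt_and_eq_mod` or similar). -/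
def T_DIR : Prop := ∀ (q m n : ℤ) (ℓ : ℕ), 0 < q → 4 ∣ q → q ^ 3 ∣ m - 1 → IsCoprime m n →
  n ≠ 0 → ℓ.Prime → ((ℓ : ℤ) ∣ q ∨ ¬ (ℓ : ℤ) ∣ n) →
  ∃ p : ℕ, p.Prime ∧ q ^ 3 * n ∣ (p : ℤ) + m ∧ ¬ ℓ ∣ (p - 1) / 2

/-- FROB: the Frobenius of `A/pA` is trivial.

PROOF.  `p = -1 mod 4D`.  `jacobiSym D p = 1`: by
`jacobiSym.mod_right` `J(D | p) = J(D | 4D - 1)` (`p mod 4D = 4D - 1`), and
`J(D | 4D-1) = J(4D | 4D-1) = J(1 | 4D-1) = 1` as `J(4 | .) = 1`.  So `D^((p-1)/2) = 1 mod p`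
(Euler).  In the ring `A/pA` of characteristic `p` (`add_pow_char`):
`x^p = (x₁ + x₂ √D)^p = x₁^p + x₂^p D^((p-1)/2) √D = x₁ + x₂ √D`. -/
def T_FROB : Prop := ∀ (D : ℤ) (p : ℕ), 0 < D → p.Prime → 4 * D ∣ (p : ℤ) + 1 →
  ∀ x : AA D, (p : AA D) ∣ x ^ p - x

/-- U0A (from RAT, ADJ, DIR, FROB): for every prime `ℓ` some power `n` of `diag(ε, ε⁻¹)`, `ℓ ∤ n`,
acts trivially on the class of `γ`.

PROOF.  By RAT replace `γ` by `γ'` of the same class with row `(m, q² b)` (if `γ' = u γ`, `u ∈ UU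
q`,
the claim for `γ'` gives the claim for `γ`: `h γ h⁻¹ γ⁻¹` and `h γ' h⁻¹ γ'⁻¹` differ by elements of
the normal subgroup `UU q`, which is also normalised by `h = HA ε ^ n ∈ Gam 1`).  `m ≠ 0` (`q ≥ 4`).
ADJ with `s = 1`: move `E12 (q² t)` changes the row to `(m, q² b')`, `b' = b + t m`, `ℓ ∤ norm b'`.
DIR with `n = norm b' ≠ 0` (coprime to `m`): `p` with `q³ norm b' ∣ p + m`, so
`-p = m + q³ norm b' j = m + (q star(b') j) (q² b')`: the move `E21` gives the row `(-p, q² b')`.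
Let `n = (p - 1)/2`, `u = ε^n`.  FROB: `ε^(p-1) = 1 mod p`, i.e. `u² - 1 = p w`.  `h = HA ε ^ n`:
`h γ h⁻¹` has the row `(-p, u² q² b') = (-p, q² b' + (-p) (q z))`, `z = - w q b'`: it has the same
row as `γ E12(q z)`.  Use `row`. -/
def T_U0A : Prop := ∀ (D : ℤ) [NS D] (q : ℤ), 0 < q → 4 * D ∣ q → ∀ (ε : (AA D)ˣ),
  ∀ γ ∈ (Gam q : Subgroup (GG D)), ∀ ℓ : ℕ, ℓ.Prime → ∃ n : ℕ, ¬ ℓ ∣ n ∧
    HA ε ^ n * γ * (HA ε ^ n)⁻¹ * γ⁻¹ ∈ (UU q : Subgroup (GG D))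

/-- U0 (from U0A): `diag(ε, ε⁻¹)` acts trivially on `C_q`.

PROOF.  The set of `n : ℤ` with `h^n γ h^(-n) γ⁻¹ ∈ UU q`, `h = HA ε`, is a subgroup of `ℤ` (`h`
normalises `UU q` and `Gam q`, as `h ∈ Gam 1`).  It is contained in no `ℓ ℤ`, so it is `ℤ`. -/
def T_U0 : Prop := ∀ (D : ℤ) [NS D] (q : ℤ), 0 < q → 4 * D ∣ q → ∀ (ε : (AA D)ˣ),
  ∀ γ ∈ (Gam q : Subgroup (GG D)), HA ε * γ * (HA ε)⁻¹ * γ⁻¹ ∈ (UU q : Subgroup (GG D))

/-- EPS: Pell.  `Pell.exists_of_not_isSquare`: `x² - D y² = 1`, `y ≠ 0`; `ε = x + y √D`;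
`(ε²).im = 2 x y ≠ 0`. -/
def T_EPS : Prop := ∀ (D : ℤ) [NS D], ∃ ε : (AA D)ˣ, (ε : AA D) ^ 2 ≠ 1

/-- PE (from U0, EPS): elementary matrices over `K` act trivially on the limit.

PROOF.  `h = HA ε`, `y = x/(ε² - 1)`: `E12 x = h E12(y) h⁻¹ E12(-y)` (`h E12(y) h⁻¹ = E12(ε² y)`).
Let `n > 0` be an integer with `n y ∈ A`, `q₂ = n² q`, `q₁ = n² q₂`.  For `γ ∈ Gam q₁`
`γ₁ = E12(-y) γ E12(y) ∈ Gam q₂` (entries `a - y c`, `b + y (a - d) - y² c`, `c`, `d + y c`).  By U0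
for `q₂` (and `h⁻¹`): `h⁻¹ γ₁ h = γ₁ u₁`, `u₁ ∈ UU q₂`.  `E12(y) (γ₁ u₁) E12(-y) = γ u₂`,
`u₂ = E12(y) u₁ E12(-y) ∈ UU q` by `UU_conj`, because `E12(y)` conjugates `Gam q₂` into `Gam q`.
`h (γ u₂) h⁻¹ = (h γ h⁻¹) (h u₂ h⁻¹) ∈ γ UU q` by U0 for `q`.  So `E12 x * γ * (E12 x)⁻¹ ∈ γ UU q`.
The same for `E21` (`E21 x = h⁻¹ E21(y) h E21(-y)`). -/
def T_PE : Prop := ∀ (D : ℤ) [NS D] (x : KK D), PP (E12 x) ∧ PP (E21 x)

/-- PG (from PE): all of `SL₂(K)` acts trivially on the limit.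

PROOF.  `PP g`, `PP g'` imply `PP (g g')`: for `q` take `q₁` from `g` and then `q₂` from `g'` at
`q₁` (`4D ∣ q ∣ q₁`): `g' γ g'⁻¹ = u γ`, `u ∈ UU q₁`, `γ ∈ Gam q₂ ≤ Gam q₁`, and
`g u γ g⁻¹ = (g u g⁻¹)(g γ g⁻¹)`, `g u g⁻¹ ∈ UU q` by `UU_conj`.  If `c = pc g ≠ 0` then
`g = E12((a-1)/c) E21(c) E12((d-1)/c)`; if `c = 0`, then `pc (g * E21 1) = d ≠ 0` and
`g = (g * E21 1) * E21(-1)`. -/
def T_PG : Prop := ∀ (D : ℤ) [NS D] (g : GG D), PP g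

/-- COM (from PG, SA): `Gam 1` acts trivially on `C_q`; in particular `C_q` is commutative.

PROOF.  `q₁` from `PP g` at `q`.  SA: `u γ = γ' ∈ Gam q₁`, `u ∈ UU q`.  `g γ' g⁻¹ γ'⁻¹ ∈ UU q`, and
`UU q` is normalised by `Gam 1`. -/
def T_COM : Prop := ∀ (D : ℤ) [NS D] (q : ℤ), 0 < q → 4 * D ∣ q →
  ∀ g ∈ (Gam 1 : Subgroup (GG D)), ∀ γ ∈ (Gam q : Subgroup (GG D)),
    g * γ * g⁻¹ * γ⁻¹ ∈ (UU q : Subgroup (GG D))

/-- THE (from PG, SR, COM): `diag(g, g⁻¹)` acts trivially on the classes with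
`a = 1 mod (q g)²`, `c = 0 mod q g²`.

PROOF.  Let `H = HH u`.  For `γ` in the subgroup `G' = {γ ∈ Gam q : pc γ ∈ q g² A}`
`H γ H⁻¹ = (a, g² b; c/g², d) ∈ Gam q`, and `θ γ = H γ H⁻¹ γ⁻¹ mod UU q` is a homomorphism to the
commutative group `C_q` (COM).  It kills: `Gam q₁` (`q₁` from `PP H` at `q`; `Gam q₁ ≤ G'` because
`H γ H⁻¹ ∈ Gam q`), `E12(q t)`, `E21(q g² t)`.  By SR (with `g := q g²`, `N := q₁`) and the move
`E21 (q g² t)` suppose `a ā = 1 mod q₁`; still `(q g)² ∣ a - 1`.  Let `s = (a - 1)/q ∈ q g² A`,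
`κ = E12(q) E21(s) = (a, q; s, 1)`, `θ κ = 0`.  `γ E12(-ā b)` and `κ E12(-ā q)` have the first row
`(a, 0)` modulo `q₁`, lower right entry `ā`, and their quotient is `(1, 0; z, 1)` modulo `q₁` with
`z ∈ q g² A`; so `γ` is a product of `κ`, elementary matrices killed by `θ` and an element of
`Gam q₁`. -/
def T_THE : Prop := ∀ (D : ℤ) [NS D] (q : ℤ), 0 < q → 4 * D ∣ q → ∀ g : AA D, g ≠ 0 →
  ∀ u : (KK D)ˣ, (u : KK D) = ii D g → ∀ γ ∈ (Gam q : Subgroup (GG D)), ∀ a c : AA D,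
    pa γ = ii D a → pc γ = ii D ((q : AA D) * g ^ 2 * c) → ((q : AA D) * g) ^ 2 ∣ a - 1 →
      HH u * γ * (HH u)⁻¹ * γ⁻¹ ∈ (UU q : Subgroup (GG D))

/-- SM (from THE, COM, EXG): `c(a, g² b) = c(a, b) + c(a, q g²)`.

PROOF.  `H = HH g`.  EXG: `γ, γ' ∈ Gam q` with rows `(a, b)`, `(a, q)` and lower left entries in
`q g² A`.  `γ γ'⁻¹` has the upper left entry `a d' - b c' = 1 mod (q g)²` (`a d' = 1 + q c'`,
`c' ∈ q g² A`, `b ∈ q A`) and lower left entry in `q g² A`.  THE: `H` acts trivially on `γ γ'⁻¹`.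
As
`C_q` is commutative: `[H γ H⁻¹] - [γ] = [H γ' H⁻¹] - [γ']`.  The rows are `(a, g² b)`, `(a, b)`,
`(a, g² q)`, `(a, q)`; so `[γ₃] - [γ₁] = [γ₂] - [γ']` (lemma `row`).  `[γ'] = 0`: `a = 1 + q x`,
`E21(x) γ' E21(-x) ∈ Gam q` has the row `(a - x q, q) = (1, q)`, the row of `E12 q`; COM with
`g = E21 x ∈ Gam 1`. -/
def T_SM : Prop := ∀ (D : ℤ) [NS D] (q : ℤ), 0 < q → 4 * D ∣ q → ∀ a b g : AA D,
  (q : AA D) ∣ a - 1 → (q : AA D) ∣ b → IsCoprime a b → IsCoprime a g → g ≠ 0 →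
  ∀ γ₁ ∈ (Gam q : Subgroup (GG D)), ∀ γ₂ ∈ (Gam q : Subgroup (GG D)),
  ∀ γ₃ ∈ (Gam q : Subgroup (GG D)), pa γ₁ = ii D a → pa γ₂ = ii D a → pa γ₃ = ii D a →
    pb γ₁ = ii D b → pb γ₂ = ii D ((q : AA D) * g ^ 2) → pb γ₃ = ii D (g ^ 2 * b) →
      γ₃ * (γ₁ * γ₂)⁻¹ ∈ (UU q : Subgroup (GG D))

/-- POW (from SM, COM, EXG, FROB): the power `(p-1)/2` of a square class.

PROOF.  The sign: `γ ↦ diag(1,-1) γ diag(1,-1) = (a, -b; -c, d)` is an automorphism which preserves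
`Gam q`, `UU q` (trace); so let `pb γ = q g²`.  `g ≠ 0` (else `p` is a unit of `A`; norm).  Let
`γ_j`
be an element of `Gam q` with row `(-p, q g^(2j))` (EXG).  SM with `b = q g^(2j)`:
`[γ_(j+1)] = [γ_j] + [γ_1]`; so `[γ_j] = j [γ_1] + [γ_0]`, `[γ_0] = 0` (row `(-p, q)`, as in SM).
`k = (p-1)/2`: `g^(2k) = g^(p-1) = 1 mod p` (FROB and `g` invertible mod `p`), so the row of `γ_k`
becomes `(-p, q)` by the move `E12 (q t)`: `[γ_k] = 0`.  `γ` has the row of `γ_1`. -/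
def T_POW : Prop := ∀ (D : ℤ) [NS D] (q : ℤ), 0 < q → 4 * D ∣ q → ∀ (p : ℕ) (g : AA D), p.Prime →
  q ∣ (p : ℤ) + 1 → IsCoprime (p : AA D) g → ∀ γ ∈ (Gam q : Subgroup (GG D)),
    pa γ = -(p : KK D) →
    (pb γ = ii D ((q : AA D) * g ^ 2) ∨ pb γ = -ii D ((q : AA D) * g ^ 2)) →
      γ ^ ((p - 1) / 2) ∈ (UU q : Subgroup (GG D))

/-- JA: the Jacobi symbol of a negative number changes when the sign of the modulus changes.

PROOF.  `|m'| = -|m| mod 4 n`.  `J(n | b) = J(-1 | b) J(-n | b)`.  `J(-1 | |m'|) = - J(-1 | |m|)`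
since `|m'| = -|m| mod 4` (`ZMod.χ₄`).  `J(-n | |m'|) = J(-n | |m|)` with `-n > 0`: this is `JB`
(take it as hypothesis `T_JB`). -/
def T_JA : Prop := ∀ m m' n : ℤ, n < 0 → Odd m → IsCoprime m n → 4 * n ∣ m - m' → m * m' < 0 →
  jacobiSym n m'.natAbs = -jacobiSym n m.natAbs

/-- JB: the Jacobi symbol `J(n | .)` of a positive `n` is an even function modulo `4 n`.

PROOF.  If `b = b' mod 4n`: `jacobiSym.mod_right`.  If `b = -b' mod 4n`: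
`J(n | b) J(n | b') = J(n | b b')`, `b b' = -b² mod 4n`; let `j = b + 1` (coprime to `b`),
`B = 4 n j² - b² > 0`, so `J(n | b b') = J(n | B)` (`mod_right`).  `4 n j² = b² mod B`, so
`1 = J(b² | B) = J(4 n j² | B) = J(n | B)` (`b`, `2`, `j` are coprime to `B`).
Here: `b = m.natAbs`, `b' = m'.natAbs`. -/
def T_JB : Prop := ∀ m m' n : ℤ, 0 < n → Odd m → IsCoprime m n →
  (4 * n ∣ m - m' ∨ 4 * n ∣ m + m') → jacobiSym n m'.natAbs = jacobiSym n m.natAbs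

/-- SGN (from RAT, ADJ, DIR, JA, JB): every class has a representative `(-p, q² b)` with
`J(norm b | p) = 1` and `ℓ ∤ (p-1)/2`.

PROOF.  RAT: row `(m, q² b)`, `q³ ∣ m - 1`, so `m` is odd, `m ≠ 0`.  Put
`χ = J(norm b | |m|) ∈ {1, -1}` (`norm b` coprime to `m`).
(i) We may suppose `χ = 1`.  If `χ = -1`: ADJ with `s = -1` (any `ℓ`), move `E12 (q² t)`:
`b₁ = b + t m`, `n = norm b₁ < 0`, `n = norm b mod m`, so still `χ = -1`.  Take `m' = m + q³ n j`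
with
an integer `j` such that `m m' < 0`; move `E21 (q star(b₁) j)` gives the row `(m', q² b₁)`
(`q star(b₁) j q² b₁ = q³ n j`); `q³ ∣ m' - 1`, `4 n ∣ m - m'`.  JA: `J(n | |m'|) = 1`.
(ii) `χ = 1`: ADJ with `s = 1` and the given `ℓ`, move `E12 (q² t)`: `n = norm b' > 0`, `ℓ ∤ n`,
`J(n | |m|) = 1`.  DIR: `p` with `q³ n ∣ p + m`, `ℓ ∤ (p-1)/2`; move `E21` gives the row
`(-p, q² b')`.  JB (`m' = p`, `4n ∣ m + p`): `J(n | p) = 1`.  `q³ ∣ p + 1`. -/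
def T_SGN : Prop := ∀ (D : ℤ) [NS D] (q : ℤ), 0 < q → 4 * D ∣ q →
  ∀ γ ∈ (Gam q : Subgroup (GG D)), ∀ ℓ : ℕ, ℓ.Prime →
  ∃ γ' ∈ (Gam q : Subgroup (GG D)), γ' * γ⁻¹ ∈ (UU q : Subgroup (GG D)) ∧
    ∃ (p : ℕ) (b : AA D), p.Prime ∧ q ^ 3 ∣ (p : ℤ) + 1 ∧ ¬ ℓ ∣ (p - 1) / 2 ∧
      pa γ' = -(p : KK D) ∧ pb γ' = ii D ((q : AA D) ^ 2 * b) ∧ IsCoprime (p : AA D) b ∧
      jacobiSym b.norm p = 1

/-- SQR (from FROB): an element whose norm is a square modulo `p` is plus or minus a square.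

PROOF.  `s = b^((p-1)/2)`.  Modulo `p`: `s² = b^(p-1) = 1` (FROB, `b` invertible), and
`s * star s = (norm b)^((p-1)/2) = J(norm b | p) = 1` (Euler), so `star s = s`,
`p ∣ (s - star s) = 2 s.im √D`, `p ∤ 2 D` (`p = -1 mod 4D`), so `p ∣ s.im`, `s = s.re`, `s.re² = 1`,
`s = 1` or `-1` mod `p`.  `p = 3 mod 4`; `g = b^((p+1)/4)`: `g² = b * s`. -/
def T_SQR : Prop := ∀ (D : ℤ) [NS D] (p : ℕ) (b : AA D), p.Prime → 4 * D ∣ (p : ℤ) + 1 →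
  IsCoprime (p : AA D) b → jacobiSym b.norm p = 1 →
  ∃ g : AA D, IsCoprime (p : AA D) g ∧ ((p : AA D) ∣ b - g ^ 2 ∨ (p : AA D) ∣ b + g ^ 2)

/-- THM (from SGN, SQR, POW): Theorem S.

PROOF.  `γ ∈ Gam q`; the `k : ℤ` with `γ^k ∈ UU q` form a subgroup of `ℤ`; show that it is contained
in no `ℓ ℤ`.  SGN: `γ' = u γ`, row `(-p, q² b) = (-p, q β)`, `β = q b`, `J(norm β | p) =
J(q² norm b | p) = 1`, `β` coprime to `p`.  SQR: `β = ± g² + p z`.  Move `E12 (q z)`: the row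
becomes `(-p, q β + (-p) q z) = (-p, ± q g²)`.  POW: `γ''^k ∈ UU q`, `k = (p-1)/2`, `ℓ ∤ k`; as
`γ''`
and `γ` have the same class and `UU q` is normal in `Gam q`, `γ^k ∈ UU q`. -/
def T_THM : Prop := ∀ (D : ℤ) [NS D] (q : ℤ), 0 < q → 4 * D ∣ q →
  (Gam q : Subgroup (GG D)) ≤ UU q

end K3S
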