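import Pool.Agent.K3S.Basic2

/-!
# MP_98be90_ag, part B: isometries of `U ⊕ N` and `SL₂(K)` (targets, helper19)

CONVENTIONS.  See `Basic2.lean` (read it first): `VV D`, `io`, `sqD`, `cc`, `qf`, `bb`, `act`,
`actg`, `s0`, subrings `Zr` (`ℤ`), `ZP p` (`ℤ_(p)`) of `ℚ`, modules `NN` (`𝔫 = ℤ al + ℤ θ'`,
`θ' = (be + √D)/2`), `OO` (the order `ℤ + ℤ θ'`), `LL` (the lattice `M`), `IL`, `RS`, `RG`, `US`,
`KT`, `DG`, `Pos`.
FACTS used everywhere (`D = be² - 4 al ga`): `al ≠ 0` (else `D` is a square);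
`θ'² = be θ' - al ga`, `star θ' = be - θ'`, so `OO` is a ring closed under `star`, `NN` is a module
over `OO`; `x * star y / al` is in `OO` for `x, y ∈ NN`
(`al x x' + x y' star θ' + x' y θ' + ga y y'`);
`norm (io x y) = al (al x² + be x y + ga y²)`, `io` is injective.

One job = one target `T_X`, proved as `theorem p_X (hypotheses = other targets of THIS file) : T_X`
in the NEW file `Pool/Agent/K3S/X.lean` (import this file), helper lemmas in the namespace `X_`.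
-/

set_option autoImplicit false
set_option linter.unusedSectionVars false

namespace K3S

open Matrix

/-- CMP: composition.  PROOF.  `h X h*` is an action: expand the three components (`re`, `im` of the
middle one) and use `ring`; if this is too slow embed `ℚ` in `K` (`norm z = z * star z`,
`2 re z = z + star z`) and use `ring` in `K`.  (Checked numerically.) -/
def T_CMP : Prop := ∀ (D : ℤ) (a b c d a' b' c' d' : KK D) (ρ ρ' : ℚ),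
  (act a b c d ρ).comp (act a' b' c' d' ρ') =
    act (a * a' + b * c') (a * b' + b * d') (c * a' + d * c') (c * b' + d * d') (ρ * ρ')

/-- NRM: `act` preserves the forms.  PROOF.  `qf = - det`, `det (h X h*) = norm (det h) det X`, and
`norm (cc ρ) = ρ²`; expand (`QuadraticAlgebra.norm_def`).  `bb` is the polar form of `qf / al`:
`al * bb v v' = qf (v + v') - qf v - qf v'` (also if `al = 0`: then `bb = 0`). -/
def T_NRM : Prop := ∀ (D : ℤ) (al : ℤ) (a b c d : KK D) (ρ : ℚ), ρ ≠ 0 →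
  a * d - b * c = cc D ρ → ∀ v v' : VV D, qf (act a b c d ρ v) = qf v ∧
    bb al (act a b c d ρ v) (act a b c d ρ v') = bb al v v'

/-- SO: the reflection `s0`.  PROOF.  Expand. -/
def T_SO : Prop := ∀ (D : ℤ) (al : ℤ), al ≠ 0 →
  (∀ v : VV D, s0 al (s0 al v) = v) ∧ (∀ v : VV D, qf (s0 al v) = qf v) ∧
  (∀ v v' : VV D, bb al (s0 al v) (s0 al v') = bb al v v') ∧
  ∀ (a b c d : KK D) (ρ : ℚ), (s0 al).comp (act a b c d ρ) =
    (act (star d) (-(cc D (1 / al)) * star c) (-(cc D al) * star b) (star a) ρ).comp (s0 al)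

/-- ELE: elementary matrices preserve the lattice and act trivially on `N*/N`.

PROOF.  `E12 x`: `(r, w, t) ↦ (r + 2 re (w * star x) + norm x * t, w + t x, t)`.  For `w = io ..`,
`al x = io ..`: `2 re (w star (al x)) = al (2 al x x' + be (..) + 2 ga y y')`, `t = al s`:
`norm x * al s = norm (al x) s / al`, `t x = s (al x)`.  On `ν`, `√D ν = io x y`,
`al x = io x' y'`: the change is `(2 re (ν star x), 0, 0)`, `2 re (ν star x) = x' y - x y'`.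
The same for `E21 c`: `(r, w, t) ↦ (r, w + r star c, t + 2 re (c w) + norm c r)`. -/
def T_ELE : Prop := ∀ (D : ℤ) [NS D] (al be ga : ℤ), D = be ^ 2 - 4 * al * ga → ∀ S : Subring ℚ,
  (∀ x : KK D, NN S al be ((al : KK D) * x) → IL S al be (act 1 x 0 1 1)) ∧
    ∀ c : KK D, NN S al be (star c) → IL S al be (act 1 0 c 1 1)

/-- LOZ: from `ℤ` to `ℤ_(p)`.  PROOF.  `φ` is `ℚ`-linear; for `v` in the lattice over `ZP p` there
is an integer `m` prime to `p` with `m v` in the lattice over `ℤ`; `φ v = m⁻¹ φ (m v)`. -/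
def T_LOZ : Prop := ∀ (D : ℤ) [NS D] (al be : ℤ) (p : ℕ) [Fact p.Prime]
  (φ : VV D →ₗ[ℚ] VV D), IL Zr al be φ → IL (ZP p) al be φ

/-- LIF: every isometry is a rotation `act` or a rotation times `s0`.

PROOF.  Write `E(x) = act 1 x 0 1 1`, `F(c) = act 1 0 c 1 1` (invertible isometries; CMP, NRM).
`φ (0,0,al) = (r, w, t) ≠ 0`, `norm w = r t`.  If `t = 0`: `w = 0`, `r ≠ 0`; compose `φ` with
`act 0 1 (-1) 0 1` (swaps the coordinates); so let `t ≠ 0`.  `E(-w/t)` maps `(r,w,t)` to `(0,0,t)`;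
so let `φ (0,0,al) = (0,0,t)`.  `φ (1,0,0) = (r₁, w₁, t₁)`: the polar form gives `r₁ t = al`;
compose with `F(-star(w₁)/r₁)`: `φ (1,0,0) = (r₁,0,0)`.  Then `φ (0,w,0) = (0, σ w, 0)` with
`σ : K → K` linear over `ℚ` preserving the norm (it is orthogonal to `(1,0,0)`, `(0,0,1)`).
`σ 1 = ε`, `norm ε = 1`, and `ε⁻¹ σ` preserves the norm and `1`, so it is the identity or `star`.
(i) `σ w = ε w`: `d = 1 + star ε` (if `ε ≠ -1`) or `d = √D` (if `ε = -1`) satisfies `star d = ε d`;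
`ρ = norm d * al / t`, `a = ρ/d`: `φ = act a 0 0 d ρ`.
(ii) `σ w = ε star w`: `c ≠ 0` with `star c = -ε c`, `ρ = -norm c / t`, `b = -ρ/c`:
`φ = (act 0 b c 0 ρ).comp (s0 al)`, because `act 0 b c 0 ρ (s0 (r,w,t)) =
(-norm b * al r/ρ, b star w star c/ρ, -norm c t/(al ρ))`.  Take CMP, NRM, SO as hypotheses. -/
def T_LIF : Prop := ∀ (D : ℤ) [NS D] (al be ga : ℤ), D = be ^ 2 - 4 * al * ga →
  ∀ φ : VV D →ₗ[ℚ] VV D, (∀ v, qf (φ v) = qf v) →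
  ∃ (a b c d : KK D) (ρ : ℚ), ρ ≠ 0 ∧ a * d - b * c = cc D ρ ∧
    (φ = act a b c d ρ ∨ φ = (act a b c d ρ).comp (s0 al))

/-- LOK (from CMP, ELE, NRM): if `p` divides the form then `norm d / ρ` is a unit at `p`.

PROOF.  `φ = act a b c d ρ`, `f = (0,0,al)`, `e = (1,0,0)`.  `φ f = (r, w, al s)` with
`s = norm d/ρ`, `r = al norm b/ρ`, `w = al b star d/ρ`; `φ e = (r', w', al s')`; all of `r, s, r',
s'`
are in `ZP p`, `w, w'` in `𝔫_p`.  `bb e f = -1` gives `2 re (w star w')/al - r s' - r' s = -1`; the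
first term is divisible by `p` (`p ∣ al, be, ga`).  Suppose `s` is not a unit: then `r` and `s'` are
units.  `c₁ = -star w / r` (`star c₁ ∈ 𝔫_p`) and `F = act 1 0 c₁ 1 1`: `F (φ f) = (r,0,0)`.
`F (φ e) = (r₁, w₁, al s₁)`, `bb = -1` gives `s₁ r = 1`.  `x = -w₁/(al s₁)`, `E = act 1 x 0 1 1`:
`E F φ e = (0, 0, al s₁)` (isotropic), `E F φ f = (r,0,0)`.  `ψ = E F φ` is `IL` (ELE) and equals
`act 0 b₂ c₂ 0 ρ` (CMP; `norm d₂ = 0`, `norm a₂ = 0`), `- b₂ c₂ = cc ρ`, so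
`ψ (0,ν,0) = (0, ε star ν, 0)`, `ε = b₂ star c₂/ρ`.  `IL` for `ν = n/√D` (`star √D = -√D`):
`ε star n + n ∈ √D 𝔫_p` for `n = al` and `n = θ'`.  From `n = al`: `(ε + 1)/√D = m₁/al`, `m₁ ∈ 𝔫_p`.
From `n = θ'`: `(ε + 1) star θ' + (θ' - star θ') ∈ √D 𝔫_p`, `θ' - star θ' = √D`:
`m₁ star θ'/al + 1 ∈ 𝔫_p`.  But `m₁ star θ'/al` and `𝔫_p` are in `ℤ_(p) p + ℤ_(p) θ'`
(`m₁ = al x + y θ'`: `x star θ' + ga y`; `p ∣ al, be, ga`), `1` is not. -/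
def T_LOK : Prop := ∀ (D : ℤ) [NS D] (al be ga : ℤ), D = be ^ 2 - 4 * al * ga →
  ∀ (p : ℕ) [Fact p.Prime], (p : ℤ) ∣ al → (p : ℤ) ∣ be → (p : ℤ) ∣ ga →
  ∀ (a b c d : KK D) (ρ : ℚ), ρ ≠ 0 → a * d - b * c = cc D ρ →
    IL (ZP p) al be (act a b c d ρ) → US (ZP p) (d.norm / ρ)

/-- LOA (from LOK): a lower elementary matrix makes `norm d / ρ` a unit at `p`.

PROOF.  Symbols of LOK.  For `c₁ = star (io x y)`: `norm (d + c₁ b)/ρ = s + (w, io x y) + r q(x,y)`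
where `(w, io x y) = 2 re (w star (io x y))/al` and `q(x,y) = al x² + be x y + ga y²`.
If `p ∣ al, be, ga`: `s` is a unit (LOK), `c₁ = 0`.  Otherwise: if `s` is a unit, `c₁ = 0`.  If `s`
is not a unit and `r` is a unit: `w = io x₀ y₀`, `r s = q(x₀,y₀)` (isotropic), so the number is
`q(x₀ + r x, y₀ + r y)/r`; choose `x, y ∈ ZP p` such that `(x₀ + r x, y₀ + r y)` is one of `(1,0)`,
`(0,1)`, `(1,1)` with `q` a unit (`al`, `ga`, `al + be + ga` are not all divisible by `p`).  If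
`s, r` are not units: `-1 = (w, w') - r s' - r' s` shows that `(w, w')` is a unit; take
`io x y = w'`. -/
def T_LOA : Prop := ∀ (D : ℤ) [NS D] (al be ga : ℤ), D = be ^ 2 - 4 * al * ga →
  ∀ (p : ℕ) [Fact p.Prime] (a b c d : KK D) (ρ : ℚ), ρ ≠ 0 → a * d - b * c = cc D ρ →
    IL (ZP p) al be (act a b c d ρ) →
    ∃ c₁ : KK D, NN (ZP p) al be (star c₁) ∧ US (ZP p) ((d + c₁ * b).norm / ρ)

/-- NUM: a lemma on numbers.

PROOF.  The `p`-adic valuation `v` of `n` is even: if `v > 0` and `p` is odd, `4 + D n` is a unit,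
`v(n) = 2 v(T)`.  `p = 2`: `D = be² mod 4`.  `D` even: `4 ∣ D`, `T` even, `(T/2)² = n (1 + D/4 n)`,
`v(n) = 2 v(T/2)` if `v > 0`.  `D` odd, `v ≥ 3`: `v(4 + D n) = 2`, so `v + 2` is even.  `v = 1` is
impossible: `n = 2 n'`, `T = 2 T'`, `T'² = n' (2 + D n') = 3 mod 4` (`D = 1 mod 4`, `n'` odd).
Let `m = p^(v/2)`: `n/m²` is a unit, `n/m = (n/m²) m`, `(T/m)² = (n/m²)(4 + D n)`, so
`T/m ∈ ZP p`; for `p = 2`: `(T/m)² - (be n/m)² = 4 n/m² + (D - be²)(n/m)² = 0 mod 4`, so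
`T/m = be n/m mod 2` (for odd `p` the last claim is clear). -/
def T_NUM : Prop := ∀ (p : ℕ) [Fact p.Prime] (D be : ℤ) (T n : ℚ), 4 ∣ D - be ^ 2 → T ∈ ZP p →
  n ∈ ZP p → n ≠ 0 → T ^ 2 = n * (4 + D * n) →
  ∃ m : ℚ, m ≠ 0 ∧ US (ZP p) (n / m ^ 2) ∧ n / m ∈ ZP p ∧ (T / m - n / m * be) / 2 ∈ ZP p

/-- LOD (from NUM): the diagonal case.

PROOF.  `ε = star d/d`: `act (ρ/d) 0 0 d ρ (0,ν,0) = (0, ε ν, 0)`.  `IL`: `(ε - 1) ν ∈ 𝔫_p` for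
`√D ν ∈ 𝔫_p`, so `z = (ε - 1)/√D` maps `𝔫_p` to itself; with `z al = io x₁ y₁`,
`z θ' = io x₂ y₂`: `T = z + star z = x₁ + y₂` and `n = norm z = x₁ y₂ - x₂ y₁` are in `ZP p`.
`norm ε = 1` gives `z - star z = √D n`, i.e. `z = (T + n √D)/2`, `T² = n (4 + D n)`.
If `z = 0`: `ε = 1`, `d` is rational, `λ = 1/d`, `λ² ρ = ρ/norm d` is a unit.  If `z ≠ 0`:
`ε = z/star z` (`star z * ε = z`), so `d = c₀ star z` with `c₀` rational (`d/star z` is invariant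
under `star`).  NUM gives `m`; `λ = 1/(c₀ m)`: `λ d = star z/m` is in `OO`
(`star z/m = (T/m - (n/m) √D)/2`), its norm `n/m²` is a unit, so its inverse `star/norm` is in `OO`;
`λ² ρ = norm (λ d)/(norm d/ρ)` is a unit. -/
def T_LOD : Prop := ∀ (D : ℤ) [NS D] (al be ga : ℤ), D = be ^ 2 - 4 * al * ga →
  ∀ (p : ℕ) [Fact p.Prime] (d : KK D) (ρ : ℚ), ρ ≠ 0 → d ≠ 0 → US (ZP p) (d.norm / ρ) →
    IL (ZP p) al be (act (cc D ρ * d⁻¹) 0 0 d ρ) →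
    ∃ l : ℚ, l ≠ 0 ∧ OO (ZP p) be (cc D l * d) ∧ OO (ZP p) be (cc D l * d)⁻¹ ∧
      US (ZP p) (l ^ 2 * ρ)

/-- LOB (from CMP, ELE, LOD): if `norm d/ρ` is a unit at `p`.

PROOF.  `s = norm d/ρ`, `φ (0,0,al) = (.., al b star d/ρ, al s)`: `al b/d = (al b star d/ρ)/s ∈
𝔫_p`.
`φ₁ = act 1 (-b/d) 0 1 1 ∘ φ = act (ρ/d) 0 c d ρ` is `IL`;
`φ₁ (1,0,0) = (1/s, star c/d, ..)`, so `star c/d ∈ 𝔫_p`; `c' = c d/ρ`:
`star c' = (star c/d) s ∈ 𝔫_p`; `φ₂ = act 1 0 (-c') 1 1 ∘ φ₁ = act (ρ/d) 0 0 d ρ` is `IL`.  LOD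
gives
`l`: `l d ∈ OO`, `l b = (b/d)(l d)`, `l c = c' (l² ρ) (l d)⁻¹`, `l a = (l² ρ)(l d)⁻¹ + (b/d)(l c)`
(`OO`, `NN` facts of the header over `ZP p`). -/
def T_LOB : Prop := ∀ (D : ℤ) [NS D] (al be ga : ℤ), D = be ^ 2 - 4 * al * ga →
  ∀ (p : ℕ) [Fact p.Prime] (a b c d : KK D) (ρ : ℚ), ρ ≠ 0 → a * d - b * c = cc D ρ →
    US (ZP p) (d.norm / ρ) → IL (ZP p) al be (act a b c d ρ) →
    ∃ l : ℚ, l ≠ 0 ∧ RS (ZP p) al be (cc D l * a) (cc D l * b) (cc D l * c) (cc D l * d) ∧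
      US (ZP p) (l ^ 2 * ρ)

/-- LOC (from LOA, LOB, CMP, ELE): the local integrality theorem.

PROOF.  LOA: `c₁`; `act 1 0 c₁ 1 1 ∘ φ = act a b (c + c₁ a) (d + c₁ b) ρ` is `IL`; LOB for it; then
`l c = l (c + c₁ a) - c₁ (l a)`, `l d = l (d + c₁ b) - c₁ (l b)` (`c₁ (l b) ∈ OO` because
`al (l b) ∈ 𝔫_p`, `star c₁ ∈ 𝔫_p`). -/
def T_LOC : Prop := ∀ (D : ℤ) [NS D] (al be ga : ℤ), D = be ^ 2 - 4 * al * ga →
  ∀ (p : ℕ) [Fact p.Prime] (a b c d : KK D) (ρ : ℚ), ρ ≠ 0 → a * d - b * c = cc D ρ →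
    IL (ZP p) al be (act a b c d ρ) →
    ∃ l : ℚ, l ≠ 0 ∧ RS (ZP p) al be (cc D l * a) (cc D l * b) (cc D l * c) (cc D l * d) ∧
      US (ZP p) (l ^ 2 * ρ)

/-- GLO (from LOC, LOZ): a rotation with positive spinor norm which preserves `M` and acts
trivially on the discriminant is given by an element of `SL₂` of the Clifford order.

PROOF.  For all `p`: `l² ρ` is a unit at `p`, so the `p`-adic valuation of `ρ > 0` is even; so
`ρ = μ²`.  `h = (a, b; c, d)/μ ∈ SL₂(K)`, `act a b c d ρ = actg h`.  LOC for `h` (`ρ = 1`): `l² `,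
so
`l`, is a unit at `p`, and the entries of `h` are in `RS (ZP p)` for all `p`; the coordinates
(`io` and `u + v θ'` are injective) are rational numbers in `ZP p` for all `p`, so integers. -/
def T_GLO : Prop := ∀ (D : ℤ) [NS D] (al be ga : ℤ), D = be ^ 2 - 4 * al * ga →
  ∀ (a b c d : KK D) (ρ : ℚ), 0 < ρ → a * d - b * c = cc D ρ → IL Zr al be (act a b c d ρ) →
    ∃ h : GG D, act a b c d ρ = actg h ∧ RG Zr al be h

/-- REP: binary forms modulo a prime.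

PROOF.  `p` odd, `p ∤ D`.  If `p ∣ al`: `p ∤ be`, `y = 1`, `be x = c - ga`.  If `p ∤ al`: solve
`u² - D v² = 4 al c mod p` (`FiniteField.exists_root_sum_quadratic` or a pigeonhole) and put
`y = v`, `2 al x + be y = u`. -/
def T_REP : Prop := ∀ (D al be ga c : ℤ) (p : ℕ), D = be ^ 2 - 4 * al * ga → p.Prime → p ≠ 2 →
  ¬ (p : ℤ) ∣ D → ∃ x y : ℤ, (p : ℤ) ∣ al * x ^ 2 + be * x * y + ga * y ^ 2 - c

/-- CPR: an element of `KT` makes the norm of `d` prime to `Q`.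

PROOF.  `h = (a,b;c,d) ∈ R` (over `ℤ`), `κ = E21 (star (io x y))`: `d₁ = d + star(io x y) b`,
`norm d₁ = s + (w, io x y) + r q(x,y)` with the integers `s = norm d`, `r = al norm b`, and
`w = al b star d ∈ 𝔫`, `r s = norm w/al` (formula of LOA with `ρ = 1`).  For every prime `p ∣ Q`
there are `x, y` modulo `p` with `p ∤` this number: (i) `p ∣ al, be, ga`: `(0,0)`, because
`a d - b c = 1` and `b c ∈ ℤ k + ℤ θ'`, .. : `norm a * norm d = norm (1 + b c) = 1 mod p` (`b c`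
is an
integral combination of `al, be, ga, θ'`, and `norm (1 + u + v θ') = (1+u)² + (1+u) v be + al ga v²`
is `1` modulo `p` if `p ∣ u, be, al`).  (ii) otherwise as in LOA: `p ∤ s`: `(0,0)`; `p ∣ s, p ∤ r`:
`q(x₀ + r x, y₀ + r y)/r`; `p ∣ s, r`: `-1 = (w, w') - r s' - r' s` with `w' = a star c`,
`r' = norm a`, `s' = norm c/al` (`NRM` for `bb e f`, or directly), `io x y = w'`.  Chinese
remainder theorem for the primes dividing `Q`.  (`d = 0` is allowed; `Q ≠ 0`.) -/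
def T_CPR : Prop := ∀ (D : ℤ) [NS D] (al be ga : ℤ), D = be ^ 2 - 4 * al * ga →
  ∀ Q : ℤ, Q ≠ 0 → ∀ h : GG D, RG Zr al be h → ∃ κ ∈ KT D al be, RG Zr al be (κ * h) ∧
    ∃ s : ℤ, (pd (κ * h)).norm = s ∧ IsCoprime s Q

/-- CDI: diagonal modulo `Q`.

PROOF.  `s = norm d`, `s s' = 1 mod Q`.  `B = b star d s'`: `al B ∈ 𝔫`; `h₁ = E12(-B) h` has
`pb h₁ = b - B d = b (1 - s s')`, so `al (pb h₁) ∈ Q 𝔫`, and lower row `(c, d)`; `C = c d`,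
`star C ∈ 𝔫`; `h₂ = E21(-C) h₁`: `pc h₂ = c - c d a₁ = - (pb h₁) c²` (`a₁ d = 1 + (pb h₁) c`), and
`(pb h₁) c ∈ Q OO`, so `star (pc h₂) ∈ Q 𝔫`.  `pb h₂ = pb h₁`.  `RG` is preserved by `KT`. -/
def T_CDI : Prop := ∀ (D : ℤ) [NS D] (al be ga : ℤ), D = be ^ 2 - 4 * al * ga →
  ∀ Q : ℤ, 0 < Q → ∀ h : GG D, RG Zr al be h →
  (∃ s : ℤ, (pd h).norm = s ∧ IsCoprime s Q) →
    ∃ κ ∈ KT D al be, RG Zr al be (κ * h) ∧ DG al be Q (κ * h)

/-- CIN (from REP): make the upper left entry `1` modulo `k`.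

PROOF.  `pa h = u + v θ'`, `θ' = (be + √D)/2`.  `a d = 1 + b c` and `b c ∈ Q OO`, so `norm a` is
prime to `Q`.  There is `j` with `m = u + k j` prime to `Q`: for a prime `p ∣ k` (`p ∣ Q`)
`norm a = u² + u v be + al ga v² = u² mod p`, so `p ∤ u`; for `p ∣ Q`, `p ∤ k` choose `j` modulo
`p`.
Take a prime `m' > |D| + 2`, `m' = m mod Q` (Dirichlet), and by REP `x, y` with
`al x² + be x y + ga y² = - Q'` mod `m'`, `Q' Q² = 1 mod m'`; so `q(Q x, Q y) = -1 mod m'`;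
`s' = (1 + q(Q x, Q y))/m'`, `s' m' = 1 mod Q`.  `H = (m', io(Qx,Qy)/al; star(io(Qx,Qy)), s')`,
`det H = m' s' - q(Qx,Qy) = 1`, `H ∈ KT`; `κ = H⁻¹ = (s', -io/al; -star io, m')`.
`pa (κ h) = s' a - (io/al) c = s' u + s' v θ' + Q (OO)`, and `s' u = s' (m - k j) = 1 mod k`
(`k ∣ Q`, `s' m = s' m' = 1 mod Q`); so `pa (κ h) = 1 + k u' + v' θ'`.
`al pb (κ h) = s' al b - io d ∈ Q 𝔫`, `star (pc (κ h)) = - io star a + m' star c ∈ Q 𝔫`. -/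
def T_CIN : Prop := ∀ (D : ℤ) [NS D] (al be ga k a₀ b₀ c₀ : ℤ), D = be ^ 2 - 4 * al * ga →
  0 < k → al = k * a₀ → be = k * b₀ → ga = k * c₀ →
  ∀ Q : ℤ, 0 < Q → k ∣ Q → ∀ h : GG D, RG Zr al be h → DG al be Q h →
    ∃ κ ∈ KT D al be, RG Zr al be (κ * h) ∧ DG al be Q (κ * h) ∧
      ∃ u v : ℤ, pa (κ * h) = ⟨1 + k * u + v * be / 2, v / 2⟩

/-- CON: the last step of the approximation.

PROOF.  Let `θ = θ'/k = (b₀ + √D/k)/2`: `θ² = b₀ θ - a₀ c₀`, `𝒪 = ℤ + ℤ θ` is a ring, `𝔫` is an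
`𝒪`-module (`θ al = a₀ θ'`, `θ θ' = b₀ θ' - c₀ al`), `star 𝒪 = 𝒪`, and `x star y/al ∈ k 𝒪` for
`x, y ∈ 𝔫`.  `pa h = a = 1 + k y'`, `y' = u + v θ ∈ 𝒪`.  Choose integers `x₀, y₀` with
`e₀ = a₀ x₀² + b₀ x₀ y₀ + c₀ y₀²` prime to `Q` (`gcd(a₀,b₀,c₀) = 1`: for each prime one of `(1,0)`,
`(0,1)`, `(1,1)`; Chinese remainder), `e₀ e₁ = 1 mod Q`.  `w₀ = io x₀ y₀`, `C = star w₀`,
`B = w₀ y' e₁/al`: `B C = norm w₀/al * y' e₁ = k e₀ e₁ y' = k y' + Q (k 𝒪)`.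
`κ₃ = E12(B) E21(C) = (1 + B C, B; C, 1)`.  `h₄ = κ₃⁻¹ h = (a₄, b₄; c₄, d₄)` with
`κ₃⁻¹ = (1, -B; -C, 1 + B C)`: `a₄ = a - B c`, `b₄ = b - B d`, `c₄ = -C a + (1 + B C) c`,
`d₄ = - C b + (1 + B C) d = 1 mod Q 𝒪` (`(1 + B C) = a mod Q 𝒪`, `a d = 1 + b c`,
`b c, B c, C b ∈ Q 𝒪`).  `h₅ = E12(-b₄) h₄`: `pb h₅ = b₄ (1 - d₄)`, so `al pb h₅ ∈ Q 𝔫`;
`pa h₅ = a₄ - b₄ c₄ = 1 - a₄ (d₄ - 1) = 1 mod Q 𝒪`.  `h₆ = E21(-c₄) h₅`:
`pc h₆ = c₄ (1 - pa h₅)`, `pd h₆ = d₄ - c₄ pb h₅ = 1 mod Q 𝒪`.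
Finally `2 k al q ∣ Q`: `𝔫 ⊆ (1/2) A`, `𝒪 ⊆ (1/(2k)) A`, so `h₆ ∈ Gam q`. -/
def T_CON : Prop := ∀ (D : ℤ) [NS D] (al be ga k a₀ b₀ c₀ : ℤ), D = be ^ 2 - 4 * al * ga →
  0 < k → al = k * a₀ → be = k * b₀ → ga = k * c₀ →
  (∀ p : ℤ, Prime p → ¬ (p ∣ a₀ ∧ p ∣ b₀ ∧ p ∣ c₀)) →
  ∀ q Q : ℤ, 0 < q → 0 < Q → 2 * k * al * q ∣ Q → ∀ h : GG D, RG Zr al be h → DG al be Q h →
    (∃ u v : ℤ, pa h = ⟨1 + k * u + v * be / 2, v / 2⟩) →
    ∃ κ ∈ KT D al be, κ * h ∈ (Gam q : Subgroup (GG D))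

/-- DEC (from CPR, CDI, CIN, CON): every element of `SL₂` of the Clifford order is a product of an
element of `KT` and an element of `Gam q`.

PROOF.  `k = gcd(al, be, ga) > 0`, `Q = 2 k |al| q`.  CPR, CDI, CIN, CON one after the other. -/
def T_DEC : Prop := ∀ (D : ℤ) [NS D] (al be ga : ℤ), D = be ^ 2 - 4 * al * ga →
  ∀ q : ℤ, 0 < q → ∀ h : GG D, RG Zr al be h →
    ∃ κ ∈ KT D al be, κ * h ∈ (Gam q : Subgroup (GG D))

/-- UNI: a unipotent element of a deep congruence group is an integral Eichler transvection.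

PROOF.  `u = 1 + (p₁, p₂; p₃, -p₁)`, `p₁² + p₂ p₃ = 0`, all `pᵢ ∈ q A`.
Case `p₂ = 0`: `p₁ = 0`, `z = (0,0,al)`, `w = (0, -star p₃, 0)`; the formula is the one for
`E21 p₃`: `(r,w,t) ↦ (r, w + r star p₃, t + 2 re(p₃ w) + norm p₃ r)`; `al A ⊆ 𝔫`.
Case `p₂ ≠ 0`: the formula holds with `z₁ = (1, -star(p₁/p₂), norm(p₁/p₂))`,
`w₁ = (0, -al p₂, 2 al re p₁)` (checked numerically; expand and use `p₃ = -p₁²/p₂`), `w₁ ∈ M`.
`qf z₁ = 0`, `bb z₁ w₁ = 0`.  Let `c ≠ 0` be rational such that `z₀ = c z₁ ∈ M` is primitive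
(its four integral coordinates have gcd `1`).  The formula for `(z₁, w₁)` is the one for
`(z₀, w₁/c)`, and `w₁/c` may be changed by a multiple of `z₀`.  `{bb z₀ X : X ∈ M} = d₀ ℤ`, and
`d₀ ∣ D` up to sign: `z₀/d₀` is in `M*`, `D M* ⊆ M` (`N* = 𝔫/√D`, `D/√D = √D`, `√D 𝔫 ⊆ 𝔫`), `z₀`
primitive.  Take `X ∈ M` with `bb z₀ X = d₀`: `u X - X = d₀ (w₁/c) + (multiple of z₀)`, and
`u X - X ∈ D M`: `X` has entries in `(1/2) A`, so `u X - X` has entries in `(q/2) A`, and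
`2 al D ∣ q/2`, `al A ⊆ 𝔫`.  So `w₁/c ∈ (D/d₀) M + ℚ z₀`, `w₁/c = w₀ + (multiple of z₀)`, `w₀ ∈ M`.
(If you find a simpler way to get integral `z, w`: only the statement matters.) -/
def T_UNI : Prop := ∀ (D : ℤ) [NS D] (al be ga : ℤ), D = be ^ 2 - 4 * al * ga →
  ∀ q : ℤ, 0 < q → 4 * al * D ∣ q → ∀ u ∈ (Gam q : Subgroup (GG D)), pa u + pd u = 2 →
  ∃ z w : VV D, LL Zr al be z ∧ LL Zr al be w ∧ qf z = 0 ∧ bb al z w = 0 ∧
    ∀ v : VV D, actg u v = v + bb al z v • w - bb al w v • z - (bb al w w / 2 * bb al z v) • z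

/-- ORI: the orientation of the positive planes.

PROOF.  The number is `(1/(al ρ)) * 2 re (norm η (a² + d²) + al (b star η)² + (c η)²/al)`
(checked numerically; expand, use `a d - b c = cc ρ` and its `star`).  `norm η/al > 0`, and
`2 re (z²) = 2 (z.re² + D z.im²) ≥ 0`, positive for `z ≠ 0`; not all entries vanish.  So the number
is a positive number divided by `ρ`.  For `s0`: `s0 (1,0,-al) = (1,0,-al)`, `s0 (0,η,0) =
(0,η,0)`. -/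
def T_ORI : Prop := ∀ (D : ℤ) [NS D] (al : ℤ) (a b c d η : KK D) (ρ : ℚ), al ≠ 0 → ρ ≠ 0 →
  a * d - b * c = cc D ρ → 0 < η.norm / al → ∀ φ : VV D →ₗ[ℚ] VV D,
  (φ = act a b c d ρ ∨ φ = (act a b c d ρ).comp (s0 al)) →
  (0 < bb al (φ (1, 0, -al)) (1, 0, -al) * bb al (φ (0, η, 0)) (0, η, 0) -
      bb al (φ (1, 0, -al)) (0, η, 0) * bb al (φ (0, η, 0)) (1, 0, -al) ↔ 0 < ρ)

/-- PGR (from CMP, SO): `Pos` is a group, squares are in `Pos`.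

PROOF.  Products: CMP, and `s0 ∘ act .. = act .. ∘ s0` (SO; the determinant of the new matrix is
`star (a d - b c) = cc ρ`), `s0 ∘ s0 = 1`.  Inverses: the adjugate `(d, -b; -c, a)` with the same
`ρ`:
`act .. ∘ act .. = act (cc ρ) 0 0 (cc ρ) (ρ²) = 1`.  Squares: if `ψ = act a b c d ρ ∘ s0^j` with
`ρ ≠ 0`, then `ψ ∘ ψ = act (..) (ρ²)`, `ρ² > 0`. -/
def T_PGR : Prop := ∀ (D : ℤ) [NS D] (al : ℤ), al ≠ 0 →
  (∀ φ ψ : VV D →ₗ[ℚ] VV D, Pos al φ → Pos al ψ → Pos al (φ.comp ψ)) ∧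
  (∀ φ : VV D →ₗ[ℚ] VV D, Pos al φ → ∃ ψ : VV D →ₗ[ℚ] VV D, Pos al ψ ∧ ψ.comp φ = LinearMap.id ∧
    φ.comp ψ = LinearMap.id) ∧
  Pos al (LinearMap.id : VV D →ₗ[ℚ] VV D) ∧ Pos al (s0 al : VV D →ₗ[ℚ] VV D) ∧
  ∀ (a b c d : KK D) (ρ : ℚ) (ψ : VV D →ₗ[ℚ] VV D), ρ ≠ 0 → a * d - b * c = cc D ρ →
    (ψ = act a b c d ρ ∨ ψ = (act a b c d ρ).comp (s0 al)) → Pos al (ψ.comp ψ)

end K3S
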