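import Pool.Agent.K3S.Basic3

/-!
# MP_98be90_ag, part C: from `VV D` to the lattice `Λ` (targets, helper19)

CONVENTIONS.  See `Basic3.lean`, `Basic2.lean` (read them first).  `S : Sit B e f F G x₀ y₀ ..`
always.  BASIC FACTS (`Pool/Agent/K3Ell/Lattice.lean` proves the analogous facts for another form
and can be copied): `InM` is the same as membership in the span of `e, f, F, G`; `z ∈ Λ` is in `M`
as soon as `B z t = 0` for all `t ∈ T` (`T` = common kernel of `B e, B f, B F, B G`): for `z ∈ Λ`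
let
`z' = z - ((-B f z) e + (B x₀ z) F + (B y₀ z) G + (-B e z) f)` (orthogonal to `e, f, x₀, y₀`); for
all
`v ∈ Λ` the vector `t = v - (-B f v) e - (-B e v) f - (B F v) x₀ - (B G v) y₀` is in `T` up to ..,
precisely `t` is orthogonal to `e, f, F, G`, so `B z t = 0` and then `B z' v = 0`; nondegeneracy
gives `z' = 0`.  If `g` is `Good`, then `g z - z ∈ M` for all `z ∈ Λ`, and `g M ⊆ M`.
For `v, v' ∈ M`: `bb al (crd v) (crd v') = B v v'` (`al ≠ 0`), `crd e = (1,0,0)`,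
`crd f = (0,0,al)`, `crd F = (0, al, 0)`, `crd G = (0, (be+√D)/2, 0)`; `crd` is additive.

One job = one target `T_X`, proved as `theorem p_X (hypotheses = other targets) : T_X`
in the NEW file `Pool/Agent/K3S/X.lean` (import this file), helper lemmas in the namespace `X_`.
-/

set_option autoImplicit false
set_option linter.unusedSectionVars false

namespace K3S

open Matrix

/-- GD: a `Good` isometry gives an isometry of `VV D` with `IL`.

PROOF.  `g M ⊆ M`.  `φ (r, w, t) = r • crd (g e) + x • crd (g F) + y • crd (g G) + (t/al) • crd (g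
f)`,
`y = 2 w.im`, `x = (w.re - be w.im)/al` (the coordinates of `w = io x y`).  `φ` agrees with `g` on
`M`, preserves `bb`, so `qf` (`al * bb v v = 2 qf v`).  `IL`: the first half is clear.  Let
`√D ν = io x y`, `x, y ∈ ℤ`; `z = y x₀ - x y₀ ∈ Λ`.  Then `φ (0,ν,0) - (0,ν,0) = crd (g z - z)`, and
`g z - z ∈ M`.  Proof: `m = y (-2 ga F + be G) - x (be F - 2 al G) ∈ M` has `crd m = (0, D ν, 0)`
(`√D (-2 ga al + be θ') = D θ'`, `√D (be al - 2 al θ') = - D al`, `θ' = (be + √D)/2`), and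
`D z - m ∈ T`, so `g (D z - m) = D z - m`, `D (g z - z) = g m - m`. -/
def T_GD : Prop := ∀ (D : ℤ) [NS D] (al be ga : ℤ), D = be ^ 2 - 4 * al * ga →
  ∀ (Λ : Type) [AddCommGroup Λ] (B : LinearMap.BilinForm ℤ Λ) (e f F G x₀ y₀ : Λ),
  Sit B e f F G x₀ y₀ al be ga → ∀ g : Λ ≃ₗ[ℤ] Λ, Good B e f F G g →
  ∃ φ : VV D →ₗ[ℚ] VV D, Re D al be B e f F G x₀ y₀ g φ ∧ (∀ v, qf (φ v) = qf v) ∧
    IL Zr al be φ

/-- RT: integral Eichler transvections are realised.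

PROOF.  `z = crd z'`, `w = crd w'` with `z', w' ∈ M`; `B z' z' = 0`, `B z' w' = 0`,
`B w' w' = 2 m` (`M` is even).  `k x = x + B z' x • w' - B w' x • z' - (m B z' x) • z'`; the inverse
is the same with `-w'`.  It is `Good`, a transvection, and acts on `M` by the formula. -/
def T_RT : Prop := ∀ (D : ℤ) [NS D] (al be ga : ℤ), D = be ^ 2 - 4 * al * ga →
  ∀ (Λ : Type) [AddCommGroup Λ] (B : LinearMap.BilinForm ℤ Λ) (e f F G x₀ y₀ : Λ),
  Sit B e f F G x₀ y₀ al be ga → ∀ z w : VV D, LL Zr al be z → LL Zr al be w → qf z = 0 →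
  bb al z w = 0 → ∀ φ : VV D →ₗ[ℚ] VV D,
  (∀ v, φ v = v + bb al z v • w - bb al w v • z - (bb al w w / 2 * bb al z v) • z) →
  ∃ k ∈ KL B e f F G, Re D al be B e f F G x₀ y₀ k φ

/-- RR: the matrix of a symmetric element of `KT` is a product of two reflections; `s0` is the
reflection in `e + f`.

PROOF.  `δ = m e + x F + y G + s f ∈ M`: `B δ δ = 2 (q(x,y) - m s) = -2` (from `det H = 1`).
`s_δ (v) = v + B v δ • δ`, and `s_δ ∘ s_{e+f}` acts on `M` as `actg H` (checked numerically):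
`bb al (s0 v) δ' • δ' + s0 v = actg H v` for `δ' = crd δ`. -/
def T_RR : Prop := ∀ (D : ℤ) [NS D] (al be ga : ℤ), D = be ^ 2 - 4 * al * ga →
  ∀ (Λ : Type) [AddCommGroup Λ] (B : LinearMap.BilinForm ℤ Λ) (e f F G x₀ y₀ : Λ),
  Sit B e f F G x₀ y₀ al be ga →
  (∃ k ∈ KL B e f F G, Re D al be B e f F G x₀ y₀ k (s0 al)) ∧
  ∀ (H : GG D) (m s x y : ℤ), pa H = (m : KK D) → (al : KK D) * pb H = io D al be x y →
    star (pc H) = io D al be x y → pd H = (s : KK D) →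
    ∃ k ∈ KL B e f F G, Re D al be B e f F G x₀ y₀ k (actg H)

/-- REK (from RT, RR, CMP): every element of `KT` is realised.

PROOF.  The `g : GG D` such that `∃ k ∈ KL, Re k (actg g)` form a subgroup (`actg (g g') =
actg g ∘ actg g'` by CMP; inverse: `k⁻¹`, `k⁻¹ M ⊆ M` because `k⁻¹` is `Good`).
`E12 x`, `al x ∈ 𝔫`: RT with `z = (1,0,0)`, `w = (0, -al x, 0)`; `E21 c`: `z = (0,0,al)`,
`w = (0, -star c, 0)` (formulas checked numerically). -/
def T_REK : Prop := ∀ (D : ℤ) [NS D] (al be ga : ℤ), D = be ^ 2 - 4 * al * ga →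
  ∀ (Λ : Type) [AddCommGroup Λ] (B : LinearMap.BilinForm ℤ Λ) (e f F G x₀ y₀ : Λ),
  Sit B e f F G x₀ y₀ al be ga → ∀ κ ∈ KT D al be,
    ∃ k ∈ KL B e f F G, Re D al be B e f F G x₀ y₀ k (actg κ)

/-- REU (from UNI, RT, CMP): every element of `UU q` is realised, `q` deep. -/
def T_REU : Prop := ∀ (D : ℤ) [NS D] (al be ga : ℤ), D = be ^ 2 - 4 * al * ga →
  ∀ (Λ : Type) [AddCommGroup Λ] (B : LinearMap.BilinForm ℤ Λ) (e f F G x₀ y₀ : Λ),
  Sit B e f F G x₀ y₀ al be ga → ∀ q : ℤ, 0 < q → 4 * al * D ∣ q →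
  ∀ u ∈ (UU q : Subgroup (GG D)),
    ∃ k ∈ KL B e f F G, Re D al be B e f F G x₀ y₀ k (actg u)

/-- UNQ: a `Good` isometry is determined by its action on `M`.

PROOF.  `g = k` on `M` (`crd` is injective on `M`) and on `T`; for `z ∈ Λ` there is `m ∈ M` with
`D z - m ∈ T` (see GD, plus the `e, f` part), so `D (g z - k z) = 0`, `g z = k z` (`B` is
nondegenerate with values in `ℤ`, so `Λ` has no torsion). -/
def T_UNQ : Prop := ∀ (D : ℤ) [NS D] (al be ga : ℤ), D = be ^ 2 - 4 * al * ga →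
  ∀ (Λ : Type) [AddCommGroup Λ] (B : LinearMap.BilinForm ℤ Λ) (e f F G x₀ y₀ : Λ),
  Sit B e f F G x₀ y₀ al be ga → ∀ (g k : Λ ≃ₗ[ℤ] Λ) (φ : VV D →ₗ[ℚ] VV D),
  Re D al be B e f F G x₀ y₀ g φ → Re D al be B e f F G x₀ y₀ k φ → g = k

/-- ROT (from GLO, DEC, THM, REK, REU, CMP, UNQ): rotations with positive spinor norm.

PROOF.  GLO: `φ = actg h`, `RG Zr h`.  `q = 4 D |4 al| ..` a positive multiple of `4 D` and of
`4 al D`.  DEC: `κ h = u ∈ Gam q`; THM: `u ∈ UU q`; `h = κ⁻¹ u`.  REK, REU: `k₁, k₂ ∈ KL` realise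
`κ⁻¹, u`, so `k₁ k₂` realises `actg h = φ` (CMP), and `g = k₁ k₂` by UNQ. -/
def T_ROT : Prop := ∀ (D : ℤ) [NS D] (al be ga : ℤ), D = be ^ 2 - 4 * al * ga →
  ∀ (Λ : Type) [AddCommGroup Λ] (B : LinearMap.BilinForm ℤ Λ) (e f F G x₀ y₀ : Λ),
  Sit B e f F G x₀ y₀ al be ga → ∀ (g : Λ ≃ₗ[ℤ] Λ) (a b c d : KK D) (ρ : ℚ), 0 < ρ →
  a * d - b * c = cc D ρ → IL Zr al be (act a b c d ρ) →
  Re D al be B e f F G x₀ y₀ g (act a b c d ρ) → g ∈ KL B e f F G

/-- ORF (from ORI): the orientation condition is the positivity of `ρ`.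

PROOF.  `h = x F + y G`, `η = io x y`: `η.norm/al = al x² + be x y + ga y² = B h h/2 > 0`;
`crd (e - f) = (1, 0, -al)`, `crd h = (0, η, 0)`; `bb al (crd v) (crd v') = B v v'` on `M`. -/
def T_ORF : Prop := ∀ (D : ℤ) [NS D] (al be ga : ℤ), D = be ^ 2 - 4 * al * ga →
  ∀ (Λ : Type) [AddCommGroup Λ] (B : LinearMap.BilinForm ℤ Λ) (e f F G x₀ y₀ : Λ),
  Sit B e f F G x₀ y₀ al be ga → ∀ h ∈ Submodule.span ℤ {F, G}, 0 < B h h →
  ∀ (g : Λ ≃ₗ[ℤ] Λ) (φ : VV D →ₗ[ℚ] VV D) (a b c d : KK D) (ρ : ℚ), ρ ≠ 0 →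
  a * d - b * c = cc D ρ → (φ = act a b c d ρ ∨ φ = (act a b c d ρ).comp (s0 al)) →
  Re D al be B e f F G x₀ y₀ g φ → (Orp B e f h g ↔ 0 < ρ)

/-- FWD (from GD, LIF, ORF, ROT, RR, ELE, SO): orientation preserving implies `g ∈ KL`.

PROOF.  GD: `φ`; LIF: `φ = act a b c d ρ` or `act a b c d ρ ∘ s0`; ORF: `0 < ρ`.  First case: ROT.
Second case: `k₀ ∈ KL` realises `s0` (RR); `g k₀` has the map `φ ∘ s0 = act a b c d ρ` (SO), which
is
`IL` (`s0` is: `s0 (0,ν,0) = (0,ν,0)`, `s0` preserves the lattice); ROT for `g k₀`. -/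
def T_FWD : Prop := ∀ (D : ℤ) [NS D] (al be ga : ℤ), D = be ^ 2 - 4 * al * ga →
  ∀ (Λ : Type) [AddCommGroup Λ] (B : LinearMap.BilinForm ℤ Λ) (e f F G x₀ y₀ : Λ),
  Sit B e f F G x₀ y₀ al be ga → ∀ h ∈ Submodule.span ℤ {F, G}, 0 < B h h →
  ∀ g : Λ ≃ₗ[ℤ] Λ, Good B e f F G g → Orp B e f h g → g ∈ KL B e f F G

/-- GEN (from LIF, PGR): the generators have positive spinor norm.

PROOF.  Reflection in `δ = m e + x F + y G + s f`: it acts on `M` as `actg H ∘ s0`, with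
`H = (m, io/al; star io, s)` (see RR), `det H = 1`: `Pos`.  Transvection `(z, w)`: let
`ψ v = v + bb z v • w₂ - bb w₂ v • z - (bb w₂ w₂/2 * bb z v) • z`, `w₂ = w/2` (rational
coordinates); `ψ` preserves `qf`, `ψ ∘ ψ` is the map of the transvection; LIF for `ψ`, last part of
PGR.  `Good` is clear. -/
def T_GEN : Prop := ∀ (D : ℤ) [NS D] (al be ga : ℤ), D = be ^ 2 - 4 * al * ga →
  ∀ (Λ : Type) [AddCommGroup Λ] (B : LinearMap.BilinForm ℤ Λ) (e f F G x₀ y₀ : Λ),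
  Sit B e f F G x₀ y₀ al be ga → ∀ g : Λ ≃ₗ[ℤ] Λ, (IsRf B e f F G g ∨ IsTv B e f F G g) →
  ∃ φ : VV D →ₗ[ℚ] VV D, Pos al φ ∧ Re D al be B e f F G x₀ y₀ g φ

/-- BWD (from GEN, PGR, ORF): the elements of `KL` are `Good` and preserve the orientation.

PROOF.  `Subgroup.closure_induction` for `∃ φ, Pos al φ ∧ Re g φ` (PGR; for the inverse use that
`g⁻¹` is `Good`, so `g⁻¹ M ⊆ M`).  Then ORF. -/
def T_BWD : Prop := ∀ (D : ℤ) [NS D] (al be ga : ℤ), D = be ^ 2 - 4 * al * ga →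
  ∀ (Λ : Type) [AddCommGroup Λ] (B : LinearMap.BilinForm ℤ Λ) (e f F G x₀ y₀ : Λ),
  Sit B e f F G x₀ y₀ al be ga → ∀ h ∈ Submodule.span ℤ {F, G}, 0 < B h h →
  ∀ g ∈ KL B e f F G, Good B e f F G g ∧ Orp B e f h g

end K3S
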